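import Pool.Agent.U422.DenseDich

/-!
# Transfer from tables of abelian groups to linear relations
-/

set_option autoImplicit false

namespace Pool.Agent.U422.Dense

open Finset Pool.Agent.U422.Kak Pool.Agent.U422.Taylor Pool.Agent.U422.Tame Pool.Agent.U422.TLat
  Pool.Agent.R181.LW

/-- `B` is the table of the abelian group `G`, with the rows, columns and symbols named by the
elements of `G` by the maps `f 0`, `f 1`, `f 2` -/
def AbTable {X : Fin 3 → Type} (G : Type) [AddCommGroup G] (B : Set (∀ i, X i))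
    (f : ∀ i, X i → G) : Prop :=
  (∀ x ∈ B, f 0 (x 0) + f 1 (x 1) = f 2 (x 2)) ∧
    (∀ i, ∀ x ∈ B, ∀ y ∈ B, f i (x i) = f i (y i) → x i = y i) ∧
    ∀ u v : G, ∃ x ∈ B, f 0 (x 0) = u ∧ f 1 (x 1) = v

theorem latin_table {X : Fin 3 → Type} [∀ i, DecidableEq (X i)] (B : Finset (∀ i, X i)) (k : ℕ)
    (t : ∀ i, (Fin k → X i) → X i) (hk : 2 ≤ k) (ht : ∀ i, IsWNU (t i))
    (hlin : Lin (B : Set (∀ i, X i))) (hcl : Cl (B : Set (∀ i, X i)) t)
    (hne : B.Nonempty) (hlat : Latin B) :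
    ∃ (G : Type) (_ : AddCommGroup G) (_ : Fintype G) (f : ∀ i, X i → G),
      AbTable G (B : Set (∀ i, X i)) f ∧ ∀ i, #(B.image fun x => x i) = Fintype.card G := by
  classical
  obtain ⟨c₀, hc₀⟩ := hne
  have hjoin : ∀ i, joinE B i = ⊤ := latin_iff hlat
  have hC := cen_of_joinE hk ht hlin hcl hjoin
  obtain ⟨p, hp, hpc, hcp⟩ := exists_plus hk (opE_wnu hcl ht) (opE_pres hcl) hC ⟨c₀, hc₀⟩
  obtain ⟨G, iG, f, g, hf, hg, hfg, hsurj⟩ := exists_group (θ := kerE B)
    (fun i j hij x y h1 h2 => kerE_bot hlin i j hij ⟨h1, h2⟩)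
    (fun i j hij x z => perm_of_joinE hk ht hlin hcl hjoin i j hij x z) ⟨c₀, hc₀⟩ p hp hpc hcp
  have hfs : Function.Surjective f := fun u => by
    obtain ⟨x, hx, -⟩ := hsurj u 0
    exact ⟨x, hx⟩
  have hgs : Function.Surjective g := fun u => by
    obtain ⟨x, -, hx⟩ := hsurj 0 u
    exact ⟨x, hx⟩
  have hss : Function.Surjective fun x => f x + g x := fun u => by
    obtain ⟨x, hx, hx'⟩ := hsurj u 0
    exact ⟨x, by simp only [hx, hx', add_zero]⟩
  have : Finite G := Finite.of_surjective f hfs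
  let _ : Fintype G := Fintype.ofFinite G
  let q : Fin 3 → {x // x ∈ B} → G := ![f, g, fun x => f x + g x]
  have hq : ∀ i (x y : {x // x ∈ B}), x.1 i = y.1 i ↔ q i x = q i y := by
    intro i x y
    fin_cases i
    · exact hf x y
    · exact hg x y
    · exact hfg x y
  have hqs : ∀ i, Function.Surjective (q i) := by
    intro i
    fin_cases i
    · exact hfs
    · exact hgs
    · exact hss
  have himg : ∀ i, #(B.image fun x => x i) = Fintype.card G := by
    intro i
    have h1 : B.image (fun x => x i) = (univ : Finset {x // x ∈ B}).image fun x => x.1 i := by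
      ext u
      rw [mem_image, mem_image]
      constructor
      · rintro ⟨x, hx, rfl⟩
        exact ⟨⟨x, hx⟩, mem_univ _, rfl⟩
      · rintro ⟨x, -, rfl⟩
        exact ⟨x.1, x.2, rfl⟩
    rw [h1]
    apply le_antisymm
    · exact (card_image_le_of_factor univ (q i) _ fun x _ y _ h => (hq i x y).2 h).trans
        (card_le_univ _)
    · have h2 : Fintype.card G = #((univ : Finset {x // x ∈ B}).image (q i)) := by
        rw [image_univ_of_surjective (hqs i), card_univ]
      rw [h2]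
      exact card_image_le_of_factor univ (fun x : {x // x ∈ B} => x.1 i) (q i)
        fun x _ y _ h => (hq i x y).1 h
  let F : ∀ i, X i → G := fun i u =>
    if h : ∃ x : {x // x ∈ B}, x.1 i = u then q i h.choose else 0
  have hF : ∀ i (x : {x // x ∈ B}), F i (x.1 i) = q i x := by
    intro i x
    have h : ∃ y : {x // x ∈ B}, y.1 i = x.1 i := ⟨x, rfl⟩
    show (if h : ∃ y : {x // x ∈ B}, y.1 i = x.1 i then q i h.choose else 0) = _
    rw [dif_pos h]
    exact (hq i _ _).1 h.choose_spec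
  refine ⟨G, iG, inferInstance, F, ⟨?_, ?_, ?_⟩, himg⟩
  · intro x hx
    have e0 := hF 0 ⟨x, hx⟩
    have e1 := hF 1 ⟨x, hx⟩
    have e2 := hF 2 ⟨x, hx⟩
    simp only at e0 e1 e2
    rw [e0, e1, e2]
    rfl
  · intro i x hx y hy h
    have e0 := hF i ⟨x, hx⟩
    have e1 := hF i ⟨y, hy⟩
    simp only at e0 e1
    rw [e0, e1] at h
    exact (hq i ⟨x, hx⟩ ⟨y, hy⟩).2 h
  · intro u v
    obtain ⟨x, hx, hx'⟩ := hsurj u v
    refine ⟨x.1, mem_coe.2 x.2, ?_, ?_⟩
    · rw [hF 0 x]
      exact hx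
    · rw [hF 1 x]
      exact hx'

/-- **Transfer.** Bounds `|H ∩ B|² ≤ K |G|³` for the subsets `B` of the linear relation `E` which are
closed under the operations and tables of abelian groups `G` imply
`|H|² ≤ K |X 0| |X 1| |X 2|`. -/
theorem transfer (X : Fin 3 → Type) [∀ i, Fintype (X i)] (E H : Set (∀ i, X i)) (k : ℕ)
    (t : ∀ i, (Fin k → X i) → X i) (hk : 2 ≤ k) (ht : ∀ i, IsWNU (t i)) (hlin : Lin E)
    (hcl : Cl E t) (hH : H ⊆ E) (K : ℝ) (hK : 0 ≤ K)
    (h : ∀ (G : Type) [AddCommGroup G] [Fintype G] (B : Set (∀ i, X i)) (f : ∀ i, X i → G),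
      B ⊆ E → Cl B t → AbTable G B f →
      ((H ∩ B).ncard : ℝ) ^ 2 ≤ K * (Fintype.card G : ℝ) ^ 3) :
    (H.ncard : ℝ) ^ 2 ≤ K * ∏ i, (Fintype.card (X i) : ℝ) := by
  classical
  have hc : ∀ S : Set (∀ i, X i), ((S.toFinset : Finset (∀ i, X i)) : Set (∀ i, X i)) = S :=
    fun S => Set.coe_toFinset S
  have h1 := kl (t := t) (fun E _ hlin hcl => dich hk ht hlin hcl) hK H.toFinset
    #E.toFinset E.toFinset le_rfl (by rwa [hc]) (by rwa [hc]) (by
      intro B hBE hne hcl' hlat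
      have hBE' : (B : Set (∀ i, X i)) ⊆ E := by
        intro x hx
        exact Set.mem_toFinset.1 (hBE (mem_coe.1 hx))
      obtain ⟨G, iG, iF, f, hf, hcard⟩ := latin_table B k t hk ht
        (fun x hx y hy => hlin x (hBE' hx) y (hBE' hy)) hcl' hne hlat
      have h2 := h G (B : Set (∀ i, X i)) f hBE' hcl' hf
      have h3 : (H ∩ (B : Set (∀ i, X i))).ncard = #(H.toFinset ∩ B) := by
        rw [← Set.ncard_coe_finset, coe_inter, hc]
      rw [h3] at h2
      refine h2.trans (le_of_eq ?_)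
      rw [Fin.prod_univ_three, hcard, hcard, hcard]
      ring)
  have h2 : H.toFinset ∩ E.toFinset = H.toFinset := inter_eq_left.2 fun x hx =>
    Set.mem_toFinset.2 (hH (Set.mem_toFinset.1 hx))
  rw [h2, ← Set.ncard_coe_finset, hc] at h1
  refine h1.trans (mul_le_mul_of_nonneg_left (prod_le_prod (fun i _ => Nat.cast_nonneg _)
    fun i _ => ?_) hK)
  exact_mod_cast card_le_univ _

end Pool.Agent.U422.Dense
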