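import Pool.Agent.U422.GummBound

/-!
# Majority, Mal'cev and near unanimity operations are Gumm operations
-/

set_option autoImplicit false

namespace Pool.Agent.U422.Gumm

open Finset Pool.Agent.R181.Maj

/-- `p` is a Mal'cev operation. -/
def IsMalcev {A : Type*} (p : A → A → A → A) : Prop := ∀ x y, p x y y = x ∧ p x x y = y

/-- `t` is a near unanimity operation: if all arguments but at most one are `x`, the value is `x`. -/
def IsNU {A : Type*} {k : ℕ} (t : (Fin k → A) → A) : Prop :=
  ∀ (i : Fin k) (x y : A), t (Function.update (fun _ => x) i y) = x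

theorem gumm_of_maj {A : Type*} {μ : A → A → A → A} (h : IsMaj μ) :
    IsGumm (m := 0) (fun _ => true) (fun _ => μ) (fun _ _ z => z) := by
  refine ⟨fun i x y => (h x y).2.1, ?_, fun i => Fin.elim0 i, ?_, fun x y => rfl⟩
  · intro x y
    unfold lo
    rw [if_pos rfl]
    exact (h x y).1
  · intro x y
    unfold hi
    rw [if_pos rfl]
    exact (h y x).2.2

theorem gumm_of_malcev {A : Type*} {p : A → A → A → A} (h : IsMalcev p) :
    IsGumm (m := 0) (fun _ => true) (fun _ x _ _ => x) p := by
  refine ⟨fun i x y => rfl, fun x y => ?_, fun i => Fin.elim0 i, fun x y => ?_, fun x y => (h x y).2⟩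
  · unfold lo
    rw [if_pos rfl]
  · unfold hi
    rw [if_pos rfl]
    exact (h x y).1.symm

/-- the operation `t(x, …, x, y, z, …, z)`, with `y` in the place number `m - i` -/
def nuOp {A : Type*} {m : ℕ} (t : (Fin (m + 1) → A) → A) (i : Fin (m + 1)) (x y z : A) : A :=
  t fun j => if j < i.rev then x else if j = i.rev then y else z

theorem gumm_of_nu {A : Type*} {m : ℕ} {t : (Fin (m + 1) → A) → A} (h : IsNU t) :
    IsGumm (m := m) (fun _ => true) (nuOp t) (fun _ _ z => z) := by
  have hid : ∀ x : A, t (fun _ => x) = x := by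
    intro x
    have := h 0 x x
    rwa [Function.update_eq_self] at this
  refine ⟨?_, ?_, ?_, ?_, fun x y => rfl⟩
  · intro i x y
    unfold nuOp
    rw [← h i.rev x y]
    congr 1
    funext j
    by_cases hj : j = i.rev
    · subst hj
      simp
    · rw [Function.update_of_ne hj]
      by_cases h1 : j < i.rev
      · rw [if_pos h1, h]
      · rw [if_neg h1, if_neg hj, h]
  · intro x y
    unfold lo
    rw [if_pos rfl]
    unfold nuOp
    refine Eq.trans ?_ (hid x)
    congr 1
    funext j
    by_cases h1 : j < (0 : Fin (m + 1)).rev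
    · rw [if_pos h1]
    · rw [if_neg h1, if_pos]
      rw [Fin.rev_zero] at h1 ⊢
      exact le_antisymm (Fin.le_last j) (not_lt.1 h1)
  · intro i x y
    unfold hi lo
    rw [if_pos rfl, if_pos rfl]
    unfold nuOp
    congr 1
    funext j
    have e1 : (i.castSucc.rev : ℕ) = m - i := by
      rw [Fin.val_rev, Fin.val_castSucc]
      omega
    have e2 : (i.succ.rev : ℕ) = m - i - 1 := by
      rw [Fin.val_rev, Fin.val_succ]
      omega
    have hi := i.2
    by_cases h1 : j < i.castSucc.rev
    · rw [if_pos h1]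
      rw [Fin.lt_def, e1] at h1
      by_cases h2 : j < i.succ.rev
      · rw [if_pos h2]
      · rw [if_neg h2, if_pos]
        rw [Fin.lt_def, e2] at h2
        rw [Fin.ext_iff, e2]
        omega
    · have h3 : ¬ j < i.succ.rev := by
        rw [Fin.lt_def, e1] at h1
        rw [Fin.lt_def, e2]
        omega
      have h4 : j ≠ i.succ.rev := by
        rw [Fin.lt_def, e1] at h1
        rw [Ne, Fin.ext_iff, e2]
        omega
      rw [if_neg h1, if_neg h3, if_neg h4]
      split_ifs <;> rfl
  · intro x y
    unfold hi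
    rw [if_pos rfl]
    unfold nuOp
    refine Eq.trans ?_ (hid y)
    congr 1
    funext j
    have h1 : ¬ j < (Fin.last m).rev := by
      rw [Fin.rev_last]
      exact not_lt.2 (Fin.zero_le j)
    rw [if_neg h1]
    split_ifs <;> rfl

/-- `F` is a relation between `r` pairwise disjoint sets of vertices, closed under componentwise
application of Mal'cev operations on these sets. -/
def MalcevPiece {V : Type} (r : ℕ) (F : Set (Finset V)) : Prop :=
  ∃ (X : Fin r → Type) (v : (Σ i, X i) → V) (E : Set (∀ i, X i))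
    (p : ∀ i, X i → X i → X i → X i), (∀ i, IsMalcev (p i)) ∧ Function.Injective v ∧
    (∀ x ∈ E, ∀ y ∈ E, ∀ z ∈ E, (fun i => p i (x i) (y i) (z i)) ∈ E) ∧ F = edge v '' E

/-- `F` is a relation between `r` pairwise disjoint sets of vertices, closed under componentwise
application of near unanimity operations of some arity `k` on these sets. -/
def NUPiece {V : Type} (r : ℕ) (F : Set (Finset V)) : Prop :=
  ∃ (X : Fin r → Type) (v : (Σ i, X i) → V) (E : Set (∀ i, X i)) (k : ℕ)
    (t : ∀ i, (Fin k → X i) → X i), 1 ≤ k ∧ (∀ i, IsNU (t i)) ∧ Function.Injective v ∧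
    (∀ x : Fin k → ∀ i, X i, (∀ j, x j ∈ E) → (fun i => t i fun j => x j i) ∈ E) ∧
    F = edge v '' E

theorem gummPiece_of_majority {V : Type} {r : ℕ} {F : Set (Finset V)} (h : MajorityPiece r F) :
    GummPiece r F := by
  obtain ⟨X, μ, v, E, hμ, hv, hE, hF⟩ := h
  exact ⟨X, v, E, 0, fun _ => true, fun i _ => μ i, fun _ _ _ z => z,
    fun i => gumm_of_maj (hμ i), hv, fun _ => hE, fun _ _ _ _ z hz => hz, hF⟩

theorem gummPiece_of_malcev {V : Type} {r : ℕ} {F : Set (Finset V)} (h : MalcevPiece r F) :
    GummPiece r F := by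
  obtain ⟨X, v, E, p, hp, hv, hE, hF⟩ := h
  exact ⟨X, v, E, 0, fun _ => true, fun _ _ x _ _ => x, p,
    fun i => gumm_of_malcev (hp i), hv, fun _ x hx _ _ _ _ => hx, hE, hF⟩

theorem gummPiece_of_nu {V : Type} {r : ℕ} {F : Set (Finset V)} (h : NUPiece r F) :
    GummPiece r F := by
  obtain ⟨X, v, E, k, t, hk, ht, hv, hE, hF⟩ := h
  obtain ⟨m, rfl⟩ : ∃ m, k = m + 1 := ⟨k - 1, by omega⟩
  refine ⟨X, v, E, m, fun _ => true, fun i => nuOp (t i), fun _ _ _ z => z,
    fun i => gumm_of_nu (ht i), hv, ?_, fun _ _ _ _ z hz => hz, hF⟩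
  intro j x hx y hy z hz
  have h1 := hE (fun l => if l < j.rev then x else if l = j.rev then y else z) (by
    intro l
    show (if l < j.rev then x else if l = j.rev then y else z) ∈ E
    split_ifs
    · exact hx
    · exact hy
    · exact hz)
  have h2 : (fun i => nuOp (t i) j (x i) (y i) (z i)) = fun i => t i fun l =>
      (if l < j.rev then x else if l = j.rev then y else z) i := by
    funext i
    unfold nuOp
    congr 1
    funext l
    split_ifs <;> rfl
  rw [h2]
  exact h1

end Pool.Agent.U422.Gumm
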