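import Pool.Agent.U422.Kak

/-!
# The projections of sets of integer points closed under Gumm operations or parallelograms
-/

set_option autoImplicit false

namespace Pool.Agent.U422.Kak

open Finset Pool.Agent.R181.Maj Pool.Agent.R181.LW Pool.Agent.U422.Gumm

/-- the projection `π_r(x, y) = x + r y`, `π_∞(x, y) = y`; the slope `∞` is `none` -/
def proj : Option ℚ → ℤ × ℤ → ℚ
  | none, z => (z.2 : ℚ)
  | some r, z => (z.1 : ℚ) + r * (z.2 : ℚ)

/-- the projection as a homomorphism -/
def projHom (r : Option ℚ) : ℤ × ℤ →+ ℚ where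
  toFun := proj r
  map_zero' := by cases r <;> simp [proj]
  map_add' := by
    intro a b
    cases r with
    | none => simp [proj]
    | some r => simp only [proj, Prod.fst_add, Prod.snd_add, Int.cast_add]; ring

theorem proj_inj {r s : Option ℚ} (hrs : r ≠ s) {v : ℤ × ℤ} (h1 : proj r v = 0)
    (h2 : proj s v = 0) : v = 0 := by
  rcases r with _ | r <;> rcases s with _ | s
  · exact absurd rfl hrs
  · have e1 : (v.2 : ℚ) = 0 := h1
    have e2 : (v.1 : ℚ) + s * (v.2 : ℚ) = 0 := h2
    rw [e1, mul_zero, add_zero] at e2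
    exact Prod.ext (by exact_mod_cast e2) (by exact_mod_cast e1)
  · have e1 : (v.2 : ℚ) = 0 := h2
    have e2 : (v.1 : ℚ) + r * (v.2 : ℚ) = 0 := h1
    rw [e1, mul_zero, add_zero] at e2
    exact Prod.ext (by exact_mod_cast e2) (by exact_mod_cast e1)
  · have e1 : (v.1 : ℚ) + r * (v.2 : ℚ) = 0 := h1
    have e2 : (v.1 : ℚ) + s * (v.2 : ℚ) = 0 := h2
    have e3 : (r - s) * (v.2 : ℚ) = 0 := by linear_combination e1 - e2
    have hne : r - s ≠ 0 := sub_ne_zero.2 fun h => hrs (by rw [h])
    have e4 : (v.2 : ℚ) = 0 := (mul_eq_zero.1 e3).resolve_left hne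
    rw [e4, mul_zero, add_zero] at e1
    exact Prod.ext (by exact_mod_cast e1) (by exact_mod_cast e4)

/-- `A` is closed under Gumm operations on the projections with slopes in `T`. -/
def GummClosed (T : Finset (Option ℚ)) (A : Finset (ℤ × ℤ)) : Prop :=
  ∃ (m : ℕ) (σ : Fin (m + 1) → Bool) (f : Option ℚ → Fin (m + 1) → ℚ → ℚ → ℚ → ℚ)
    (p : Option ℚ → ℚ → ℚ → ℚ → ℚ), (∀ r ∈ T, IsGumm σ (f r) (p r)) ∧
    (∀ j, ∀ a ∈ A, ∀ b ∈ A, ∀ c ∈ A, ∃ d ∈ A, ∀ r ∈ T,
      proj r d = f r j (proj r a) (proj r b) (proj r c)) ∧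
    (∀ a ∈ A, ∀ b ∈ A, ∀ c ∈ A, ∃ d ∈ A, ∀ r ∈ T,
      proj r d = p r (proj r a) (proj r b) (proj r c))

/-- `A` is closed under completing parallelograms whose sides are in the directions of the lines of
two different projections with slopes in `T`. -/
def ParallelogramClosed (T : Finset (Option ℚ)) (A : Finset (ℤ × ℤ)) : Prop :=
  ∀ r ∈ T, ∀ s ∈ T, r ≠ s → ∀ z ∈ A, ∀ u v : ℤ × ℤ, proj r u = 0 → proj s v = 0 →
    z + u ∈ A → z + v ∈ A → z + u + v ∈ A

theorem int_tf (k : ℕ) (v : ℤ × ℤ) (hk : k ≠ 0) (h : k • v = 0) : v = 0 := by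
  have h1 : (k : ℤ) * v.1 = 0 := by
    have := congrArg Prod.fst h
    simpa using this
  have h2 : (k : ℤ) * v.2 = 0 := by
    have := congrArg Prod.snd h
    simpa using this
  have hk' : (k : ℤ) ≠ 0 := by exact_mod_cast hk
  exact Prod.ext ((mul_eq_zero.1 h1).resolve_left hk') ((mul_eq_zero.1 h2).resolve_left hk')

theorem bound_one (T : Finset (Option ℚ)) (hT : 2 ≤ #T) (A : Finset (ℤ × ℤ))
    (h : GummClosed T A ∨ ParallelogramClosed T A) :
    #A ^ (#T - 1) ≤ ∏ r ∈ T, #(A.image (proj r)) := by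
  classical
  obtain ⟨n, hn⟩ : ∃ n, #T = n + 1 := ⟨#T - 1, by omega⟩
  let e : Fin (n + 1) ≃ {r // r ∈ T} := (T.equivFinOfCardEq hn).symm
  have hprod : ∏ i, #(A.image (projHom (e i).1)) = ∏ r ∈ T, #(A.image (proj r)) := by
    rw [e.prod_comp (fun r : {r // r ∈ T} => #(A.image (projHom r.1)))]
    exact prod_coe_sort T fun r => #(A.image (proj r))
  rw [hn, Nat.add_sub_cancel, ← hprod]
  rcases h with h | h
  · obtain ⟨m, σ, f, p, hg, hf, hp⟩ := h
    refine gumm_bound (π := fun i => projHom (e i).1) int_tf ?_ (σ := σ) (fun i => f (e i).1)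
      (fun i => p (e i).1) (fun i => hg _ (e i).2) ?_ ?_ (by omega)
    · intro i j hij v h1 h2
      exact proj_inj (fun h => hij (e.injective (Subtype.ext h))) h1 h2
    · intro j a ha b hb c hc
      obtain ⟨d, hd, h1⟩ := hf j a ha b hb c hc
      exact ⟨d, hd, fun i => h1 _ (e i).2⟩
    · intro a ha b hb c hc
      obtain ⟨d, hd, h1⟩ := hp a ha b hb c hc
      exact ⟨d, hd, fun i => h1 _ (e i).2⟩
  · refine par_bound (π := fun i => projHom (e i).1) int_tf ?_ (by omega)
    intro i j hij z hz u v hu hv hzu hzv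
    exact h _ (e i).2 _ (e j).2 (fun h => hij (e.injective (Subtype.ext h))) z hz u v hu hv hzu hzv

/-- a direction of the lines of the projection with slope `r` -/
def dir : Option ℚ → ℤ × ℤ
  | none => (1, 0)
  | some r => (-r.num, r.den)

theorem proj_dir_self (r : Option ℚ) : proj r (dir r) = 0 := by
  rcases r with _ | r
  · simp [proj, dir]
  · simp only [proj, dir, Int.cast_neg, Int.cast_natCast]
    have : r * (r.den : ℚ) = r.num := Rat.mul_den_eq_num r
    linarith

theorem proj_dir_ne {r s : Option ℚ} (h : r ≠ s) : proj r (dir s) ≠ 0 := by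
  intro h0
  have h1 := proj_inj h h0 (proj_dir_self s)
  rcases s with _ | s
  · have := congrArg Prod.fst h1
    simp [dir] at this
  · have := congrArg Prod.snd h1
    simp [dir] at this

section Grid

variable {I : Type} [Fintype I] [DecidableEq I]

/-- the point with coordinates `a` of the grid -/
def pt (w : I → ℤ × ℤ) {q : ℕ} (a : I → Fin q) : ℤ × ℤ := ∑ i, ((a i : ℕ) : ℤ) • w i

omit [DecidableEq I] in
theorem proj_pt (r : Option ℚ) (w : I → ℤ × ℤ) {q : ℕ} (a : I → Fin q) :
    proj r (pt w a) = ∑ i, ((a i : ℕ) : ℚ) * proj r (w i) := by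
  show projHom r (pt w a) = _
  unfold pt
  rw [map_sum]
  refine sum_congr rfl fun i _ => ?_
  rw [map_zsmul]
  show _ • proj r (w i) = _
  rw [zsmul_eq_mul]
  push_cast
  rfl

end Grid

open Polynomial in
/-- a grid in general position -/
theorem exists_generic (T : Finset (Option ℚ)) (q : ℕ) : ∃ w : {r // r ∈ T} → ℤ × ℤ,
    ∀ (r : {r // r ∈ T}) (a b : {r // r ∈ T} → Fin q),
      proj r.1 (pt w a) = proj r.1 (pt w b) ↔ ∀ i, i ≠ r → a i = b i := by
  classical
  let e : {r // r ∈ T} ≃ Fin #T := T.equivFin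
  let P : {r // r ∈ T} → ({r // r ∈ T} → Fin q) → ({r // r ∈ T} → Fin q) → ℚ[X] := fun r a b =>
    ∑ i, C ((((a i : ℕ) : ℚ) - ((b i : ℕ) : ℚ)) * proj r.1 (dir i.1)) * X ^ (e i : ℕ)
  have hcoeff : ∀ r a b i, (P r a b).coeff (e i : ℕ) =
      (((a i : ℕ) : ℚ) - ((b i : ℕ) : ℚ)) * proj r.1 (dir i.1) := by
    intro r a b i
    simp only [P, finsetSum_coeff, coeff_C_mul, coeff_X_pow]
    rw [sum_eq_single i]
    · rw [if_pos rfl, mul_one]
    · intro j _ hji
      rw [if_neg, mul_zero]
      intro h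
      exact hji (e.injective (Fin.ext h.symm))
    · intro h
      exact absurd (mem_univ i) h
  let bad : Finset ℚ := univ.biUnion fun r => univ.biUnion fun a => univ.biUnion fun b =>
    (P r a b).roots.toFinset
  obtain ⟨M, hM⟩ : ∃ M : ℕ, (M : ℚ) ∉ bad := by
    obtain ⟨x, hx⟩ := Infinite.exists_notMem_finset
      (bad.preimage (fun M : ℕ => (M : ℚ)) Nat.cast_injective.injOn)
    exact ⟨x, fun h => hx (mem_preimage.2 h)⟩
  refine ⟨fun i => ((M : ℤ) ^ (e i : ℕ)) • dir i.1, ?_⟩
  intro r a b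
  have h1 : ∀ i : {r // r ∈ T}, proj r.1 (((M : ℤ) ^ (e i : ℕ)) • dir i.1) =
      (M : ℚ) ^ (e i : ℕ) * proj r.1 (dir i.1) := by
    intro i
    show projHom r.1 _ = _
    rw [map_zsmul, zsmul_eq_mul]
    push_cast
    rfl
  rw [proj_pt, proj_pt, ← sub_eq_zero, ← sum_sub_distrib]
  have h2 : ∑ i, (((a i : ℕ) : ℚ) * proj r.1 (((M : ℤ) ^ (e i : ℕ)) • dir i.1) -
      ((b i : ℕ) : ℚ) * proj r.1 (((M : ℤ) ^ (e i : ℕ)) • dir i.1)) = (P r a b).eval (M : ℚ) := by
    simp only [P, eval_finsetSum, eval_mul, eval_C, eval_pow, eval_X]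
    refine sum_congr rfl fun i _ => ?_
    rw [h1]
    ring
  rw [h2]
  constructor
  · intro h3 i hi
    by_contra hab
    have h4 : P r a b ≠ 0 := by
      intro h0
      have h5 := hcoeff r a b i
      rw [h0, coeff_zero] at h5
      rcases mul_eq_zero.1 h5.symm with h6 | h6
      · refine hab (Fin.ext ?_)
        have h7 : ((a i : ℕ) : ℚ) = ((b i : ℕ) : ℚ) := sub_eq_zero.1 h6
        exact_mod_cast h7
      · exact proj_dir_ne (fun h => hi (Subtype.ext h.symm)) h6
    refine hM ?_
    simp only [bad, mem_biUnion, mem_univ, true_and]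
    exact ⟨r, a, b, Multiset.mem_toFinset.2 ((mem_roots h4).2 h3)⟩
  · intro h3
    rw [← h2]
    refine sum_eq_zero fun i _ => ?_
    by_cases hi : i = r
    · subst hi
      rw [h1, proj_dir_self]
      ring
    · rw [h3 i hi]
      ring

/-- **Equality** is possible, for every set of slopes. -/
theorem grid_exists (T : Finset (Option ℚ)) (hT : 2 ≤ #T) (q : ℕ) :
    ∃ A : Finset (ℤ × ℤ), ParallelogramClosed T A ∧ #A = q ^ #T ∧
      ∀ r ∈ T, #(A.image (proj r)) = q ^ (#T - 1) := by
  classical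
  obtain ⟨w, hw⟩ := exists_generic T q
  have hinj : Function.Injective (pt w (q := q)) := by
    intro a b hab
    obtain ⟨r, hr, s, hs, hrs⟩ := one_lt_card.1 (by omega : 1 < #T)
    have h1 := (hw ⟨r, hr⟩ a b).1 (by rw [hab])
    have h2 := (hw ⟨s, hs⟩ a b).1 (by rw [hab])
    funext i
    by_cases hi : i = ⟨r, hr⟩
    · refine h2 i ?_
      rintro rfl
      exact hrs (congrArg Subtype.val hi).symm
    · exact h1 i hi
  refine ⟨univ.image (pt w (q := q)), ?_, ?_, ?_⟩
  · rintro r hr s hs hrs z hz u v hu hv hzu hzv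
    obtain ⟨a, -, rfl⟩ := mem_image.1 hz
    obtain ⟨b, -, hb⟩ := mem_image.1 hzu
    obtain ⟨c, -, hc⟩ := mem_image.1 hzv
    have hab : ∀ i, i ≠ ⟨r, hr⟩ → b i = a i := by
      refine (hw ⟨r, hr⟩ b a).1 ?_
      show projHom r (pt w b) = projHom r (pt w a)
      rw [hb, map_add]
      have : projHom r u = 0 := hu
      rw [this, add_zero]
    have hac : ∀ i, i ≠ ⟨s, hs⟩ → c i = a i := by
      refine (hw ⟨s, hs⟩ c a).1 ?_
      show projHom s (pt w c) = projHom s (pt w a)
      rw [hc, map_add]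
      have : projHom s v = 0 := hv
      rw [this, add_zero]
    refine mem_image.2 ⟨Function.update c ⟨r, hr⟩ (b ⟨r, hr⟩), mem_univ _, ?_⟩
    have h1 : pt w a + u + v = pt w b + pt w c - pt w a := by
      rw [hb, hc]
      abel
    rw [h1]
    unfold pt
    rw [← sum_add_distrib, ← sum_sub_distrib]
    refine sum_congr rfl fun i _ => ?_
    rw [← add_smul, ← sub_smul]
    congr 1
    by_cases hi : i = ⟨r, hr⟩
    · subst hi
      rw [Function.update_self, hac _ (fun h => hrs (congrArg Subtype.val h))]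
      ring
    · rw [Function.update_of_ne hi, hab i hi]
      ring
  · rw [card_image_of_injective _ hinj, card_univ, Fintype.card_fun, Fintype.card_fin,
      Fintype.card_coe]
  · intro r hr
    rw [image_image]
    have h1 : #((univ : Finset ({r // r ∈ T} → Fin q)).image (proj r ∘ pt w)) =
        #((univ : Finset ({r // r ∈ T} → Fin q)).image
          fun a => fun i : {i : {r // r ∈ T} // i ≠ ⟨r, hr⟩} => a i.1) := by
      apply le_antisymm
      · refine card_image_le_of_factor _ _ _ fun a _ b _ hab => ?_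
        exact (hw ⟨r, hr⟩ a b).2 fun i hi => congrFun hab ⟨i, hi⟩
      · refine card_image_le_of_factor _ _ _ fun a _ b _ hab => ?_
        funext i
        exact (hw ⟨r, hr⟩ a b).1 hab i.1 i.2
    rw [h1]
    have h2 : ((univ : Finset ({r // r ∈ T} → Fin q)).image
          fun a => fun i : {i : {r // r ∈ T} // i ≠ ⟨r, hr⟩} => a i.1) = univ := by
      rw [eq_univ_iff_forall]
      intro c
      rcases Nat.eq_zero_or_pos q with rfl | hq
      · obtain ⟨s, hs, hsr⟩ : ∃ s ∈ T, s ≠ r := by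
          by_contra hcon
          push Not at hcon
          have : T ⊆ {r} := fun s hs => mem_singleton.2 (hcon s hs)
          have := card_le_card this
          rw [card_singleton] at this
          omega
        exact Fin.elim0 (c ⟨⟨s, hs⟩, fun h => hsr (congrArg Subtype.val h)⟩)
      · refine mem_image.2 ⟨fun i => if h : i ≠ ⟨r, hr⟩ then c ⟨i, h⟩ else ⟨0, hq⟩, mem_univ _, ?_⟩
        funext i
        exact dif_pos i.2
    rw [h2, card_univ, Fintype.card_fun, Fintype.card_fin]
    congr 1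
    rw [Fintype.card_subtype_compl, Fintype.card_coe, Fintype.card_unique]

end Pool.Agent.U422.Kak
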