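import Pool.Agent.U422.TameGroup
import Pool.Agent.U422.KakZ

/-!
# Sets of integer points closed under weak near unanimity operations
-/

set_option autoImplicit false

namespace Pool.Agent.U422.Tame

open Finset Pool.Agent.U422.Kak Pool.Agent.U422.Taylor

/-- `A` is closed under idempotent weak near unanimity operations `t r` of some arity `k ≥ 2` on
the projections with slopes `r ∈ T`. -/
def WNUClosed (T : Finset (Option ℚ)) (A : Finset (ℤ × ℤ)) : Prop :=
  ∃ (k : ℕ) (t : Option ℚ → (Fin k → ℚ) → ℚ), 2 ≤ k ∧ (∀ r ∈ T, IsWNU (t r)) ∧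
    ∀ a : Fin k → ℤ × ℤ, (∀ j, a j ∈ A) → ∃ d ∈ A, ∀ r ∈ T, proj r d = t r fun j => proj r (a j)

theorem bound_wnu (T : Finset (Option ℚ)) (hT : 2 ≤ #T) (A : Finset (ℤ × ℤ))
    (h : WNUClosed T A) : #A ^ (#T - 1) ≤ ∏ r ∈ T, #(A.image (proj r)) := by
  classical
  obtain ⟨n, hn⟩ : ∃ n, #T = n + 1 := ⟨#T - 1, by omega⟩
  let e : Fin (n + 1) ≃ {r // r ∈ T} := (T.equivFinOfCardEq hn).symm
  have hprod : ∏ i, #(A.image (projHom (e i).1)) = ∏ r ∈ T, #(A.image (proj r)) := by
    rw [e.prod_comp (fun r : {r // r ∈ T} => #(A.image (projHom r.1)))]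
    exact prod_coe_sort T fun r => #(A.image (proj r))
  rw [hn, Nat.add_sub_cancel, ← hprod]
  refine wnu_bound (fun i => projHom (e i).1) int_tf ?_ (by omega) ?_
  · intro i j hij v h1 h2
    exact proj_inj (fun h => hij (e.injective (Subtype.ext h))) h1 h2
  · obtain ⟨k, t, hk, ht, hcl⟩ := h
    refine ⟨k, fun i => t (e i).1, hk, fun i => ht _ (e i).2, fun a ha => ?_⟩
    obtain ⟨d, hd, h1⟩ := hcl a ha
    exact ⟨d, hd, fun i => h1 _ (e i).2⟩

/-- **Equality** is possible, for every set of slopes. -/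
theorem grid_wnu (T : Finset (Option ℚ)) (hT : 2 ≤ #T) (q : ℕ) :
    ∃ A : Finset (ℤ × ℤ), WNUClosed T A ∧ #A = q ^ #T ∧
      ∀ r ∈ T, #(A.image (proj r)) = q ^ (#T - 1) := by
  classical
  obtain ⟨w, hw⟩ := exists_generic T q
  have hinj : Function.Injective (pt w (q := q)) := by
    intro a b hab
    obtain ⟨r, hr, s, hs, hrs⟩ := one_lt_card.1 (by omega : 1 < #T)
    have h1 := (hw ⟨r, hr⟩ a b).1 (by rw [hab])
    have h2 := (hw ⟨s, hs⟩ a b).1 (by rw [hab])
    funext i
    by_cases hi : i = ⟨r, hr⟩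
    · refine h2 i ?_
      rintro rfl
      exact hrs (congrArg Subtype.val hi).symm
    · exact h1 i hi
  -- coordinates of the values of the projections
  let R : Option ℚ → ℚ → Prop := fun r x => ∃ a : {r // r ∈ T} → Fin q, proj r (pt w a) = x
  have hR : ∀ (r : Option ℚ) (x : ℚ), ∃ a : R r x → {r // r ∈ T} → Fin q,
      ∀ h, proj r (pt w (a h)) = x := fun r x => ⟨fun h => h.choose, fun h => h.choose_spec⟩
  choose co hco using hR
  let t : Option ℚ → (Fin 2 → ℚ) → ℚ := fun r x =>
    if h : R r (x 0) ∧ R r (x 1) then proj r (pt w fun i => min (co r (x 0) h.1 i) (co r (x 1) h.2 i))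
    else min (x 0) (x 1)
  have hid : ∀ r x, t r (fun _ => x) = x := by
    intro r x
    by_cases h : R r x
    · simp only [t]
      rw [dif_pos ⟨h, h⟩]
      simp only [min_self]
      exact hco r x h
    · simp only [t]
      rw [dif_neg (fun h' => h h'.1), min_self]
  have hsym : ∀ r x y, t r ![x, y] = t r ![y, x] := by
    intro r x y
    by_cases h : R r x ∧ R r y
    · simp only [t]
      rw [dif_pos (show R r (![x, y] 0) ∧ R r (![x, y] 1) from h),
        dif_pos (show R r (![y, x] 0) ∧ R r (![y, x] 1) from ⟨h.2, h.1⟩)]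
      congr 2
      funext i
      exact min_comm _ _
    · simp only [t]
      rw [dif_neg (show ¬ (R r (![x, y] 0) ∧ R r (![x, y] 1)) from h),
        dif_neg (show ¬ (R r (![y, x] 0) ∧ R r (![y, x] 1)) from fun h' => h ⟨h'.2, h'.1⟩)]
      exact min_comm _ _
  have hw0 : ∀ x y : ℚ, Function.update (fun _ : Fin 2 => x) 0 y = ![y, x] := by
    intro x y
    funext i
    fin_cases i <;> rfl
  have hw1 : ∀ x y : ℚ, Function.update (fun _ : Fin 2 => x) 1 y = ![x, y] := by
    intro x y
    funext i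
    fin_cases i <;> rfl
  refine ⟨univ.image (pt w (q := q)), ⟨2, t, le_rfl, fun r _ => ⟨hid r, ?_⟩, ?_⟩, ?_, ?_⟩
  · intro i j x y
    fin_cases i <;> fin_cases j
    · rfl
    · show t r (Function.update (fun _ : Fin 2 => x) 0 y) = t r (Function.update (fun _ => x) 1 y)
      rw [hw0, hw1]
      exact hsym r y x
    · show t r (Function.update (fun _ : Fin 2 => x) 1 y) = t r (Function.update (fun _ => x) 0 y)
      rw [hw0, hw1]
      exact hsym r x y
    · rfl
  · intro x hx
    obtain ⟨a, -, ha⟩ := mem_image.1 (hx 0)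
    obtain ⟨b, -, hb⟩ := mem_image.1 (hx 1)
    refine ⟨pt w fun i => min (a i) (b i), mem_image_of_mem _ (mem_univ _), fun r hr => ?_⟩
    have h1 : R r (proj r (x 0)) := ⟨a, by rw [ha]⟩
    have h2 : R r (proj r (x 1)) := ⟨b, by rw [hb]⟩
    have h3 := (hw ⟨r, hr⟩ (co r _ h1) a).1 ((hco r _ h1).trans (by rw [ha]))
    have h4 := (hw ⟨r, hr⟩ (co r _ h2) b).1 ((hco r _ h2).trans (by rw [hb]))
    simp only [t]
    rw [dif_pos ⟨h1, h2⟩]
    refine (hw ⟨r, hr⟩ _ _).2 fun i hi => ?_
    show min (a i) (b i) = min (co r _ h1 i) (co r _ h2 i)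
    rw [h3 i hi, h4 i hi]
  · rw [card_image_of_injective _ hinj, card_univ, Fintype.card_fun, Fintype.card_fin,
      Fintype.card_coe]
  · intro r hr
    rw [image_image]
    have h1 : #((univ : Finset ({r // r ∈ T} → Fin q)).image (proj r ∘ pt w)) =
        #((univ : Finset ({r // r ∈ T} → Fin q)).image
          fun a => fun i : {i : {r // r ∈ T} // i ≠ ⟨r, hr⟩} => a i.1) := by
      apply le_antisymm
      · refine Pool.Agent.R181.LW.card_image_le_of_factor _ _ _ fun a _ b _ hab => ?_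
        exact (hw ⟨r, hr⟩ a b).2 fun i hi => congrFun hab ⟨i, hi⟩
      · refine Pool.Agent.R181.LW.card_image_le_of_factor _ _ _ fun a _ b _ hab => ?_
        funext i
        exact (hw ⟨r, hr⟩ a b).1 hab i.1 i.2
    rw [h1]
    have h2 : ((univ : Finset ({r // r ∈ T} → Fin q)).image
          fun a => fun i : {i : {r // r ∈ T} // i ≠ ⟨r, hr⟩} => a i.1) = univ := by
      rw [eq_univ_iff_forall]
      intro c
      rcases Nat.eq_zero_or_pos q with rfl | hq
      · obtain ⟨s, hs, hsr⟩ : ∃ s ∈ T, s ≠ r := by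
          by_contra hcon
          push Not at hcon
          have : T ⊆ {r} := fun s hs => mem_singleton.2 (hcon s hs)
          have := card_le_card this
          rw [card_singleton] at this
          omega
        exact Fin.elim0 (c ⟨⟨s, hs⟩, fun h => hsr (congrArg Subtype.val h)⟩)
      · refine mem_image.2 ⟨fun i => if h : i ≠ ⟨r, hr⟩ then c ⟨i, h⟩ else ⟨0, hq⟩, mem_univ _, ?_⟩
        funext i
        exact dif_pos i.2
    rw [h2, card_univ, Fintype.card_fun, Fintype.card_fin]
    congr 1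
    rw [Fintype.card_subtype_compl, Fintype.card_coe, Fintype.card_unique]

/-- near unanimity operations -/
def IsNU {B : Type} {k : ℕ} (t : (Fin k → B) → B) : Prop :=
  ∀ i x y, t (Function.update (fun _ => x) i y) = x

theorem wnu_of_nu {B : Type} {k : ℕ} {t : (Fin k → B) → B} (hk : 1 ≤ k) (h : IsNU t) :
    IsWNU t := by
  refine ⟨fun x => ?_, fun i j x y => by rw [h, h]⟩
  have h1 := h ⟨0, by omega⟩ x x
  have h2 : Function.update (fun _ : Fin k => x) ⟨0, by omega⟩ x = fun _ => x :=
    Function.update_eq_self _ (fun _ : Fin k => x)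
  rwa [h2] at h1

theorem wnu_of_comm {B : Type} {m : B → B → B} (hc : ∀ x y, m x y = m y x)
    (hi : ∀ x, m x x = x) : IsWNU (k := 2) fun x => m (x 0) (x 1) := by
  refine ⟨fun x => hi x, fun i j x y => ?_⟩
  fin_cases i <;> fin_cases j
  · rfl
  · exact hc y x
  · exact hc x y
  · rfl

end Pool.Agent.U422.Tame
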