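import Pool.Agent.U422.TameBound

/-!
# Centrality for families of equivalence relations with a weak near unanimity operation

Let `θ i` be equivalence relations on a finite set which are preserved by a weak near unanimity
operation. If `θ i`, `θ j`, `θ l` have trivial pairwise intersections, then `θ i` centralizes
`θ j ⊔ θ l`.
-/

set_option autoImplicit false

namespace Pool.Agent.U422.Tame

open Finset Pool.Agent.U422.Kak Pool.Agent.U422.Taylor

variable {A ι : Type} {n : ℕ} {θ : ι → Setoid A} {w : (Fin n → A) → A}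

/-- binary maps which preserve the `θ i` -/
def Pol2 (θ : ι → Setoid A) (F : A → A → A) : Prop :=
  ∀ i x x' y y', θ i x x' → θ i y y' → θ i (F x y) (F x' y')

/-- `β` centralizes `δ`. -/
def Cen (θ : ι → Setoid A) (β δ : Setoid A) : Prop :=
  ∀ F, Pol2 θ F → ∀ x y z z', δ x y → β z z' → F x z = F y z → F x z' = F y z'

theorem Pol2.left {F : A → A → A} (hF : Pol2 θ F) (z : A) : Pol1 θ fun x => F x z :=
  fun i x y h => hF i x y z z h ((θ i).refl z)

theorem Pol2.right {F : A → A → A} (hF : Pol2 θ F) (x : A) : Pol1 θ (F x) :=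
  fun i z z' h => hF i x x z z' ((θ i).refl x) h

theorem Pol1.comp2 {f : A → A} {F : A → A → A} (hf : Pol1 θ f) (hF : Pol2 θ F) :
    Pol2 θ fun x y => f (F x y) := fun i x x' y y' h h' => hf i _ _ (hF i x x' y y' h h')

theorem cen_of_disj {j : ι} {δ : Setoid A} (hδ : Inv θ δ) (h : θ j ⊓ δ ≤ ⊥) :
    Cen θ (θ j) δ := by
  intro F hF x y z z' hxy hz hxyz
  refine h ⟨?_, hδ _ (hF.left z') _ _ hxy⟩
  have h1 := hF.right x j z z' hz
  have h2 := hF.right y j z z' hz
  rw [← hxyz] at h2
  exact (θ j).trans ((θ j).symm h1) h2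

theorem cen_sup {β β' δ : Setoid A} (h : Cen θ β δ) (h' : Cen θ β' δ) : Cen θ (β ⊔ β') δ := by
  intro F hF x y z z' hxy hz hxyz
  let W : Setoid A := ⟨fun z z' => (F x z = F y z ↔ F x z' = F y z'), fun _ => Iff.rfl,
    fun h => h.symm, fun h h' => h.trans h'⟩
  have hW : β ⊔ β' ≤ W := sup_le
    (fun a b hab => ⟨h F hF x y a b hxy hab, h F hF x y b a hxy (β.symm hab)⟩)
    (fun a b hab => ⟨h' F hF x y a b hxy hab, h' F hF x y b a hxy (β'.symm hab)⟩)
  exact (hW hz).1 hxyz

theorem Cen.mono {β β' δ δ' : Setoid A} (h : Cen θ β δ) (hβ : β' ≤ β) (hδ : δ' ≤ δ) :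
    Cen θ β' δ' := fun F hF x y z z' hxy hz => h F hF x y z z' (hδ hxy) (hβ hz)

theorem pol_upd (hw : Pres θ w) (c : Fin n → A) (m : Fin n) :
    Pol1 θ fun u => w (Function.update c m u) := by
  intro i x y hxy
  refine hw i _ _ fun p => ?_
  by_cases hp : p = m
  · subst hp
    rw [Function.update_self, Function.update_self]
    exact hxy
  · rw [Function.update_of_ne hp, Function.update_of_ne hp]

theorem ite_insert {B : Type} (x y : Fin n → B) (S : Finset (Fin n)) (m : Fin n) :
    (fun p => if p ∈ insert m S then y p else x p) =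
      Function.update (fun p => if p ∈ S then y p else x p) m (y m) := by
  funext p
  by_cases hp : p = m
  · subst hp
    rw [Function.update_self, if_pos (mem_insert_self _ _)]
  · rw [Function.update_of_ne hp]
    simp only [mem_insert, hp, false_or]

theorem ite_upd {B : Type} (x y : Fin n → B) {S : Finset (Fin n)} {m : Fin n} (hm : m ∉ S) :
    Function.update (fun p => if p ∈ S then y p else x p) m (x m) =
      fun p => if p ∈ S then y p else x p := by
  funext p
  by_cases hp : p = m
  · subst hp
    rw [Function.update_self, if_neg hm]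
  · rw [Function.update_of_ne hp]

theorem inv_w (hw : Pres θ w) {β : Setoid A} (hβ : Inv θ β) (x y : Fin n → A)
    (h : ∀ m, β (x m) (y m)) : β (w x) (w y) := by
  classical
  have key : ∀ S : Finset (Fin n), β (w x) (w fun m => if m ∈ S then y m else x m) := by
    intro S
    induction S using Finset.induction_on with
    | empty =>
      simp only [notMem_empty, if_false]
      exact β.refl _
    | insert m S hm ih =>
      refine β.trans ih ?_
      rw [ite_insert]
      have h1 := hβ _ (pol_upd hw (fun p => if p ∈ S then y p else x p) m) _ _ (h m)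
      simp only [ite_upd x y hm] at h1
      exact h1
  have h1 := key univ
  simpa using h1

theorem cen_w (hw : Pres θ w) {β δ : Setoid A} (hC : Cen θ β δ) {G : A → A} (hG : Pol1 θ G)
    {x y : A} (hxy : δ x y) (l : Fin n) (c c' : Fin n → A) (hcc : ∀ m, β (c m) (c' m))
    (h : G (w (Function.update c l x)) = G (w (Function.update c l y))) :
    G (w (Function.update c' l x)) = G (w (Function.update c' l y)) := by
  classical
  have step : ∀ (c : Fin n → A) (m : Fin n) (z : A), β (c m) z →
      G (w (Function.update c l x)) = G (w (Function.update c l y)) →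
      G (w (Function.update (Function.update c m z) l x)) =
        G (w (Function.update (Function.update c m z) l y)) := by
    intro c m z hz h
    by_cases hml : m = l
    · subst hml
      rw [Function.update_idem, Function.update_idem]
      exact h
    let F : A → A → A := fun u z => G (w (Function.update (Function.update c m z) l u))
    have hF : Pol2 θ F := by
      intro i u u' z z' hu hz2
      refine hG i _ _ (hw i _ _ fun p => ?_)
      by_cases hp : p = l
      · subst hp
        rw [Function.update_self, Function.update_self]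
        exact hu
      · rw [Function.update_of_ne hp, Function.update_of_ne hp]
        by_cases hp' : p = m
        · subst hp'
          rw [Function.update_self, Function.update_self]
          exact hz2
        · rw [Function.update_of_ne hp', Function.update_of_ne hp']
    refine hC F hF x y (c m) z hxy hz ?_
    show G (w (Function.update (Function.update c m (c m)) l x)) =
      G (w (Function.update (Function.update c m (c m)) l y))
    rw [Function.update_eq_self]
    exact h
  have key : ∀ S : Finset (Fin n), G (w (Function.update (fun m => if m ∈ S then c' m else c m) l x))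
      = G (w (Function.update (fun m => if m ∈ S then c' m else c m) l y)) := by
    intro S
    induction S using Finset.induction_on with
    | empty =>
      simp only [notMem_empty, if_false]
      exact h
    | insert m S hm ih =>
      rw [ite_insert]
      refine step _ m (c' m) ?_ ih
      simp only [if_neg hm]
      exact hcc m
  have h1 := key univ
  simpa using h1

theorem inj_w (hwnu : IsWNU w) (hw : Pres θ w) {β δ : Setoid A} (hC : Cen θ β δ) (hδβ : δ ≤ β)
    {G : A → A} (hG : Pol1 θ G) {x y : A} (hxy : δ x y) (l : Fin n) (c : Fin n → A)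
    (hc : ∀ m, β (c m) x)
    (h : G (w (Function.update c l x)) = G (w (Function.update c l y))) : G x = G y := by
  classical
  have h1 := cen_w hw hC hG hxy l c (fun _ => x) hc h
  have hself : ∀ l' : Fin n, Function.update (fun _ : Fin n => x) l' x = fun _ => x := fun l' =>
    Function.update_eq_self l' (fun _ : Fin n => x)
  have h0 : ∀ l', G (w (Function.update (fun _ => x) l' x)) =
      G (w (Function.update (fun _ => x) l' y)) := by
    intro l'
    rw [hself, hwnu.2 l' l x y, ← h1, hself]
  have key : ∀ S : Finset (Fin n), G (w fun m => if m ∈ S then y else x) = G x := by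
    intro S
    induction S using Finset.induction_on with
    | empty =>
      simp only [notMem_empty, if_false]
      rw [hwnu.1]
    | insert m S hm ih =>
      have h2 := cen_w hw hC hG hxy m (fun _ => x) (fun p => if p ∈ S then y else x)
        (fun p => by
          by_cases hp : p ∈ S
          · simp only [if_pos hp]
            exact hδβ hxy
          · simp only [if_neg hp]
            exact β.refl x) (h0 m)
      have h3 := ite_insert (fun _ => x) (fun _ => y) S m
      have h4 := ite_upd (fun _ => x) (fun _ => y) hm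
      rw [h4] at h2
      rw [h3, ← h2]
      exact ih
  have h2 := key univ
  simp only [mem_univ, if_true] at h2
  rw [hwnu.1] at h2
  exact h2.symm

/-- the class of `v` is as large as possible in its `β`-class -/
def MaxAt (β δ : Setoid A) (v : A) : Prop :=
  ∀ u, β v u → {x | δ u x}.ncard ≤ {x | δ v x}.ncard

theorem exists_maxAt [Finite A] (β δ : Setoid A) (a : A) : ∃ v, β a v ∧ MaxAt β δ v := by
  obtain ⟨v, hv, hmax⟩ := Set.exists_max_image {v | β a v} (fun v => {x | δ v x}.ncard)
    (Set.toFinite _) ⟨a, β.refl a⟩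
  exact ⟨v, hv, fun u hu => hmax u (β.trans hv hu)⟩

/-- translates are injective on classes -/
theorem class_le [Finite A] (hwnu : IsWNU w) (hw : Pres θ w) {β δ : Setoid A} (hδ : Inv θ δ)
    (hC : Cen θ β δ) (hδβ : δ ≤ β) (l : Fin n) (c : Fin n → A) {v : A} (hc : ∀ m, β (c m) v) :
    (∀ x y, δ v x → δ v y → w (Function.update c l x) = w (Function.update c l y) → x = y) ∧
    {x | δ v x}.ncard ≤ {x | δ (w (Function.update c l v)) x}.ncard := by
  have h1 : ∀ x y, δ v x → δ v y → w (Function.update c l x) = w (Function.update c l y) →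
      x = y := fun x y hx hy hxy => inj_w hwnu hw hC hδβ (G := id) pol1_id
    (δ.trans (δ.symm hx) hy) l c (fun m => β.trans (hc m) (hδβ hx)) hxy
  refine ⟨h1, Set.ncard_le_ncard_of_injOn (fun x => w (Function.update c l x)) ?_ ?_
    (Set.toFinite _)⟩
  · intro x hx
    exact hδ _ (pol_upd hw c l) _ _ hx
  · intro x hx y hy hxy
    exact h1 x y hx hy hxy

/-- `e` is a retraction of small image which fixes the class of `v`, of maximal size. -/
structure Retr (θ : ι → Setoid A) (β δ : Setoid A) (e : A → A) (v : A) : Prop where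
  pol : Pol1 θ e
  idem : ∀ x, e (e x) = e x
  max : MaxAt β δ v
  fix : ∀ x, δ v x → e x = x
  min : ∀ G, Pol1 θ G → (∀ x, e (G x) = G x) → β v (G v) →
    (∀ x y, δ v x → δ v y → G x = G y → x = y) → ∀ x y, e x = x → e y = y → G x = G y → x = y

theorem exists_retr [Finite A] (hn : 2 ≤ n) (hwnu : IsWNU w) (hw : Pres θ w) {β δ : Setoid A}
    (hβ : Inv θ β) (hδ : Inv θ δ) (hC : Cen θ β δ) (hδβ : δ ≤ β) {v : A} (hv : MaxAt β δ v) :
    ∃ e f : A → A, Pol1 θ f ∧ (∀ x, e (f x) = f x) ∧ β v (f v) ∧
      (∀ x y, δ v x → δ v y → f x = f y → x = y) ∧ Retr θ β δ e (f v) := by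
  classical
  let l₀ : Fin n := ⟨0, by omega⟩
  let l₁ : Fin n := ⟨1, by omega⟩
  have hl : l₀ ≠ l₁ := fun h => by
    have := congrArg Fin.val h
    simp [l₀, l₁] at this
  let P : ℕ → Prop := fun m => ∃ f : A → A, Pol1 θ f ∧ β v (f v) ∧
    (∀ x y, δ v x → δ v y → f x = f y → x = y) ∧ (Set.range f).ncard = m
  have hP : ∃ m, P m := ⟨_, id, pol1_id, β.refl v, fun x y _ _ h => h, rfl⟩
  obtain ⟨f, hf, hfv, hfi, hfn⟩ := Nat.find_spec hP
  have hmin : ∀ f' : A → A, Pol1 θ f' → β v (f' v) →
      (∀ x y, δ v x → δ v y → f' x = f' y → x = y) →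
      (Set.range f).ncard ≤ (Set.range f').ncard := by
    intro f' h1 h2 h3
    rw [hfn]
    exact Nat.find_min' hP ⟨f', h1, h2, h3, rfl⟩
  -- back
  let g : A → A := fun s => w (Function.update (fun _ => v) l₀ s)
  have hg : Pol1 θ g := pol_upd hw _ _
  have hgv : g v = v := by
    show w (Function.update (fun _ => v) l₀ v) = v
    have : Function.update (fun _ : Fin n => v) l₀ v = fun _ => v :=
      Function.update_eq_self l₀ (fun _ : Fin n => v)
    rw [this, hwnu.1]
  have hfgf : ∀ x y, δ v x → δ v y → f (g (f x)) = f (g (f y)) → x = y := by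
    intro x y hx hy hxy
    -- `g` is injective on the class of `f v`
    have hg1 := (class_le hwnu hw hδ hC hδβ l₀ (fun _ => v) (v := f v) (fun _ => hfv)).1
    -- the class of `g (f v)`
    let c : Fin n → A := Function.update (fun _ => v) l₁ (f v)
    have hcβ : ∀ m, β (c m) v := by
      intro m
      by_cases hm : m = l₁
      · subst hm
        show β (Function.update (fun _ => v) l₁ (f v) l₁) v
        rw [Function.update_self]
        exact β.symm hfv
      · show β (Function.update (fun _ => v) l₁ (f v) m) v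
        rw [Function.update_of_ne hm]
    have hcv : w (Function.update c l₀ v) = g (f v) := by
      have h1 : Function.update c l₀ v = Function.update (fun _ => v) l₁ (f v) := by
        funext m
        by_cases hm : m = l₀
        · subst hm
          rw [Function.update_self, Function.update_of_ne hl]
        · rw [Function.update_of_ne hm]
      rw [h1]
      exact hwnu.2 l₁ l₀ v (f v)
    obtain ⟨h1, h2⟩ := class_le hwnu hw hδ hC hδβ l₀ c (v := v) hcβ
    rw [hcv] at h2
    have hβg : β v (g (f v)) := by
      have := hβ g hg _ _ hfv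
      rwa [hgv] at this
    have hinj : Set.InjOn (fun x => w (Function.update c l₀ x)) {x | δ v x} :=
      fun x hx y hy hxy => h1 x y hx hy hxy
    have h3 : (fun x => w (Function.update c l₀ x)) '' {x | δ v x} = {x | δ (g (f v)) x} := by
      refine Set.eq_of_subset_of_ncard_le ?_ ?_ (Set.toFinite _)
      · rintro z ⟨x, hx, rfl⟩
        have := hδ _ (pol_upd hw c l₀) _ _ hx
        rwa [hcv] at this
      · rw [hinj.ncard_image]
        exact hv _ hβg
    have hfx : ∀ x, δ v x → ∃ x', δ v x' ∧ w (Function.update c l₀ x') = g (f x) := by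
      intro x hx
      have h4 : g (f x) ∈ {x | δ (g (f v)) x} := hδ _ (hg.comp hf) _ _ hx
      rw [← h3] at h4
      obtain ⟨x', hx', h5⟩ := h4
      exact ⟨x', hx', h5⟩
    obtain ⟨x', hx', h4⟩ := hfx x hx
    obtain ⟨y', hy', h5⟩ := hfx y hy
    rw [← h4, ← h5] at hxy
    have h6 : f x' = f y' := inj_w hwnu hw hC hδβ hf (δ.trans (δ.symm hx') hy') l₀ c
      (fun m => β.trans (hcβ m) (hδβ hx')) hxy
    have h7 := hfi x' y' hx' hy' h6
    rw [h7, h5] at h4
    exact hfi x y hx hy (hg1 (f x) (f y) (hδ f hf _ _ hx) (hδ f hf _ _ hy) h4.symm)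
  set k : A → A := fun x => f (g x) with hk
  have hkP : Pol1 θ k := hf.comp hg
  have hkf : (Set.range fun x => k (f x)) = k '' Set.range f := by
    ext z
    constructor
    · rintro ⟨x, rfl⟩
      exact ⟨f x, ⟨x, rfl⟩, rfl⟩
    · rintro ⟨-, ⟨x, rfl⟩, rfl⟩
      exact ⟨x, rfl⟩
  have hksub : k '' Set.range f ⊆ Set.range f := by
    rintro z ⟨x, -, rfl⟩
    exact ⟨g x, rfl⟩
  have hkv : β v (k (f v)) := by
    have h1 := hβ g hg _ _ hfv
    rw [hgv] at h1
    exact β.trans hfv (hβ f hf _ _ h1)
  have hkeq : k '' Set.range f = Set.range f := by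
    refine Set.eq_of_subset_of_ncard_le hksub ?_ (Set.toFinite _)
    rw [← hkf]
    exact hmin _ (hkP.comp hf) hkv hfgf
  have hkinj : Set.InjOn k (Set.range f) := by
    refine (Set.ncard_image_iff (Set.toFinite _)).1 ?_
    rw [hkeq]
  -- an iterate of `k` is the identity on the image
  let H : {x // x ∈ Set.range f} → {x // x ∈ Set.range f} :=
    fun x => ⟨k x.1, hksub ⟨x.1, x.2, rfl⟩⟩
  have hH : Function.Injective H := fun x y hxy =>
    Subtype.ext (hkinj x.2 y.2 (congrArg Subtype.val hxy))
  let σ : Equiv.Perm {x // x ∈ Set.range f} :=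
    Equiv.ofBijective H (Finite.injective_iff_bijective.1 hH)
  have hit : ∀ (m : ℕ) (x : {x // x ∈ Set.range f}), k^[m] x.1 = ((σ ^ m) x).1 := by
    intro m
    induction m with
    | zero => intro x; rfl
    | succ m ih =>
      intro x
      rw [Function.iterate_succ, Function.comp_apply, pow_succ, Equiv.Perm.mul_apply, ← ih (σ x)]
      rfl
  have hpos : 0 < orderOf σ := orderOf_pos σ
  set e : A → A := k^[orderOf σ] with he
  have heU : ∀ x, x ∈ Set.range f → e x = x := by
    intro x hx
    rw [he, hit _ ⟨x, hx⟩, pow_orderOf_eq_one]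
    rfl
  have heR : ∀ x, e x ∈ Set.range f := by
    intro x
    rw [he]
    obtain ⟨m, hm⟩ : ∃ m, orderOf σ = m + 1 := ⟨orderOf σ - 1, by omega⟩
    rw [hm, Function.iterate_succ_apply']
    exact ⟨g (k^[m] x), rfl⟩
  have heP : Pol1 θ e := hkP.iter _
  have hUe : ∀ x, e x = x → x ∈ Set.range f := fun x hx => hx ▸ heR x
  have hfinj : Set.InjOn f {x | δ v x} := fun x hx y hy hxy => hfi x y hx hy hxy
  have him : f '' {x | δ v x} = {x | δ (f v) x} := by
    refine Set.eq_of_subset_of_ncard_le ?_ ?_ (Set.toFinite _)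
    · rintro z ⟨x, hx, rfl⟩
      exact hδ f hf _ _ hx
    · rw [hfinj.ncard_image]
      exact hv _ hfv
  refine ⟨e, f, hf, fun x => heU _ ⟨x, rfl⟩, hfv, hfi, heP, fun x => heU _ (heR x), ?_, ?_, ?_⟩
  · intro u hu
    rw [← him, hfinj.ncard_image]
    exact hv u (β.trans hfv hu)
  · intro x hx
    have h1 : x ∈ {x | δ (f v) x} := hx
    rw [← him] at h1
    obtain ⟨y, -, rfl⟩ := h1
    exact heU _ ⟨y, rfl⟩
  · intro G hG heG hGv hGi
    have hGf : (Set.range fun x => G (f x)) = G '' Set.range f := by
      ext z
      constructor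
      · rintro ⟨x, rfl⟩
        exact ⟨f x, ⟨x, rfl⟩, rfl⟩
      · rintro ⟨-, ⟨x, rfl⟩, rfl⟩
        exact ⟨x, rfl⟩
    have hGinj : Set.InjOn G (Set.range f) := by
      refine (Set.ncard_image_iff (Set.toFinite _)).1
        (le_antisymm (Set.ncard_image_le (Set.toFinite _)) ?_)
      rw [← hGf]
      refine hmin _ (hG.comp hf) (β.trans hfv hGv) fun x y hx hy hxy => ?_
      exact hfi x y hx hy (hGi _ _ (hδ f hf _ _ hx) (hδ f hf _ _ hy) hxy)
    intro x y hx hy hxy
    exact hGinj (hUe x hx) (hUe y hy) hxy

section Retr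

variable {β δ : Setoid A} {e : A → A} {v : A}

theorem Retr.self (hR : Retr θ β δ e v) : e v = v := hR.fix v (δ.refl v)

/-- translates are permutations of the image of the retraction -/
theorem Retr.inj (hR : Retr θ β δ e v) (hwnu : IsWNU w) (hw : Pres θ w) (hβ : Inv θ β)
    (hC : Cen θ β δ) (hδβ : δ ≤ β) (l : Fin n) (c : Fin n → A) (hc : ∀ m, β (c m) v) :
    ∀ x y, e x = x → e y = y → e (w (Function.update c l x)) = e (w (Function.update c l y)) →
      x = y := by
  refine hR.min _ (hR.pol.comp (pol_upd hw c l)) (fun x => hR.idem _) ?_ ?_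
  · have h1 : β (w fun _ => v) (w (Function.update c l v)) := by
      refine inv_w hw hβ _ _ fun m => ?_
      by_cases hm : m = l
      · subst hm
        rw [Function.update_self]
      · rw [Function.update_of_ne hm]
        exact β.symm (hc m)
    have h2 := hβ e hR.pol _ _ h1
    rwa [hwnu.1, hR.self] at h2
  · intro x y hx hy hxy
    have h1 : e x = e y := inj_w hwnu hw hC hδβ hR.pol (δ.trans (δ.symm hx) hy) l c
      (fun m => β.trans (hc m) (hδβ hx)) hxy
    rwa [hR.fix x hx, hR.fix y hy] at h1

theorem Retr.permute [Finite A] (hR : Retr θ β δ e v) (hn : 2 ≤ n) (hwnu : IsWNU w)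
    (hw : Pres θ w) (hβ : Inv θ β) (hC : Cen θ β δ) (hδβ : δ ≤ β) {α α' : Setoid A}
    (hα : Inv θ α) (hα' : Inv θ α') {x c y : A} (hx : e x = x) (hc : e c = c) (hy : e y = y)
    (hcv : β c v) (hxc : α x c) (hcy : α' c y) : ∃ q, e q = q ∧ α' x q ∧ α q y := by
  classical
  let l₀ : Fin n := ⟨0, by omega⟩
  let l₁ : Fin n := ⟨1, by omega⟩
  have hl : l₀ ≠ l₁ := fun h => by
    have := congrArg Fin.val h
    simp [l₀, l₁] at this
  let h : A → A := fun s => e (w (Function.update (fun _ => c) l₀ s))
  obtain ⟨k, hk⟩ := exists_inverse (e := e) (h := h) (fun x => hR.idem _)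
    (hR.inj hwnu hw hβ hC hδβ l₀ (fun _ => c) fun _ => hcv)
  have hhc : h c = c := by
    show e (w (Function.update (fun _ => c) l₀ c)) = c
    have : Function.update (fun _ : Fin n => c) l₀ c = fun _ => c :=
      Function.update_eq_self l₀ (fun _ : Fin n => c)
    rw [this, hwnu.1, hc]
  have hkc : h^[k] c = c := by
    have := (hk c hc).2.2
    rwa [hhc] at this
  have q1 : ∀ s, e s = s → e (w fun m => if m = l₀ then h^[k] s else
      if m = l₁ then h^[k] c else c) = s := by
    intro s hs
    have h1 : (fun m => if m = l₀ then h^[k] s else if m = l₁ then h^[k] c else c) =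
        Function.update (fun _ => c) l₀ (h^[k] s) := by
      funext m
      by_cases hm : m = l₀
      · rw [if_pos hm, hm, Function.update_self]
      · rw [if_neg hm, Function.update_of_ne hm, hkc, ite_self]
    rw [h1]
    exact (hk s hs).2.1
  have q2 : ∀ s, e s = s → e (w fun m => if m = l₀ then h^[k] c else
      if m = l₁ then h^[k] s else c) = s := by
    intro s hs
    have h1 : (fun m => if m = l₀ then h^[k] c else if m = l₁ then h^[k] s else c) =
        Function.update (fun _ => c) l₁ (h^[k] s) := by
      funext m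
      by_cases hm : m = l₁
      · rw [hm, Function.update_self, if_neg hl.symm, if_pos rfl]
      · rw [Function.update_of_ne hm, if_neg hm, hkc, ite_self]
    rw [h1, hwnu.2 l₁ l₀ c _]
    exact (hk s hs).2.1
  have hh : Pol1 θ (h^[k]) := (hR.pol.comp (pol_upd hw _ _)).iter k
  refine ⟨e (w fun m => if m = l₀ then h^[k] x else if m = l₁ then h^[k] y else c),
    hR.idem _, ?_, ?_⟩
  · have h1 : α' (w fun m => if m = l₀ then h^[k] x else if m = l₁ then h^[k] c else c)
        (w fun m => if m = l₀ then h^[k] x else if m = l₁ then h^[k] y else c) := by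
      refine inv_w hw hα' _ _ fun m => ?_
      by_cases hm : m = l₀
      · simp only [if_pos hm]
        exact α'.refl _
      · simp only [if_neg hm]
        by_cases hm' : m = l₁
        · simp only [if_pos hm']
          exact hα' _ hh _ _ hcy
        · simp only [if_neg hm']
          exact α'.refl _
    have h2 := hα' e hR.pol _ _ h1
    rwa [q1 x hx] at h2
  · have h1 : α (w fun m => if m = l₀ then h^[k] x else if m = l₁ then h^[k] y else c)
        (w fun m => if m = l₀ then h^[k] c else if m = l₁ then h^[k] y else c) := by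
      refine inv_w hw hα _ _ fun m => ?_
      by_cases hm : m = l₀
      · simp only [if_pos hm]
        exact hα _ hh _ _ hxc
      · simp only [if_neg hm]
        exact α.refl _
    have h2 := hα e hR.pol _ _ h1
    rwa [q2 y hy] at h2

/-- joins are compositions on the image of the retraction -/
theorem Retr.decomp [Finite A] (hR : Retr θ β δ e v) (hn : 2 ≤ n) (hwnu : IsWNU w)
    (hw : Pres θ w) (hβ : Inv θ β) (hC : Cen θ β δ) (hδβ : δ ≤ β) {α α' : Setoid A}
    (hα : Inv θ α) (hα' : Inv θ α') (hαβ : α ≤ β) (hαβ' : α' ≤ β) {x z : A} (hx : e x = x)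
    (hz : e z = z) (hxv : β x v) (hxz : (α ⊔ α') x z) : ∃ y, e y = y ∧ α x y ∧ α' y z := by
  have hev : ∀ {c}, β c v → β (e c) v := fun {c} hc => by
    have := hβ e hR.pol _ _ hc
    rwa [hR.self] at this
  let W : Setoid A := ⟨fun c c' => β c c' ∧
      (β c v → ∃ y, e y = y ∧ α (e c) y ∧ α' y (e c')),
    fun c => ⟨β.refl c, fun _ => ⟨e c, hR.idem c, α.refl _, α'.refl _⟩⟩, by
      rintro c c' ⟨h1, h2⟩
      refine ⟨β.symm h1, fun h3 => ?_⟩
      obtain ⟨y, hy, h4, h5⟩ := h2 (β.trans h1 h3)
      have h6 : β y v := β.trans (β.symm (hαβ h4)) (hev (β.trans h1 h3))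
      exact hR.permute hn hwnu hw hβ hC hδβ hα' hα (hR.idem c') hy (hR.idem c) h6
        (α'.symm h5) (α.symm h4), by
      rintro c c' c'' ⟨h1, h2⟩ ⟨h3, h4⟩
      refine ⟨β.trans h1 h3, fun h5 => ?_⟩
      obtain ⟨y, hy, h6, h7⟩ := h2 h5
      have h10 : β c' v := β.trans (β.symm h1) h5
      obtain ⟨y', hy', h8, h9⟩ := h4 h10
      obtain ⟨q, hq, h11, h12⟩ := hR.permute hn hwnu hw hβ hC hδβ hα' hα hy (hR.idem c') hy'
        (hev h10) h7 h8
      exact ⟨q, hq, α.trans h6 h11, α'.trans h12 h9⟩⟩
  have hW : α ⊔ α' ≤ W := by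
    refine sup_le (fun c c' h => ⟨hαβ h, fun _ => ?_⟩) (fun c c' h => ⟨hαβ' h, fun _ => ?_⟩)
    · exact ⟨e c', hR.idem c', hα e hR.pol _ _ h, α'.refl _⟩
    · exact ⟨e c, hR.idem c, α.refl _, hα' e hR.pol _ _ h⟩
  have h1 := (hW hxz).2 hxv
  rw [hx, hz] at h1
  exact h1

end Retr

end Pool.Agent.U422.Tame
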