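import Pool.Agent.U422.TNon

/-!
# The bound for relations closed under weak near unanimity operations, without linearity
-/

set_option autoImplicit false

namespace Pool.Agent.U422.TLat

open Finset Pool.Agent.R181.Maj Pool.Agent.U422.Gumm Pool.Agent.U422.Taylor

section Mult

variable {X : Fin 3 → Type} [∀ i, DecidableEq (X i)] {E : Finset (∀ i, X i)}

/-- there are few elements with two given coordinates -/
theorem mult {e : ℕ} (hsp : ∀ S : Finset (Sigma X), #S = e + 3 → #(ins E S) < e) {i j : Fin 3}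
    (hij : i ≠ j) (p : X i) (q : X j) : #(E.filter fun a => a i = p ∧ a j = q) ≤ e := by
  classical
  by_contra hcon
  push Not at hcon
  obtain ⟨T, hT, hTe⟩ := exists_subset_card_eq
    (show e + 1 ≤ #(E.filter fun a => a i = p ∧ a j = q) by omega)
  obtain ⟨l, hli, hlj⟩ := third i j hij
  have hT' : ∀ a ∈ T, a ∈ E ∧ a i = p ∧ a j = q := fun a ha => mem_filter.1 (hT ha)
  have h1 : #(T.image fun a => (⟨l, a l⟩ : Sigma X)) = e + 1 := by
    rw [card_image_of_injOn, hTe]
    intro a ha b hb hab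
    have h2 : a l = b l := eq_of_heq (Sigma.mk.inj hab).2
    obtain ⟨-, h3, h4⟩ := hT' a ha
    obtain ⟨-, h5, h6⟩ := hT' b hb
    funext m
    rcases cases_third i j l m hij hli hlj with rfl | rfl | rfl
    · rw [h3, h5]
    · rw [h4, h6]
    · exact h2
  have h2 : (⟨j, q⟩ : Sigma X) ∉ T.image fun a => (⟨l, a l⟩ : Sigma X) := by
    rw [mem_image]
    rintro ⟨a, -, h⟩
    exact sigma_ne hlj h
  have h3 : (⟨i, p⟩ : Sigma X) ∉ insert (⟨j, q⟩ : Sigma X)
      (T.image fun a => (⟨l, a l⟩ : Sigma X)) := by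
    rw [mem_insert, mem_image]
    rintro (h | ⟨a, -, h⟩)
    · exact sigma_ne hij h
    · exact sigma_ne hli h
  have h4 := hsp (insert ⟨i, p⟩ (insert (⟨j, q⟩ : Sigma X)
    (T.image fun a => (⟨l, a l⟩ : Sigma X)))) (by
      rw [card_insert_of_notMem h3, card_insert_of_notMem h2, h1])
  have h5 : T ⊆ ins E (insert ⟨i, p⟩ (insert (⟨j, q⟩ : Sigma X)
      (T.image fun a => (⟨l, a l⟩ : Sigma X)))) := by
    intro a ha
    obtain ⟨h6, h7, h8⟩ := hT' a ha
    rw [mem_ins]
    refine ⟨h6, fun m => ?_⟩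
    rcases cases_third i j l m hij hli hlj with rfl | rfl | rfl
    · rw [h7]
      exact mem_insert_self _ _
    · rw [h8]
      exact mem_insert_of_mem (mem_insert_self _ _)
    · exact mem_insert_of_mem (mem_insert_of_mem (mem_image_of_mem _ ha))
  have h6 := card_le_card h5
  omega

/-- a large linear subset -/
theorem exists_lin {e : ℕ} (hsp : ∀ S : Finset (Sigma X), #S = e + 3 → #(ins E S) < e) :
    ∃ F ⊆ E, Lin (F : Set (∀ i, X i)) ∧ #E ≤ 3 * e * #F := by
  classical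
  obtain ⟨F, hF, hmax⟩ := exists_max_image
    (E.powerset.filter fun F : Finset (∀ i, X i) => Lin (F : Set (∀ i, X i))) card ⟨∅, by
      rw [mem_filter]
      refine ⟨empty_mem_powerset _, ?_⟩
      intro a ha
      rw [coe_empty] at ha
      exact absurd ha (Set.notMem_empty a)⟩
  rw [mem_filter, mem_powerset] at hF
  refine ⟨F, hF.1, hF.2, ?_⟩
  have hcov : ∀ a ∈ E, ∃ b ∈ F, ∃ i j : Fin 3, i < j ∧ a i = b i ∧ a j = b j := by
    intro a ha
    have hex : ∃ b ∈ F, ∃ i j : Fin 3, i ≠ j ∧ a i = b i ∧ a j = b j := by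
      by_cases haF : a ∈ F
      · exact ⟨a, haF, 0, 1, by decide, rfl, rfl⟩
      by_contra hno
      push Not at hno
      have h1 : Lin ((insert a F : Finset (∀ i, X i)) : Set (∀ i, X i)) := by
        intro b hb c hc i j hij h2 h3
        rw [mem_coe, mem_insert] at hb hc
        rcases hb with rfl | hb <;> rcases hc with rfl | hc
        · rfl
        · exact absurd h3 (hno c hc i j hij h2)
        · exact absurd h3.symm (hno b hb i j hij h2.symm)
        · exact hF.2 b (mem_coe.2 hb) c (mem_coe.2 hc) i j hij h2 h3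
      have h2 := hmax (insert a F) (by
        rw [mem_filter, mem_powerset]
        exact ⟨insert_subset_iff.2 ⟨ha, hF.1⟩, h1⟩)
      rw [card_insert_of_notMem haF] at h2
      omega
    obtain ⟨b, hb, i, j, hij, h1, h2⟩ := hex
    rcases lt_or_gt_of_ne hij with h | h
    · exact ⟨b, hb, i, j, h, h1, h2⟩
    · exact ⟨b, hb, j, i, h, h2, h1⟩
  let P : Finset (Fin 3 × Fin 3) := univ.filter fun x => x.1 < x.2
  have hP : #P = 3 := by decide
  have hsub : E ⊆ F.biUnion fun b => P.biUnion fun x =>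
      E.filter fun a => a x.1 = b x.1 ∧ a x.2 = b x.2 := by
    intro a ha
    obtain ⟨b, hb, i, j, hij, h1, h2⟩ := hcov a ha
    rw [mem_biUnion]
    refine ⟨b, hb, ?_⟩
    rw [mem_biUnion]
    exact ⟨(i, j), mem_filter.2 ⟨mem_univ _, hij⟩, mem_filter.2 ⟨ha, h1, h2⟩⟩
  have h1 : ∀ b ∈ F, #(P.biUnion fun x => E.filter fun a => a x.1 = b x.1 ∧ a x.2 = b x.2) ≤
      3 * e := by
    intro b _
    refine card_biUnion_le.trans ?_
    have h2 := sum_le_card_nsmul P (fun x => #(E.filter fun a => a x.1 = b x.1 ∧ a x.2 = b x.2)) e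
      fun x hx => mult hsp (ne_of_lt (mem_filter.1 hx).2) _ _
    rwa [hP, smul_eq_mul] at h2
  calc #E ≤ _ := card_le_card hsub
    _ ≤ ∑ b ∈ F, #(P.biUnion fun x => E.filter fun a => a x.1 = b x.1 ∧ a x.2 = b x.2) :=
        card_biUnion_le
    _ ≤ #F • (3 * e) := sum_le_card_nsmul _ _ _ h1
    _ = 3 * e * #F := by rw [smul_eq_mul, mul_comm]

end Mult

/-- **Sparse relations closed under weak near unanimity operations.** -/
theorem wnu_bound' (ε : ℝ) (hε : 0 < ε) (e : ℕ) : ∃ n₀ : ℕ, ∀ (X : Fin 3 → Type)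
    [∀ i, Fintype (X i)] [∀ i, DecidableEq (X i)] (E : Finset (∀ i, X i)) (k : ℕ)
    (t : ∀ i, (Fin k → X i) → X i), 2 ≤ k → (∀ i, IsWNU (t i)) → Cl (E : Set (∀ i, X i)) t →
    (∀ S : Finset (Sigma X), #S = e + 3 → #(ins E S) < e) →
    ∀ n : ℕ, n₀ ≤ n → ∑ i, Fintype.card (X i) ≤ n → (#E : ℝ) ≤ ε * (n : ℝ) ^ 2 := by
  have hε' : 0 < ε / (3 * e + 1) := by positivity
  obtain ⟨n₀, hn₀⟩ := lin_bound (ε / (3 * e + 1)) hε' (e + 3)
  refine ⟨n₀, ?_⟩
  intro X _ _ E k t hk ht hE hsp n hn hcard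
  obtain ⟨F, hFE, hlin, hF⟩ := exists_lin hsp
  have h1 := hn₀ X F hlin (fun a ha => by
    refine le_trans (card_le_card fun z hz => ?_) (good_small' hk ht hE hsp (hFE ha))
    rw [good, mem_filter] at hz ⊢
    obtain ⟨h1, ⟨b, hb, hb'⟩, ⟨c, hc, hc'⟩, h2⟩ := hz
    exact ⟨h1, ⟨b, hFE hb, hb'⟩, ⟨c, hFE hc, hc'⟩, h2⟩) n hn hcard
  have h2 : (#E : ℝ) ≤ 3 * e * #F := by exact_mod_cast hF
  have h3 : (3 : ℝ) * e * #F ≤ 3 * e * (ε / (3 * e + 1) * (n : ℝ) ^ 2) :=
    mul_le_mul_of_nonneg_left h1 (by positivity)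
  have h4 : (3 : ℝ) * e * (ε / (3 * e + 1) * (n : ℝ) ^ 2) =
      (3 * e / (3 * e + 1)) * (ε * (n : ℝ) ^ 2) := by ring
  have h5 : (3 : ℝ) * e / (3 * e + 1) ≤ 1 := by
    rw [div_le_one (by positivity)]
    linarith
  have h6 : (3 * (e : ℝ) / (3 * e + 1)) * (ε * (n : ℝ) ^ 2) ≤ 1 * (ε * (n : ℝ) ^ 2) :=
    mul_le_mul_of_nonneg_right h5 (by positivity)
  linarith

theorem rel_bound' (r : ℕ) (hr : 3 ≤ r) (e : ℕ) (ε : ℝ) (hε : 0 < ε) : ∃ n₀ : ℕ,
    ∀ (X : Fin r → Type) [∀ i, Fintype (X i)] [∀ i, DecidableEq (X i)] (E : Finset (∀ i, X i))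
      (k : ℕ) (t : ∀ i, (Fin k → X i) → X i), 2 ≤ k → (∀ i, IsWNU (t i)) →
      Cl (E : Set (∀ i, X i)) t →
      (∀ T ⊆ E, #T = e → (r - 2) * e + 3 < ∑ i, #(T.image fun x => x i)) →
      ∀ n : ℕ, n₀ ≤ n → ∑ i : Fin 3, Fintype.card (X (Fin.castLE hr i)) ≤ n →
      (#E : ℝ) ≤ ε * (n : ℝ) ^ 2 := by
  classical
  have hε' : 0 < ε / (e + 1) := by positivity
  obtain ⟨n₀, hn₀⟩ := wnu_bound' (ε / (e + 1)) hε' e
  refine ⟨n₀, ?_⟩
  intro X _ _ E k t hk ht hE hsp n hn hcard
  have hmem : ∀ a', a' ∈ E.image (pr3 hr) ↔ ∃ a ∈ E, pr3 hr a = a' := fun a' => mem_image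
  have hre : (r - 2) * e = (r - 3) * e + e := by
    obtain ⟨m, rfl⟩ : ∃ m, r = m + 3 := ⟨r - 3, by omega⟩
    rw [show m + 3 - 2 = m + 1 by omega, show m + 3 - 3 = m by omega]
    ring
  have h1 := hn₀ (fun i => X (Fin.castLE hr i)) (E.image (pr3 hr)) k
    (fun i => t (Fin.castLE hr i)) hk (fun i => ht _) ?_ ?_ n hn hcard
  · -- the fibres
    have hfib : ∀ a' ∈ E.image (pr3 hr), #(E.filter fun a => pr3 hr a = a') ≤ e := by
      intro a' _
      by_contra hcon
      push Not at hcon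
      obtain ⟨T, hT, hTe⟩ := exists_subset_card_eq hcon.le
      have h2 := hsp T (hT.trans (filter_subset _ _)) hTe
      have h3 : ∑ i : Fin 3, #(T.image fun x => x (Fin.castLE hr i)) ≤ 3 := by
        have h4 : ∀ i : Fin 3, #(T.image fun x => x (Fin.castLE hr i)) ≤ 1 := by
          intro i
          rw [card_le_one]
          intro x hx y hy
          obtain ⟨a, ha, rfl⟩ := mem_image.1 hx
          obtain ⟨b, hb, rfl⟩ := mem_image.1 hy
          have h5 : pr3 hr a = a' := (mem_filter.1 (hT ha)).2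
          have h6 : pr3 hr b = a' := (mem_filter.1 (hT hb)).2
          exact congrFun (h5.trans h6.symm) i
        have h5 := sum_le_card_nsmul univ (fun i : Fin 3 => #(T.image fun x =>
          x (Fin.castLE hr i))) 1 fun i _ => h4 i
        rw [card_univ, Fintype.card_fin, smul_eq_mul, mul_one] at h5
        exact h5
      have h5 := sum_split hr (fun i => #(T.image fun x => x i)) e 3
        (fun i => card_image_le.trans hTe.le) h3
      have h7 : ∑ i, #(T.image fun x => x i) ≤ (r - 3) * e + 3 := h5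
      omega
    have h2 : #E ≤ e * #(E.image (pr3 hr)) := by
      rw [card_eq_sum_card_image (pr3 hr) E]
      refine (sum_le_card_nsmul _ _ e hfib).trans ?_
      rw [smul_eq_mul, mul_comm]
    have h3 : (#E : ℝ) ≤ e * #(E.image (pr3 hr)) := by exact_mod_cast h2
    have h4 : (e : ℝ) * #(E.image (pr3 hr)) ≤ e * (ε / (e + 1) * (n : ℝ) ^ 2) :=
      mul_le_mul_of_nonneg_left h1 (by positivity)
    have h5 : (e : ℝ) * (ε / (e + 1) * (n : ℝ) ^ 2) = (e / (e + 1)) * (ε * (n : ℝ) ^ 2) := by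
      ring
    have h6 : (e : ℝ) / (e + 1) ≤ 1 := by
      rw [div_le_one (by positivity)]
      linarith
    have h7 : ((e : ℝ) / (e + 1)) * (ε * (n : ℝ) ^ 2) ≤ 1 * (ε * (n : ℝ) ^ 2) :=
      mul_le_mul_of_nonneg_right h6 (by positivity)
    linarith
  · intro a ha
    have h2 : ∀ j, ∃ b ∈ E, pr3 hr b = a j := fun j => (hmem _).1 (mem_coe.1 (ha j))
    choose b hb hb' using h2
    rw [mem_coe, hmem]
    refine ⟨_, hE b fun j => mem_coe.2 (hb j), ?_⟩
    funext i
    show t (Fin.castLE hr i) (fun j => b j (Fin.castLE hr i)) = t (Fin.castLE hr i) fun j => a j i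
    congr 1
    funext j
    exact congrFun (hb' j) i
  · intro S hS
    by_contra hcon
    push Not at hcon
    obtain ⟨T', hT', hTe⟩ := exists_subset_card_eq hcon
    have hlift : ∀ a' : (∀ i : Fin 3, X (Fin.castLE hr i)), a' ∈ T' → ∃ a ∈ E, pr3 hr a = a' :=
      fun a' ha' => (hmem a').1 (mem_ins.1 (hT' ha')).1
    choose f hf hf' using hlift
    have hinj : Function.Injective fun x : T' => f x.1 x.2 := by
      intro a b hab
      have h2 : f a.1 a.2 = f b.1 b.2 := hab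
      refine Subtype.ext ?_
      rw [← hf' a.1 a.2, ← hf' b.1 b.2, h2]
    have hTT : (T'.attach.image fun x : T' => f x.1 x.2).image (pr3 hr) = T' := by
      ext a'
      rw [mem_image]
      constructor
      · rintro ⟨a, ha, rfl⟩
        obtain ⟨b, -, rfl⟩ := mem_image.1 ha
        rw [hf' b.1 b.2]
        exact b.2
      · intro ha'
        exact ⟨f a' ha', mem_image.2 ⟨⟨a', ha'⟩, mem_attach _ _, rfl⟩, hf' a' ha'⟩
    obtain ⟨T, hT⟩ : ∃ T : Finset (∀ i, X i), T = T'.attach.image fun x : T' => f x.1 x.2 :=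
      ⟨_, rfl⟩
    rw [← hT] at hTT
    have hTE : T ⊆ E := by
      intro a ha
      rw [hT] at ha
      obtain ⟨b, -, rfl⟩ := mem_image.1 ha
      exact hf b.1 b.2
    have hTc : #T = e := by
      rw [hT, card_image_of_injective _ hinj, card_attach, hTe]
    have h2 := hsp T hTE hTc
    have h3 : ∑ i, #(T'.image fun x => x i) ≤ e + 3 := by
      rw [← hS]
      refine sum_image_le T' S fun a ha => ?_
      have h4 := hT' ha
      rw [mem_ins] at h4
      exact h4.2
    have h4 : ∑ i : Fin 3, #(T.image fun x => x (Fin.castLE hr i)) ≤ e + 3 := by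
      refine le_trans (le_of_eq (sum_congr rfl fun i _ => ?_)) h3
      rw [← hTT, image_image]
      rfl
    have h5 := sum_split hr (fun i => #(T.image fun x => x i)) e (e + 3)
      (fun i => card_image_le.trans hTc.le) h4
    have h7 : ∑ i, #(T.image fun x => x i) ≤ (r - 3) * e + (e + 3) := h5
    omega

theorem piece_bound' (r : ℕ) (hr : 3 ≤ r) (e : ℕ) (ε : ℝ) (hε : 0 < ε) : ∃ n₀ : ℕ,
    ∀ (V : Type) [Fintype V] (H F : Set (Finset V)), n₀ ≤ Fintype.card V → WNUPiece r F →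
    F ⊆ H → SpanMore H e ((r - 2) * e + 3) →
    (F.ncard : ℝ) ≤ ε * (Fintype.card V : ℝ) ^ 2 := by
  classical
  obtain ⟨n₀, hn₀⟩ := rel_bound' r hr e ε hε
  refine ⟨n₀, ?_⟩
  intro V _ H F hn hF hFH hsp
  obtain ⟨X, v, E, k, t, hk, ht, hv, hE, rfl⟩ := hF
  have hfi : ∀ i, Function.Injective fun a : X i => v ⟨i, a⟩ := fun i a b hab =>
    eq_of_heq (Sigma.mk.inj (hv hab)).2
  have : ∀ i, Finite (X i) := fun i => Finite.of_injective _ (hfi i)
  let _ : ∀ i, Fintype (X i) := fun i => Fintype.ofFinite (X i)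
  have h1 := hn₀ X E.toFinset k t hk ht (by rwa [Set.coe_toFinset]) (by
      intro T hT hTe
      have h2 := hsp (T.image (edge v)) (by
        rw [coe_image]
        rintro a ⟨x, hx, rfl⟩
        exact hFH ⟨x, Set.mem_toFinset.1 (hT (mem_coe.1 hx)), rfl⟩)
        (by rw [card_image_of_injective _ (edge_injective hv), hTe])
      rwa [union_eq hv] at h2) (Fintype.card V) hn (by
      rw [← Fintype.card_sigma]
      refine Fintype.card_le_of_injective
        (fun y : Σ i : Fin 3, X (Fin.castLE hr i) => v ⟨Fin.castLE hr y.1, y.2⟩) ?_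
      rintro ⟨i, y⟩ ⟨j, z⟩ h
      have h3 := hv h
      rw [Sigma.mk.injEq] at h3
      obtain ⟨h4, h5⟩ := h3
      have h6 : i = j := Fin.castLE_injective hr h4
      subst h6
      have h7 : y = z := eq_of_heq h5
      rw [h7])
  rw [Set.ncard_image_of_injective _ (edge_injective hv), Set.ncard_eq_toFinset_card']
  exact h1

end Pool.Agent.U422.TLat
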