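import Pool.Agent.U422.TameBound

/-!
# Projections of sets closed under weak near unanimity operations in torsion-free groups
-/

set_option autoImplicit false

namespace Pool.Agent.U422.Tame

open Finset Pool.Agent.U422.Kak Pool.Agent.U422.Taylor

section Closed

variable {n : ℕ} {G : Type} {Y : Fin (n + 1) → Type}

/-- `A` is closed under weak near unanimity operations on the images of the maps `π i`. -/
def WClosed (π : ∀ i, G → Y i) (A : Finset G) : Prop :=
  ∃ (k : ℕ) (t : ∀ i, (Fin k → Y i) → Y i), 2 ≤ k ∧ (∀ i, IsWNU (t i)) ∧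
    ∀ a : Fin k → G, (∀ j, a j ∈ A) → ∃ d ∈ A, ∀ i, π i d = t i fun j => π i (a j)

/-- the kernels of the maps on `A` -/
def ker (π : ∀ i, G → Y i) (A : Finset G) (i : Fin (n + 1)) : Setoid {x // x ∈ A} :=
  Setoid.ker fun a : {x // x ∈ A} => π i a.1

/-- the induced operation on `A` -/
theorem exists_op (π : ∀ i, G → Y i) {A : Finset G}
    (hinj : ∀ a ∈ A, ∀ b ∈ A, (∀ i, π i a = π i b) → a = b) (hA : WClosed π A) :
    ∃ (k : ℕ) (w : (Fin k → {x // x ∈ A}) → {x // x ∈ A}), 2 ≤ k ∧ IsWNU w ∧ Pres (ker π A) w := by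
  obtain ⟨k, t, hk, ht, hcl⟩ := hA
  choose F hF1 hF2 using fun a : Fin k → {x // x ∈ A} => hcl (fun j => (a j).1) fun j => (a j).2
  let w : (Fin k → {x // x ∈ A}) → {x // x ∈ A} := fun a => ⟨F a, hF1 a⟩
  have hw : ∀ a i, π i (w a).1 = t i fun j => π i (a j).1 := fun a i => hF2 a i
  have hext : ∀ x y : {x // x ∈ A}, (∀ i, π i x.1 = π i y.1) → x = y := fun x y h =>
    Subtype.ext (hinj x.1 x.2 y.1 y.2 h)
  have hupd : ∀ (x y : {x // x ∈ A}) (l : Fin k) i,
      (fun j => π i (Function.update (fun _ => x) l y j).1) =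
        Function.update (fun _ => π i x.1) l (π i y.1) := by
    intro x y l i
    funext j
    by_cases hj : j = l
    · subst hj
      rw [Function.update_self, Function.update_self]
    · rw [Function.update_of_ne hj, Function.update_of_ne hj]
  refine ⟨k, w, hk, ⟨fun x => hext _ _ fun i => ?_, fun l m x y => hext _ _ fun i => ?_⟩, ?_⟩
  · rw [hw, (ht i).1]
  · rw [hw, hw, hupd, hupd]
    exact (ht i).2 l m _ _
  · intro i x y hxy
    show π i (w x).1 = π i (w y).1
    rw [hw, hw]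
    exact congrArg (t i) (funext fun l => hxy l)

end Closed

section Group

variable {n : ℕ} {G : Type} [AddCommGroup G] {Y : Fin (n + 1) → Type} [∀ i, AddCommGroup (Y i)]
  (π : ∀ i, G →+ Y i)

/-- **Independence** of the kernels of the projections for sets closed under weak near unanimity
operations. -/
theorem wnu_indep (htf : ∀ (k : ℕ) (v : G), k ≠ 0 → k • v = 0 → v = 0)
    (hπ : ∀ i j, i ≠ j → ∀ v, π i v = 0 → π j v = 0 → v = 0) {A : Finset G} {k : ℕ}
    {w : (Fin k → {x // x ∈ A}) → {x // x ∈ A}} (hk : 2 ≤ k) (hwnu : IsWNU w)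
    (hw : Pres (ker (fun i => π i) A) w) (i : Fin (n + 1)) :
    ker (fun i => π i) A i ⊓ psi (ker (fun i => π i) A) i ≤ ⊥ := by
  classical
  set θ : Fin (n + 1) → Setoid {x // x ∈ A} := ker (fun i => π i) A with hθ
  have hbot : ∀ i j, i ≠ j → θ i ⊓ θ j ≤ ⊥ := by
    intro i j hij x y hxy
    have e1 : π i x.1 = π i y.1 := hxy.1
    have e2 : π j x.1 = π j y.1 := hxy.2
    have h1 := hπ i j hij (x.1 - y.1) (by rw [map_sub, e1, sub_self]) (by rw [map_sub, e2, sub_self])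
    exact Subtype.ext (sub_eq_zero.1 h1)
  intro x y hxy
  by_contra hne
  obtain ⟨δ, e, hM, hδμ⟩ := exists_minSet (inv_inf (inv_self θ i) (inv_fsup θ (univ.erase i)))
    ⟨x, y, hxy, hne⟩
  obtain ⟨a, b, ha, hb, hab, hne'⟩ := hM.exists_pair
  have hδi : ∀ {c d}, δ c d → θ i c d := fun h => (hδμ h).1
  have hJ : ∀ j ∈ univ.erase i, θ j ⊓ δ ≤ ⊥ := fun j hj c d hcd =>
    hbot j i (mem_erase.1 hj).1 ⟨hcd.1, hδi hcd.2⟩
  have hδJ : δ ≤ (univ.erase i).sup θ := fun c d hcd => (hδμ hcd).2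
  set v : G := b.1 - a.1 with hv
  have hv0 : v ≠ 0 := fun h => hne' (Subtype.ext (sub_eq_zero.1 h).symm)
  have hiv : π i v = 0 := by
    have h1 : π i a.1 = π i b.1 := hδi hab
    rw [hv, map_sub, h1, sub_self]
  let Q : {x // x ∈ A} → Prop := fun c => e c = c ∧ ∃ d : {x // x ∈ A}, e d = d ∧ d.1 = c.1 + v ∧
    δ c d
  have hQa : Q a := ⟨ha, b, hb, by rw [hv]; abel, hab⟩
  have hQe : ∀ c, Q c → e c = c := fun c h => h.1
  have hstep : ∀ j, j ≠ i → ∀ c c', e c = c → e c' = c' → θ j c c' → Q c → Q c' := by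
    rintro j hj c c' hc hc' hcc ⟨-, d, hd, hdv, hcd⟩
    have hcd' : c ≠ d := by
      rintro rfl
      exact hv0 (left_eq_add.1 hdv)
    obtain ⟨q, h1, h2, h3⟩ := hM.plus hk hwnu hw hJ hδJ hc ⟨d, hd, hcd', hcd⟩
    have e1 : δ (q d c') c' := by
      have := h3 δ hM.inv d c c' c' (δ.symm hcd) (δ.refl _)
      rwa [(h2 c' hc').2] at this
    have e2 : π j (q d c').1 = π j d.1 := by
      have := h3 (θ j) (inv_self θ j) d d c' c ((θ j).refl _) ((θ j).symm hcc)
      rw [(h2 d hd).1] at this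
      exact this
    have e3 : π i (q d c').1 = π i c'.1 := hδi e1
    have e4 : π j c.1 = π j c'.1 := hcc
    refine ⟨hc', q d c', h1 _ _, ?_, δ.symm e1⟩
    have h4 := hπ i j hj.symm ((q d c').1 - (c'.1 + v))
      (by rw [map_sub, map_add, e3, hiv, add_zero, sub_self])
      (by rw [map_sub, map_add, e2, hdv, map_add, e4, sub_self])
    exact sub_eq_zero.1 h4
  let W : Setoid {x // x ∈ A} := ⟨fun c c' => (Q (e c) ↔ Q (e c')), fun _ => Iff.rfl,
    fun h => h.symm, fun h h' => h.trans h'⟩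
  have hW : psi θ i ≤ W := by
    refine Finset.sup_le fun j hj c c' hcc => ?_
    have hji := (mem_erase.1 hj).1
    exact ⟨hstep j hji _ _ (hM.idem c) (hM.idem c') (hM.pol j _ _ hcc),
      hstep j hji _ _ (hM.idem c') (hM.idem c) (hM.pol j _ _ ((θ j).symm hcc))⟩
  refine hv0 (no_shift htf v (fun c => ∃ h : c ∈ A, Q ⟨c, h⟩) (A := A) (a := a.1) ⟨a.2, hQa⟩ ?_
    fun c hc => hc.1)
  rintro c ⟨hcA, hc, d, hd, hdv, hcd⟩
  have h1 : Q (e ⟨c, hcA⟩) ↔ Q (e d) := hW (hδJ hcd)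
  rw [hc, hd] at h1
  have h2 : Q d := h1.1 ⟨hc, d, hd, hdv, hcd⟩
  have h3 : c + v = d.1 := hdv.symm
  rw [h3]
  exact ⟨d.2, h2⟩

/-- **The bound.** -/
theorem wnu_bound [∀ i, DecidableEq (Y i)]
    (htf : ∀ (k : ℕ) (v : G), k ≠ 0 → k • v = 0 → v = 0)
    (hπ : ∀ i j, i ≠ j → ∀ v, π i v = 0 → π j v = 0 → v = 0) (hn : 1 ≤ n) {A : Finset G}
    (hA : WClosed (fun i => π i) A) : #A ^ n ≤ ∏ i, #(A.image (π i)) := by
  classical
  rcases A.eq_empty_or_nonempty with rfl | hne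
  · rw [card_empty, zero_pow (by omega)]
    exact Nat.zero_le _
  have hne' : (univ : Finset {x // x ∈ A}).Nonempty := by
    obtain ⟨a, ha⟩ := hne
    exact ⟨⟨a, ha⟩, mem_univ _⟩
  have h01 : (0 : Fin (n + 1)) ≠ Fin.last n := by
    intro h
    have := congrArg Fin.val h
    simp at this
    omega
  obtain ⟨k, w, hk, hwnu, hw⟩ := exists_op (fun i => π i) (fun a _ b _ h => by
    have h1 := hπ 0 (Fin.last n) h01 (a - b) (by rw [map_sub, h, sub_self])
      (by rw [map_sub, h, sub_self])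
    exact sub_eq_zero.1 h1) hA
  have h := lw_bound (A := {x // x ∈ A}) (fun i a => π i a.1) hne' fun x y hxy =>
    wnu_modular hk hwnu hw (wnu_indep π htf hπ hk hwnu hw) 0 hxy
  rw [card_univ, Fintype.card_coe] at h
  refine h.trans (prod_le_prod' fun i _ => card_le_card fun y hy => ?_)
  obtain ⟨a, -, rfl⟩ := mem_image.1 hy
  exact mem_image_of_mem _ a.2

end Group

end Pool.Agent.U422.Tame
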