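import Pool.Agent.U422.CentStar
import Pool.Agent.U422.TameGroup
import Pool.Agent.U422.TNonBound

/-!
# The bound `|E|² ≤ (s + 1)⁴ |X 0| |X 1| |X 2|`
-/

set_option autoImplicit false

namespace Pool.Agent.U422.Tame

open Finset Pool.Agent.U422.Kak Pool.Agent.U422.Taylor Pool.Agent.R181.Maj Pool.Agent.R181.LW

section Rho

variable {A ι : Type} {n : ℕ} {θ : ι → Setoid A} {w : (Fin n → A) → A} [Finite A]

/-- The classes of the intersection of the three joins are small. -/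
theorem rho_bound (hn : 2 ≤ n) (hwnu : IsWNU w) (hw : Pres θ w) {i j l : ι}
    (hij : θ i ⊓ θ j ≤ ⊥) (hil : θ i ⊓ θ l ≤ ⊥) (hjl : θ j ⊓ θ l ≤ ⊥) (S : ℕ)
    (hS : ∀ a, {y | ∃ p, (θ i a p ∧ ∃ c, θ j a c ∧ θ l c p) ∧
      (θ j p y ∧ ∃ d, θ i p d ∧ θ l d y)}.ncard ≤ S) (v : A) :
    {y | (θ j ⊔ θ l) v y ∧ (θ i ⊔ θ l) v y ∧ (θ i ⊔ θ j) v y}.ncard ≤ S := by
  classical
  obtain ⟨β, hβdef⟩ : ∃ β : Setoid A, β = θ i ⊔ θ j ⊔ θ l := ⟨_, rfl⟩
  obtain ⟨ρ, hρdef⟩ : ∃ ρ : Setoid A, ρ = (θ j ⊔ θ l) ⊓ ((θ i ⊔ θ l) ⊓ (θ i ⊔ θ j)) := ⟨_, rfl⟩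
  have hρ : ∀ x y, ρ x y ↔ (θ j ⊔ θ l) x y ∧ (θ i ⊔ θ l) x y ∧ (θ i ⊔ θ j) x y := by
    intro x y
    rw [hρdef]
    exact Iff.rfl
  have hset : ∀ x, {y | (θ j ⊔ θ l) x y ∧ (θ i ⊔ θ l) x y ∧ (θ i ⊔ θ j) x y} = {y | ρ x y} := by
    intro x
    ext y
    exact (hρ x y).symm
  rw [hset]
  have hiβ : θ i ≤ β := by
    rw [hβdef]
    exact le_sup_left.trans le_sup_left
  have hjβ : θ j ≤ β := by
    rw [hβdef]
    exact le_sup_right.trans le_sup_left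
  have hlβ : θ l ≤ β := by
    rw [hβdef]
    exact le_sup_right
  have hβ : Inv θ β := by
    rw [hβdef]
    exact inv_sup (inv_sup (inv_self θ i) (inv_self θ j)) (inv_self θ l)
  have hρI : Inv θ ρ := by
    rw [hρdef]
    exact inv_inf (inv_sup (inv_self θ j) (inv_self θ l))
      (inv_inf (inv_sup (inv_self θ i) (inv_self θ l)) (inv_sup (inv_self θ i) (inv_self θ j)))
  have hρβ : ρ ≤ β := by
    rw [hρdef]
    exact inf_le_left.trans (sup_le hjβ hlβ)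
  have hji : θ j ⊓ θ i ≤ ⊥ := by rw [inf_comm]; exact hij
  have hli : θ l ⊓ θ i ≤ ⊥ := by rw [inf_comm]; exact hil
  have hlj : θ l ⊓ θ j ≤ ⊥ := by rw [inf_comm]; exact hjl
  have hC : Cen θ β ρ := by
    have h1 : Cen θ (θ i) ρ := (cen_star hn hwnu hw hij hil hjl).mono le_rfl
      fun x y h => ((hρ x y).1 h).1
    have h2 : Cen θ (θ j) ρ := (cen_star hn hwnu hw hji hjl hil).mono le_rfl
      fun x y h => ((hρ x y).1 h).2.1
    have h3 : Cen θ (θ l) ρ := (cen_star hn hwnu hw hli hlj hij).mono le_rfl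
      fun x y h => ((hρ x y).1 h).2.2
    rw [hβdef]
    exact cen_sup (cen_sup h1 h2) h3
  obtain ⟨v₀, hv, hmax⟩ := exists_maxAt β ρ v
  obtain ⟨e, f, hf, hef, hfv, hfi, hR⟩ := exists_retr hn hwnu hw hβ hρI hC hρβ hmax
  refine (hmax v (β.symm hv)).trans ((hR.max v₀ (β.symm hfv)).trans ?_)
  obtain ⟨u, hu⟩ : ∃ u, u = f v₀ := ⟨_, rfl⟩
  rw [← hu] at hR ⊢
  have heu : e u = u := hR.self
  -- the elements of the class
  refine (Set.ncard_le_ncard (fun y hy => ?_) (Set.toFinite _)).trans (hS u)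
  have hy' := (hρ u y).1 hy
  have hey : e y = y := hR.fix y hy
  obtain ⟨p, hp, hup, hpy⟩ := hR.decomp hn hwnu hw hβ hC hρβ (inv_self θ i) (inv_self θ j)
    hiβ hjβ heu hey (β.refl u) hy'.2.2
  have h1 : (θ j ⊔ θ l) u p := (θ j ⊔ θ l).trans hy'.1
    ((le_sup_left : θ j ≤ θ j ⊔ θ l) ((θ j).symm hpy))
  obtain ⟨c, hc, huc, hcp⟩ := hR.decomp hn hwnu hw hβ hC hρβ (inv_self θ j) (inv_self θ l)
    hjβ hlβ heu hp (β.refl u) h1
  have h2 : (θ i ⊔ θ l) p y := (θ i ⊔ θ l).trans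
    ((le_sup_left : θ i ≤ θ i ⊔ θ l) ((θ i).symm hup)) hy'.2.1
  obtain ⟨d, hd, hpd, hdy⟩ := hR.decomp hn hwnu hw hβ hC hρβ (inv_self θ i) (inv_self θ l)
    hiβ hlβ hp hey (β.symm (hiβ hup)) h2
  exact ⟨p, ⟨hup, c, huc, hcp⟩, hpy, d, hpd, hdy⟩

end Rho

/-- Loomis–Whitney with small fibres -/
theorem lw_fib {A : Type} [Fintype A] {n : ℕ} {X : Fin (n + 1) → Type}
    [∀ i, DecidableEq (X i)] (g : ∀ i, A → X i) (hne : (univ : Finset A).Nonempty) (C : ℕ)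
    (h : ∀ x : A, {y | ∀ i, psi (fun i => Setoid.ker (g i)) i x y}.ncard ≤ C) :
    #(univ : Finset A) ^ n ≤ C ^ n * ∏ i, #((univ : Finset A).image (g i)) := by
  classical
  set θ : Fin (n + 1) → Setoid A := fun i => Setoid.ker (g i) with hθ
  let Φ : A → ∀ k, Quotient (psi θ k) := fun x k => Quotient.mk _ x
  have hΦ : ∀ x y k, Φ x k = Φ y k ↔ psi θ k x y := fun x y k => Quotient.eq
  have h1 : #(univ : Finset A) ≤ C * #(univ.image Φ) := by
    refine card_le_mul_card_image univ C fun b hb => ?_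
    obtain ⟨x, -, rfl⟩ := mem_image.1 hb
    refine le_trans ?_ (h x)
    rw [← Set.ncard_coe_finset]
    refine Set.ncard_le_ncard (fun y hy => ?_) (Set.toFinite _)
    rw [mem_coe, mem_filter] at hy
    intro k
    exact (psi θ k).symm ((hΦ y x k).1 (congrFun hy.2 k))
  have h2 := loomisWhitney n (fun k => Quotient (psi θ k)) (univ.image Φ) (hne.image Φ)
  have h3 : ∏ i : Fin (n + 1), #((univ.image Φ).image fun x => i.removeNth x) ≤
      ∏ i, #((univ : Finset A).image (g i)) := by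
    refine prod_le_prod' fun i _ => ?_
    rw [image_image]
    refine card_image_le_of_factor (univ : Finset A) (g i) _ ?_
    intro x _ y _ hxy
    funext k
    show Φ x (i.succAbove k) = Φ y (i.succAbove k)
    rw [hΦ]
    exact le_psi (θ := θ) (Fin.succAbove_ne i k).symm hxy
  calc #(univ : Finset A) ^ n ≤ (C * #(univ.image Φ)) ^ n := Nat.pow_le_pow_left h1 n
    _ = C ^ n * #(univ.image Φ) ^ n := mul_pow _ _ _
    _ ≤ C ^ n * ∏ i, #((univ : Finset A).image (g i)) :=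
        Nat.mul_le_mul_left _ (h2.trans h3)

section Rel

open Pool.Agent.U422.TLat

variable {X : Fin 3 → Type} [∀ i, Fintype (X i)] [∀ i, DecidableEq (X i)] {E : Finset (∀ i, X i)}

/-- **The structure theorem**: few pairs of triangles at every element give a bound as for
products. -/
theorem lin_saving' (hlin : Lin (E : Set (∀ i, X i))) {k : ℕ} (hk : 2 ≤ k)
    {t : ∀ i, (Fin k → X i) → X i} (ht : ∀ i, IsWNU (t i)) (hE : Cl (E : Set (∀ i, X i)) t)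
    {C : ℕ} (hC : ∀ a ∈ E, #(E.filter fun y => ∃ p ∈ E, (a 0 = p 0 ∧ ∃ c ∈ E, a 1 = c 1 ∧
      c 2 = p 2) ∧ (p 1 = y 1 ∧ ∃ d ∈ E, p 0 = d 0 ∧ d 2 = y 2)) ≤ C) :
    #E ^ 2 ≤ C ^ 2 * ∏ i, Fintype.card (X i) := by
  classical
  rcases E.eq_empty_or_nonempty with rfl | hne
  · simp
  have hne' : (univ : Finset {x // x ∈ E}).Nonempty := by
    obtain ⟨a, ha⟩ := hne
    exact ⟨⟨a, ha⟩, mem_univ _⟩
  obtain ⟨k', w, hk', hwnu, hw⟩ := exists_op (n := 2) (Y := X) (fun i (a : ∀ i, X i) => a i)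
    (A := E) (fun a _ b _ h => funext h)
    ⟨k, t, hk, ht, fun a ha => ⟨fun i => t i fun j => a j i,
      mem_coe.1 (hE a fun j => mem_coe.2 (ha j)), fun i => rfl⟩⟩
  obtain ⟨θ, hθ⟩ : ∃ θ : Fin 3 → Setoid {x // x ∈ E}, θ = ker (n := 2) (Y := X)
    (fun i (a : ∀ i, X i) => a i) E := ⟨_, rfl⟩
  have hθi : ∀ i x y, θ i x y ↔ x.1 i = y.1 i := by
    intro i x y
    rw [hθ]
    exact Iff.rfl
  rw [← hθ] at hw
  have hbot : ∀ i j : Fin 3, i ≠ j → θ i ⊓ θ j ≤ ⊥ := fun i j hij x y h =>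
    Subtype.ext (hlin x.1 (mem_coe.2 x.2) y.1 (mem_coe.2 y.2) i j hij ((hθi i x y).1 h.1)
      ((hθi j x y).1 h.2))
  have hS : ∀ a, {y | ∃ p, (θ 0 a p ∧ ∃ c, θ 1 a c ∧ θ 2 c p) ∧
      (θ 1 p y ∧ ∃ d, θ 0 p d ∧ θ 2 d y)}.ncard ≤ C := by
    intro a
    refine le_trans ?_ (hC a.1 a.2)
    rw [← Set.ncard_coe_finset]
    refine Set.ncard_le_ncard_of_injOn (fun y => y.1) ?_ (fun x _ y _ h => Subtype.ext h)
      (Set.toFinite _)
    rintro y ⟨p, ⟨h0, c, h1, h2⟩, h3, d, h4, h5⟩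
    rw [hθi] at h0 h1 h2 h3 h4 h5
    rw [mem_coe, mem_filter]
    exact ⟨y.2, p.1, p.2, ⟨h0, c.1, c.2, h1, h2⟩, h3, d.1, d.2, h4, h5⟩
  have hrho := rho_bound hk' hwnu hw (hbot 0 1 (by decide)) (hbot 0 2 (by decide))
    (hbot 1 2 (by decide)) C hS
  have hp0 : psi θ 0 = θ 1 ⊔ θ 2 := by
    unfold psi
    rw [show (univ : Finset (Fin 3)).erase 0 = {1, 2} from by decide, sup_insert, sup_singleton]
  have hp1 : psi θ 1 = θ 0 ⊔ θ 2 := by
    unfold psi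
    rw [show (univ : Finset (Fin 3)).erase 1 = {0, 2} from by decide, sup_insert, sup_singleton]
  have hp2 : psi θ 2 = θ 0 ⊔ θ 1 := by
    unfold psi
    rw [show (univ : Finset (Fin 3)).erase 2 = {0, 1} from by decide, sup_insert, sup_singleton]
  have h := lw_fib (A := {x // x ∈ E}) (n := 2) (fun i a => a.1 i) hne' C (by
    intro x
    refine le_trans (Set.ncard_le_ncard (fun y hy => ?_) (Set.toFinite _)) (hrho x)
    have h0 : psi θ 0 x y := by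
      rw [hθ]
      exact hy 0
    have h1 : psi θ 1 x y := by
      rw [hθ]
      exact hy 1
    have h2 : psi θ 2 x y := by
      rw [hθ]
      exact hy 2
    rw [hp0] at h0
    rw [hp1] at h1
    rw [hp2] at h2
    exact ⟨h0, h1, h2⟩)
  rw [card_univ, Fintype.card_coe] at h
  refine h.trans (Nat.mul_le_mul_left _ (prod_le_prod' fun i _ => ?_))
  exact card_le_univ _

/-- **The structure theorem** with the number of triangles at every element. -/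
theorem lin_saving (hlin : Lin (E : Set (∀ i, X i))) {k : ℕ} (hk : 2 ≤ k)
    {t : ∀ i, (Fin k → X i) → X i} (ht : ∀ i, IsWNU (t i)) (hE : Cl (E : Set (∀ i, X i)) t)
    {s : ℕ} (hs : ∀ a ∈ E, #(good E a) ≤ s) :
    #E ^ 2 ≤ ((s + 1) * (s + 1)) ^ 2 * ∏ i, Fintype.card (X i) := by
  classical
  refine lin_saving' hlin hk ht hE fun a ha => ?_
  have hins : ∀ a ∈ E, #(insert (a 2) (good E a)) ≤ s + 1 := fun a ha =>
    (card_insert_le _ _).trans (Nat.succ_le_succ (hs a ha))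
  let P1 : Finset (∀ i, X i) := E.filter fun p => a 0 = p 0 ∧ ∃ c ∈ E, a 1 = c 1 ∧ c 2 = p 2
  let P2 : (∀ i, X i) → Finset (∀ i, X i) := fun p =>
    E.filter fun y => p 1 = y 1 ∧ ∃ d ∈ E, p 0 = d 0 ∧ d 2 = y 2
  have h1 : #P1 ≤ s + 1 := by
    refine le_trans ?_ (hins a ha)
    refine card_le_card_of_injOn (fun p => p 2) ?_ ?_
    · intro p hp
      obtain ⟨hp, h0, c, hc, h1, h2⟩ := mem_filter.1 (mem_coe.1 hp)
      rw [mem_coe, mem_insert]
      by_cases h3 : p 2 = a 2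
      · exact Or.inl h3
      · refine Or.inr ?_
        rw [good, mem_filter]
        exact ⟨mem_univ _, ⟨c, hc, h1.symm, h2⟩, ⟨p, hp, h0.symm, rfl⟩, h3⟩
    · intro p hp q hq hpq
      obtain ⟨hp, h0, -⟩ := mem_filter.1 (mem_coe.1 hp)
      obtain ⟨hq, h0', -⟩ := mem_filter.1 (mem_coe.1 hq)
      exact hlin p (mem_coe.2 hp) q (mem_coe.2 hq) 0 2 (by decide) (h0.symm.trans h0') hpq
  have h2 : ∀ p ∈ E, #(P2 p) ≤ s + 1 := by
    intro p hp
    refine le_trans ?_ (hins p hp)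
    refine card_le_card_of_injOn (fun p => p 2) ?_ ?_
    · intro y hy
      obtain ⟨hy, h0, c, hc, h1, h2⟩ := mem_filter.1 (mem_coe.1 hy)
      rw [mem_coe, mem_insert]
      by_cases h3 : y 2 = p 2
      · exact Or.inl h3
      · refine Or.inr ?_
        rw [good, mem_filter]
        exact ⟨mem_univ _, ⟨y, hy, h0.symm, rfl⟩, ⟨c, hc, h1.symm, h2⟩, h3⟩
    · intro y hy q hq hyq
      obtain ⟨hy, h0, -⟩ := mem_filter.1 (mem_coe.1 hy)
      obtain ⟨hq, h0', -⟩ := mem_filter.1 (mem_coe.1 hq)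
      exact hlin y (mem_coe.2 hy) q (mem_coe.2 hq) 1 2 (by decide) (h0.symm.trans h0') hyq
  have h3 : (E.filter fun y => ∃ p ∈ E, (a 0 = p 0 ∧ ∃ c ∈ E, a 1 = c 1 ∧
      c 2 = p 2) ∧ (p 1 = y 1 ∧ ∃ d ∈ E, p 0 = d 0 ∧ d 2 = y 2)) ⊆ P1.biUnion P2 := by
    intro y hy
    obtain ⟨hy, p, hp, h0, h1⟩ := mem_filter.1 hy
    rw [mem_biUnion]
    exact ⟨p, mem_filter.2 ⟨hp, h0⟩, mem_filter.2 ⟨hy, h1⟩⟩
  exact (card_le_card h3).trans ((card_biUnion_le_card_mul P1 P2 (s + 1)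
    fun p hp => h2 p (mem_filter.1 hp).1).trans (Nat.mul_le_mul_right _ h1))

end Rel

end Pool.Agent.U422.Tame
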