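import Pool.Agent.U422.Cent

/-!
# `θ i` centralizes `θ j ⊔ θ l` if the pairwise intersections are trivial
-/

set_option autoImplicit false

namespace Pool.Agent.U422.Tame

open Finset Pool.Agent.U422.Kak Pool.Agent.U422.Taylor

variable {A ι : Type} {n : ℕ} {θ : ι → Setoid A} {w : (Fin n → A) → A} [Finite A]

theorem iter_card {e h : A → A} (heh : ∀ x, e (h x) = h x)
    (hinj : ∀ x y, e x = x → e y = y → h x = h y → x = y) (x : A) (hx : e x = x) :
    h^[Nat.card (Equiv.Perm {x // e x = x})] x = x := by
  let H : {x // e x = x} → {x // e x = x} := fun x => ⟨h x.1, heh x.1⟩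
  have hH : Function.Injective H := fun x y hxy =>
    Subtype.ext (hinj x.1 y.1 x.2 y.2 (congrArg Subtype.val hxy))
  let σ : Equiv.Perm {x // e x = x} := Equiv.ofBijective H (Finite.injective_iff_bijective.1 hH)
  have hit : ∀ (k : ℕ) (x : {x // e x = x}), h^[k] x.1 = ((σ ^ k) x).1 := by
    intro k
    induction k with
    | zero => intro x; rfl
    | succ k ih =>
      intro x
      rw [Function.iterate_succ, Function.comp_apply, pow_succ, Equiv.Perm.mul_apply, ← ih (σ x)]
      rfl
  rw [hit _ ⟨x, hx⟩, pow_card_eq_one']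
  rfl

/-- **Centrality.** -/
theorem cen_star (hn : 2 ≤ n) (hwnu : IsWNU w) (hw : Pres θ w) {i j l : ι}
    (hij : θ i ⊓ θ j ≤ ⊥) (hil : θ i ⊓ θ l ≤ ⊥) (hjl : θ j ⊓ θ l ≤ ⊥) :
    Cen θ (θ i) (θ j ⊔ θ l) := by
  classical
  let l₀ : Fin n := ⟨0, by omega⟩
  let l₁ : Fin n := ⟨1, by omega⟩
  have hl : l₀ ≠ l₁ := fun h => by
    have := congrArg Fin.val h
    simp [l₀, l₁] at this
  obtain ⟨β, hβdef⟩ : ∃ β : Setoid A, β = θ j ⊔ θ l := ⟨_, rfl⟩
  obtain ⟨δ, hδdef⟩ : ∃ δ : Setoid A, δ = θ i ⊓ β := ⟨_, rfl⟩
  rw [← hβdef]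
  have hβ : Inv θ β := by
    rw [hβdef]
    exact inv_sup (inv_self θ j) (inv_self θ l)
  have hδ : Inv θ δ := by
    rw [hδdef]
    exact inv_inf (inv_self θ i) hβ
  have hδi : ∀ {x y}, δ x y → θ i x y := fun {x y} h => by
    rw [hδdef] at h
    exact h.1
  have hδβ : δ ≤ β := by
    rw [hδdef]
    exact inf_le_right
  have hδof : ∀ {x y}, θ i x y → β x y → δ x y := fun {x y} h h' => by
    rw [hδdef]
    exact ⟨h, h'⟩
  have hjβ : θ j ≤ β := by
    rw [hβdef]
    exact le_sup_left
  have hlβ : θ l ≤ β := by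
    rw [hβdef]
    exact le_sup_right
  have hC : Cen θ β δ := by
    have h1 : Cen θ (θ j) δ := cen_of_disj hδ fun x y h => hij ⟨hδi h.2, h.1⟩
    have h2 : Cen θ (θ l) δ := cen_of_disj hδ fun x y h => hil ⟨hδi h.2, h.1⟩
    rw [hβdef]
    exact cen_sup h1 h2
  -- the pair is in `δ`
  have pair : ∀ F, Pol2 θ F → ∀ x y z z', β x y → θ i z z' → F x z = F y z →
      δ (F x z') (F y z') := by
    intro F hF x y z z' hxy hz hP
    refine hδof ?_ (hβ _ (hF.left z') _ _ hxy)
    have h1 := hF.right x i z z' hz
    have h2 := hF.right y i z z' hz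
    rw [← hP] at h2
    exact (θ i).trans ((θ i).symm h1) h2
  -- the case of classes of maximal size
  have main : ∀ F, Pol2 θ F → ∀ x y z z', β x y → θ i z z' → F x z = F y z →
      MaxAt β δ (F x z') → F x z' = F y z' := by
    intro F hF x y z z' hxy hz hP hmax
    have hab := pair F hF x y z z' hxy hz hP
    obtain ⟨e, f, hf, hef, hfv, hfi, hR⟩ := exists_retr hn hwnu hw hβ hδ hC hδβ hmax
    obtain ⟨F2, hF2def⟩ : ∃ F2 : A → A → A, F2 = fun s t => f (F s t) := ⟨_, rfl⟩
    have hF2 : Pol2 θ F2 := by
      rw [hF2def]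
      exact hf.comp2 hF
    have heF : ∀ s t, e (F2 s t) = F2 s t := fun s t => by
      rw [hF2def]
      exact hef _
    have hFP : F2 x z = F2 y z := by
      rw [hF2def]
      exact congrArg f hP
    suffices hsuf : F2 x z' = F2 y z' by
      rw [hF2def] at hsuf
      exact hfi _ _ (δ.refl _) hab hsuf
    obtain ⟨v, hv⟩ : ∃ v, v = F2 x z' := ⟨_, rfl⟩
    have hvf : f (F x z') = v := by
      rw [hv, hF2def]
    rw [hvf] at hR hfv
    have hab2 : δ v (F2 y z') := by
      rw [← hvf, hF2def]
      exact hδ f hf _ _ hab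
    have hev : e v = v := hR.self
    -- translates
    obtain ⟨T, hT⟩ : ∃ T : A → A → A, T = fun g s =>
      e (w (Function.update (Function.update (fun _ => v) l₁ g) l₀ s)) := ⟨_, rfl⟩
    have hT2 : Pol2 θ T := by
      rw [hT]
      intro m g g' s s' hg hs
      refine hR.pol m _ _ (hw m _ _ fun p => ?_)
      by_cases hp : p = l₀
      · subst hp
        rw [Function.update_self, Function.update_self]
        exact hs
      · rw [Function.update_of_ne hp, Function.update_of_ne hp]
        by_cases hp' : p = l₁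
        · subst hp'
          rw [Function.update_self, Function.update_self]
          exact hg
        · rw [Function.update_of_ne hp', Function.update_of_ne hp']
    have hTN : ∀ g s, e (T g s) = T g s := fun g s => by
      rw [hT]
      exact hR.idem _
    have hTinj : ∀ g, β g v → ∀ x y, e x = x → e y = y → T g x = T g y → x = y := by
      intro g hg
      rw [hT]
      refine hR.inj hwnu hw hβ hC hδβ l₀ _ fun m => ?_
      by_cases hm : m = l₁
      · subst hm
        rw [Function.update_self]
        exact hg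
      · rw [Function.update_of_ne hm]
    have hTswap : ∀ g, T g v = T v g := by
      intro g
      rw [hT]
      show e (w (Function.update (Function.update (fun _ => v) l₁ g) l₀ v)) =
        e (w (Function.update (Function.update (fun _ => v) l₁ v) l₀ g))
      have h1 : Function.update (Function.update (fun _ => v) l₁ g) l₀ v =
          Function.update (fun _ => v) l₁ g := by
        funext m
        by_cases hm : m = l₀
        · subst hm
          rw [Function.update_self, Function.update_of_ne hl]
        · rw [Function.update_of_ne hm]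
      have h2 : Function.update (fun _ : Fin n => v) l₁ v = fun _ => v :=
        Function.update_eq_self l₁ (fun _ : Fin n => v)
      rw [h1, h2, hwnu.2 l₁ l₀ v g]
    obtain ⟨M, hM⟩ : ∃ M, ∀ g, β g v → ∀ s, e s = s → (T g)^[M + 1] s = s := by
      refine ⟨Nat.card (Equiv.Perm {x // e x = x}) - 1, fun g hg s hs => ?_⟩
      have h1 : 0 < Nat.card (Equiv.Perm {x // e x = x}) := Nat.card_pos
      rw [Nat.sub_add_cancel h1]
      exact iter_card (fun x => hTN g x) (hTinj g hg) s hs
    -- compatibility of the iterates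
    have hTit : ∀ (k : ℕ) (m : ι) (g g' r r' : A), θ m g g' → θ m r r' →
        θ m ((T g)^[k] r) ((T g')^[k] r') := by
      intro k
      induction k with
      | zero => exact fun m g g' r r' _ h => h
      | succ k ih =>
        intro m g g' r r' hg hr
        rw [Function.iterate_succ_apply', Function.iterate_succ_apply']
        exact hT2 m _ _ _ _ hg (ih m g g' r r' hg hr)
    obtain ⟨L, hLdef⟩ : ∃ L : A → A → A, L = fun s t => (T (F2 s z'))^[M] (T v (F2 s t)) :=
      ⟨_, rfl⟩
    have hL : Pol2 θ L := by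
      rw [hLdef]
      intro m s s' t t' hs ht
      exact hTit M m _ _ _ _ (hF2.left z' m _ _ hs)
        (hT2.right v m _ _ (hF2 m _ _ _ _ hs ht))
    have hgv : ∀ s, β x s → β (F2 s z') v := by
      intro s hs
      rw [hv]
      exact β.symm (hβ _ (hF2.left z') _ _ hs)
    have h1 : ∀ s, β x s → L s z' = v := by
      intro s hs
      rw [hLdef]
      show (T (F2 s z'))^[M] (T v (F2 s z')) = v
      rw [← hTswap (F2 s z'), ← Function.iterate_succ_apply]
      exact hM _ (hgv s hs) v hev
    have h2 : ∀ s, β x s → θ i (L s z) v := by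
      intro s hs
      have := hL.right s i z z' hz
      rwa [h1 s hs] at this
    have h3 : L x z = L y z := by
      let W : Setoid A := ⟨fun c c' => β c c' ∧ (β x c → L c z = L c' z),
        fun c => ⟨β.refl c, fun _ => rfl⟩,
        fun {c c'} h => ⟨β.symm h.1, fun h' => (h.2 (β.trans h' (β.symm h.1))).symm⟩,
        fun {c c' c''} h h' => ⟨β.trans h.1 h'.1, fun h'' =>
          (h.2 h'').trans (h'.2 (β.trans h'' h.1))⟩⟩
      have hW : θ j ⊔ θ l ≤ W := by
        refine sup_le (fun c c' h => ⟨hjβ h, fun hc => ?_⟩) (fun c c' h => ⟨hlβ h, fun hc => ?_⟩)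
        · exact hij ⟨(θ i).trans (h2 c hc) ((θ i).symm (h2 c' (β.trans hc (hjβ h)))),
            hL.left z j _ _ h⟩
        · exact hil ⟨(θ i).trans (h2 c hc) ((θ i).symm (h2 c' (β.trans hc (hlβ h)))),
            hL.left z l _ _ h⟩
      rw [← hβdef] at hW
      exact (hW hxy).2 (β.refl x)
    obtain ⟨P, hPdef⟩ : ∃ P, P = F2 x z := ⟨_, rfl⟩
    obtain ⟨b, hb⟩ : ∃ b, b = F2 y z' := ⟨_, rfl⟩
    have heP : e P = P := by rw [hPdef]; exact heF _ _
    have heb : e b = b := by rw [hb]; exact heF _ _
    have hbv : β b v := by rw [hb]; exact hgv y hxy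
    have h4 : L x z = P := by
      rw [hLdef]
      show (T (F2 x z'))^[M] (T v (F2 x z)) = P
      rw [← hv, ← hPdef, ← Function.iterate_succ_apply]
      exact hM v (β.refl v) P heP
    have h5 : L y z = (T b)^[M] (T v P) := by
      rw [hLdef]
      show (T (F2 y z'))^[M] (T v (F2 y z)) = (T b)^[M] (T v P)
      rw [← hb, ← hFP, ← hPdef]
    have h6 : T v P = T b P := by
      have h7 : (T b)^[M + 1] (T v P) = T v P := hM b hbv _ (hTN _ _)
      rw [Function.iterate_succ_apply', ← h5, ← h3, h4] at h7
      exact h7.symm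
    -- the middle vertex
    have hvb : (θ j ⊔ θ l) v b := by
      rw [← hβdef]
      exact β.symm hbv
    obtain ⟨p, hp, hvp, hpb⟩ := hR.decomp hn hwnu hw hβ hC hδβ (inv_self θ j) (inv_self θ l)
      hjβ hlβ hev heb (β.refl v) hvb
    have hPv : θ i P v := by
      rw [hPdef, hv]
      exact hF2.right x i z z' hz
    have k1 : T p P = T v P := by
      refine hjl ⟨(θ j).symm (hT2.left P j _ _ hvp), ?_⟩
      rw [h6]
      exact hT2.left P l _ _ hpb
    have k2 : T p v = T v v := by
      refine hij ⟨(θ i).trans ((θ i).symm (hT2.right p i _ _ hPv)) ?_,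
        (θ j).symm (hT2.left v j _ _ hvp)⟩
      rw [k1]
      exact hT2.right v i _ _ hPv
    have k3 : T p v = T b v := by
      refine hil ⟨(θ i).trans ((θ i).symm (hT2.right p i _ _ hPv)) ?_, hT2.left v l _ _ hpb⟩
      rw [k1, h6]
      exact hT2.right b i _ _ hPv
    have k4 : T v v = T v b := by
      rw [← k2, k3, hTswap]
    have k5 := hTinj v (β.refl v) v b hev heb k4
    rw [← hv, ← hb]
    exact k5
  -- the general case
  intro F hF x y z z' hxy hz hP
  have hab := pair F hF x y z z' hxy hz hP
  obtain ⟨v₀, hav, hmax⟩ := exists_maxAt β δ (F x z')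
  obtain ⟨a, ha⟩ : ∃ a, a = F x z' := ⟨_, rfl⟩
  let m : A → A := fun s => w (Function.update (fun _ => v₀) l₀ s)
  have hm : Pol1 θ m := pol_upd hw _ _
  have hmv : m v₀ = v₀ := by
    show w (Function.update (fun _ => v₀) l₀ v₀) = v₀
    have : Function.update (fun _ : Fin n => v₀) l₀ v₀ = fun _ => v₀ :=
      Function.update_eq_self l₀ (fun _ : Fin n => v₀)
    rw [this, hwnu.1]
  have hma : w (Function.update (Function.update (fun _ => v₀) l₁ (F x z')) l₀ v₀) =
      m (F x z') := by
    have h1 : Function.update (Function.update (fun _ => v₀) l₁ (F x z')) l₀ v₀ =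
        Function.update (fun _ => v₀) l₁ (F x z') := by
      funext p
      by_cases hp : p = l₀
      · subst hp
        rw [Function.update_self, Function.update_of_ne hl]
      · rw [Function.update_of_ne hp]
    rw [h1]
    exact hwnu.2 l₁ l₀ v₀ _
  have hβm : β v₀ (m (F x z')) := by
    have := hβ m hm _ _ (β.symm hav)
    rwa [hmv] at this
  have h1 := (class_le hwnu hw hδ hC hδβ l₀ (Function.update (fun _ => v₀) l₁ (F x z'))
    (v := v₀) (by
      intro p
      by_cases hp : p = l₁
      · subst hp
        rw [Function.update_self]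
        exact hav
      · rw [Function.update_of_ne hp])).2
  rw [hma] at h1
  have h2 := (class_le hwnu hw hδ hC hδβ l₀ (fun _ => v₀) (v := F x z')
    (fun _ => β.symm hav)).1
  have h3 := main (fun s t => m (F s t)) (hm.comp2 hF) x y z z' hxy hz (congrArg m hP)
    (fun u hu => (hmax u (β.trans hβm hu)).trans h1)
  exact h2 _ _ (δ.refl _) hab h3

end Pool.Agent.U422.Tame
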