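import Pool.Agent.U422.Kak

/-!
# Corner-free sets closed under Gumm operations or under completing parallelograms
-/

set_option autoImplicit false

namespace Pool.Agent.U422.Corner

open Finset Pool.Agent.R181.Maj Pool.Agent.R181.LW Pool.Agent.U422.Gumm Pool.Agent.U422.Kak

/-- The projections `x`, `y` and `x + y` of `G × G`; their fibres are the three lines which
contain the sides of corners. -/
def pr {G : Type} [AddCommGroup G] : Fin 3 → G × G → G
  | 0 => fun a => a.1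
  | 1 => fun a => a.2
  | 2 => fun a => a.1 + a.2

/-- `A ⊆ G × G` contains no nontrivial corner `(x, y), (x, y + z), (x + z, y)`, `z ≠ 0`. -/
def CornerFree {G : Type} [AddCommGroup G] (A : Finset (G × G)) : Prop :=
  ∀ x y z : G, (x, y) ∈ A → (x, y + z) ∈ A → (x + z, y) ∈ A → z = 0

/-- `A` is closed under some Gumm operations on the projections. -/
def GummClosed {G : Type} [AddCommGroup G] (A : Finset (G × G)) : Prop :=
  ∃ (m : ℕ) (σ : Fin (m + 1) → Bool) (f : Fin 3 → Fin (m + 1) → G → G → G → G)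
    (p : Fin 3 → G → G → G → G), (∀ i, IsGumm σ (f i) (p i)) ∧
    (∀ j, ∀ a ∈ A, ∀ b ∈ A, ∀ c ∈ A, ∃ d ∈ A, ∀ i,
      pr i d = f i j (pr i a) (pr i b) (pr i c)) ∧
    (∀ a ∈ A, ∀ b ∈ A, ∀ c ∈ A, ∃ d ∈ A, ∀ i, pr i d = p i (pr i a) (pr i b) (pr i c))

/-- `A` is closed under completing parallelograms with sides on the fibres of two different
projections. -/
def ParallelogramClosed {G : Type} [AddCommGroup G] (A : Finset (G × G)) : Prop :=
  ∀ i j : Fin 3, i ≠ j → ∀ z ∈ A, ∀ u v, pr i u = 0 → pr j v = 0 → z + u ∈ A → z + v ∈ A →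
    z + u + v ∈ A

section

variable {G : Type} [AddCommGroup G]

theorem pr_add (i : Fin 3) (a b : G × G) : pr i (a + b) = pr i a + pr i b := by
  fin_cases i
  · rfl
  · rfl
  · show (a.1 + b.1) + (a.2 + b.2) = (a.1 + a.2) + (b.1 + b.2)
    abel

theorem pr_sub (i : Fin 3) (a b : G × G) : pr i (a - b) = pr i a - pr i b := by
  have h := pr_add i (a - b) b
  rw [sub_add_cancel] at h
  rw [h, add_sub_cancel_right]

theorem pr_inj {i j : Fin 3} (hij : i ≠ j) {a b : G × G} (h1 : pr i a = pr i b)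
    (h2 : pr j a = pr j b) : a = b := by
  obtain ⟨a1, a2⟩ := a
  obtain ⟨b1, b2⟩ := b
  fin_cases i <;> fin_cases j
  · exact absurd rfl hij
  · exact Prod.ext h1 h2
  · have e1 : a1 = b1 := h1
    have e2 : a1 + a2 = b1 + b2 := h2
    subst e1
    exact Prod.ext rfl (add_left_cancel e2)
  · exact Prod.ext h2 h1
  · exact absurd rfl hij
  · have e1 : a2 = b2 := h1
    have e2 : a1 + a2 = b1 + b2 := h2
    subst e1
    exact Prod.ext (add_right_cancel e2) rfl
  · have e1 : a1 = b1 := h2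
    have e2 : a1 + a2 = b1 + b2 := h1
    subst e1
    exact Prod.ext rfl (add_left_cancel e2)
  · have e1 : a2 = b2 := h2
    have e2 : a1 + a2 = b1 + b2 := h1
    subst e1
    exact Prod.ext (add_right_cancel e2) rfl
  · exact absurd rfl hij

/-- three points whose pairs lie on fibres of the three projections: a corner -/
theorem tri {A : Finset (G × G)} (hA : CornerFree A) {P Q R : G × G} (hP : P ∈ A) (hQ : Q ∈ A)
    (hR : R ∈ A) (h0 : P.1 = Q.1) (h1 : P.2 = R.2) (h2 : Q.1 + Q.2 = R.1 + R.2) : P = Q := by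
  have hz := hA P.1 P.2 (Q.2 - P.2) hP (by rwa [add_sub_cancel, h0]) (by
    have : P.1 + (Q.2 - P.2) = R.1 := by
      rw [h0, h1, ← add_sub_assoc, h2, add_sub_cancel_right]
    rwa [this, h1])
  exact Prod.ext h0 (sub_eq_zero.1 hz).symm

theorem tri' {A : Finset (G × G)} (hA : CornerFree A) {i j k : Fin 3} (hij : i ≠ j) (hik : i ≠ k)
    (hjk : j ≠ k) {a b c : G × G} (ha : a ∈ A) (hb : b ∈ A) (hc : c ∈ A)
    (h1 : pr i a = pr i b) (h2 : pr j b = pr j c) (h3 : pr k c = pr k a) : a = b := by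
  fin_cases i <;> fin_cases j <;> fin_cases k
  all_goals first
    | exact absurd rfl hij
    | exact absurd rfl hik
    | exact absurd rfl hjk
    | skip
  · -- `x`, `y`, `x + y`
    exact (tri hA hb ha hc h1.symm h2 h3.symm).symm
  · -- `x`, `x + y`, `y`
    exact tri hA ha hb hc h1 h3.symm h2
  · -- `y`, `x`, `x + y`
    have h4 : b = c := tri hA hb hc ha h2 h1.symm h3
    subst h4
    exact pr_inj (i := 1) (j := 2) (by decide) h1 h3.symm
  · -- `y`, `x + y`, `x`
    have h4 : a = c := tri hA ha hc hb h3.symm h1 h2.symm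
    subst h4
    exact pr_inj (i := 1) (j := 2) (by decide) h1 h2.symm
  · -- `x + y`, `x`, `y`
    have h4 : c = b := tri hA hc hb ha h2.symm h3 h1.symm
    subst h4
    exact pr_inj (i := 1) (j := 2) (by decide) h3.symm h1
  · -- `x + y`, `y`, `x`
    have h4 : c = a := tri hA hc ha hb h3 h2.symm h1
    subst h4
    exact pr_inj (i := 1) (j := 2) (by decide) h2.symm h1

theorem psi_zero {A : Type} (θ : Fin 3 → Setoid A) : psi θ 0 = θ 1 ⊔ θ 2 := by
  have h : (univ : Finset (Fin 3)).erase 0 = {1, 2} := by decide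
  unfold psi
  rw [h, sup_insert, sup_singleton]

theorem psi_one {A : Type} (θ : Fin 3 → Setoid A) : psi θ 1 = θ 0 ⊔ θ 2 := by
  have h : (univ : Finset (Fin 3)).erase 1 = {0, 2} := by decide
  unfold psi
  rw [h, sup_insert, sup_singleton]

theorem psi_two {A : Type} (θ : Fin 3 → Setoid A) : psi θ 2 = θ 0 ⊔ θ 1 := by
  have h : (univ : Finset (Fin 3)).erase 2 = {0, 1} := by decide
  unfold psi
  rw [h, sup_insert, sup_singleton]

/-- the bound from the independence -/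
theorem bound_of [DecidableEq G] {A : Finset (G × G)} (h : let θ : Fin 3 → Setoid {x // x ∈ A} := fun i => Setoid.ker fun a => pr i a.1;
      (θ 0 ⊔ θ 1) ⊓ (θ 0 ⊔ θ 2) ⊓ (θ 1 ⊔ θ 2) ≤ ⊥) :
    #A ^ 2 ≤ ∏ i : Fin 3, #(A.image (pr i)) := by
  classical
  rcases A.eq_empty_or_nonempty with rfl | hne
  · simp
  have hne' : (univ : Finset {x // x ∈ A}).Nonempty := by
    obtain ⟨a, ha⟩ := hne
    exact ⟨⟨a, ha⟩, mem_univ _⟩
  have h1 := lw_bound (A := {x // x ∈ A}) (n := 2) (X := fun _ => G) (fun i a => pr i a.1) hne'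
    fun x y hxy => by
      have e0 := hxy 0
      have e1 := hxy 1
      have e2 := hxy 2
      rw [psi_zero] at e0
      rw [psi_one] at e1
      rw [psi_two] at e2
      exact h ⟨⟨e2, e1⟩, e0⟩
  rw [card_univ, Fintype.card_coe] at h1
  refine h1.trans (prod_le_prod' fun i _ => card_le_card fun y hy => ?_)
  obtain ⟨a, -, rfl⟩ := mem_image.1 hy
  exact mem_image_of_mem _ a.2

theorem par_bound [DecidableEq G] {A : Finset (G × G)} (hA : CornerFree A)
    (hp : ParallelogramClosed A) : #A ^ 2 ≤ ∏ i : Fin 3, #(A.image (pr i)) := by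
  refine bound_of ?_
  intro θ
  have hcomm : ∀ i j : Fin 3, i ≠ j → ∀ a b c, θ j a b → θ i b c → ∃ t, θ i a t ∧ θ j t c := by
    intro i j hij a b c hab hbc
    have hab' : pr j a.1 = pr j b.1 := hab
    have hbc' : pr i b.1 = pr i c.1 := hbc
    have h1 := hp j i hij.symm b.1 b.2 (a.1 - b.1) (c.1 - b.1) (by rw [pr_sub, hab', sub_self])
      (by rw [pr_sub, hbc', sub_self]) (by rw [add_sub_cancel]; exact a.2)
      (by rw [add_sub_cancel]; exact c.2)
    rw [add_sub_cancel] at h1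
    refine ⟨⟨_, h1⟩, ?_, ?_⟩
    · show pr i a.1 = pr i (a.1 + (c.1 - b.1))
      rw [pr_add, pr_sub, hbc', sub_self, add_zero]
    · show pr j (a.1 + (c.1 - b.1)) = pr j c.1
      rw [pr_add, pr_sub, hab', add_sub_cancel]
  have hind : ∀ i j k : Fin 3, i ≠ j → i ≠ k → j ≠ k → ∀ a b, θ i a b → (θ j ⊔ θ k) a b →
      a = b := by
    intro i j k hij hik hjk a b hab hab'
    obtain ⟨t, h1, h2⟩ := sup_of_comm (hcomm j k hjk) hab'
    have h3 : pr i b.1 = pr i a.1 := (θ i).symm hab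
    exact Subtype.ext (tri' hA (i := i) (j := j) (k := k) hij hik hjk b.2 a.2 t.2 h3 h1 h2).symm
  rintro x y ⟨⟨h1, h2⟩, h3⟩
  obtain ⟨t, h4, h5⟩ := sup_of_comm (hcomm 0 1 (by decide)) h1
  -- `x θ₀ t θ₁ y`
  have h6 : (θ 1 ⊔ θ 2) x t :=
    (θ 1 ⊔ θ 2).trans h3 ((θ 1 ⊔ θ 2).symm ((le_sup_left : θ 1 ≤ θ 1 ⊔ θ 2) h5))
  have h7 : x = t := hind 0 1 2 (by decide) (by decide) (by decide) x t h4 h6
  subst h7
  exact hind 1 0 2 (by decide) (by decide) (by decide) x y h5 h2

theorem gumm_bound [DecidableEq G] {A : Finset (G × G)} (hA : CornerFree A)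
    (hp : GummClosed A) : #A ^ 2 ≤ ∏ i : Fin 3, #(A.image (pr i)) := by
  obtain ⟨m, σ, f, p, hg, hf, hp⟩ := hp
  refine bound_of ?_
  intro θ
  choose F hF1 hF2 using hf
  choose P hP1 hP2 using hp
  let fA : Fin (m + 1) → {x // x ∈ A} → {x // x ∈ A} → {x // x ∈ A} → {x // x ∈ A} :=
    fun j a b c => ⟨F j a.1 a.2 b.1 b.2 c.1 c.2, hF1 j a.1 a.2 b.1 b.2 c.1 c.2⟩
  let pA : {x // x ∈ A} → {x // x ∈ A} → {x // x ∈ A} → {x // x ∈ A} :=
    fun a b c => ⟨P a.1 a.2 b.1 b.2 c.1 c.2, hP1 a.1 a.2 b.1 b.2 c.1 c.2⟩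
  have hfA : ∀ j a b c i, pr i (fA j a b c).1 = f i j (pr i a.1) (pr i b.1) (pr i c.1) :=
    fun j a b c i => hF2 j a.1 a.2 b.1 b.2 c.1 c.2 i
  have hpA : ∀ a b c i, pr i (pA a b c).1 = p i (pr i a.1) (pr i b.1) (pr i c.1) :=
    fun a b c i => hP2 a.1 a.2 b.1 b.2 c.1 c.2 i
  have hext : ∀ x y : {x // x ∈ A}, (∀ i, pr i x.1 = pr i y.1) → x = y := by
    intro x y h
    exact Subtype.ext (pr_inj (i := 0) (j := 1) (by decide) (h 0) (h 1))
  have hgA : IsGumm σ fA pA := by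
    refine ⟨?_, ?_, ?_, ?_, ?_⟩
    · intro j x y
      refine hext _ _ fun i => ?_
      rw [hfA]
      exact (hg i).mid j _ _
    · intro x y
      refine hext _ _ fun i => ?_
      have h1 := (hg i).start (pr i x.1) (pr i y.1)
      unfold lo at h1 ⊢
      split_ifs at h1 ⊢ with h
      · rw [hfA]; exact h1
      · rw [hfA]; exact h1
    · intro j x y
      refine hext _ _ fun i => ?_
      have h1 := (hg i).step j (pr i x.1) (pr i y.1)
      unfold lo hi at h1 ⊢
      split_ifs at h1 ⊢ with h h'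
      · rw [hfA, hfA]; exact h1
      · rw [hfA, hfA]; exact h1
      · rw [hfA, hfA]; exact h1
      · rw [hfA, hfA]; exact h1
    · intro x y
      refine hext _ _ fun i => ?_
      have h1 := (hg i).last (pr i x.1) (pr i y.1)
      unfold hi at h1 ⊢
      split_ifs at h1 ⊢ with h
      · rw [hfA, hpA]; exact h1
      · rw [hfA, hpA]; exact h1
    · intro x y
      refine hext _ _ fun i => ?_
      rw [hpA]
      exact (hg i).malt _ _
  have hc : ∀ i, Cg fA pA (θ i) := by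
    intro i
    refine ⟨fun j => ?_, ?_⟩
    · intro a a' b b' c c' h1 h2 h3
      have e1 : pr i a.1 = pr i a'.1 := h1
      have e2 : pr i b.1 = pr i b'.1 := h2
      have e3 : pr i c.1 = pr i c'.1 := h3
      show pr i (fA j a b c).1 = pr i (fA j a' b' c').1
      rw [hfA, hfA, e1, e2, e3]
    · intro a a' b b' c c' h1 h2 h3
      have e1 : pr i a.1 = pr i a'.1 := h1
      have e2 : pr i b.1 = pr i b'.1 := h2
      have e3 : pr i c.1 = pr i c'.1 := h3
      show pr i (pA a b c).1 = pr i (pA a' b' c').1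
      rw [hpA, hpA, e1, e2, e3]
  have hbot : ∀ i j : Fin 3, i ≠ j → θ i ⊓ θ j ≤ ⊥ := by
    intro i j hij x y hxy
    exact Subtype.ext (pr_inj hij hxy.1 hxy.2)
  have hS : Setup fA pA ⊥ ((θ 0 ⊔ θ 1) ⊓ (θ 0 ⊔ θ 2) ⊓ (θ 1 ⊔ θ 2)) (θ 0) (θ 1) (θ 2) :=
    ⟨hc 0, hc 1, hc 2, cg_bot, (((hc 0).sup (hc 1)).inf ((hc 0).sup (hc 2))).inf
      ((hc 1).sup (hc 2)), hbot 0 1 (by decide), hbot 0 2 (by decide), hbot 1 2 (by decide),
      bot_le, inf_le_left.trans inf_le_left, inf_le_left.trans inf_le_right, inf_le_right, le_rfl⟩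
  set u := (θ 0 ⊔ θ 1) ⊓ (θ 0 ⊔ θ 2) ⊓ (θ 1 ⊔ θ 2) with hu
  -- the elements of a class of `u` in the same row
  have key : ∀ i j k : Fin 3, i ≠ j → i ≠ k → j ≠ k →
      Setup fA pA ⊥ u (θ i) (θ j) (θ k) → u ⊓ θ k ≤ ⊥ := by
    intro i j k hij hik hjk hS x y hxy
    obtain ⟨t, h1, h2⟩ := hS.rect hgA hxy.1
    rw [bot_sup_eq] at h1 h2
    have h3 : pr k y.1 = pr k x.1 := (θ k).symm hxy.2
    have h4 := tri' hA hij hik hjk x.2 t.2 y.2 h1.2 h2.2 h3
    have h5 : x = t := Subtype.ext h4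
    subst h5
    exact Subtype.ext (pr_inj hjk h2.2 hxy.2)
  have k0 : u ⊓ θ 0 ≤ ⊥ := key 1 2 0 (by decide) (by decide) (by decide) hS.rot
  have k1 : u ⊓ θ 1 ≤ ⊥ := key 2 0 1 (by decide) (by decide) (by decide) hS.rot.rot
  exact (hS.u_le hgA).trans (sup_le k0 k1)

/-- **The bound.** -/
theorem bound [Fintype G] {A : Finset (G × G)} (hA : CornerFree A)
    (hp : GummClosed A ∨ ParallelogramClosed A) : #A ^ 2 ≤ Fintype.card G ^ 3 := by
  classical
  have h1 : #A ^ 2 ≤ ∏ i : Fin 3, #(A.image (pr i)) := by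
    rcases hp with hp | hp
    · exact gumm_bound hA hp
    · exact par_bound hA hp
  refine h1.trans ((prod_le_prod' fun i _ => card_le_univ _).trans (le_of_eq ?_))
  rw [prod_const, card_univ, Fintype.card_fin]

theorem CornerFree.mono {A B : Finset (G × G)} (hA : CornerFree A) (h : B ⊆ A) :
    CornerFree B := fun x y z h1 h2 h3 => hA x y z (h h1) (h h2) (h h3)

/-- **The bound for unions.** -/
theorem union_bound [Fintype G] {A : Finset (G × G)} (hA : CornerFree A) {L : ℕ}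
    (B : Fin L → Finset (G × G)) (hB : ∀ i, B i ⊆ A) (hcov : ∀ a ∈ A, ∃ i, a ∈ B i)
    (hp : ∀ i, GummClosed (B i) ∨ ParallelogramClosed (B i)) :
    #A ^ 2 ≤ L ^ 2 * Fintype.card G ^ 3 := by
  classical
  have h1 : #A ≤ ∑ i, #(B i) := by
    have : A ⊆ univ.biUnion B := fun a ha => by
      obtain ⟨i, hi⟩ := hcov a ha
      exact mem_biUnion.2 ⟨i, mem_univ _, hi⟩
    exact (card_le_card this).trans card_biUnion_le
  have h2 : ∀ i, (#(B i) : ℝ) ≤ Real.sqrt (Fintype.card G ^ 3) := by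
    intro i
    refine Real.le_sqrt_of_sq_le ?_
    exact_mod_cast bound (hA.mono (hB i)) (hp i)
  have h3 : (#A : ℝ) ≤ L * Real.sqrt (Fintype.card G ^ 3) := by
    calc (#A : ℝ) ≤ ((∑ i, #(B i) : ℕ) : ℝ) := by exact_mod_cast h1
      _ = ∑ i, (#(B i) : ℝ) := by push_cast; rfl
      _ ≤ ∑ _i : Fin L, Real.sqrt (Fintype.card G ^ 3) := sum_le_sum fun i _ => h2 i
      _ = _ := by rw [sum_const, card_univ, Fintype.card_fin, nsmul_eq_mul]
  have h4 : (#A : ℝ) ^ 2 ≤ L ^ 2 * Fintype.card G ^ 3 := by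
    calc (#A : ℝ) ^ 2 ≤ (L * Real.sqrt (Fintype.card G ^ 3)) ^ 2 :=
          pow_le_pow_left₀ (by positivity) h3 2
      _ = _ := by rw [mul_pow, Real.sq_sqrt (by positivity)]
  exact_mod_cast h4

end

end Pool.Agent.U422.Corner
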