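import Pool.Agent.U422.DenseDich

/-!
# The number of triangles in a linear relation closed under weak near unanimity operations
-/

set_option autoImplicit false

namespace Pool.Agent.U422.Dense

open Finset Pool.Agent.U422.Taylor Pool.Agent.U422.TLat

/-- a case of the inequality of Hölder -/
theorem hold3 {ι : Type} (s : Finset ι) (n T u : ι → ℝ) (hn : ∀ i, 0 ≤ n i) (hT : ∀ i, 0 ≤ T i)
    (hu : ∀ i, 0 ≤ u i) (h : ∀ i, n i ^ 3 ≤ T i * u i ^ 2) :
    (∑ i ∈ s, n i) ^ 3 ≤ (∑ i ∈ s, T i) * (∑ i ∈ s, u i) ^ 2 := by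
  have hN0 : 0 ≤ ∑ i ∈ s, n i := sum_nonneg fun i _ => hn i
  have hT0 : 0 ≤ ∑ i ∈ s, T i := sum_nonneg fun i _ => hT i
  have hU0 : 0 ≤ ∑ i ∈ s, u i := sum_nonneg fun i _ => hu i
  have h1 : ∀ i, n i ≤ √(u i) * √(√(T i) * √(n i)) := by
    intro i
    rw [← Real.sqrt_mul (hu i), ← Real.sqrt_mul (hT i)]
    refine Real.le_sqrt_of_sq_le ?_
    have h2 : (n i ^ 2) ^ 2 ≤ (u i * √(T i * n i)) ^ 2 := by
      rw [mul_pow, Real.sq_sqrt (mul_nonneg (hT i) (hn i))]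
      have := mul_le_mul_of_nonneg_right (h i) (hn i)
      nlinarith
    exact le_of_sq_le_sq h2 (mul_nonneg (hu i) (Real.sqrt_nonneg _))
  obtain ⟨W, hW⟩ : ∃ W, W = ∑ i ∈ s, √(T i) * √(n i) := ⟨_, rfl⟩
  have hW0 : 0 ≤ W := by
    rw [hW]
    exact sum_nonneg fun i _ => mul_nonneg (Real.sqrt_nonneg _) (Real.sqrt_nonneg _)
  have h2 : ∑ i ∈ s, n i ≤ √(∑ i ∈ s, u i) * √W := by
    refine (sum_le_sum fun i _ => h1 i).trans ?_
    rw [hW]
    exact Real.sum_sqrt_mul_sqrt_le s hu fun i =>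
      mul_nonneg (Real.sqrt_nonneg _) (Real.sqrt_nonneg _)
  have h3 : W ≤ √(∑ i ∈ s, T i) * √(∑ i ∈ s, n i) := by
    rw [hW]
    exact Real.sum_sqrt_mul_sqrt_le s hT hn
  obtain ⟨N, hN⟩ : ∃ N, N = ∑ i ∈ s, n i := ⟨_, rfl⟩
  obtain ⟨U, hU⟩ : ∃ U, U = ∑ i ∈ s, u i := ⟨_, rfl⟩
  obtain ⟨R, hR⟩ : ∃ R, R = ∑ i ∈ s, T i := ⟨_, rfl⟩
  rw [← hN, ← hU] at h2
  rw [← hN, ← hR] at h3
  rw [← hN, ← hU, ← hR]
  rw [← hN] at hN0
  rw [← hU] at hU0
  rw [← hR] at hT0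
  have h4 : N ^ 2 ≤ U * W := by
    have := pow_le_pow_left₀ hN0 h2 2
    rwa [mul_pow, Real.sq_sqrt hU0, Real.sq_sqrt hW0] at this
  have h5 : W ^ 2 ≤ R * N := by
    have := pow_le_pow_left₀ hW0 h3 2
    rwa [mul_pow, Real.sq_sqrt hT0, Real.sq_sqrt hN0] at this
  rcases eq_or_lt_of_le hN0 with h0 | h0
  · rw [← h0, zero_pow three_ne_zero]
    positivity
  · have h6 : N ^ 4 ≤ U ^ 2 * (R * N) := by
      calc N ^ 4 = (N ^ 2) ^ 2 := by ring
        _ ≤ (U * W) ^ 2 := pow_le_pow_left₀ (by positivity) h4 2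
        _ = U ^ 2 * W ^ 2 := by ring
        _ ≤ U ^ 2 * (R * N) := mul_le_mul_of_nonneg_left h5 (by positivity)
    have h7 : N * N ^ 3 ≤ N * (R * U ^ 2) := by
      calc N * N ^ 3 = N ^ 4 := by ring
        _ ≤ U ^ 2 * (R * N) := h6
        _ = N * (R * U ^ 2) := by ring
    exact le_of_mul_le_mul_left h7 h0

variable {X : Fin 3 → Type} [∀ i, DecidableEq (X i)]

/-- the triangles: `a = (x, y, *)`, `b = (x, *, z)`, `c = (*, y, z)` -/
def tris (E : Finset (∀ i, X i)) : Finset ((∀ i, X i) × (∀ i, X i) × (∀ i, X i)) :=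
  (E ×ˢ E ×ˢ E).filter fun w => w.1 0 = w.2.1 0 ∧ w.1 1 = w.2.2 1 ∧ w.2.1 2 = w.2.2 2

theorem mem_tris {E : Finset (∀ i, X i)} {w : (∀ i, X i) × (∀ i, X i) × (∀ i, X i)} :
    w ∈ tris E ↔ (w.1 ∈ E ∧ w.2.1 ∈ E ∧ w.2.2 ∈ E) ∧
      w.1 0 = w.2.1 0 ∧ w.1 1 = w.2.2 1 ∧ w.2.1 2 = w.2.2 2 := by
  rw [tris, mem_filter, mem_product, mem_product]

theorem tris_latin {E : Finset (∀ i, X i)} (hlin : Lin (E : Set (∀ i, X i))) (hlat : Latin E) :
    #E ^ 3 ≤ #(tris E) * ∏ i, #(E.image fun x => x i) := by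
  classical
  have hpair : ∀ i j : Fin 3, i ≠ j → #E ≤ #(E.image fun x => x i) * #(E.image fun x => x j) := by
    intro i j hij
    rw [← card_product]
    refine card_le_card_of_injOn (fun x => (x i, x j)) ?_ ?_
    · intro x hx
      exact mem_coe.2 (mem_product.2 ⟨mem_image_of_mem (fun x : ∀ i, X i => x i) hx,
        mem_image_of_mem (fun x : ∀ i, X i => x j) hx⟩)
    · intro x hx y hy h
      exact hlin x hx y hy i j hij (congrArg Prod.fst h) (congrArg Prod.snd h)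
  have hT : #(E.image fun x => x 0) * #(E.image fun x => x 1) * #(E.image fun x => x 2) ≤
      #(tris E) := by
    rw [mul_assoc, ← card_product, ← card_product]
    refine (card_le_card (t := (tris E).image fun w => (w.1 0, w.1 1, w.2.1 2)) ?_).trans
      card_image_le
    rintro ⟨u, v, z⟩ h
    rw [mem_product, mem_product] at h
    obtain ⟨h0, h1, h2⟩ := h
    obtain ⟨x0, hx0, rfl⟩ := mem_image.1 h0
    obtain ⟨x1, hx1, rfl⟩ := mem_image.1 h1
    obtain ⟨x2, hx2, rfl⟩ := mem_image.1 h2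
    obtain ⟨a, ha, ha0, ha1⟩ := hlat 0 1 (by decide) x0 hx0 x1 hx1
    obtain ⟨b, hb, hb0, hb2⟩ := hlat 0 2 (by decide) x0 hx0 x2 hx2
    obtain ⟨c, hc, hc1, hc2⟩ := hlat 1 2 (by decide) x1 hx1 x2 hx2
    refine mem_image.2 ⟨(a, b, c), mem_tris.2 ⟨⟨ha, hb, hc⟩, ?_, ?_, ?_⟩, ?_⟩
    · exact ha0.trans hb0.symm
    · exact ha1.trans hc1.symm
    · exact hb2.trans hc2.symm
    · show (a 0, a 1, b 2) = (x0 0, x1 1, x2 2)
      rw [ha0, ha1, hb2]
  rw [Fin.prod_univ_three]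
  obtain ⟨m0, hm0⟩ : ∃ m, m = #(E.image fun x => x 0) := ⟨_, rfl⟩
  obtain ⟨m1, hm1⟩ : ∃ m, m = #(E.image fun x => x 1) := ⟨_, rfl⟩
  obtain ⟨m2, hm2⟩ : ∃ m, m = #(E.image fun x => x 2) := ⟨_, rfl⟩
  have e01 := hpair 0 1 (by decide)
  have e02 := hpair 0 2 (by decide)
  have e12 := hpair 1 2 (by decide)
  rw [← hm0, ← hm1, ← hm2] at hT ⊢
  rw [← hm0, ← hm1] at e01
  rw [← hm0, ← hm2] at e02
  rw [← hm1, ← hm2] at e12
  calc #E ^ 3 = #E * #E * #E := by ring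
    _ ≤ (m0 * m1) * (m0 * m2) * (m1 * m2) := Nat.mul_le_mul (Nat.mul_le_mul e01 e02) e12
    _ = (m0 * m1 * m2) * (m0 * m1 * m2) := by ring
    _ ≤ #(tris E) * (m0 * m1 * m2) := Nat.mul_le_mul_right _ hT

/-- **Supersaturation.** -/
theorem tris_bound {k : ℕ} (hk : 2 ≤ k) {t : ∀ i, (Fin k → X i) → X i} (ht : ∀ i, IsWNU (t i)) :
    ∀ (n : ℕ) (E : Finset (∀ i, X i)), #E ≤ n → Lin (E : Set (∀ i, X i)) →
      Cl (E : Set (∀ i, X i)) t →
      (#E : ℝ) ^ 3 ≤ #(tris E) * ∏ i, (#(E.image fun x => x i) : ℝ) := by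
  classical
  intro n
  induction n with
  | zero =>
    intro E hE _ _
    have h0 : E = ∅ := card_eq_zero.1 (Nat.le_zero.1 hE)
    subst h0
    rw [card_empty, Nat.cast_zero, zero_pow three_ne_zero]
    exact mul_nonneg (Nat.cast_nonneg _) (prod_nonneg fun _ _ => Nat.cast_nonneg _)
  | succ n ih =>
    intro E hEn hlin hcl
    rcases dich hk ht hlin hcl with hL | ⟨p, hp1, hp2, x₀, hx₀, y₀, hy₀, i₀, hxy⟩
    · exact_mod_cast tris_latin hlin hL
    let blk : Finset (∀ i, X i) × Finset (∀ i, X i) × Finset (∀ i, X i) → Finset (∀ i, X i) :=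
      fun z => E.filter fun x => ∀ i, p i x = ![z.1, z.2.1, z.2.2] i
    let P : Fin 3 → Finset (Finset (∀ i, X i)) := fun i => E.image (p i)
    let a : Finset (∀ i, X i) → Finset (∀ i, X i) → Finset (X 0) := fun r s =>
      (E.filter fun x => p 1 x = r ∧ p 2 x = s).image fun x => x 0
    let b : Finset (∀ i, X i) → Finset (∀ i, X i) → Finset (X 1) := fun q s =>
      (E.filter fun x => p 0 x = q ∧ p 2 x = s).image fun x => x 1
    let c : Finset (∀ i, X i) → Finset (∀ i, X i) → Finset (X 2) := fun q r =>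
      (E.filter fun x => p 0 x = q ∧ p 1 x = r).image fun x => x 2
    have hblk : ∀ z, (#(blk z) : ℝ) ^ 3 ≤ #(tris (blk z)) * (√(#(a z.2.1 z.2.2) : ℝ) *
        √(#(b z.1 z.2.2) : ℝ) * √(#(c z.1 z.2.1) : ℝ)) ^ 2 := by
      rintro ⟨q, r, s⟩
      have hsub : blk (q, r, s) ⊆ E := filter_subset _ _
      have hlt : #(blk (q, r, s)) < #E := by
        refine card_lt_card ⟨hsub, fun h => hxy ?_⟩
        rw [(mem_filter.1 (h hx₀)).2 i₀, (mem_filter.1 (h hy₀)).2 i₀]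
      have h1 := ih (blk (q, r, s)) (by omega) (fun x hx y hy => hlin x (hsub hx) y (hsub hy))
        (hp2 _)
      refine h1.trans (mul_le_mul_of_nonneg_left ?_ (Nat.cast_nonneg _))
      rw [mul_pow, mul_pow, Real.sq_sqrt (Nat.cast_nonneg _), Real.sq_sqrt (Nat.cast_nonneg _),
        Real.sq_sqrt (Nat.cast_nonneg _), Fin.prod_univ_three]
      have e0 : (blk (q, r, s)).image (fun x => x 0) ⊆ a r s := by
        refine image_subset_image fun x hx => ?_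
        obtain ⟨h3, h4⟩ := mem_filter.1 hx
        exact mem_filter.2 ⟨h3, h4 1, h4 2⟩
      have e1 : (blk (q, r, s)).image (fun x => x 1) ⊆ b q s := by
        refine image_subset_image fun x hx => ?_
        obtain ⟨h3, h4⟩ := mem_filter.1 hx
        exact mem_filter.2 ⟨h3, h4 0, h4 2⟩
      have e2 : (blk (q, r, s)).image (fun x => x 2) ⊆ c q r := by
        refine image_subset_image fun x hx => ?_
        obtain ⟨h3, h4⟩ := mem_filter.1 hx
        exact mem_filter.2 ⟨h3, h4 0, h4 1⟩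
      have f0 : (#((blk (q, r, s)).image fun x => x 0) : ℝ) ≤ #(a r s) := by
        exact_mod_cast card_le_card e0
      have f1 : (#((blk (q, r, s)).image fun x => x 1) : ℝ) ≤ #(b q s) := by
        exact_mod_cast card_le_card e1
      have f2 : (#((blk (q, r, s)).image fun x => x 2) : ℝ) ≤ #(c q r) := by
        exact_mod_cast card_le_card e2
      exact mul_le_mul (mul_le_mul f0 f1 (Nat.cast_nonneg _) (Nat.cast_nonneg _)) f2
        (Nat.cast_nonneg _) (mul_nonneg (Nat.cast_nonneg _) (Nat.cast_nonneg _))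
    have hiff : ∀ x ∈ E, ∀ z, x ∈ blk z ↔ (p 0 x, p 1 x, p 2 x) = z := by
      intro x hx z
      constructor
      · intro h
        have h3 := (mem_filter.1 h).2
        exact Prod.ext (h3 0) (Prod.ext (h3 1) (h3 2))
      · intro h
        refine mem_filter.2 ⟨hx, fun i => ?_⟩
        subst h
        fin_cases i <;> rfl
    have hin : ∀ x ∈ E, (p 0 x, p 1 x, p 2 x) ∈ P 0 ×ˢ P 1 ×ˢ P 2 := by
      intro x hx
      rw [mem_product, mem_product]
      exact ⟨mem_image_of_mem _ hx, mem_image_of_mem _ hx, mem_image_of_mem _ hx⟩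
    have hsumE : #E = ∑ z ∈ P 0 ×ˢ P 1 ×ˢ P 2, #(blk z) := by
      rw [card_eq_sum_card_fiberwise (f := fun x => (p 0 x, p 1 x, p 2 x)) (t := P 0 ×ˢ P 1 ×ˢ P 2)
        fun x hx => mem_coe.2 (hin x (mem_coe.1 hx))]
      refine sum_congr rfl fun z _ => ?_
      congr 1
      ext x
      rw [mem_filter]
      constructor
      · rintro ⟨h1, h2⟩
        exact (hiff x h1 z).2 h2
      · intro h
        have h1 := (mem_filter.1 h).1
        exact ⟨h1, (hiff x h1 z).1 h⟩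
    have hsumT : ∑ z ∈ P 0 ×ˢ P 1 ×ˢ P 2, #(tris (blk z)) ≤ #(tris E) := by
      rw [card_eq_sum_card_fiberwise (s := tris E) (f := fun w => (p 0 w.1, p 1 w.1, p 2 w.1))
        (t := P 0 ×ˢ P 1 ×ˢ P 2) fun w hw => mem_coe.2 (hin w.1 (mem_tris.1 (mem_coe.1 hw)).1.1)]
      refine sum_le_sum fun z _ => card_le_card fun w hw => ?_
      obtain ⟨⟨h1, h2, h3⟩, h4⟩ := mem_tris.1 hw
      have g1 := (mem_filter.1 h1).1
      have g2 := (mem_filter.1 h2).1
      have g3 := (mem_filter.1 h3).1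
      exact mem_filter.2 ⟨mem_tris.2 ⟨⟨g1, g2, g3⟩, h4⟩, (hiff w.1 g1 z).1 h1⟩
    have hA : ∑ r ∈ P 1, ∑ s ∈ P 2, (#(a r s) : ℝ) ≤ #(E.image fun x => x 0) := by
      have h1 : ∑ r ∈ P 1, ∑ s ∈ P 2, #(a r s) = #((P 1 ×ˢ P 2).biUnion fun z => a z.1 z.2) := by
        rw [card_biUnion, sum_product]
        rintro ⟨r, s⟩ _ ⟨r', s'⟩ _ hne
        refine disjoint_left.2 fun u hu hu' => hne ?_
        obtain ⟨x, hx, rfl⟩ := mem_image.1 hu
        obtain ⟨y, hy, hxy⟩ := mem_image.1 hu'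
        obtain ⟨hx, h1, h2⟩ := mem_filter.1 hx
        obtain ⟨hy, h3, h4⟩ := mem_filter.1 hy
        have h5 := hp1 1 0 (by decide) y hy x hx hxy
        have h6 := hp1 2 0 (by decide) y hy x hx hxy
        exact Prod.ext (h1.symm.trans (h5.symm.trans h3)) (h2.symm.trans (h6.symm.trans h4))
      have h2 : #((P 1 ×ˢ P 2).biUnion fun z => a z.1 z.2) ≤ #(E.image fun x => x 0) := by
        refine card_le_card (biUnion_subset.2 fun z _ => image_subset_image (filter_subset _ _))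
      exact_mod_cast h1.le.trans h2
    have hBb : ∑ q ∈ P 0, ∑ s ∈ P 2, (#(b q s) : ℝ) ≤ #(E.image fun x => x 1) := by
      have h1 : ∑ q ∈ P 0, ∑ s ∈ P 2, #(b q s) = #((P 0 ×ˢ P 2).biUnion fun z => b z.1 z.2) := by
        rw [card_biUnion, sum_product]
        rintro ⟨r, s⟩ _ ⟨r', s'⟩ _ hne
        refine disjoint_left.2 fun u hu hu' => hne ?_
        obtain ⟨x, hx, rfl⟩ := mem_image.1 hu
        obtain ⟨y, hy, hxy⟩ := mem_image.1 hu'
        obtain ⟨hx, h1, h2⟩ := mem_filter.1 hx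
        obtain ⟨hy, h3, h4⟩ := mem_filter.1 hy
        have h5 := hp1 0 1 (by decide) y hy x hx hxy
        have h6 := hp1 2 1 (by decide) y hy x hx hxy
        exact Prod.ext (h1.symm.trans (h5.symm.trans h3)) (h2.symm.trans (h6.symm.trans h4))
      have h2 : #((P 0 ×ˢ P 2).biUnion fun z => b z.1 z.2) ≤ #(E.image fun x => x 1) := by
        refine card_le_card (biUnion_subset.2 fun z _ => image_subset_image (filter_subset _ _))
      exact_mod_cast h1.le.trans h2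
    have hCc : ∑ q ∈ P 0, ∑ r ∈ P 1, (#(c q r) : ℝ) ≤ #(E.image fun x => x 2) := by
      have h1 : ∑ q ∈ P 0, ∑ r ∈ P 1, #(c q r) = #((P 0 ×ˢ P 1).biUnion fun z => c z.1 z.2) := by
        rw [card_biUnion, sum_product]
        rintro ⟨r, s⟩ _ ⟨r', s'⟩ _ hne
        refine disjoint_left.2 fun u hu hu' => hne ?_
        obtain ⟨x, hx, rfl⟩ := mem_image.1 hu
        obtain ⟨y, hy, hxy⟩ := mem_image.1 hu'
        obtain ⟨hx, h1, h2⟩ := mem_filter.1 hx
        obtain ⟨hy, h3, h4⟩ := mem_filter.1 hy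
        have h5 := hp1 0 2 (by decide) y hy x hx hxy
        have h6 := hp1 1 2 (by decide) y hy x hx hxy
        exact Prod.ext (h1.symm.trans (h5.symm.trans h3)) (h2.symm.trans (h6.symm.trans h4))
      have h2 : #((P 0 ×ˢ P 1).biUnion fun z => c z.1 z.2) ≤ #(E.image fun x => x 2) := by
        refine card_le_card (biUnion_subset.2 fun z _ => image_subset_image (filter_subset _ _))
      exact_mod_cast h1.le.trans h2
    have hw := wlw (P 0) (P 1) (P 2) (fun r s => (#(a r s) : ℝ))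
      (fun q s => (#(b q s) : ℝ)) (fun q r => (#(c q r) : ℝ))
      (fun _ _ => Nat.cast_nonneg _) (fun _ _ => Nat.cast_nonneg _)
      (fun _ _ => Nat.cast_nonneg _)
    have hm : √(∑ r ∈ P 1, ∑ s ∈ P 2, (#(a r s) : ℝ)) *
        √(∑ q ∈ P 0, ∑ s ∈ P 2, (#(b q s) : ℝ)) *
        √(∑ q ∈ P 0, ∑ r ∈ P 1, (#(c q r) : ℝ)) ≤
        √(#(E.image fun x => x 0) : ℝ) * √(#(E.image fun x => x 1) : ℝ) *
          √(#(E.image fun x => x 2) : ℝ) :=
      mul_le_mul (mul_le_mul (Real.sqrt_le_sqrt hA) (Real.sqrt_le_sqrt hBb) (Real.sqrt_nonneg _)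
        (Real.sqrt_nonneg _)) (Real.sqrt_le_sqrt hCc) (Real.sqrt_nonneg _)
        (mul_nonneg (Real.sqrt_nonneg _) (Real.sqrt_nonneg _))
    have hU : ∑ z ∈ P 0 ×ˢ P 1 ×ˢ P 2, √(#(a z.2.1 z.2.2) : ℝ) * √(#(b z.1 z.2.2) : ℝ) *
        √(#(c z.1 z.2.1) : ℝ) ≤ √(#(E.image fun x => x 0) : ℝ) *
          √(#(E.image fun x => x 1) : ℝ) * √(#(E.image fun x => x 2) : ℝ) := by
      rw [sum_product]
      have h1 : ∀ q ∈ P 0, ∑ z ∈ P 1 ×ˢ P 2, √(#(a z.1 z.2) : ℝ) * √(#(b q z.2) : ℝ) *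
          √(#(c q z.1) : ℝ) = ∑ r ∈ P 1, ∑ s ∈ P 2, √(#(a r s) : ℝ) * √(#(b q s) : ℝ) *
          √(#(c q r) : ℝ) := fun q _ => by rw [sum_product]
      exact (sum_congr rfl h1).le.trans (hw.trans hm)
    have hh := hold3 (P 0 ×ˢ P 1 ×ˢ P 2) (fun z => (#(blk z) : ℝ)) (fun z => (#(tris (blk z)) : ℝ))
      (fun z => √(#(a z.2.1 z.2.2) : ℝ) * √(#(b z.1 z.2.2) : ℝ) * √(#(c z.1 z.2.1) : ℝ))
      (fun _ => Nat.cast_nonneg _) (fun _ => Nat.cast_nonneg _)
      (fun _ => mul_nonneg (mul_nonneg (Real.sqrt_nonneg _) (Real.sqrt_nonneg _))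
        (Real.sqrt_nonneg _)) hblk
    have hE' : (#E : ℝ) = ∑ z ∈ P 0 ×ˢ P 1 ×ˢ P 2, (#(blk z) : ℝ) := by exact_mod_cast hsumE
    have hT' : ∑ z ∈ P 0 ×ˢ P 1 ×ˢ P 2, (#(tris (blk z)) : ℝ) ≤ #(tris E) := by
      exact_mod_cast hsumT
    rw [hE']
    refine hh.trans ?_
    have hsq : (√(#(E.image fun x => x 0) : ℝ) * √(#(E.image fun x => x 1) : ℝ) *
        √(#(E.image fun x => x 2) : ℝ)) ^ 2 = ∏ i, (#(E.image fun x => x i) : ℝ) := by
      rw [mul_pow, mul_pow, Real.sq_sqrt (Nat.cast_nonneg _), Real.sq_sqrt (Nat.cast_nonneg _),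
        Real.sq_sqrt (Nat.cast_nonneg _), Fin.prod_univ_three]
    rw [← hsq]
    refine mul_le_mul hT' (pow_le_pow_left₀ (sum_nonneg fun _ _ => mul_nonneg (mul_nonneg
      (Real.sqrt_nonneg _) (Real.sqrt_nonneg _)) (Real.sqrt_nonneg _)) hU 2) (sq_nonneg _)
      (Nat.cast_nonneg _)

/-- **Supersaturation**: the number of triangles is at least as for random relations of the same
density. -/
theorem supersat {k : ℕ} (hk : 2 ≤ k) {t : ∀ i, (Fin k → X i) → X i} (ht : ∀ i, IsWNU (t i))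
    (E : Finset (∀ i, X i)) (hlin : Lin (E : Set (∀ i, X i))) (hcl : Cl (E : Set (∀ i, X i)) t) :
    #E ^ 3 ≤ #(tris E) * ∏ i, #(E.image fun x => x i) := by
  exact_mod_cast tris_bound hk ht #E E le_rfl hlin hcl

end Pool.Agent.U422.Dense
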