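import Pool.Agent.U422.CornerTaylor
import Pool.Agent.U422.DenseTri

/-!
# The number of corners in sets closed under weak near unanimity operations
-/

set_option autoImplicit false

namespace Pool.Agent.U422.Corner

open Finset Pool.Agent.R181.Maj Pool.Agent.U422.Gumm Pool.Agent.U422.Taylor Pool.Agent.U422.TLat
  Pool.Agent.U422.Dense

/-- the triples `(x, y, z)` such that `(x, y)`, `(x + z, y)`, `(x, y + z)` are in `A`; `z = 0` is
allowed -/
def corners {G : Type} [AddCommGroup G] (A : Finset (G × G)) : Set (G × G × G) :=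
  {w | (w.1, w.2.1) ∈ A ∧ (w.1 + w.2.2, w.2.1) ∈ A ∧ (w.1, w.2.1 + w.2.2) ∈ A}

variable {G : Type} [AddCommGroup G] [Fintype G]

omit [Fintype G] in
theorem corners_mono {A B : Finset (G × G)} (h : B ⊆ A) : corners B ⊆ corners A :=
  fun _ hw => ⟨h hw.1, h hw.2.1, h hw.2.2⟩

/-- **Supersaturation for corners**, one piece -/
theorem count_one (B : Finset (G × G)) (hw : WNUClosed B) :
    #B ^ 3 ≤ (corners B).ncard * Fintype.card G ^ 3 := by
  classical
  obtain ⟨k, t, hk, ht, hcl⟩ := hw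
  let φ : G × G → Fin 3 → G := fun a i => pr i a
  have hφ : Function.Injective φ := fun a b h =>
    pr_inj (i := 0) (j := 1) (by decide) (congrFun h 0) (congrFun h 1)
  have hlin : Lin (X := fun _ : Fin 3 => G) ((B.image φ : Finset (Fin 3 → G)) : Set _) := by
    intro a' ha b' hb i j hij h1 h2
    obtain ⟨a, -, rfl⟩ := mem_image.1 (mem_coe.1 ha)
    obtain ⟨b, -, rfl⟩ := mem_image.1 (mem_coe.1 hb)
    rw [pr_inj hij h1 h2]
  have hE : Cl (X := fun _ : Fin 3 => G) ((B.image φ : Finset (Fin 3 → G)) : Set _) t := by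
    intro a ha
    have h1 : ∀ j, ∃ b ∈ B, φ b = a j := fun j => mem_image.1 (mem_coe.1 (ha j))
    choose b hb hb' using h1
    obtain ⟨d, hd, hd'⟩ := hcl b hb
    rw [mem_coe, mem_image]
    refine ⟨d, hd, ?_⟩
    funext i
    show pr i d = t i fun j => a j i
    rw [hd']
    congr 1
    funext j
    exact congrFun (hb' j) i
  have h := supersat (X := fun _ : Fin 3 => G) hk ht (B.image φ) hlin hE
  rw [card_image_of_injective _ hφ] at h
  have h1 : #(tris (X := fun _ : Fin 3 => G) (B.image φ)) ≤ (corners B).ncard := by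
    rw [← Set.ncard_coe_finset]
    refine Set.ncard_le_ncard_of_injOn (fun w => (w.1 0, w.1 1, w.2.1 1 - w.1 1)) ?_ ?_
      (Set.toFinite _)
    · rintro ⟨a', b', c'⟩ hw
      obtain ⟨⟨ha', hb', hc'⟩, h0, h1, h2⟩ := mem_tris.1 (mem_coe.1 hw)
      obtain ⟨⟨a0, a1⟩, ha, rfl⟩ := mem_image.1 ha'
      obtain ⟨⟨b0, b1⟩, hb, rfl⟩ := mem_image.1 hb'
      obtain ⟨⟨c0, c1⟩, hc, rfl⟩ := mem_image.1 hc'
      have e0 : a0 = b0 := h0
      have e1 : a1 = c1 := h1
      have e2 : b0 + b1 = c0 + c1 := h2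
      subst e0 e1
      show (a0, a1) ∈ B ∧ (a0 + (b1 - a1), a1) ∈ B ∧ (a0, a1 + (b1 - a1)) ∈ B
      refine ⟨ha, ?_, ?_⟩
      · have : a0 + (b1 - a1) = c0 := by
          rw [← add_sub_assoc, e2, add_sub_cancel_right]
        rw [this]
        exact hc
      · rw [add_sub_cancel]
        exact hb
    · rintro ⟨a', b', c'⟩ hw ⟨u', v', w'⟩ hw' hh
      obtain ⟨⟨ha', hb', hc'⟩, h0, h1, h2⟩ := mem_tris.1 (mem_coe.1 hw)
      obtain ⟨⟨hu', hv', hz'⟩, k0, k1, k2⟩ := mem_tris.1 (mem_coe.1 hw')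
      have q0 : a' 0 = u' 0 := congrArg (fun x => x.1) hh
      have q1 : a' 1 = u' 1 := congrArg (fun x => x.2.1) hh
      have q2 : b' 1 - a' 1 = v' 1 - u' 1 := congrArg (fun x => x.2.2) hh
      have ea : a' = u' := hlin a' (mem_coe.2 ha') u' (mem_coe.2 hu') 0 1 (by decide) q0 q1
      subst ea
      have eb1 : b' 1 = v' 1 := sub_left_injective q2
      have eb : b' = v' := hlin b' (mem_coe.2 hb') v' (mem_coe.2 hv') 0 1 (by decide)
        (h0.symm.trans k0) eb1
      subst eb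
      have ec : c' = w' := hlin c' (mem_coe.2 hc') w' (mem_coe.2 hz') 1 2 (by decide)
        (h1.symm.trans k1) (h2.symm.trans k2)
      rw [ec]
  refine h.trans (Nat.mul_le_mul h1 ?_)
  calc ∏ i : Fin 3, #((B.image φ).image fun x => x i) ≤ ∏ _i : Fin 3, Fintype.card G :=
        prod_le_prod' fun i _ => card_le_univ _
    _ = Fintype.card G ^ 3 := by rw [prod_const, card_univ, Fintype.card_fin]

/-- **Supersaturation for corners.** -/
theorem count_union {A : Finset (G × G)} {L : ℕ} (B : Fin L → Finset (G × G))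
    (hB : ∀ i, B i ⊆ A) (hcov : ∀ a ∈ A, ∃ i, a ∈ B i) (hw : ∀ i, WNUClosed (B i)) :
    #A ^ 3 ≤ L ^ 3 * Fintype.card G ^ 3 * (corners A).ncard := by
  classical
  rcases A.eq_empty_or_nonempty with rfl | ⟨a, ha⟩
  · simp
  obtain ⟨i₁, -⟩ := hcov a ha
  obtain ⟨i₀, -, hi₀⟩ := exists_max_image (univ : Finset (Fin L)) (fun i => #(B i))
    ⟨i₁, mem_univ _⟩
  have h1 : #A ≤ L * #(B i₀) := by
    have h2 : A ⊆ univ.biUnion B := fun a ha => by
      obtain ⟨i, hi⟩ := hcov a ha
      exact mem_biUnion.2 ⟨i, mem_univ _, hi⟩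
    refine (card_le_card h2).trans (card_biUnion_le.trans ?_)
    refine (sum_le_card_nsmul _ _ _ fun i hi => hi₀ i hi).trans ?_
    rw [card_univ, Fintype.card_fin, smul_eq_mul]
  calc #A ^ 3 ≤ (L * #(B i₀)) ^ 3 := Nat.pow_le_pow_left h1 3
    _ = L ^ 3 * #(B i₀) ^ 3 := mul_pow _ _ _
    _ ≤ L ^ 3 * ((corners (B i₀)).ncard * Fintype.card G ^ 3) :=
        Nat.mul_le_mul_left _ (count_one _ (hw i₀))
    _ ≤ L ^ 3 * ((corners A).ncard * Fintype.card G ^ 3) :=
        Nat.mul_le_mul_left _ (Nat.mul_le_mul_right _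
          (Set.ncard_le_ncard (corners_mono (hB i₀)) (Set.toFinite _)))
    _ = L ^ 3 * Fintype.card G ^ 3 * (corners A).ncard := by ring

theorem corners_few {A : Finset (G × G)} {s : ℕ} (hA : FewCorners A s) :
    (corners A).ncard ≤ (s + 1) * #A := by
  classical
  have hfin : (corners A).Finite := Set.toFinite _
  rw [Set.ncard_eq_toFinset_card _ hfin]
  refine (card_le_mul_card_image (f := fun w : G × G × G => (w.1, w.2.1)) hfin.toFinset (s + 1)
    ?_).trans (Nat.mul_le_mul_left _ (card_le_card ?_))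
  · rintro ⟨x, y⟩ hxy
    obtain ⟨w, hw, hwx⟩ := mem_image.1 hxy
    have hw' := (hfin.mem_toFinset).1 hw
    have hxyA : (x, y) ∈ A := by
      rw [← hwx]
      exact hw'.1
    have h1 := hA x y hxyA
    have h2 : #{w ∈ hfin.toFinset | (w.1, w.2.1) = (x, y)} ≤
        (insert (0 : G) {z : G | z ≠ 0 ∧ (x + z, y) ∈ A ∧ (x, y + z) ∈ A}).ncard := by
      rw [← Set.ncard_coe_finset]
      refine Set.ncard_le_ncard_of_injOn (fun w => w.2.2) ?_ ?_ (Set.toFinite _)
      · intro w hw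
        obtain ⟨hw1, hw2⟩ := mem_filter.1 (mem_coe.1 hw)
        have hw3 := (hfin.mem_toFinset).1 hw1
        have e1 : w.1 = x := congrArg Prod.fst hw2
        have e2 : w.2.1 = y := congrArg Prod.snd hw2
        by_cases h0 : w.2.2 = 0
        · exact Or.inl h0
        · refine Or.inr ⟨h0, ?_, ?_⟩
          · rw [← e1, ← e2]
            exact hw3.2.1
          · rw [← e1, ← e2]
            exact hw3.2.2
      · intro w hw w' hw' h
        have e1 := (mem_filter.1 (mem_coe.1 hw)).2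
        have e2 := (mem_filter.1 (mem_coe.1 hw')).2
        have e3 := Prod.mk.inj (e1.trans e2.symm)
        exact Prod.ext e3.1 (Prod.ext e3.2 h)
    exact h2.trans ((Set.ncard_insert_le _ _).trans (Nat.succ_le_succ h1))
  · intro z hz
    obtain ⟨w, hw, rfl⟩ := mem_image.1 hz
    exact ((hfin.mem_toFinset).1 hw).1

theorem few_bound {A : Finset (G × G)} {s : ℕ} (hA : FewCorners A s) (hw : WNUClosed A) :
    #A ^ 2 ≤ (s + 1) * Fintype.card G ^ 3 := by
  rcases A.eq_empty_or_nonempty with rfl | hne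
  · simp
  have h1 := (count_one A hw).trans (Nat.mul_le_mul_right _ (corners_few hA))
  have h2 : 0 < #A := card_pos.2 hne
  refine Nat.le_of_mul_le_mul_left ?_ h2
  calc #A * #A ^ 2 = #A ^ 3 := by ring
    _ ≤ (s + 1) * #A * Fintype.card G ^ 3 := h1
    _ = #A * ((s + 1) * Fintype.card G ^ 3) := by ring

end Pool.Agent.U422.Corner
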