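import Pool.Agent.U422.CentBound

/-!
# Saturated sets of vertices, and the bound `|E|² ≤ (e - 1)² |X 0| |X 1| |X 2|`
-/

set_option autoImplicit false

namespace Pool.Agent.U422.TLat

open Finset Pool.Agent.R181.Maj Pool.Agent.U422.Gumm Pool.Agent.U422.Taylor

section Sat

variable {X : Fin 3 → Type} [∀ i, Fintype (X i)] [∀ i, DecidableEq (X i)] {E : Finset (∀ i, X i)}

/-- Every element of `E` is in a small closed set of vertices such that all triangles at the
elements of `E` in the set are in the set. -/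
theorem exists_sat {k : ℕ} (hk : 2 ≤ k) {t : ∀ i, (Fin k → X i) → X i} (ht : ∀ i, IsWNU (t i))
    (hE : Cl (E : Set (∀ i, X i)) t) {e : ℕ}
    (hsp : ∀ S : Finset (Sigma X), #S ≤ e + 3 → #(ins E S) < e) {a : ∀ i, X i} (haE : a ∈ E) :
    ∃ S : Finset (Sigma X), (∀ i, (⟨i, a i⟩ : Sigma X) ∈ S) ∧ #(ins E S) < e ∧
      Clo (E : Set (∀ i, X i)) S ∧
      ∀ b ∈ E, (∀ i, (⟨i, b i⟩ : Sigma X) ∈ S) → ∀ z ∈ good E b, (⟨2, z⟩ : Sigma X) ∈ S := by
  classical
  obtain ⟨ι, _, _, s, hN, hs, hsE⟩ := exists_large hk ht hE 3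
  have hsp' : ∀ T : Finset (Sigma X), #T ≤ #(ins E T) + 3 → #T ≠ e + 3 := by
    intro T h1 h2
    have := hsp T h2.le
    omega
  have key : ∀ (n : ℕ) (S : Finset (Sigma X)), (∀ i, (⟨i, a i⟩ : Sigma X) ∈ S) →
      #S ≤ #(ins E S) + 2 → #S < e + 3 → e + 3 - #S ≤ n →
      ∃ S : Finset (Sigma X), (∀ i, (⟨i, a i⟩ : Sigma X) ∈ S) ∧ #(ins E S) < e ∧
      Clo (E : Set (∀ i, X i)) S ∧
      ∀ b ∈ E, (∀ i, (⟨i, b i⟩ : Sigma X) ∈ S) → ∀ z ∈ good E b, (⟨2, z⟩ : Sigma X) ∈ S := by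
    intro n
    induction n with
    | zero =>
      intro S _ _ h3 h4
      omega
    | succ n ih =>
      intro S haS h2 h3 h4
      by_cases hcl : Clo (E : Set (∀ i, X i)) S
      · by_cases hgood : ∀ b ∈ E, (∀ i, (⟨i, b i⟩ : Sigma X) ∈ S) →
            ∀ z ∈ good E b, (⟨2, z⟩ : Sigma X) ∈ S
        · exact ⟨S, haS, hsp S h3.le, hcl, hgood⟩
        · push Not at hgood
          obtain ⟨b, hb, hbS, z, hz, hzS⟩ := hgood
          obtain ⟨S', h5, h6, h7, h8⟩ := grow hN hs hsE hsp' hb hbS h2 h3 hcl hz hzS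
          exact ih S' (fun i => h5 (haS i)) h7 h8 (by omega)
      · unfold Clo at hcl
        push Not at hcl
        obtain ⟨b, hb, i, j, hij, hi, hj, m, hm⟩ := hcl
        have hmi : m ≠ i := by
          rintro rfl
          exact hm hi
        have hmj : m ≠ j := by
          rintro rfl
          exact hm hj
        have h5 := card_ins_insert (E := E) hm {b} (by
          intro c hc
          rw [mem_singleton] at hc
          subst hc
          refine ⟨mem_coe.1 hb, ⟨m, rfl⟩, fun n => ?_⟩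
          rcases cases_third i j m n hij hmi hmj with rfl | rfl | rfl
          · exact mem_insert_of_mem hi
          · exact mem_insert_of_mem hj
          · exact mem_insert_self _ _)
        rw [card_singleton] at h5
        have h6 := card_insert_of_notMem hm
        have h7 := hsp' (insert ⟨m, b m⟩ S) (by omega)
        exact ih (insert ⟨m, b m⟩ S) (fun i => mem_insert_of_mem (haS i)) (by omega) (by omega)
          (by omega)
  have h3 : #(univ.image fun i => (⟨i, a i⟩ : Sigma X)) = 3 := by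
    rw [card_image_of_injective, card_univ, Fintype.card_fin]
    intro i j hij
    exact congrArg Sigma.fst hij
  have h4 : 1 ≤ #(ins E (univ.image fun i => (⟨i, a i⟩ : Sigma X))) := by
    refine card_pos.2 ⟨a, ?_⟩
    rw [mem_ins]
    exact ⟨haE, fun i => mem_image_of_mem _ (mem_univ i)⟩
  have h5 := hsp' (univ.image fun i => (⟨i, a i⟩ : Sigma X)) (by omega)
  exact key _ (univ.image fun i => (⟨i, a i⟩ : Sigma X))
    (fun i => mem_image_of_mem _ (mem_univ i)) (by omega) (by omega) le_rfl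

/-- **The bound for sparse linear relations.** -/
theorem sparse_saving (hlin : Lin (E : Set (∀ i, X i))) {k : ℕ} (hk : 2 ≤ k)
    {t : ∀ i, (Fin k → X i) → X i} (ht : ∀ i, IsWNU (t i)) (hE : Cl (E : Set (∀ i, X i)) t)
    {e : ℕ} (hsp : ∀ S : Finset (Sigma X), #S ≤ e + 3 → #(ins E S) < e) :
    #E ^ 2 ≤ (e - 1) ^ 2 * ∏ i, Fintype.card (X i) := by
  classical
  refine Pool.Agent.U422.Tame.lin_saving' hlin hk ht hE fun a ha => ?_
  obtain ⟨S, haS, hS, hcl, hgood⟩ := exists_sat hk ht hE hsp ha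
  have hz : ∀ b ∈ E, (∀ i, (⟨i, b i⟩ : Sigma X) ∈ S) → ∀ y ∈ E, (∃ c ∈ E, c 1 = b 1 ∧ c 2 = y 2) →
      (∃ c ∈ E, c 0 = b 0 ∧ c 2 = y 2) → (⟨2, y 2⟩ : Sigma X) ∈ S := by
    intro b hb hbS y hy h1 h2
    by_cases h3 : y 2 = b 2
    · rw [h3]
      exact hbS 2
    · refine hgood b hb hbS (y 2) ?_
      rw [good, mem_filter]
      exact ⟨mem_univ _, h1, h2, h3⟩
  refine (card_le_card fun y hy => ?_).trans (Nat.le_sub_one_of_lt hS)
  obtain ⟨hyE, p, hp, ⟨h0, c, hc, h1, h2⟩, h3, d, hd, h4, h5⟩ := mem_filter.1 hy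
  have hpS : ∀ i, (⟨i, p i⟩ : Sigma X) ∈ S := by
    refine hcl p (mem_coe.2 hp) 0 2 (by decide) ?_ ?_
    · rw [← h0]
      exact haS 0
    · exact hz a ha haS p hp ⟨c, hc, h1.symm, h2⟩ ⟨p, hp, h0.symm, rfl⟩
  rw [mem_ins]
  refine ⟨hyE, hcl y (mem_coe.2 hyE) 1 2 (by decide) ?_ ?_⟩
  · rw [← h3]
    exact hpS 1
  · exact hz p hp hpS y hyE ⟨y, hyE, h3.symm, rfl⟩ ⟨d, hd, h4.symm, h5⟩

end Sat

theorem sum_split' {r : ℕ} (σ : Fin 3 ↪ Fin r) (f : Fin r → ℕ) (e s : ℕ) (hf : ∀ i, f i ≤ e)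
    (h : ∑ i : Fin 3, f (σ i) ≤ s) : ∑ i, f i ≤ (r - 3) * e + s := by
  rw [← sum_compl_add_sum (univ.map σ), sum_map]
  refine add_le_add ?_ h
  refine (sum_le_card_nsmul _ _ e fun i _ => hf i).trans ?_
  rw [card_compl, card_map, card_univ, Fintype.card_fin, Fintype.card_fin, smul_eq_mul]

/-- three coordinates -/
def prσ {r : ℕ} (σ : Fin 3 ↪ Fin r) {X : Fin r → Type} (a : ∀ i, X i) : ∀ i : Fin 3, X (σ i) :=
  fun i => a (σ i)

theorem prσ_inj {r : ℕ} (σ : Fin 3 ↪ Fin r) {X : Fin r → Type} {E : Set (∀ i, X i)}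
    (hlin : Lin E) {a b : ∀ i, X i} (ha : a ∈ E) (hb : b ∈ E) {i j : Fin 3} (hij : i ≠ j)
    (h1 : prσ σ a i = prσ σ b i) (h2 : prσ σ a j = prσ σ b j) : a = b :=
  hlin a ha b hb (σ i) (σ j) (fun h => hij (σ.injective h)) h1 h2

theorem rel_saving (r : ℕ) (hr : 3 ≤ r) (σ : Fin 3 ↪ Fin r) (e : ℕ) (X : Fin r → Type)
    [∀ i, Fintype (X i)] [∀ i, DecidableEq (X i)] (E : Finset (∀ i, X i)) (k : ℕ)
    (t : ∀ i, (Fin k → X i) → X i) (hk : 2 ≤ k) (ht : ∀ i, IsWNU (t i))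
    (hE : Cl (E : Set (∀ i, X i)) t) (hlin : Lin (E : Set (∀ i, X i)))
    (hsp : ∀ T ⊆ E, #T = e → (r - 2) * e + 3 < ∑ i, #(T.image fun x => x i)) :
    #E ^ 2 ≤ (e - 1) ^ 2 * ∏ i : Fin 3, Fintype.card (X (σ i)) := by
  classical
  have hmem : ∀ a', a' ∈ E.image (prσ σ) ↔ ∃ a ∈ E, prσ σ a = a' := fun a' => mem_image
  have h1 := sparse_saving (X := fun i => X (σ i)) (E := E.image (prσ σ)) ?_ hk
    (t := fun i => t (σ i)) (fun i => ht _) ?_ (e := e) ?_
  · rwa [card_image_of_injOn] at h1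
    intro a ha b hb hab
    exact prσ_inj σ hlin ha hb (i := 0) (j := 1) (by decide) (congrFun hab 0) (congrFun hab 1)
  · intro a' ha' b' hb' i j hij h2 h3
    obtain ⟨a, ha, rfl⟩ := (hmem _).1 (mem_coe.1 ha')
    obtain ⟨b, hb, rfl⟩ := (hmem _).1 (mem_coe.1 hb')
    rw [prσ_inj σ hlin (mem_coe.2 ha) (mem_coe.2 hb) hij h2 h3]
  · intro a ha
    have h2 : ∀ j, ∃ b ∈ E, prσ σ b = a j := fun j => (hmem _).1 (mem_coe.1 (ha j))
    choose b hb hb' using h2
    rw [mem_coe, hmem]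
    refine ⟨_, hE b fun j => mem_coe.2 (hb j), ?_⟩
    funext i
    show t (σ i) (fun j => b j (σ i)) = t (σ i) fun j => a j i
    congr 1
    funext j
    exact congrFun (hb' j) i
  · intro S hS
    by_contra hcon
    push Not at hcon
    obtain ⟨T', hT', hTe⟩ := exists_subset_card_eq hcon
    have hTT : (E.filter fun a => prσ σ a ∈ T').image (prσ σ) = T' := by
      ext a'
      rw [mem_image]
      constructor
      · rintro ⟨a, ha, rfl⟩
        exact (mem_filter.1 ha).2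
      · intro ha'
        have h2 := hT' ha'
        rw [mem_ins, hmem] at h2
        obtain ⟨⟨a, ha, rfl⟩, -⟩ := h2
        exact ⟨a, mem_filter.2 ⟨ha, ha'⟩, rfl⟩
    set T := E.filter fun a => prσ σ a ∈ T' with hT
    have hTE : T ⊆ E := filter_subset _ _
    have hTc : #T = e := by
      rw [← hTe, ← hTT, card_image_of_injOn]
      intro a ha b hb hab
      exact prσ_inj σ hlin (hTE ha) (hTE hb) (i := 0) (j := 1) (by decide) (congrFun hab 0)
        (congrFun hab 1)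
    have h2 := hsp T hTE hTc
    have h3 : ∑ i, #(T'.image fun x => x i) ≤ e + 3 := by
      refine le_trans ?_ hS
      refine sum_image_le T' S fun a ha => ?_
      have h4 := hT' ha
      rw [mem_ins] at h4
      exact h4.2
    have h4 : ∑ i : Fin 3, #(T.image fun x => x (σ i)) ≤ e + 3 := by
      refine le_trans (le_of_eq (sum_congr rfl fun i _ => ?_)) h3
      rw [← hTT, image_image]
      rfl
    have h5 := sum_split' σ (fun i => #(T.image fun x => x i)) e (e + 3)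
      (fun i => card_image_le.trans hTc.le) h4
    have h6 : (r - 2) * e = (r - 3) * e + e := by
      obtain ⟨m, rfl⟩ : ∃ m, r = m + 3 := ⟨r - 3, by omega⟩
      rw [show m + 3 - 2 = m + 1 by omega, show m + 3 - 3 = m by omega]
      ring
    have h7 : ∑ i, #(T.image fun x => x i) ≤ (r - 3) * e + (e + 3) := h5
    omega

/-- three small coordinates -/
theorem exists_three (r : ℕ) (hr : 3 ≤ r) (c : Fin r → ℕ) :
    ∃ σ : Fin 3 ↪ Fin r, r * ∑ i, c (σ i) ≤ 3 * ∑ i, c i := by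
  have : NeZero r := ⟨by omega⟩
  let τ : Fin r → (Fin 3 ↪ Fin r) := fun j =>
    (Fin.castLEEmb hr).trans (Equiv.addRight j).toEmbedding
  by_contra hcon
  push Not at hcon
  have h1 : ∑ j : Fin r, ∑ i : Fin 3, c (τ j i) = 3 * ∑ i, c i := by
    rw [sum_comm]
    have h2 : ∀ i : Fin 3, ∑ j : Fin r, c (τ j i) = ∑ j, c j := by
      intro i
      exact Equiv.sum_comp (Equiv.addLeft (Fin.castLE hr i)) c
    rw [sum_congr rfl fun i _ => h2 i, sum_const, card_univ, Fintype.card_fin, smul_eq_mul]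
  have h3 : ∑ _j : Fin r, 3 * ∑ i, c i < ∑ j : Fin r, r * ∑ i : Fin 3, c (τ j i) :=
    sum_lt_sum_of_nonempty ⟨0, mem_univ _⟩ fun j _ => hcon (τ j)
  have h4 : ∑ j : Fin r, r * ∑ i : Fin 3, c (τ j i) = r * (3 * ∑ i, c i) := by
    rw [← mul_sum, h1]
  have h5 : ∑ _j : Fin r, 3 * ∑ i, c i = r * (3 * ∑ i, c i) := by
    rw [sum_const, card_univ, Fintype.card_fin, smul_eq_mul]
  rw [h4, h5] at h3
  exact lt_irrefl _ h3

theorem amgm3 {a b c : ℝ} (ha : 0 ≤ a) (hb : 0 ≤ b) (hc : 0 ≤ c) :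
    a * b * c ≤ ((a + b + c) / 3) ^ 3 := by
  nlinarith [mul_nonneg ha (sq_nonneg (b - c)), mul_nonneg hb (sq_nonneg (a - c)),
    mul_nonneg hc (sq_nonneg (a - b)), mul_nonneg (add_nonneg (add_nonneg ha hb) hc)
      (add_nonneg (add_nonneg (sq_nonneg (a - b)) (sq_nonneg (b - c))) (sq_nonneg (a - c)))]

theorem rpow_sq {x : ℝ} (hx : 0 ≤ x) : (x ^ (3 / 2 : ℝ)) ^ 2 = x ^ 3 := by
  rw [← Real.rpow_natCast, ← Real.rpow_mul hx]
  norm_num

/-- **Linear WNU pieces of sparse hypergraphs.** -/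
theorem piece_saving (r : ℕ) (hr : 3 ≤ r) (e : ℕ) (V : Type) [Fintype V] (H F : Set (Finset V))
    (hF : WNUPiece r F) (hlin : Linear F) (hFH : F ⊆ H) (hsp : SpanMore H e ((r - 2) * e + 3)) :
    (F.ncard : ℝ) ≤ ((e : ℝ) - 1) * ((Fintype.card V : ℝ) / r) ^ (3 / 2 : ℝ) := by
  classical
  obtain ⟨X, v, E, k, t, hk, ht, hv, hE, rfl⟩ := hF
  have hfi : ∀ i, Function.Injective fun a : X i => v ⟨i, a⟩ := fun i a b hab =>
    eq_of_heq (Sigma.mk.inj (hv hab)).2
  have : ∀ i, Finite (X i) := fun i => Finite.of_injective _ (hfi i)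
  let _ : ∀ i, Fintype (X i) := fun i => Fintype.ofFinite (X i)
  have he : 1 ≤ e := by
    by_contra h
    have h0 : e = 0 := by omega
    subst h0
    have h1 := hsp ∅ (by simp) rfl
    simp at h1
  obtain ⟨σ, hσ⟩ := exists_three r hr fun i => Fintype.card (X i)
  have h1 := rel_saving r hr σ e X E.toFinset k t hk ht (by rwa [Set.coe_toFinset])
    (by rw [Set.coe_toFinset]; exact lin_of_linear hv hlin) (by
      intro T hT hTe
      have h2 := hsp (T.image (edge v)) (by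
        rw [coe_image]
        rintro a ⟨x, hx, rfl⟩
        exact hFH ⟨x, Set.mem_toFinset.1 (hT (mem_coe.1 hx)), rfl⟩)
        (by rw [card_image_of_injective _ (edge_injective hv), hTe])
      rwa [union_eq hv] at h2)
  have h2 : r * ∑ i : Fin 3, Fintype.card (X (σ i)) ≤ 3 * Fintype.card V := by
    refine hσ.trans (Nat.mul_le_mul_left 3 ?_)
    rw [← Fintype.card_sigma]
    exact Fintype.card_le_of_injective v hv
  rw [Set.ncard_image_of_injective _ (edge_injective hv), Set.ncard_eq_toFinset_card']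
  obtain ⟨n, hn⟩ : ∃ n : ℝ, n = (Fintype.card V : ℝ) := ⟨_, rfl⟩
  rw [← hn]
  have hn0 : 0 ≤ n := by
    rw [hn]
    positivity
  have hr0 : (0 : ℝ) < r := by
    have : 0 < r := by omega
    exact_mod_cast this
  have h3 : ((#E.toFinset : ℕ) : ℝ) ^ 2 ≤ ((e : ℝ) - 1) ^ 2 * (n / r) ^ 3 := by
    have h4 : ((#E.toFinset : ℕ) : ℝ) ^ 2 ≤ ((e - 1 : ℕ) : ℝ) ^ 2 *
        ∏ i : Fin 3, (Fintype.card (X (σ i)) : ℝ) := by exact_mod_cast h1
    rw [Nat.cast_sub he, Nat.cast_one] at h4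
    refine h4.trans (mul_le_mul_of_nonneg_left ?_ (sq_nonneg _))
    rw [Fin.sum_univ_three] at h2
    rw [Fin.prod_univ_three]
    refine (amgm3 (Nat.cast_nonneg _) (Nat.cast_nonneg _) (Nat.cast_nonneg _)).trans ?_
    refine pow_le_pow_left₀ (by positivity) ?_ 3
    rw [div_le_div_iff₀ (by norm_num) hr0, hn, mul_comm, mul_comm (Fintype.card V : ℝ) 3]
    exact_mod_cast h2
  have h5 : ((e : ℝ) - 1) ^ 2 * (n / r) ^ 3 = (((e : ℝ) - 1) * (n / r) ^ (3 / 2 : ℝ)) ^ 2 := by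
    rw [mul_pow, rpow_sq (by positivity)]
  rw [h5] at h3
  have h6 : (0 : ℝ) ≤ (e : ℝ) - 1 := by
    have : (1 : ℝ) ≤ e := by exact_mod_cast he
    linarith
  exact le_of_sq_le_sq h3 (by positivity)

end Pool.Agent.U422.TLat
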