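import Pool.Agent.U422.Corner
import Pool.Agent.U422.Sat

/-!
# Sets with few corners closed under weak near unanimity operations
-/

set_option autoImplicit false

namespace Pool.Agent.U422.Corner

open Finset Pool.Agent.R181.Maj Pool.Agent.U422.Gumm Pool.Agent.U422.Taylor Pool.Agent.U422.TLat

/-- `A` is closed under some idempotent weak near unanimity operations, of one arity `k ≥ 2`, on the
projections. -/
def WNUClosed {G : Type} [AddCommGroup G] (A : Finset (G × G)) : Prop :=
  ∃ (k : ℕ) (t : Fin 3 → (Fin k → G) → G), 2 ≤ k ∧ (∀ i, IsWNU (t i)) ∧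
    ∀ a : Fin k → G × G, (∀ j, a j ∈ A) → ∃ d ∈ A, ∀ i, pr i d = t i fun j => pr i (a j)

/-- Every point of `A` is in at most `s` nontrivial corners `(x, y), (x + z, y), (x, y + z)`. -/
def FewCorners {G : Type} [AddCommGroup G] (A : Finset (G × G)) (s : ℕ) : Prop :=
  ∀ x y : G, (x, y) ∈ A → {z : G | z ≠ 0 ∧ (x + z, y) ∈ A ∧ (x, y + z) ∈ A}.ncard ≤ s

section

variable {G : Type} [AddCommGroup G]

theorem CornerFree.few [Finite G] {A : Finset (G × G)} (hA : CornerFree A) : FewCorners A 0 := by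
  intro x y hxy
  have : {z : G | z ≠ 0 ∧ (x + z, y) ∈ A ∧ (x, y + z) ∈ A} = ∅ := by
    rw [Set.eq_empty_iff_forall_notMem]
    rintro z ⟨h, h1, h2⟩
    exact h (hA x y z hxy h2 h1)
  rw [this, Set.ncard_empty]

theorem FewCorners.mono [Finite G] {A B : Finset (G × G)} {s : ℕ} (hA : FewCorners A s)
    (h : B ⊆ A) : FewCorners B s := by
  intro x y hxy
  refine le_trans (Set.ncard_le_ncard ?_ (Set.toFinite _)) (hA x y (h hxy))
  rintro z ⟨h1, h2, h3⟩
  exact ⟨h1, h h2, h h3⟩

/-- **The bound** for one set closed under weak near unanimity operations. -/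
theorem wnu_bound [Fintype G] {A : Finset (G × G)} {s : ℕ} (hA : FewCorners A s)
    (hw : WNUClosed A) : #A ^ 2 ≤ (s + 1) ^ 4 * Fintype.card G ^ 3 := by
  classical
  obtain ⟨k, t, hk, ht, hcl⟩ := hw
  let φ : G × G → Fin 3 → G := fun a i => pr i a
  have hφ : Function.Injective φ := fun a b h =>
    pr_inj (i := 0) (j := 1) (by decide) (congrFun h 0) (congrFun h 1)
  have hlin : Lin (X := fun _ : Fin 3 => G) ((A.image φ : Finset (Fin 3 → G)) : Set _) := by
    intro a' ha b' hb i j hij h1 h2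
    obtain ⟨a, -, rfl⟩ := mem_image.1 (mem_coe.1 ha)
    obtain ⟨b, -, rfl⟩ := mem_image.1 (mem_coe.1 hb)
    rw [pr_inj hij h1 h2]
  have hE : Cl (X := fun _ : Fin 3 => G) ((A.image φ : Finset (Fin 3 → G)) : Set _) t := by
    intro a ha
    have h1 : ∀ j, ∃ b ∈ A, φ b = a j := fun j => mem_image.1 (mem_coe.1 (ha j))
    choose b hb hb' using h1
    obtain ⟨d, hd, hd'⟩ := hcl b hb
    rw [mem_coe, mem_image]
    refine ⟨d, hd, ?_⟩
    funext i
    show pr i d = t i fun j => a j i
    rw [hd']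
    congr 1
    funext j
    exact congrFun (hb' j) i
  have h := Pool.Agent.U422.Tame.lin_saving (X := fun _ : Fin 3 => G) (E := A.image φ) hlin hk ht hE
    (s := s) (by
      intro a' ha'
      obtain ⟨⟨x, y⟩, hxy, rfl⟩ := mem_image.1 ha'
      refine le_trans ?_ (hA x y hxy)
      rw [← Set.ncard_coe_finset]
      refine Set.ncard_le_ncard_of_injOn (fun z => z - (x + y)) ?_
        (fun z _ z' _ h => sub_left_injective h) (Set.toFinite _)
      intro z hz
      rw [mem_coe, good, mem_filter] at hz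
      obtain ⟨-, ⟨b', hb', hb1, hb2⟩, ⟨c', hc', hc0, hc2⟩, hza⟩ := hz
      obtain ⟨⟨b0, b1⟩, hb, rfl⟩ := mem_image.1 hb'
      obtain ⟨⟨c0, c1⟩, hc, rfl⟩ := mem_image.1 hc'
      have e1 : b1 = y := hb1
      have e2 : b0 + b1 = z := hb2
      have e3 : c0 = x := hc0
      have e4 : c0 + c1 = z := hc2
      have e5 : z ≠ x + y := hza
      subst e1 e3
      refine ⟨sub_ne_zero.2 e5, ?_, ?_⟩
      · have : (c0 + (z - (c0 + b1)), b1) = (b0, b1) := by
          refine Prod.ext ?_ rfl
          show c0 + (z - (c0 + b1)) = b0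
          rw [← e2]
          abel
        show (c0 + (z - (c0 + b1)), b1) ∈ A
        rw [this]
        exact hb
      · have : (c0, b1 + (z - (c0 + b1))) = (c0, c1) := by
          refine Prod.ext rfl ?_
          show b1 + (z - (c0 + b1)) = c1
          rw [← e4]
          abel
        show (c0, b1 + (z - (c0 + b1))) ∈ A
        rw [this]
        exact hc)
  rw [card_image_of_injective _ hφ, prod_const, card_univ, Fintype.card_fin] at h
  refine h.trans (le_of_eq ?_)
  ring

/-- **The bound for unions.** -/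
theorem union_of {A : Finset (G × G)} {L M : ℕ} (B : Fin L → Finset (G × G))
    (hcov : ∀ a ∈ A, ∃ i, a ∈ B i) (hp : ∀ i, #(B i) ^ 2 ≤ M) : #A ^ 2 ≤ L ^ 2 * M := by
  classical
  have h1 : #A ≤ ∑ i, #(B i) := by
    have : A ⊆ univ.biUnion B := fun a ha => by
      obtain ⟨i, hi⟩ := hcov a ha
      exact mem_biUnion.2 ⟨i, mem_univ _, hi⟩
    exact (card_le_card this).trans card_biUnion_le
  have h2 : ∀ i, (#(B i) : ℝ) ≤ Real.sqrt M := by
    intro i
    refine Real.le_sqrt_of_sq_le ?_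
    exact_mod_cast hp i
  have h3 : (#A : ℝ) ≤ L * Real.sqrt M := by
    calc (#A : ℝ) ≤ ((∑ i, #(B i) : ℕ) : ℝ) := by exact_mod_cast h1
      _ = ∑ i, (#(B i) : ℝ) := by push_cast; rfl
      _ ≤ ∑ _i : Fin L, Real.sqrt M := sum_le_sum fun i _ => h2 i
      _ = _ := by rw [sum_const, card_univ, Fintype.card_fin, nsmul_eq_mul]
  have h4 : (#A : ℝ) ^ 2 ≤ L ^ 2 * M := by
    calc (#A : ℝ) ^ 2 ≤ (L * Real.sqrt M) ^ 2 := pow_le_pow_left₀ (by positivity) h3 2
      _ = _ := by rw [mul_pow, Real.sq_sqrt (by positivity)]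
  exact_mod_cast h4

end

end Pool.Agent.U422.Corner
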