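import Mathlib

/-!
# Operations preserving a set of permutation cubes
-/

set_option autoImplicit false

namespace Pool.Agent.U422.Cube

open Finset Function

variable {X : Type} [Fintype X] [DecidableEq X] {m k : ℕ} {C : Fin k → (Fin m → X) → X}

/-- the cubes are permutation cubes -/
def Lines (C : Fin k → (Fin m → X) → X) : Prop :=
  ∀ j i x, Bijective fun t => C j (update x i t)

/-- the maps `e i` on the coordinates and `f j` on the values preserve the cubes -/
def Endo (C : Fin k → (Fin m → X) → X) (e : Fin m → X → X) (f : Fin k → X → X) : Prop :=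
  ∀ j x, C j (fun i => e i (x i)) = f j (C j x)

omit [Fintype X] [DecidableEq X] in
theorem comp_update (e : Fin m → X → X) (x : Fin m → X) (i : Fin m) (t : X) :
    (fun i' => e i' (update x i t i')) = update (fun i' => e i' (x i')) i (e i t) := by
  funext i'
  by_cases h : i' = i
  · subst h
    rw [update_self, update_self]
  · rw [update_of_ne h, update_of_ne h]

theorem card_images (hC : Lines C) {e : Fin m → X → X} {f : Fin k → X → X} (he : Endo C e f)
    [Nonempty X] (i : Fin m) (j : Fin k) : #(univ.image (e i)) = #(univ.image (f j)) := by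
  have x₀ : Fin m → X := fun _ => Classical.arbitrary X
  have h1 : univ.image (f j) =
      (univ.image (e i)).image fun t => C j (update (fun i' => e i' (x₀ i')) i t) := by
    rw [image_image]
    ext y
    simp only [mem_image, mem_univ, true_and, comp_apply]
    constructor
    · rintro ⟨z, rfl⟩
      obtain ⟨t, rfl⟩ := (hC j i x₀).2 z
      refine ⟨t, ?_⟩
      rw [← comp_update, he]
    · rintro ⟨t, rfl⟩
      exact ⟨C j (update x₀ i t), by rw [← comp_update, he]⟩
  rw [h1, card_image_of_injective _ (hC j i _).1]

/-- half of the order -/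
theorem two_mul_le (hC : Lines C) (hm : 2 ≤ m) (j : Fin k) {S : Fin m → Finset X} {T : Finset X}
    {r : ℕ} (hr : 1 ≤ r) (hS : ∀ i, #(S i) = r) (hT : #T = r)
    (hST : ∀ x : Fin m → X, (∀ i, x i ∈ S i) → C j x ∈ T) (hlt : r < Fintype.card X) :
    2 * r ≤ Fintype.card X := by
  classical
  let i₀ : Fin m := ⟨0, by omega⟩
  let i₁ : Fin m := ⟨1, by omega⟩
  have h01 : i₁ ≠ i₀ := fun h => by
    have := congrArg Fin.val h
    simp [i₀, i₁] at this
  have hne : ∀ i, (S i).Nonempty := fun i => card_pos.1 (by rw [hS]; omega)
  choose x hx using hne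
  obtain ⟨z, hz⟩ : ∃ z, z ∉ S i₀ := by
    by_contra hcon
    push Not at hcon
    have : #(S i₀) = Fintype.card X := by
      rw [eq_univ_of_forall hcon, card_univ]
    rw [hS] at this
    omega
  have h1 : ∀ y ∈ S i₁, C j (update (update x i₀ z) i₁ y) ∉ T := by
    intro y hy hmem
    have h2 : T = (S i₀).image fun t => C j (update (update x i₁ y) i₀ t) := by
      symm
      refine eq_of_subset_of_card_le ?_ ?_
      · intro v hv
        obtain ⟨t, ht, rfl⟩ := mem_image.1 hv
        refine hST _ fun i => ?_
        by_cases hi0 : i = i₀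
        · rw [hi0, update_self]
          exact ht
        · rw [update_of_ne hi0]
          by_cases hi1 : i = i₁
          · rw [hi1, update_self]
            exact hy
          · rw [update_of_ne hi1]
            exact hx i
      · rw [card_image_of_injective _ (hC j i₀ _).1, hS, hT]
    rw [h2] at hmem
    obtain ⟨t, ht, htv⟩ := mem_image.1 hmem
    rw [update_comm h01.symm z y x] at htv
    have h3 : t = z := (hC j i₀ (update x i₁ y)).1 htv
    exact hz (h3 ▸ ht)
  have h2 : #((S i₁).image fun y => C j (update (update x i₀ z) i₁ y)) = r := by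
    rw [card_image_of_injective _ (hC j i₁ _).1, hS]
  have h3 : Disjoint T ((S i₁).image fun y => C j (update (update x i₀ z) i₁ y)) := by
    rw [disjoint_right]
    intro v hv
    obtain ⟨y, hy, rfl⟩ := mem_image.1 hv
    exact h1 y hy
  have h4 := card_le_univ (T ∪ (S i₁).image fun y => C j (update (update x i₀ z) i₁ y))
  rw [card_union_of_disjoint h3, h2, hT] at h4
  omega

end Pool.Agent.U422.Cube
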