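import Pool.Agent.U422.CubeWNU
import Pool.Agent.Y347.AG.Final

/-!
# The largest closed sets of permutation cubes
-/

set_option autoImplicit false

namespace Pool.Agent.U422.Cube

open Finset Function Pool.Agent.H430R2.PermCubes Pool.Agent.Y347.VL Pool.Agent.Y347.AG

variable {m n k s : ℕ}

theorem hom_of_homOver {C : Fin k → (Fin m → Fin n) → Fin n} (h : HomOver C) :
    ∃ (G : Type) (_ : AddCommGroup G), Nat.card G = n ∧ IsHomomorphic G m n k C := by
  obtain ⟨inst, τ, σ, φ, h⟩ := h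
  exact ⟨Fin n, inst, by simp, τ, σ, φ, h⟩

section Sum

variable {G : Type} [AddCommGroup G]

theorem sum_update_const (g g' : G) (l : Fin s) :
    ∑ l', update (fun _ => g) l g' l' = g' + (s - 1) • g := by
  rw [← Finset.add_sum_erase univ _ (mem_univ l), update_self]
  congr 1
  rw [sum_congr rfl (g := fun _ => g) fun l' hl' => update_of_ne (mem_erase.1 hl').1 _ _,
    sum_const, card_erase_of_mem (mem_univ l), card_univ, Fintype.card_fin]

/-- the sum as an operation on a relabelled copy of the group -/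
def sumOp {X : Type} (s : ℕ) (τ : X ≃ G) (x : Fin s → X) : X := τ.symm (∑ l, τ (x l))

theorem sumOp_update {X : Type} (τ : X ≃ G) (x y : X) (l : Fin s) :
    sumOp s τ (update (fun _ => x) l y) = τ.symm (τ y + (s - 1) • τ x) := by
  unfold sumOp
  rw [← sum_update_const (τ x) (τ y) l]
  congr 1
  refine sum_congr rfl fun l' _ => ?_
  by_cases h : l' = l
  · subst h
    rw [update_self, update_self]
  · rw [update_of_ne h, update_of_ne h]

theorem sumOp_wnu {X : Type} (τ : X ≃ G) (hs : ∀ g : G, s • g = g) : IsWNU (sumOp s τ) := by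
  refine ⟨fun x => ?_, fun l l' x y => by rw [sumOp_update, sumOp_update]⟩
  unfold sumOp
  rw [sum_const, card_univ, Fintype.card_fin, hs, Equiv.symm_apply_apply]

theorem closed_of_hom {C : Fin k → (Fin m → Fin n) → Fin n} {τ : Fin m → (Fin n ≃ G)}
    {σ : Fin k → (Fin n ≃ G)} {φ : Fin k → Fin m → (G →+ G)}
    (h : ∀ j x, σ j (C j x) = ∑ i, φ j i (τ i (x i))) (s : ℕ) :
    Closed C (fun i => sumOp s (τ i)) (fun j => sumOp s (σ j)) := by
  intro j x
  apply (σ j).injective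
  rw [h]
  unfold sumOp
  simp only [Equiv.apply_symm_apply, h, map_sum]
  exact sum_comm

end Sum

/-- the sizes of the variational sets closed under weak near unanimity operations -/
def WNUSizes (m n : ℕ) : Set ℕ :=
  {k | ∃ C : Fin k → (Fin m → Fin n) → Fin n, IsVariationalSet m n k C ∧
    ∃ (s : ℕ) (a : Fin m → (Fin s → Fin n) → Fin n) (b : Fin k → (Fin s → Fin n) → Fin n),
      2 ≤ s ∧ (∀ i, IsWNU (a i)) ∧ (∀ j, IsWNU (b j)) ∧ Closed C a b}

/-- the sizes of the variational sets closed under an operation which depends on two arguments -/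
def PolySizes (m n : ℕ) : Set ℕ :=
  {k | ∃ C : Fin k → (Fin m → Fin n) → Fin n, IsVariationalSet m n k C ∧
    ∃ (s : ℕ) (a : Fin m → (Fin s → Fin n) → Fin n) (b : Fin k → (Fin s → Fin n) → Fin n),
      Closed C a b ∧ ∃ i l l', l ≠ l' ∧ Depends (a i) l ∧ Depends (a i) l'}

/-- the least order of a Sylow subgroup of a group of order `n` -/
def IsSyl (n q : ℕ) : Prop := IsLeast {q | ∃ p, p.Prime ∧ p ∣ n ∧ q = p ^ n.factorization p} q

theorem IsSyl.two_le {q : ℕ} (hn : n ≠ 0) (hq : IsSyl n q) : 2 ≤ q := by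
  obtain ⟨p, hp, hpn, rfl⟩ := hq.1
  have h1 : 1 ≤ n.factorization p := by
    rwa [← hp.dvd_iff_one_le_factorization hn]
  calc 2 ≤ p := hp.two_le
    _ = p ^ 1 := (pow_one p).symm
    _ ≤ p ^ n.factorization p := Nat.pow_le_pow_right hp.pos h1

theorem value_mono {q q' : ℕ} (h2 : 2 ≤ q') (hqq : q' ≤ q) (hpar : q' % 2 = q % 2) :
    value m q' ≤ value m q := by
  unfold value
  split_ifs <;> omega

theorem covered_mono {p r v : ℕ} (hp : p.Prime) (hr : r ≠ 0) (hrv : r ≤ v)
    (hc : Covered' m (p ^ v)) : Covered' m (p ^ r) := by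
  have hle : p ^ r ≤ p ^ v := Nat.pow_le_pow_right hp.pos hrv
  rcases hc with hc | hc | hc | hc | ⟨hc, hc'⟩
  · exact Or.inl hc
  · exact Or.inr (Or.inl hc)
  · exact Or.inr (Or.inr (Or.inl (by omega)))
  · have hv : v = 1 := Nat.Prime.eq_one_of_pow hc
    have hr1 : r = 1 := by omega
    rw [hr1, pow_one]
    exact Or.inr (Or.inr (Or.inr (Or.inl hp)))
  · refine Or.inr (Or.inr (Or.inr (Or.inr ⟨?_, by omega⟩)))
    have h2 : 2 ∣ p ^ v := Nat.dvd_of_mod_eq_zero hc
    have h3 : p = 2 := ((Nat.prime_dvd_prime_iff_eq Nat.prime_two hp).1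
      (Nat.prime_two.dvd_of_dvd_pow h2)).symm
    subst h3
    exact Nat.mod_eq_zero_of_dvd (dvd_pow_self 2 hr)

/-- the order of a product of homocyclic groups -/
theorem card_decomp {G : Type} [AddCommGroup G] {J : Type} [Fintype J] {p e r : J → ℕ}
    (h : Decomp G p e r) : Nat.card G = ∏ c, (p c ^ e c) ^ r c := by
  obtain ⟨-, -, -, -, ⟨iso⟩⟩ := h
  rw [Nat.card_congr iso.toEquiv, Nat.card_pi]
  refine prod_congr rfl fun c _ => ?_
  rw [Nat.card_fun, Nat.card_zmod, Nat.card_fin]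

/-- **The upper bound** -/
theorem hom_le {q : ℕ} (hm : 2 ≤ m) (hn : 2 ≤ n) (hq : IsSyl n q) (hc : Covered' m q) {G : Type}
    [AddCommGroup G] (hG : Nat.card G = n) (h : k ∈ GSizes G m n) : k ≤ value m q := by
  have : Finite G := Nat.finite_of_card_ne_zero (by omega)
  obtain ⟨J, _, p, e, r, hD⟩ := exists_decomp G
  obtain ⟨p₀, hp₀, hpn, rfl⟩ := hq.1
  have hcard := card_decomp hD
  rw [hG] at hcard
  have hdvd : p₀ ∣ ∏ c, (p c ^ e c) ^ r c := hcard ▸ hpn
  obtain ⟨c, -, hc0⟩ := (Prime.dvd_finsetProd_iff hp₀.prime _).1 hdvd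
  have hpc : p c = p₀ := by
    have h1 := hp₀.dvd_of_dvd_pow (hp₀.dvd_of_dvd_pow hc0)
    exact ((Nat.prime_dvd_prime_iff_eq hp₀ (hD.1 c)).1 h1).symm
  have h1 : k ∈ GSizes (Fin (r c) → ZMod (p c)) m (p c ^ r c) := by
    rw [← hG] at h
    exact (hD.iff m k).1 h c
  have : Fact (p c).Prime := ⟨hD.1 c⟩
  rw [mem_gsizes_iff (by simp [Nat.card_eq_fintype_card, ZMod.card])] at h1
  have hrv : r c ≤ n.factorization p₀ := by
    have h2 : p₀ ^ (r c) ∣ n := by
      rw [hcard, ← hpc]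
      refine dvd_trans ?_ (Finset.dvd_prod_of_mem _ (mem_univ c))
      rw [← pow_mul]
      exact pow_dvd_pow _ (Nat.le_mul_of_pos_left _ (Nat.pos_of_ne_zero (hD.2.1 c)))
    exact (hp₀.pow_dvd_iff_le_factorization (by omega)).1 h2
  have hr0 := hD.2.2.1 c
  rw [hpc] at h1
  have h2 := homSet_le hp₀ hr0 hm (covered_mono hp₀ hr0 hrv hc) h1
  refine h2.trans (value_mono ?_ (Nat.pow_le_pow_right hp₀.pos hrv) ?_)
  · calc 2 ≤ p₀ := hp₀.two_le
      _ = p₀ ^ 1 := (pow_one _).symm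
      _ ≤ p₀ ^ r c := Nat.pow_le_pow_right hp₀.pos (Nat.pos_of_ne_zero hr0)
  · have hv0 : n.factorization p₀ ≠ 0 := by omega
    rw [Nat.pow_mod, Nat.pow_mod p₀ (n.factorization p₀)]
    rcases Nat.mod_two_eq_zero_or_one p₀ with h | h
    · rw [h, zero_pow hr0, zero_pow hv0]
    · rw [h, one_pow, one_pow]

/-- **The lower bound** -/
theorem exists_group {q : ℕ} (hm : 2 ≤ m) (hn : 2 ≤ n) (hq : IsSyl n q) :
    ∃ (G : Type) (_ : AddCommGroup G), Nat.card G = n ∧ value m q ∈ GSizes G m n := by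
  classical
  let J := {p // p ∈ n.primeFactors}
  let p : J → ℕ := fun c => c.1
  let r : J → ℕ := fun c => n.factorization c.1
  have hpr : ∀ c, (p c).Prime := fun c => Nat.prime_of_mem_primeFactors c.2
  have hdv : ∀ c, p c ∣ n := fun c => Nat.dvd_of_mem_primeFactors c.2
  have hD : Decomp (∀ c : J, Fin (r c) → ZMod (p c ^ 1)) p (fun _ => 1) r := by
    refine ⟨hpr, fun _ => one_ne_zero, fun c => ?_, fun c d hcd => ?_, ⟨AddEquiv.refl _⟩⟩
    · have := (hpr c).dvd_iff_one_le_factorization (by omega : n ≠ 0) |>.1 (hdv c)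
      show n.factorization c.1 ≠ 0
      have h' : 1 ≤ n.factorization c.1 := this
      omega
    · exact Subtype.ext (congrArg Prod.fst hcd)
  have hcard : Nat.card (∀ c : J, Fin (r c) → ZMod (p c ^ 1)) = n := by
    rw [card_decomp hD]
    simp only [pow_one]
    have h1 : ∏ c : J, p c ^ r c = ∏ x ∈ n.primeFactors, x ^ n.factorization x :=
      Finset.prod_coe_sort n.primeFactors fun x => x ^ n.factorization x
    rw [h1]
    exact Nat.prod_factorization_pow_eq_self (by omega)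
  have hleast : IsLeast (Set.range fun c => p c ^ r c) q := by
    constructor
    · obtain ⟨p₀, hp₀, hpn, rfl⟩ := hq.1
      exact ⟨⟨p₀, Nat.mem_primeFactors.2 ⟨hp₀, hpn, by omega⟩⟩, rfl⟩
    · rintro - ⟨c, rfl⟩
      exact hq.2 ⟨c.1, hpr c, hdv c, rfl⟩
  refine ⟨_, inferInstance, hcard, ?_⟩
  have h1 := hD.mem hm hleast
  rwa [hcard] at h1

theorem value_two (q : ℕ) : value 2 q = q - 1 := by
  unfold value
  rw [if_pos rfl]

/-- **Complete sets over groups** -/
theorem complete_group {G : Type} [AddCommGroup G] (hn : 2 ≤ n) (hG : Nat.card G = n)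
    (h : n - 1 ∈ GSizes G 2 n) : ∃ p v, p.Prime ∧ v ≠ 0 ∧ n = p ^ v ∧ ∀ g : G, p • g = 0 := by
  have : Finite G := Nat.finite_of_card_ne_zero (by omega)
  obtain ⟨J, _, p, e, r, hD⟩ := exists_decomp G
  have hcard := card_decomp hD
  rw [hG] at hcard
  have hle : ∀ c, n ≤ p c ^ r c := by
    intro c
    have h1 : n - 1 ∈ GSizes (Fin (r c) → ZMod (p c)) 2 (p c ^ r c) := by
      have h' := h
      rw [← hG] at h'
      have h2 := (hD.iff 2 _).1 h' c
      rwa [hG] at h2
    have : Fact (p c).Prime := ⟨hD.1 c⟩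
    rw [mem_gsizes_iff (by simp [Nat.card_eq_fintype_card, ZMod.card])] at h1
    have h2 := homSet_le (hD.1 c) (hD.2.2.1 c) le_rfl (Or.inl rfl) h1
    rw [value_two] at h2
    have h3 : 0 < p c ^ r c := Nat.pow_pos (hD.1 c).pos
    omega
  have hfac : ∀ c, p c ^ r c ≤ (p c ^ e c) ^ r c := by
    intro c
    rw [← pow_mul]
    exact Nat.pow_le_pow_right (hD.1 c).pos
      (Nat.le_mul_of_pos_left _ (Nat.pos_of_ne_zero (hD.2.1 c)))
  have h1f : ∀ c, 1 ≤ (p c ^ e c) ^ r c := fun c => Nat.pow_pos (Nat.pow_pos (hD.1 c).pos)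
  have h2f : ∀ c, 2 ≤ (p c ^ e c) ^ r c := fun c => hn.trans ((hle c).trans (hfac c))
  have hdv : ∀ c, (p c ^ e c) ^ r c ≤ n := fun c => by
    refine Nat.le_of_dvd (by omega) ?_
    rw [hcard]
    exact Finset.dvd_prod_of_mem _ (mem_univ c)
  have hJ : Subsingleton J := by
    refine ⟨fun c d => ?_⟩
    by_contra hcd
    have h3 : (p c ^ e c) ^ r c * (p d ^ e d) ^ r d ≤ n := by
      refine Nat.le_of_dvd (by omega) ?_
      classical
      rw [hcard, ← Finset.mul_prod_erase _ _ (mem_univ c)]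
      exact mul_dvd_mul_left _ (Finset.dvd_prod_of_mem _ (mem_erase.2 ⟨Ne.symm hcd, mem_univ d⟩))
    have h4 := (hle c).trans (hfac c)
    have h5 := h2f d
    nlinarith
  obtain ⟨c⟩ : Nonempty J := by
    by_contra hcon
    rw [not_nonempty_iff] at hcon
    rw [Finset.prod_of_isEmpty] at hcard
    omega
  have heq : p c ^ r c = (p c ^ e c) ^ r c := le_antisymm (hfac c) ((hdv c).trans (hle c))
  have he1 : e c = 1 := by
    rw [← pow_mul] at heq
    have h3 := Nat.pow_right_injective (hD.1 c).two_le heq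
    have h4 := Nat.pos_of_ne_zero (hD.2.2.1 c)
    have h5 : 1 * r c = e c * r c := by rw [one_mul]; exact h3
    exact (Nat.eq_of_mul_eq_mul_right h4 h5).symm
  refine ⟨p c, r c, hD.1 c, hD.2.2.1 c, le_antisymm (hle c) ((hfac c).trans (hdv c)), fun g => ?_⟩
  obtain ⟨-, -, -, -, ⟨iso⟩⟩ := hD
  apply iso.injective
  rw [map_nsmul, map_zero]
  funext d i
  obtain rfl : d = c := Subsingleton.elim _ _
  show p d • (iso g d i) = 0
  have h3 : ((p d : ℕ) : ZMod (p d ^ e d)) = 0 := by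
    have h4 : p d ^ e d = p d := by rw [he1, pow_one]
    rw [ZMod.natCast_eq_zero_iff, h4]
  rw [nsmul_eq_mul, h3, zero_mul]

theorem exists_syl (hn : 2 ≤ n) : ∃ q, IsSyl n q := by
  classical
  have hne : ∃ q, ∃ p, p.Prime ∧ p ∣ n ∧ q = p ^ n.factorization p :=
    ⟨_, n.minFac, Nat.minFac_prime (by omega), n.minFac_dvd, rfl⟩
  exact ⟨Nat.find hne, Nat.find_spec hne, fun q hq => Nat.find_min' hne hq⟩

end Pool.Agent.U422.Cube
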