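import Pool.Agent.U422.CubeSub

/-!
# Permutation cubes closed under operations
-/

set_option autoImplicit false

namespace Pool.Agent.U422.Cube

open Finset Function

variable {X : Type} [Fintype X] [DecidableEq X] {m k s : ℕ} {C : Fin k → (Fin m → X) → X}
  {a : Fin m → (Fin s → X) → X} {b : Fin k → (Fin s → X) → X}

/-- the cubes are closed under the operations `a i` on the coordinates and `b j` on the values -/
def Closed (C : Fin k → (Fin m → X) → X) (a : Fin m → (Fin s → X) → X)
    (b : Fin k → (Fin s → X) → X) : Prop :=
  ∀ j (x : Fin s → Fin m → X), C j (fun i => a i fun l => x l i) = b j fun l => C j (x l)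

/-- the operation `t` depends on its argument number `l` -/
def Depends (t : (Fin s → X) → X) (l : Fin s) : Prop := ∃ x y, t (update x l y) ≠ t x

/-- cubes which are sums of endomorphisms of an abelian group, up to relabelling -/
def HomOver (C : Fin k → (Fin m → X) → X) : Prop :=
  ∃ (_ : AddCommGroup X) (τ : Fin m → (X ≃ X)) (σ : Fin k → (X ≃ X))
    (φ : Fin k → Fin m → (X →+ X)), ∀ j x, σ j (C j x) = ∑ i, φ j i (τ i (x i))

omit [Fintype X] [DecidableEq X] in
theorem endo_of (hcl : Closed C a b) (c : Fin s → Fin m → X) (l : Fin s) :
    Endo C (fun i z => a i (update (fun q => c q i) l z))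
      (fun j z => b j (update (fun q => C j (c q)) l z)) := by
  intro j x
  have h := hcl j (update c l x)
  have h1 : (fun i => a i fun q => update c l x q i) =
      fun i => a i (update (fun q => c q i) l (x i)) := by
    funext i
    congr 1
    funext q
    by_cases hq : q = l
    · subst hq
      rw [update_self, update_self]
    · rw [update_of_ne hq, update_of_ne hq]
  have h2 : (fun q => C j (update c l x q)) = update (fun q => C j (c q)) l (C j x) := by
    funext q
    by_cases hq : q = l
    · subst hq
      rw [update_self, update_self]
    · rw [update_of_ne hq, update_of_ne hq]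
  rw [h1, h2] at h
  exact h

theorem surj_of_card {f : X → X} (h : #(univ.image f) = Fintype.card X) : Bijective f := by
  refine Finite.surjective_iff_bijective.1 fun y => ?_
  have h1 : univ.image f = univ := eq_univ_of_card _ h
  have h2 : y ∈ univ.image f := by rw [h1]; exact mem_univ y
  obtain ⟨x, -, hx⟩ := mem_image.1 h2
  exact ⟨x, hx⟩

theorem bij_values (hC : Lines C) {e : Fin m → X → X} {f : Fin k → X → X} (he : Endo C e f)
    [Nonempty X] (i : Fin m) (hi : Injective (e i)) (j : Fin k) : Bijective (f j) :=
  surj_of_card (by rw [← card_images hC he i j, card_image_of_injective _ hi, card_univ])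

/-- if two arguments act injectively at a point, then the cubes are homomorphic over a group -/
theorem hom_of_inj (hm : 2 ≤ m) (hk : 0 < k) (hC : Lines C) (hcl : Closed C a b) (o : Fin m → X)
    {l l' : Fin s} (hll : l ≠ l') (h1 : ∀ i, Injective fun z => a i (update (fun _ => o i) l z))
    (h2 : ∀ i, Injective fun z => a i (update (fun _ => o i) l' z)) : HomOver C := by
  classical
  let i₀ : Fin m := ⟨0, by omega⟩
  have : Nonempty X := ⟨o i₀⟩
  let q : Fin m → X → X → X := fun i x y => a i (update (update (fun _ => o i) l x) l' y)
  let q' : Fin k → X → X → X := fun j x y => b j (update (update (fun _ => C j o) l x) l' y)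
  have hq : ∀ j x y, C j (fun i => q i (x i) (y i)) = q' j (C j x) (C j y) := by
    intro j x y
    have h := hcl j (update (update (fun _ => o) l x) l' y)
    have e1 : (fun i => a i fun p => update (update (fun _ => o) l x) l' y p i) =
        fun i => q i (x i) (y i) := by
      funext i
      refine congrArg (a i) (funext fun p => ?_)
      by_cases hp : p = l'
      · subst hp
        rw [update_self, update_self]
      · rw [update_of_ne hp, update_of_ne hp]
        by_cases hp' : p = l
        · subst hp'
          rw [update_self, update_self]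
        · rw [update_of_ne hp', update_of_ne hp']
    have e2 : (fun p => C j (update (update (fun _ => o) l x) l' y p)) =
        update (update (fun _ => C j o) l (C j x)) l' (C j y) := by
      funext p
      by_cases hp : p = l'
      · subst hp
        rw [update_self, update_self]
      · rw [update_of_ne hp, update_of_ne hp]
        by_cases hp' : p = l
        · subst hp'
          rw [update_self, update_self]
        · rw [update_of_ne hp', update_of_ne hp']
    rw [e1, e2] at h
    exact h
  have hq1 : ∀ i x, q i x (o i) = a i (update (fun _ => o i) l x) := by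
    intro i x
    refine congrArg (a i) ?_
    rw [update_eq_self_iff, update_of_ne hll.symm]
  have hq2 : ∀ i y, q i (o i) y = a i (update (fun _ => o i) l' y) := by
    intro i y
    refine congrArg (a i) ?_
    rw [update_eq_self]
  have he1 : Endo C (fun i z => q i z (o i)) (fun j z => q' j z (C j o)) := fun j x => hq j x o
  have he2 : Endo C (fun i z => q i (o i) z) (fun j z => q' j (C j o) z) := fun j x => hq j o x
  have hi1 : ∀ i, Injective fun z => q i z (o i) := fun i => by
    simp only [hq1]
    exact h1 i
  have hi2 : ∀ i, Injective fun z => q i (o i) z := fun i => by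
    simp only [hq2]
    exact h2 i
  let E1 : Fin m → (X ≃ X) := fun i =>
    Equiv.ofBijective _ (Finite.injective_iff_bijective.1 (hi1 i))
  let E2 : Fin m → (X ≃ X) := fun i =>
    Equiv.ofBijective _ (Finite.injective_iff_bijective.1 (hi2 i))
  let F1 : Fin k → (X ≃ X) := fun j => Equiv.ofBijective _ (bij_values hC he1 i₀ (hi1 i₀) j)
  let F2 : Fin k → (X ≃ X) := fun j => Equiv.ofBijective _ (bij_values hC he2 i₀ (hi2 i₀) j)
  have hE1 : ∀ i z, E1 i z = q i z (o i) := fun i z => rfl
  have hE2 : ∀ i z, E2 i z = q i (o i) z := fun i z => rfl
  have hs1 : ∀ j x, C j (fun i => (E1 i).symm (x i)) = (F1 j).symm (C j x) := by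
    intro j x
    rw [Equiv.eq_symm_apply]
    have := he1 j fun i => (E1 i).symm (x i)
    simp only at this
    show q' j _ _ = _
    rw [← this]
    congr 1
    funext i
    exact (E1 i).apply_symm_apply (x i)
  have hs2 : ∀ j x, C j (fun i => (E2 i).symm (x i)) = (F2 j).symm (C j x) := by
    intro j x
    rw [Equiv.eq_symm_apply]
    have := he2 j fun i => (E2 i).symm (x i)
    simp only at this
    show q' j _ _ = _
    rw [← this]
    congr 1
    funext i
    exact (E2 i).apply_symm_apply (x i)
  refine hom_of_loops hm hk hC (fun i x y => q i ((E1 i).symm x) ((E2 i).symm y))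
    (fun j x y => q' j ((F1 j).symm x) ((F2 j).symm y)) (fun i => q i (o i) (o i)) ?_ ?_
  · intro j x y
    rw [← hs1, ← hs2, ← hq]
  · intro i x
    have e1 : (E1 i).symm (q i (o i) (o i)) = o i := by
      rw [← hE1, Equiv.symm_apply_apply]
    have e2 : (E2 i).symm (q i (o i) (o i)) = o i := by
      rw [← hE2, Equiv.symm_apply_apply]
    constructor
    · rw [e2, ← hE1, Equiv.apply_symm_apply]
    · rw [e1, ← hE2, Equiv.apply_symm_apply]

/-- **The dichotomy** for variational sets closed under an operation which depends on two of its
arguments. -/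
theorem dichotomy (hm : 2 ≤ m) (hk : 0 < k) (hC : VarSet C) (hcl : Closed C a b) {i : Fin m}
    {l l' : Fin s} (hll : l ≠ l') (hl : Depends (a i) l) (hl' : Depends (a i) l') :
    HomOver C ∨ ∃ r, 1 < r ∧ 2 * r ≤ Fintype.card X ∧ HasSub C r := by
  classical
  let j₀ : Fin k := ⟨0, hk⟩
  obtain ⟨x₀, y₀, hxy₀⟩ := id hl
  have : Nonempty X := ⟨y₀⟩
  have hcard : 2 ≤ Fintype.card X := by
    by_contra hcon
    have : Fintype.card X ≤ 1 := by omega
    have := Fintype.card_le_one_iff_subsingleton.1 this
    exact hxy₀ (Subsingleton.elim _ _)
  by_cases hex : ∃ (c : Fin s → Fin m → X) (l : Fin s) (i : Fin m),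
      1 < #(univ.image fun z => a i (update (fun q => c q i) l z)) ∧
      #(univ.image fun z => a i (update (fun q => c q i) l z)) < Fintype.card X
  · right
    obtain ⟨c, l, i, h1, h2⟩ := hex
    set r := #(univ.image fun z => a i (update (fun q => c q i) l z)) with hr
    have he := endo_of hcl c l
    have h3 : ∀ j, #(univ.image fun z => b j (update (fun q => C j (c q)) l z)) = r :=
      fun j => (card_images hC.1 he i j).symm
    have h4 : ∀ i', #(univ.image fun z => a i' (update (fun q => c q i') l z)) = r :=
      fun i' => (card_images hC.1 he i' j₀).trans (h3 j₀)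
    refine ⟨r, h1, ?_, sub_set hC he h4 h3⟩
    refine two_mul_le hC.1 hm j₀ (by omega) h4 (h3 j₀) (fun x hx => ?_) h2
    have h5 : ∀ i', ∃ y, a i' (update (fun q => c q i') l y) = x i' := fun i' => by
      obtain ⟨y, -, hy⟩ := mem_image.1 (hx i')
      exact ⟨y, hy⟩
    choose y hy using h5
    have h6 : x = fun i' => a i' (update (fun q => c q i') l (y i')) := funext fun i' => (hy i').symm
    rw [h6]
    have h7 := he j₀ y
    simp only at h7
    rw [h7]
    exact mem_image_of_mem _ (mem_univ _)
  · left
    push Not at hex
    -- one nonconstant translate gives injectivity in the other coordinates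
    have claim : ∀ (l : Fin s) (i i' : Fin m) (y y' : Fin s → X), i ≠ i' →
        (∃ z z', a i (update y l z) ≠ a i (update y l z')) →
        Injective fun z => a i' (update y' l z) := by
      intro l i i' y y' hii ⟨z, z', hzz⟩
      let c : Fin s → Fin m → X := fun q => update (fun _ => y' q) i (y q)
      have hc1 : (fun q => c q i) = y := funext fun q => update_self _ _ _
      have hc2 : (fun q => c q i') = y' := funext fun q => update_of_ne hii.symm _ _
      have h1 := hex c l i
      rw [hc1] at h1
      have h2 : 1 < #(univ.image fun z => a i (update y l z)) :=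
        one_lt_card.2 ⟨_, mem_image_of_mem _ (mem_univ z), _, mem_image_of_mem _ (mem_univ z'), hzz⟩
      have h3 : #(univ.image fun z => a i (update y l z)) = Fintype.card X :=
        le_antisymm (card_le_univ _) (h1 h2)
      have he := endo_of hcl c l
      have h4 := (card_images hC.1 he i j₀).symm
      simp only [hc1] at h4
      have h5 := (card_images hC.1 he i' j₀).trans (h4.trans h3)
      simp only [hc2] at h5
      exact (surj_of_card h5).1
    have key : ∀ l, Depends (a i) l → ∀ (i' : Fin m) (y' : Fin s → X),
        Injective fun z => a i' (update y' l z) := by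
      intro l ⟨x, y, hxy⟩
      have h1 : ∃ z z', a i (update x l z) ≠ a i (update x l z') :=
        ⟨y, x l, by rw [update_eq_self]; exact hxy⟩
      have h2 : ∀ i', i ≠ i' → ∀ y' : Fin s → X, Injective fun z => a i' (update y' l z) :=
        fun i' hii y' => claim l i i' x y' hii h1
      intro i' y'
      by_cases hii : i = i'
      · subst hii
        obtain ⟨i'', hi''⟩ : ∃ i'' : Fin m, i ≠ i'' := by
          by_cases h0 : i = ⟨0, by omega⟩
          · exact ⟨⟨1, by omega⟩, fun h => by
              have := congrArg Fin.val (h0.symm.trans h)
              simp at this⟩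
          · exact ⟨_, h0⟩
        obtain ⟨z, z', hzz⟩ := Fintype.one_lt_card_iff.1 (by omega : 1 < Fintype.card X)
        exact claim l i'' i y' y' hi''.symm ⟨z, z', fun h => hzz (h2 i'' hi'' y' h)⟩
      · exact h2 i' hii y'
    exact hom_of_inj hm hk hC.1 hcl (fun _ => y₀) hll (fun i => key l hl i _)
      fun i => key l' hl' i _

end Pool.Agent.U422.Cube
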