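import Pool.Agent.U422.Cube

/-!
# Subsets of variational sets; sets of cubes which are homomorphisms of loops
-/

set_option autoImplicit false

namespace Pool.Agent.U422.Cube

open Finset Function

variable {X : Type} [Fintype X] [DecidableEq X] {m k : ℕ} {C : Fin k → (Fin m → X) → X}

/-- a variational set -/
def VarSet (C : Fin k → (Fin m → X) → X) : Prop :=
  Lines C ∧ ∀ e : Fin m → Fin k, Injective e → Bijective fun (x : Fin m → X) i => C (e i) x

/-- `C` has a variational subset of order `r`: there are `r`-sets of coordinates and values such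
that the cubes restricted to them form a variational set -/
def HasSub (C : Fin k → (Fin m → X) → X) (r : ℕ) : Prop :=
  ∃ C' : Fin k → (Fin m → Fin r) → Fin r, VarSet C' ∧ ∃ (σ : Fin m → Fin r → X)
    (τ : Fin k → Fin r → X), (∀ i, Injective (σ i)) ∧ (∀ j, Injective (τ j)) ∧
      ∀ j x, C j (fun i => σ i (x i)) = τ j (C' j x)

/-- the image of an endomorphism -/
theorem sub_set (hC : VarSet C) {e : Fin m → X → X} {f : Fin k → X → X} (he : Endo C e f) {r : ℕ}
    (hr : ∀ i, #(univ.image (e i)) = r) (hr' : ∀ j, #(univ.image (f j)) = r) : HasSub C r := by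
  classical
  let σ : ∀ i, Fin r ≃ {x // x ∈ univ.image (e i)} := fun i =>
    (Finset.equivFinOfCardEq (hr i)).symm
  let τ : ∀ j, {x // x ∈ univ.image (f j)} ≃ Fin r := fun j => Finset.equivFinOfCardEq (hr' j)
  have hmem : ∀ j (x : Fin m → Fin r), C j (fun i => (σ i (x i)).1) ∈ univ.image (f j) := by
    intro j x
    have h1 : ∀ i, ∃ y, e i y = (σ i (x i)).1 := fun i => by
      obtain ⟨y, -, hy⟩ := mem_image.1 (σ i (x i)).2
      exact ⟨y, hy⟩
    choose y hy using h1
    have h2 : (fun i => (σ i (x i)).1) = fun i => e i (y i) := funext fun i => (hy i).symm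
    rw [h2, he]
    exact mem_image_of_mem _ (mem_univ _)
  let C' : Fin k → (Fin m → Fin r) → Fin r := fun j x => τ j ⟨_, hmem j x⟩
  have hC' : ∀ j x y, C' j x = C' j y →
      C j (fun i => (σ i (x i)).1) = C j (fun i => (σ i (y i)).1) := fun j x y h =>
    congrArg Subtype.val ((τ j).injective h)
  have hupd : ∀ (x : Fin m → Fin r) i t, (fun i' => (σ i' (update x i t i')).1) =
      update (fun i' => (σ i' (x i')).1) i (σ i t).1 := by
    intro x i t
    funext i'
    by_cases h : i' = i
    · subst h
      rw [update_self, update_self]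
    · rw [update_of_ne h, update_of_ne h]
  refine ⟨C', ⟨fun j i x => ?_, fun e' he' => ?_⟩, fun i t => (σ i t).1,
    fun j t => ((τ j).symm t).1, fun i t t' h => (σ i).injective (Subtype.ext h),
    fun j t t' h => (τ j).symm.injective (Subtype.ext h), fun j x => ?_⟩
  · refine Finite.injective_iff_bijective.1 fun t t' htt => ?_
    have h1 := hC' j _ _ htt
    rw [hupd, hupd] at h1
    exact (σ i).injective (Subtype.ext ((hC.1 j i _).1 h1))
  · refine Finite.injective_iff_bijective.1 fun x y hxy => ?_
    have h1 : (fun i => (σ i (x i)).1) = fun i => (σ i (y i)).1 := by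
      refine (hC.2 e' he').1 (funext fun i => ?_)
      exact hC' (e' i) x y (congrFun hxy i)
    funext i
    exact (σ i).injective (Subtype.ext (congrFun h1 i))
  · show _ = ((τ j).symm (τ j ⟨_, hmem j x⟩)).1
    rw [Equiv.symm_apply_apply]

omit [Fintype X] [DecidableEq X] in
/-- **Loops.** If the cubes are homomorphisms of loops then they are sums of isomorphisms of one
abelian group. -/
theorem hom_of_loops (hm : 2 ≤ m) (hk : 0 < k) (hC : Lines C) (p : Fin m → X → X → X)
    (p' : Fin k → X → X → X) (u : Fin m → X)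
    (hcl : ∀ j x y, C j (fun i => p i (x i) (y i)) = p' j (C j x) (C j y))
    (hu : ∀ i x, p i x (u i) = x ∧ p i (u i) x = x) :
    ∃ (_ : AddCommGroup X) (τ : Fin m → (X ≃ X)) (σ : Fin k → (X ≃ X))
      (φ : Fin k → Fin m → (X →+ X)), ∀ j x, σ j (C j x) = ∑ i, φ j i (τ i (x i)) := by
  classical
  let i₀ : Fin m := ⟨0, by omega⟩
  let i₁ : Fin m := ⟨1, by omega⟩
  have h01 : i₁ ≠ i₀ := fun h => by
    have := congrArg Fin.val h
    simp [i₀, i₁] at this
  let j₀ : Fin k := ⟨0, hk⟩
  have hsurj : ∀ j y, ∃ x, C j x = y := fun j y => by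
    obtain ⟨t, ht⟩ := (hC j i₀ u).2 y
    exact ⟨_, ht⟩
  -- the values are loops
  have hunit : ∀ j y, p' j y (C j u) = y ∧ p' j (C j u) y = y := by
    intro j y
    obtain ⟨x, rfl⟩ := hsurj j y
    rw [← hcl, ← hcl]
    constructor
    · congr 1
      funext i
      exact (hu i _).1
    · congr 1
      funext i
      exact (hu i _).2
  -- the isomorphisms
  let ψ : Fin k → Fin m → (X ≃ X) := fun j i => Equiv.ofBijective _ (hC j i u)
  have hψ : ∀ j i t, ψ j i t = C j (update u i t) := fun j i t => rfl
  have hψu : ∀ j i, ψ j i (u i) = C j u := fun j i => by rw [hψ, update_eq_self]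
  have hψp : ∀ j i s t, ψ j i (p i s t) = p' j (ψ j i s) (ψ j i t) := by
    intro j i s t
    rw [hψ, hψ, hψ, ← hcl]
    congr 1
    funext i'
    by_cases h : i' = i
    · subst h
      rw [update_self, update_self, update_self]
    · rw [update_of_ne h, update_of_ne h, update_of_ne h]
      exact ((hu i' _).1).symm
  -- decomposition
  have hdec : ∀ j (S : Finset (Fin m)) i (x : Fin m → X), i ∉ S →
      C j (fun i' => if i' ∈ insert i S then x i' else u i') =
        p' j (C j fun i' => if i' ∈ S then x i' else u i') (ψ j i (x i)) := by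
    intro j S i x hi
    rw [hψ, ← hcl]
    congr 1
    funext i'
    by_cases h : i' = i
    · subst h
      rw [if_pos (mem_insert_self _ _), if_neg hi, update_self]
      exact ((hu _ _).2).symm
    · rw [update_of_ne h]
      by_cases h' : i' ∈ S
      · rw [if_pos (mem_insert_of_mem h'), if_pos h']
        exact ((hu _ _).1).symm
      · rw [if_neg (by simp [h, h']), if_neg h']
        exact ((hu _ _).1).symm
  have htwo : ∀ j s t, C j (update (update u i₀ s) i₁ t) = p' j (ψ j i₀ s) (ψ j i₁ t) := by
    intro j s t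
    rw [hψ, hψ, ← hcl]
    congr 1
    funext i'
    by_cases h : i' = i₁
    · rw [h, update_self, update_of_ne h01, update_self]
      exact ((hu _ _).2).symm
    · rw [update_of_ne h, update_of_ne h]
      exact ((hu _ _).1).symm
  -- the medial law
  have hmed : ∀ j a b c d, p' j (p' j a b) (p' j c d) = p' j (p' j a c) (p' j b d) := by
    intro j a b c d
    obtain ⟨s, rfl⟩ := (ψ j i₀).surjective a
    obtain ⟨s', rfl⟩ := (ψ j i₀).surjective b
    obtain ⟨t, rfl⟩ := (ψ j i₁).surjective c
    obtain ⟨t', rfl⟩ := (ψ j i₁).surjective d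
    rw [← htwo, ← htwo, ← hψp, ← hψp, ← htwo, ← hcl]
    congr 1
    funext i'
    by_cases h : i' = i₁
    · rw [h, update_self, update_self, update_self]
    · rw [update_of_ne h, update_of_ne h, update_of_ne h]
      by_cases h' : i' = i₀
      · rw [h', update_self, update_self, update_self]
      · rw [update_of_ne h', update_of_ne h', update_of_ne h']
        exact ((hu _ _).1).symm
  have hcomm : ∀ j a b, p' j a b = p' j b a := by
    intro j a b
    have h1 := hmed j (C j u) a b (C j u)
    rw [(hunit j a).2, (hunit j b).1, (hunit j b).2, (hunit j a).1] at h1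
    exact h1
  have hassoc : ∀ j a b c, p' j (p' j a b) c = p' j a (p' j b c) := by
    intro j a b c
    have h1 := hmed j a b (C j u) c
    rw [(hunit j c).2, (hunit j a).1] at h1
    exact h1
  have hneg : ∀ a, ∃ b, p' j₀ b a = C j₀ u := by
    intro a
    obtain ⟨s, rfl⟩ := (ψ j₀ i₀).surjective a
    obtain ⟨t, ht⟩ := (hC j₀ i₁ (update u i₀ s)).2 (C j₀ u)
    refine ⟨ψ j₀ i₁ t, ?_⟩
    rw [hcomm, ← htwo]
    exact ht
  choose neg hneg using hneg
  let inst : AddCommGroup X :=
    { add := p' j₀
      zero := C j₀ u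
      neg := neg
      add_assoc := hassoc j₀
      zero_add := fun a => (hunit j₀ a).2
      add_zero := fun a => (hunit j₀ a).1
      add_comm := hcomm j₀
      neg_add_cancel := hneg
      nsmul := @nsmulRec X ⟨C j₀ u⟩ ⟨p' j₀⟩
      zsmul := @zsmulRec X ⟨C j₀ u⟩ ⟨p' j₀⟩ ⟨neg⟩ (@nsmulRec X ⟨C j₀ u⟩ ⟨p' j₀⟩) }
  have hadd : ∀ a b : X, a + b = p' j₀ a b := fun a b => rfl
  have hzero : (0 : X) = C j₀ u := rfl
  let σ : Fin k → (X ≃ X) := fun j => (ψ j i₀).symm.trans (ψ j₀ i₀)
  have hσ : ∀ j a b, σ j (p' j a b) = σ j a + σ j b := by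
    intro j a b
    obtain ⟨s, rfl⟩ := (ψ j i₀).surjective a
    obtain ⟨t, rfl⟩ := (ψ j i₀).surjective b
    rw [← hψp]
    simp only [σ, Equiv.trans_apply, Equiv.symm_apply_apply]
    rw [hψp, hadd]
  have hσ0 : ∀ j, σ j (C j u) = 0 := by
    intro j
    rw [hzero, ← hψu j i₀, ← hψu j₀ i₀]
    simp only [σ, Equiv.trans_apply, Equiv.symm_apply_apply]
  let φ : Fin k → Fin m → (X →+ X) := fun j i =>
    { toFun := fun a => σ j (ψ j i ((ψ j₀ i).symm a))
      map_zero' := by
        have : (ψ j₀ i).symm 0 = u i := by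
          rw [Equiv.symm_apply_eq, hψu]
          exact hzero
        rw [this, hψu, hσ0]
      map_add' := by
        intro a b
        obtain ⟨s, rfl⟩ := (ψ j₀ i).surjective a
        obtain ⟨t, rfl⟩ := (ψ j₀ i).surjective b
        rw [hadd, ← hψp, Equiv.symm_apply_apply, Equiv.symm_apply_apply, Equiv.symm_apply_apply,
          hψp, hσ] }
  refine ⟨inst, fun i => ψ j₀ i, σ, φ, fun j x => ?_⟩
  have key : ∀ S : Finset (Fin m), σ j (C j fun i' => if i' ∈ S then x i' else u i') =
      ∑ i ∈ S, φ j i (ψ j₀ i (x i)) := by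
    intro S
    induction S using Finset.induction_on with
    | empty =>
      rw [sum_empty]
      simp only [notMem_empty, if_false]
      exact hσ0 j
    | insert i S hi ih =>
      rw [hdec j S i x hi, hσ, ih, sum_insert hi, add_comm]
      congr 1
      show _ = σ j (ψ j i ((ψ j₀ i).symm (ψ j₀ i (x i))))
      rw [Equiv.symm_apply_apply]
  have h1 := key univ
  simpa only [mem_univ, if_true] using h1

end Pool.Agent.U422.Cube
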