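import Pool.Agent.U422.CubeOps

/-!
# Permutation cubes closed under weak near unanimity operations
-/

set_option autoImplicit false

namespace Pool.Agent.U422.Cube

open Finset Function

variable {X : Type} {m k s : ℕ} {C : Fin k → (Fin m → X) → X}
  {a : Fin m → (Fin s → X) → X} {b : Fin k → (Fin s → X) → X}

/-- `t` is an idempotent weak near unanimity operation -/
def IsWNU (t : (Fin s → X) → X) : Prop :=
  (∀ x, t (fun _ => x) = x) ∧ ∀ l l' x y, t (update (fun _ => x) l y) = t (update (fun _ => x) l' y)

/-- the translates of the operations at a point are injective -/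
theorem wnu_inj (hm : 2 ≤ m) (hC : Lines C) (hcl : Closed C a b) (ha : ∀ i, IsWNU (a i))
    (j : Fin k) (hb : IsWNU (b j)) (o : Fin m → X) (l : Fin s) :
    Injective fun z => b j (update (fun _ => C j o) l z) := by
  classical
  let i₀ : Fin m := ⟨0, by omega⟩
  let i₁ : Fin m := ⟨1, by omega⟩
  have h01 : i₁ ≠ i₀ := fun h => by
    have := congrArg Fin.val h
    simp [i₀, i₁] at this
  let ψ : Fin m → (X ≃ X) := fun i => Equiv.ofBijective _ (hC j i o)
  have hψ : ∀ i t, ψ i t = C j (update o i t) := fun i t => rfl
  have hψo : ∀ i, (ψ i).symm (C j o) = o i := fun i => by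
    rw [Equiv.symm_apply_eq, hψ, update_eq_self]
  have hψb : ∀ i (α : Fin s → X), (ψ i).symm (b j α) = a i fun q => (ψ i).symm (α q) := by
    intro i α
    rw [Equiv.symm_apply_eq, hψ]
    have h := hcl j fun q => update o i ((ψ i).symm (α q))
    have e1 : (fun i' => a i' fun q => update o i ((ψ i).symm (α q)) i') =
        update o i (a i fun q => (ψ i).symm (α q)) := by
      funext i'
      by_cases hi : i' = i
      · subst hi
        rw [update_self]
        simp only [update_self]
      · rw [update_of_ne hi]
        simp only [update_of_ne hi]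
        exact (ha i').1 _
    rw [e1] at h
    rw [h]
    congr 1
    funext q
    exact ((ψ i).apply_symm_apply (α q)).symm
  let P : X → X → X := fun α β => C j (update (update o i₀ ((ψ i₀).symm α)) i₁ ((ψ i₁).symm β))
  have hP0 : ∀ α, P α (C j o) = α := by
    intro α
    show C j (update (update o i₀ ((ψ i₀).symm α)) i₁ ((ψ i₁).symm (C j o))) = α
    have e1 : update (update o i₀ ((ψ i₀).symm α)) i₁ (o i₁) = update o i₀ ((ψ i₀).symm α) := by
      rw [update_eq_self_iff, update_of_ne h01]
    rw [hψo, e1, ← hψ, Equiv.apply_symm_apply]
  have h0P : ∀ α, P (C j o) α = α := by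
    intro α
    show C j (update (update o i₀ ((ψ i₀).symm (C j o))) i₁ ((ψ i₁).symm α)) = α
    rw [hψo, update_eq_self, ← hψ, Equiv.apply_symm_apply]
  have hPb : ∀ α β : Fin s → X, b j (fun q => P (α q) (β q)) = P (b j α) (b j β) := by
    intro α β
    show b j (fun q => C j (update (update o i₀ ((ψ i₀).symm (α q))) i₁ ((ψ i₁).symm (β q)))) =
      C j (update (update o i₀ ((ψ i₀).symm (b j α))) i₁ ((ψ i₁).symm (b j β)))
    rw [← hcl j fun q => update (update o i₀ ((ψ i₀).symm (α q))) i₁ ((ψ i₁).symm (β q))]
    congr 1
    funext i
    by_cases hi : i = i₁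
    · rw [hi, update_self]
      simp only [update_self]
      exact (hψb i₁ β).symm
    · rw [update_of_ne hi]
      simp only [update_of_ne hi]
      by_cases hi' : i = i₀
      · rw [hi', update_self]
        simp only [update_self]
        exact (hψb i₀ α).symm
      · rw [update_of_ne hi']
        simp only [update_of_ne hi']
        exact (ha i).1 _
  intro z z' hzz
  have key : ∀ S : Finset (Fin s), b j (fun q => if q ∈ S then z else C j o) =
      b j (fun q => if q ∈ S then z' else C j o) := by
    intro S
    induction S using Finset.induction_on with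
    | empty => simp only [notMem_empty, if_false]
    | insert q₀ S hq₀ ih =>
      have e : ∀ v, (fun q => if q ∈ insert q₀ S then v else C j o) =
          fun q => P (if q ∈ S then v else C j o) (update (fun _ => C j o) q₀ v q) := by
        intro v
        funext q
        by_cases hq : q = q₀
        · subst hq
          rw [if_pos (mem_insert_self _ _), if_neg hq₀, update_self, h0P]
        · rw [update_of_ne hq, hP0]
          simp only [mem_insert, hq, false_or]
      rw [e z, e z', hPb, hPb, ih, hb.2 q₀ l, hb.2 q₀ l]
      exact congrArg _ hzz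
  have h1 := key univ
  simp only [mem_univ, if_true] at h1
  rwa [hb.1, hb.1] at h1

variable [Fintype X] [DecidableEq X]

/-- **Weak near unanimity operations** -/
theorem wnu_hom (hs : 2 ≤ s) (hm : 2 ≤ m) (hk : 0 < k) (hC : Lines C) (hcl : Closed C a b)
    (ha : ∀ i, IsWNU (a i)) (hb : ∀ j, IsWNU (b j)) [Nonempty X] : HomOver C := by
  let j₀ : Fin k := ⟨0, hk⟩
  let o : Fin m → X := fun _ => Classical.arbitrary X
  have key : ∀ (l : Fin s) i, Injective fun z => a i (update (fun _ => o i) l z) := by
    intro l i
    have he := endo_of hcl (fun _ => o) l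
    have h1 := wnu_inj hm hC hcl ha j₀ (hb j₀) o l
    have h2 : #(univ.image fun z => a i (update (fun _ => o i) l z)) = Fintype.card X := by
      rw [card_images hC he i j₀, card_image_of_injective _ h1, card_univ]
    exact (surj_of_card h2).1
  refine hom_of_inj hm hk hC hcl o (l := ⟨0, by omega⟩) (l' := ⟨1, by omega⟩) ?_ (key _) (key _)
  intro h
  have := congrArg Fin.val h
  simp at this

end Pool.Agent.U422.Cube
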