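import Pool.Agent.Y426.BES.Graph

/-!
# Dense sets of cells of the table of a finite abelian group
-/

set_option autoImplicit false

namespace Pool.Agent.U422.Dense

open Finset

section Grid

variable {G : Type} [AddCommGroup G] [DecidableEq G]

/-- `e` cells with at most `e + 3` rows, columns and symbols -/
def Cfg (S : Finset (G × G)) (e : ℕ) : Prop :=
  ∃ T ⊆ S, #T = e ∧ #(T.image fun z => z.1) + #(T.image fun z => z.2) +
    #(T.image fun z => z.1 + z.2) ≤ e + 3

theorem grid (S : Finset (G × G)) (e : ℕ) (he : 1 ≤ e) (x y D : G)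
    (hD : ∀ j, 1 ≤ j → j ≤ e → j • D ≠ 0)
    (hS : ∀ a < 2, ∀ b < e, (x + a • D, y + b • D) ∈ S) : Cfg S e := by
  have hle : ∀ a b, a ≤ b → b ≤ e → a • D = b • D → a = b := by
    intro a b hab hb h
    by_contra hne
    refine hD (b - a) (by omega) (by omega) ?_
    rw [sub_nsmul D hab, ← h, add_neg_cancel]
  have hinj : ∀ a b, a ≤ e → b ≤ e → a • D = b • D → a = b := by
    intro a b ha hb h
    rcases le_total a b with hab | hab
    · exact hle a b hab hb h
    · exact (hle b a hab ha h.symm).symm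
  let f : ℕ → G × G := fun k => (x + (k % 2) • D, y + (k / 2) • D)
  refine ⟨(range e).image f, ?_, ?_, ?_⟩
  · intro z hz
    obtain ⟨k, hk, rfl⟩ := mem_image.1 hz
    have hk' := mem_range.1 hk
    exact hS _ (by omega) _ (by omega)
  · rw [card_image_of_injOn, card_range]
    intro k hk k' hk' h
    have hk1 := mem_range.1 (mem_coe.1 hk)
    have hk2 := mem_range.1 (mem_coe.1 hk')
    have h1 : x + (k % 2) • D = x + (k' % 2) • D := congrArg Prod.fst h
    have h2 : y + (k / 2) • D = y + (k' / 2) • D := congrArg Prod.snd h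
    have h3 := hinj _ _ (by omega) (by omega) (add_left_cancel h1)
    have h4 := hinj _ _ (by omega) (by omega) (add_left_cancel h2)
    omega
  · have c1 : #(((range e).image f).image fun z => z.1) ≤ 2 := by
      refine (card_le_card (t := (range 2).image fun a => x + a • D) ?_).trans
        (card_image_le.trans (by rw [card_range]))
      intro u hu
      obtain ⟨z, hz, rfl⟩ := mem_image.1 hu
      obtain ⟨k, hk, rfl⟩ := mem_image.1 hz
      exact mem_image.2 ⟨k % 2, mem_range.2 (by omega), rfl⟩
    have c2 : #(((range e).image f).image fun z => z.2) ≤ (e + 1) / 2 := by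
      refine (card_le_card (t := (range ((e + 1) / 2)).image fun a => y + a • D) ?_).trans
        (card_image_le.trans (by rw [card_range]))
      intro u hu
      obtain ⟨z, hz, rfl⟩ := mem_image.1 hu
      obtain ⟨k, hk, rfl⟩ := mem_image.1 hz
      have hk' := mem_range.1 hk
      exact mem_image.2 ⟨k / 2, mem_range.2 (by omega), rfl⟩
    have c3 : #(((range e).image f).image fun z => z.1 + z.2) ≤ e / 2 + 1 := by
      refine (card_le_card (t := (range (e / 2 + 1)).image fun a => x + y + a • D) ?_).trans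
        (card_image_le.trans (by rw [card_range]))
      intro u hu
      obtain ⟨z, hz, rfl⟩ := mem_image.1 hu
      obtain ⟨k, hk, rfl⟩ := mem_image.1 hz
      have hk' := mem_range.1 hk
      refine mem_image.2 ⟨k % 2 + k / 2, mem_range.2 (by omega), ?_⟩
      show x + y + (k % 2 + k / 2) • D = x + (k % 2) • D + (y + (k / 2) • D)
      rw [add_nsmul]
      abel
    omega

theorem cyc (e : ℕ) (he : 1 ≤ e) (ε : ℝ) (hε : 0 < ε) : ∃ M : ℕ, ∀ (G : Type) [AddCommGroup G]
    [Fintype G] [DecidableEq G] (g : G), M ≤ addOrderOf g → ∀ S : Finset (G × G),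
      ε * (Fintype.card G : ℝ) ^ 2 ≤ #S → Cfg S e := by
  classical
  have : Nonempty (Fin e) := ⟨⟨0, by omega⟩⟩
  obtain ⟨N, hN⟩ := Pool.Agent.Helper903.DHJ.ldhj (Fin 2 × Fin e) ε hε
  refine ⟨e * N + 1, ?_⟩
  intro G _ _ _ g hg S hS
  let v : (Fin N → Fin 2 × Fin e) → G × G := fun σ =>
    ((∑ i, (σ i).1.val) • g, (∑ i, (σ i).2.val) • g)
  have hfib : ∀ σ, #(univ.filter fun z : G × G => z + v σ ∈ S) = #S := by
    intro σ
    refine card_nbij' (fun z => z + v σ) (fun z => z - v σ) ?_ ?_ ?_ ?_
    · intro z hz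
      exact (mem_filter.1 hz).2
    · intro z hz
      refine mem_coe.2 (mem_filter.2 ⟨mem_univ _, ?_⟩)
      rw [sub_add_cancel]
      exact hz
    · intro z _
      exact add_sub_cancel_right z _
    · intro z _
      exact sub_add_cancel z _
  have hdc : ∑ z : G × G, #(univ.filter fun σ => z + v σ ∈ S) =
      Fintype.card (Fin N → Fin 2 × Fin e) * #S := by
    have h1 : ∑ z : G × G, #(univ.filter fun σ => z + v σ ∈ S) =
        ∑ σ, #(univ.filter fun z : G × G => z + v σ ∈ S) := by
      simp only [card_filter]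
      exact sum_comm
    rw [h1, sum_congr rfl fun σ _ => hfib σ, sum_const, card_univ, smul_eq_mul]
  obtain ⟨z, hz⟩ : ∃ z : G × G, ε * (Fintype.card (Fin N → Fin 2 × Fin e) : ℝ) ≤
      #(univ.filter fun σ => z + v σ ∈ S) := by
    by_contra hcon
    push Not at hcon
    have h1 : ∑ z : G × G, (#(univ.filter fun σ => z + v σ ∈ S) : ℝ) <
        ∑ _z : G × G, ε * (Fintype.card (Fin N → Fin 2 × Fin e) : ℝ) :=
      sum_lt_sum_of_nonempty ⟨0, mem_univ _⟩ fun z _ => hcon z
    have h2 : ∑ z : G × G, (#(univ.filter fun σ => z + v σ ∈ S) : ℝ) =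
        (Fintype.card (Fin N → Fin 2 × Fin e) : ℝ) * #S := by exact_mod_cast hdc
    rw [h2, sum_const, card_univ, Fintype.card_prod, nsmul_eq_mul] at h1
    push_cast at h1
    have h3 := mul_le_mul_of_nonneg_left hS
      (Nat.cast_nonneg (α := ℝ) (Fintype.card (Fin N → Fin 2 × Fin e)))
    nlinarith
  obtain ⟨l, hl⟩ := hN {σ | z + v σ ∈ S} (by
    have hpos : (0 : ℝ) < Fintype.card (Fin N → Fin 2 × Fin e) := by
      exact_mod_cast Fintype.card_pos
    rw [Pool.Agent.Y426.BES.dens_eq, le_div_iff₀ hpos]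
    exact hz)
  let I : Finset (Fin N) := univ.filter fun i => l.idxFun i = none
  have hI1 : 1 ≤ #I := by
    obtain ⟨i, hi⟩ := l.proper
    exact card_pos.2 ⟨i, mem_filter.2 ⟨mem_univ _, hi⟩⟩
  have hI2 : #I ≤ N := (card_le_univ I).trans (by rw [Fintype.card_fin])
  let o : Fin 2 × Fin e := (0, ⟨0, by omega⟩)
  have hs1 : ∀ k : Fin 2 × Fin e, ∑ i, ((l k) i).1.val = ∑ i, ((l o) i).1.val + #I * k.1.val := by
    intro k
    have h1 : ∀ i, ((l k) i).1.val = ((l o) i).1.val +
        if l.idxFun i = none then k.1.val else 0 := by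
      intro i
      rw [Combinatorics.Line.apply_def, Combinatorics.Line.apply_def]
      cases h : l.idxFun i with
      | none => simp [o, h]
      | some b => simp [h]
    rw [sum_congr rfl fun i _ => h1 i, sum_add_distrib, ← sum_filter, sum_const, smul_eq_mul]
  have hs2 : ∀ k : Fin 2 × Fin e, ∑ i, ((l k) i).2.val = ∑ i, ((l o) i).2.val + #I * k.2.val := by
    intro k
    have h1 : ∀ i, ((l k) i).2.val = ((l o) i).2.val +
        if l.idxFun i = none then k.2.val else 0 := by
      intro i
      rw [Combinatorics.Line.apply_def, Combinatorics.Line.apply_def]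
      cases h : l.idxFun i with
      | none => simp [o, h]
      | some b => simp [h]
    rw [sum_congr rfl fun i _ => h1 i, sum_add_distrib, ← sum_filter, sum_const, smul_eq_mul]
  refine grid S e he (z.1 + (∑ i, ((l o) i).1.val) • g) (z.2 + (∑ i, ((l o) i).2.val) • g)
    (#I • g) ?_ ?_
  · intro j hj1 hj2
    rw [← mul_nsmul']
    refine nsmul_ne_zero_of_lt_addOrderOf (by positivity) ?_
    have : j * #I ≤ e * N := Nat.mul_le_mul hj2 hI2
    omega
  · intro a ha b hb
    have h1 := hl ((⟨a, ha⟩ : Fin 2), (⟨b, hb⟩ : Fin e))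
    have h2 : z + v (l ((⟨a, ha⟩ : Fin 2), (⟨b, hb⟩ : Fin e))) =
        (z.1 + (∑ i, ((l o) i).1.val) • g + a • #I • g,
          z.2 + (∑ i, ((l o) i).2.val) • g + b • #I • g) := by
      refine Prod.ext ?_ ?_
      · show z.1 + (∑ i, ((l _) i).1.val) • g =
          z.1 + (∑ i, ((l o) i).1.val) • g + a • #I • g
        rw [hs1, add_nsmul, ← mul_nsmul', mul_comm a, add_assoc]
      · show z.2 + (∑ i, ((l _) i).2.val) • g =
          z.2 + (∑ i, ((l o) i).2.val) • g + b • #I • g
        rw [hs2, add_nsmul, ← mul_nsmul', mul_comm b, add_assoc]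
    rw [← h2]
    exact h1

end Grid

/-- **Dense sets of cells of the table of a finite abelian group.** -/
theorem ab (e : ℕ) (he : 1 ≤ e) (ε : ℝ) (hε : 0 < ε) : ∃ m₀ : ℕ, ∀ (G : Type) [AddCommGroup G]
    [Fintype G] [DecidableEq G], m₀ ≤ Fintype.card G → ∀ S : Finset (G × G),
      ε * (Fintype.card G : ℝ) ^ 2 ≤ #S → Cfg S e := by
  classical
  obtain ⟨N, hN⟩ := Pool.Agent.Y426.BES.cells_many.{0, 0} e he ε hε
  obtain ⟨M, hM⟩ := cyc e he ε hε
  refine ⟨(M + 1) ^ N + 1, ?_⟩
  intro G _ _ _ hG S hS
  obtain ⟨ι, _, n, hn, ⟨φ⟩⟩ := AddCommGroup.equiv_directSum_zmod_of_finite' G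
  let ψ : G ≃+ (∀ i, ZMod (n i)) := φ.trans (DirectSum.addEquivProd _)
  have hnz : ∀ i, NeZero (n i) := fun i => ⟨by have := hn i; omega⟩
  have hcard : Fintype.card G = ∏ i, n i := by
    rw [Fintype.card_congr ψ.toEquiv, Fintype.card_pi]
    exact prod_congr rfl fun i _ => ZMod.card (n i)
  by_cases hι : N ≤ Fintype.card ι
  · let u : G × G → ∀ i, ZMod (n i) × ZMod (n i) := fun z i => (ψ z.1 i, ψ z.2 i)
    let κ : (∀ i, ZMod (n i) × ZMod (n i)) → G × G := fun t =>
      (ψ.symm fun i => (t i).1, ψ.symm fun i => (t i).2)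
    have hκu : ∀ z, κ (u z) = z := by
      intro z
      refine Prod.ext ?_ ?_
      · exact ψ.symm_apply_apply z.1
      · exact ψ.symm_apply_apply z.2
    have hκi : Function.Injective κ := by
      intro s t h
      have h1 := ψ.symm.injective (congrArg Prod.fst h)
      have h2 := ψ.symm.injective (congrArg Prod.snd h)
      funext i
      exact Prod.ext (congrFun h1 i) (congrFun h2 i)
    have hui : Function.Injective u := Function.LeftInverse.injective hκu
    obtain ⟨T, hTH, hTc, R, C, Z, hRCZ, hT⟩ := hN ι (fun i => ZMod (n i)) (fun i a b => a + b)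
      (fun i a => (Equiv.addLeft a).bijective) (fun i a => (Equiv.addRight a).bijective) hι
      (fun i => by rw [ZMod.card]; exact hn i) (S.image u) (by
        rw [card_image_of_injective _ hui]
        refine le_trans (le_of_eq ?_) hS
        congr 2
        rw [hcard]
        congr 1
        exact prod_congr rfl fun i _ => ZMod.card (n i))
    refine ⟨T.image κ, ?_, ?_, ?_⟩
    · intro z hz
      obtain ⟨t, ht, rfl⟩ := mem_image.1 hz
      obtain ⟨z', hz', rfl⟩ := mem_image.1 (hTH ht)
      rw [hκu]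
      exact hz'
    · rw [card_image_of_injective _ hκi, hTc]
    · have c1 : #((T.image κ).image fun z => z.1) ≤ #R := by
        refine (card_le_card (t := R.image ψ.symm) ?_).trans card_image_le
        intro a ha
        obtain ⟨z, hz, rfl⟩ := mem_image.1 ha
        obtain ⟨t, ht, rfl⟩ := mem_image.1 hz
        exact mem_image.2 ⟨_, (hT t ht).1, rfl⟩
      have c2 : #((T.image κ).image fun z => z.2) ≤ #C := by
        refine (card_le_card (t := C.image ψ.symm) ?_).trans card_image_le
        intro a ha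
        obtain ⟨z, hz, rfl⟩ := mem_image.1 ha
        obtain ⟨t, ht, rfl⟩ := mem_image.1 hz
        exact mem_image.2 ⟨_, (hT t ht).2.1, rfl⟩
      have c3 : #((T.image κ).image fun z => z.1 + z.2) ≤ #Z := by
        refine (card_le_card (t := Z.image ψ.symm) ?_).trans card_image_le
        intro a ha
        obtain ⟨z, hz, rfl⟩ := mem_image.1 ha
        obtain ⟨t, ht, rfl⟩ := mem_image.1 hz
        refine mem_image.2 ⟨_, (hT t ht).2.2, ?_⟩
        exact ψ.symm.map_add (fun i => (t i).1) (fun i => (t i).2)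
      omega
  · have hex : ∃ i, M ≤ n i := by
      by_contra hcon
      push Not at hcon
      have h1 : Fintype.card G ≤ (M + 1) ^ Fintype.card ι := by
        rw [hcard, ← card_univ, ← prod_const]
        exact prod_le_prod' fun i _ => by have := hcon i; omega
      have h2 : (M + 1) ^ Fintype.card ι ≤ (M + 1) ^ N :=
        Nat.pow_le_pow_right (by omega) (by omega)
      omega
    obtain ⟨i, hi⟩ := hex
    refine hM G (ψ.symm (Pi.single i 1)) ?_ S hS
    have h1 : n i ∣ addOrderOf (ψ.symm (Pi.single i 1)) := by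
      have h2 := addOrderOf_nsmul_eq_zero (ψ.symm (Pi.single i (1 : ZMod (n i))))
      have h3 := congrArg (fun x => ψ x i) h2
      simp only [map_nsmul, AddEquiv.apply_symm_apply, map_zero, Pi.smul_apply, Pi.zero_apply,
        Pi.single_eq_same, nsmul_eq_mul, mul_one] at h3
      exact (ZMod.natCast_eq_zero_iff _ _).1 h3
    exact hi.trans (Nat.le_of_dvd (addOrderOf_pos _) h1)

end Pool.Agent.U422.Dense
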