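import Pool.Agent.U422.DenseDich
import Pool.Agent.U422.DenseAb
import Pool.Agent.U422.Sat

/-!
# Dense subsets of linear relations closed under weak near unanimity operations
-/

set_option autoImplicit false

namespace Pool.Agent.U422.Dense

open Finset Pool.Agent.U422.Kak Pool.Agent.U422.Taylor Pool.Agent.U422.Tame Pool.Agent.U422.TLat
  Pool.Agent.R181.LW Pool.Agent.R181.Maj

/-- Latin blocks -/
theorem block (e : ℕ) (he : 1 ≤ e) (ε : ℝ) (hε : 0 < ε) : ∃ m₀ : ℕ, ∀ (X : Fin 3 → Type)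
    [∀ i, DecidableEq (X i)] (B : Finset (∀ i, X i)) (k : ℕ) (t : ∀ i, (Fin k → X i) → X i),
    2 ≤ k → (∀ i, IsWNU (t i)) → Lin (B : Set (∀ i, X i)) → Cl (B : Set (∀ i, X i)) t →
    B.Nonempty → Latin B → ∀ H : Finset (∀ i, X i),
    (∀ T ⊆ H, #T = e → e + 3 < ∑ i, #(T.image fun x => x i)) → ∀ n : ℕ,
    (∀ i, #(B.image fun x => x i) ≤ n) →
    (#(H ∩ B) : ℝ) ^ 2 ≤ (ε ^ 2 * n + m₀) * ∏ i, (#(B.image fun x => x i) : ℝ) := by
  classical
  obtain ⟨m₀, hm₀⟩ := ab e he ε hε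
  refine ⟨m₀, ?_⟩
  intro X _ B k t hk ht hlin hcl hne hlat H hH n hn
  obtain ⟨c₀, hc₀⟩ := hne
  have hjoin : ∀ i, joinE B i = ⊤ := latin_iff hlat
  have hC := cen_of_joinE hk ht hlin hcl hjoin
  obtain ⟨p, hp, hpc, hcp⟩ := exists_plus hk (opE_wnu hcl ht) (opE_pres hcl) hC ⟨c₀, hc₀⟩
  obtain ⟨G, iG, f, g, hf, hg, hfg, hsurj⟩ := exists_group (θ := kerE B)
    (fun i j hij x y h1 h2 => kerE_bot hlin i j hij ⟨h1, h2⟩)
    (fun i j hij x z => perm_of_joinE hk ht hlin hcl hjoin i j hij x z) ⟨c₀, hc₀⟩ p hp hpc hcp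
  have hfs : Function.Surjective f := fun u => by
    obtain ⟨x, hx, -⟩ := hsurj u 0
    exact ⟨x, hx⟩
  have hgs : Function.Surjective g := fun u => by
    obtain ⟨x, -, hx⟩ := hsurj 0 u
    exact ⟨x, hx⟩
  have hss : Function.Surjective fun x => f x + g x := fun u => by
    obtain ⟨x, hx, hx'⟩ := hsurj u 0
    exact ⟨x, by simp only [hx, hx', add_zero]⟩
  have : Finite G := Finite.of_surjective f hfs
  let _ : Fintype G := Fintype.ofFinite G
  have hinj : ∀ x y, f x = f y → g x = g y → x = y := fun x y h1 h2 =>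
    kerE_bot hlin 0 1 (by decide) ⟨(hf x y).2 h1, (hg x y).2 h2⟩
  let q : Fin 3 → {x // x ∈ B} → G := ![f, g, fun x => f x + g x]
  have hq : ∀ i (x y : {x // x ∈ B}), x.1 i = y.1 i ↔ q i x = q i y := by
    intro i x y
    fin_cases i
    · exact hf x y
    · exact hg x y
    · exact hfg x y
  have hqs : ∀ i, Function.Surjective (q i) := by
    intro i
    fin_cases i
    · exact hfs
    · exact hgs
    · exact hss
  have himg : ∀ i, #(B.image fun x => x i) = Fintype.card G := by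
    intro i
    have h1 : B.image (fun x => x i) = (univ : Finset {x // x ∈ B}).image fun x => x.1 i := by
      ext u
      rw [mem_image, mem_image]
      constructor
      · rintro ⟨x, hx, rfl⟩
        exact ⟨⟨x, hx⟩, mem_univ _, rfl⟩
      · rintro ⟨x, -, rfl⟩
        exact ⟨x.1, x.2, rfl⟩
    rw [h1]
    apply le_antisymm
    · exact (card_image_le_of_factor univ (q i) _ fun x _ y _ h => (hq i x y).2 h).trans
        (card_le_univ _)
    · have h2 : Fintype.card G = #((univ : Finset {x // x ∈ B}).image (q i)) := by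
        rw [image_univ_of_surjective (hqs i), card_univ]
      rw [h2]
      exact card_image_le_of_factor univ (fun x : {x // x ∈ B} => x.1 i) (q i)
        fun x _ y _ h => (hq i x y).1 h
  let φ : {x // x ∈ B} → G × G := fun x => (f x, g x)
  have hφ : Function.Injective φ := fun x y h =>
    hinj x y (congrArg Prod.fst h) (congrArg Prod.snd h)
  have hBc : #B ≤ Fintype.card G ^ 2 := by
    have h1 := Fintype.card_le_of_injective φ hφ
    rwa [Fintype.card_coe, Fintype.card_prod, ← sq] at h1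
  let S : Finset (G × G) := (univ.filter fun x : {x // x ∈ B} => x.1 ∈ H).image φ
  have hS : #S = #(H ∩ B) := by
    rw [card_image_of_injective _ hφ, ← card_image_of_injective _ Subtype.val_injective]
    congr 1
    ext x
    rw [mem_image, mem_inter]
    constructor
    · rintro ⟨y, hy, rfl⟩
      exact ⟨(mem_filter.1 hy).2, y.2⟩
    · rintro ⟨h1, h2⟩
      exact ⟨⟨x, h2⟩, mem_filter.2 ⟨mem_univ _, h1⟩, rfl⟩
  have hprod : ∏ i, (#(B.image fun x => x i) : ℝ) = (Fintype.card G : ℝ) ^ 3 := by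
    rw [Fin.prod_univ_three, himg, himg, himg]
    ring
  have hmn : (Fintype.card G : ℝ) ≤ n := by
    have := hn 0
    rw [himg] at this
    exact_mod_cast this
  rw [hprod, ← hS]
  obtain ⟨m, hm⟩ : ∃ m : ℝ, m = (Fintype.card G : ℝ) := ⟨_, rfl⟩
  have hm0 : 0 ≤ m := by
    rw [hm]
    exact Nat.cast_nonneg _
  have hm₀0 : (0 : ℝ) ≤ m₀ := Nat.cast_nonneg _
  rw [← hm] at hmn ⊢
  by_cases hmm : m₀ ≤ Fintype.card G
  · have hlt : (#S : ℝ) < ε * m ^ 2 := by
      by_contra hcon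
      push Not at hcon
      rw [hm] at hcon
      obtain ⟨T, hTS, hTe, hT⟩ := hm₀ G hmm S hcon
      let T' : Finset {x // x ∈ B} := univ.filter fun x => φ x ∈ T
      have hTT : T'.image φ = T := by
        ext z
        rw [mem_image]
        constructor
        · rintro ⟨x, hx, rfl⟩
          exact (mem_filter.1 hx).2
        · intro hz
          obtain ⟨x, hx, rfl⟩ := mem_image.1 (hTS hz)
          exact ⟨x, mem_filter.2 ⟨mem_univ _, hz⟩, rfl⟩
      have hT'c : #T' = e := by rw [← hTe, ← hTT, card_image_of_injective _ hφ]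
      have h1 := hH (T'.image Subtype.val) (by
        intro x hx
        obtain ⟨y, hy, rfl⟩ := mem_image.1 hx
        obtain ⟨z, hz, hzy⟩ := mem_image.1 (hTS (mem_filter.1 hy).2)
        rw [← hφ hzy]
        exact (mem_filter.1 hz).2)
        (by rw [card_image_of_injective _ Subtype.val_injective, hT'c])
      have h2 : ∀ i, #((T'.image Subtype.val).image fun x : (∀ i, X i) => x i) ≤
          #(T'.image (q i)) := by
        intro i
        rw [image_image]
        exact card_image_le_of_factor T' (q i) _ fun x _ y _ h => (hq i x y).2 h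
      have h3 : #(T'.image (q 0)) ≤ #(T.image fun z => z.1) := by
        rw [← hTT, image_image]
        exact le_rfl
      have h4 : #(T'.image (q 1)) ≤ #(T.image fun z => z.2) := by
        rw [← hTT, image_image]
        exact le_rfl
      have h5 : #(T'.image (q 2)) ≤ #(T.image fun z => z.1 + z.2) := by
        rw [← hTT, image_image]
        exact le_rfl
      rw [Fin.sum_univ_three] at h1
      have h6 := h2 0
      have h7 := h2 1
      have h8 := h2 2
      omega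
    have h0 : (0 : ℝ) ≤ #S := Nat.cast_nonneg _
    calc (#S : ℝ) ^ 2 ≤ (ε * m ^ 2) ^ 2 := pow_le_pow_left₀ h0 hlt.le 2
      _ = (ε ^ 2 * m) * m ^ 3 := by ring
      _ ≤ (ε ^ 2 * n + m₀) * m ^ 3 := by
          refine mul_le_mul_of_nonneg_right ?_ (by positivity)
          have := mul_le_mul_of_nonneg_left hmn (sq_nonneg ε)
          linarith
  · have h1 : (#S : ℝ) ≤ m ^ 2 := by
      rw [hS, hm]
      exact_mod_cast (card_le_card inter_subset_right).trans hBc
    have h2 : m ≤ m₀ := by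
      rw [hm]
      exact_mod_cast (not_le.1 hmm).le
    have h0 : (0 : ℝ) ≤ #S := Nat.cast_nonneg _
    calc (#S : ℝ) ^ 2 ≤ (m ^ 2) ^ 2 := pow_le_pow_left₀ h0 h1 2
      _ = m * m ^ 3 := by ring
      _ ≤ (ε ^ 2 * n + m₀) * m ^ 3 := by
          refine mul_le_mul_of_nonneg_right ?_ (by positivity)
          have : 0 ≤ ε ^ 2 * (n : ℝ) := by positivity
          linarith

/-- three coordinates -/
theorem dense3 (e : ℕ) (he : 1 ≤ e) (ε : ℝ) (hε : 0 < ε) : ∃ m₀ : ℕ, ∀ (X : Fin 3 → Type)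
    [∀ i, DecidableEq (X i)] (E : Finset (∀ i, X i)) (k : ℕ) (t : ∀ i, (Fin k → X i) → X i),
    2 ≤ k → (∀ i, IsWNU (t i)) → Lin (E : Set (∀ i, X i)) → Cl (E : Set (∀ i, X i)) t →
    ∀ H ⊆ E, (∀ T ⊆ H, #T = e → e + 3 < ∑ i, #(T.image fun x => x i)) → ∀ n : ℕ,
    (∀ i, #(E.image fun x => x i) ≤ n) →
    (#H : ℝ) ^ 2 ≤ (ε ^ 2 * n + m₀) * (n : ℝ) ^ 3 := by
  classical
  obtain ⟨m₀, hm₀⟩ := block e he ε hε
  refine ⟨m₀, ?_⟩
  intro X _ E k t hk ht hlin hcl H hHE hH n hn
  have hK : (0 : ℝ) ≤ ε ^ 2 * n + m₀ := by positivity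
  have h1 := kl (t := t) (fun E _ hlin hcl => dich hk ht hlin hcl) hK H #E E le_rfl hlin hcl
    (fun B hBE hne hcl' hlat => hm₀ X B k t hk ht
      (fun x hx y hy => hlin x (hBE hx) y (hBE hy)) hcl' hne hlat H hH n
      (fun i => (card_le_card (image_subset_image hBE)).trans (hn i)))
  rw [inter_eq_left.2 hHE] at h1
  refine h1.trans (mul_le_mul_of_nonneg_left ?_ hK)
  rw [Fin.prod_univ_three]
  have h2 : ∀ i, (#(E.image fun x => x i) : ℝ) ≤ n := fun i => by exact_mod_cast hn i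
  calc (#(E.image fun x => x 0) : ℝ) * #(E.image fun x => x 1) * #(E.image fun x => x 2)
      ≤ n * n * n := mul_le_mul (mul_le_mul (h2 0) (h2 1) (Nat.cast_nonneg _)
        (Nat.cast_nonneg _)) (h2 2) (Nat.cast_nonneg _) (by positivity)
    _ = (n : ℝ) ^ 3 := by ring

theorem rel_dense (r : ℕ) (hr : 3 ≤ r) (e : ℕ) (he : 1 ≤ e) (ε : ℝ) (hε : 0 < ε) : ∃ m₀ : ℕ,
    ∀ (X : Fin r → Type) [∀ i, Fintype (X i)] [∀ i, DecidableEq (X i)] (E : Finset (∀ i, X i))
    (k : ℕ) (t : ∀ i, (Fin k → X i) → X i), 2 ≤ k → (∀ i, IsWNU (t i)) →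
    Cl (E : Set (∀ i, X i)) t → Lin (E : Set (∀ i, X i)) → ∀ H ⊆ E,
    (∀ T ⊆ H, #T = e → (r - 2) * e + 3 < ∑ i, #(T.image fun x => x i)) → ∀ n : ℕ,
    (∀ i, Fintype.card (X i) ≤ n) → (#H : ℝ) ^ 2 ≤ (ε ^ 2 * n + m₀) * (n : ℝ) ^ 3 := by
  classical
  obtain ⟨m₀, hm₀⟩ := dense3 e he ε hε
  refine ⟨m₀, ?_⟩
  intro X _ _ E k t hk ht hE hlin H hHE hsp n hn
  let σ : Fin 3 ↪ Fin r := Fin.castLEEmb hr
  have hmem : ∀ a', a' ∈ E.image (prσ σ) ↔ ∃ a ∈ E, prσ σ a = a' := fun a' => mem_image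
  have h1 := hm₀ (fun i => X (σ i)) (E.image (prσ σ)) k (fun i => t (σ i)) hk (fun i => ht _)
    ?_ ?_ (H.image (prσ σ)) (image_subset_image hHE) ?_ n
    (fun i => (card_le_univ _).trans (hn (σ i)))
  · rwa [card_image_of_injOn] at h1
    intro a ha b hb hab
    exact prσ_inj σ hlin (hHE ha) (hHE hb) (i := 0) (j := 1) (by decide) (congrFun hab 0)
      (congrFun hab 1)
  · intro a' ha' b' hb' i j hij h2 h3
    obtain ⟨a, ha, rfl⟩ := (hmem _).1 (mem_coe.1 ha')
    obtain ⟨b, hb, rfl⟩ := (hmem _).1 (mem_coe.1 hb')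
    rw [prσ_inj σ hlin (mem_coe.2 ha) (mem_coe.2 hb) hij h2 h3]
  · intro a ha
    have h2 : ∀ j, ∃ b ∈ E, prσ σ b = a j := fun j => (hmem _).1 (mem_coe.1 (ha j))
    choose b hb hb' using h2
    rw [mem_coe, hmem]
    refine ⟨_, hE b fun j => mem_coe.2 (hb j), ?_⟩
    funext i
    show t (σ i) (fun j => b j (σ i)) = t (σ i) fun j => a j i
    congr 1
    funext j
    exact congrFun (hb' j) i
  · intro T' hT'H hTe
    by_contra hcon
    push Not at hcon
    have hTT : (H.filter fun a => prσ σ a ∈ T').image (prσ σ) = T' := by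
      ext a'
      rw [mem_image]
      constructor
      · rintro ⟨a, ha, rfl⟩
        exact (mem_filter.1 ha).2
      · intro ha'
        obtain ⟨a, ha, rfl⟩ := mem_image.1 (hT'H ha')
        exact ⟨a, mem_filter.2 ⟨ha, ha'⟩, rfl⟩
    set T := H.filter fun a => prσ σ a ∈ T' with hT
    have hTH : T ⊆ H := filter_subset _ _
    have hTc : #T = e := by
      rw [← hTe, ← hTT, card_image_of_injOn]
      intro a ha b hb hab
      exact prσ_inj σ hlin (hHE (hTH ha)) (hHE (hTH hb)) (i := 0) (j := 1) (by decide)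
        (congrFun hab 0) (congrFun hab 1)
    have h2 := hsp T hTH hTc
    have h4 : ∑ i : Fin 3, #(T.image fun x => x (σ i)) ≤ e + 3 := by
      refine le_trans (le_of_eq (sum_congr rfl fun i _ => ?_)) hcon
      rw [← hTT, image_image]
      rfl
    have h5 := sum_split' σ (fun i => #(T.image fun x => x i)) e (e + 3)
      (fun i => card_image_le.trans hTc.le) h4
    have h6 : (r - 2) * e = (r - 3) * e + e := by
      obtain ⟨m, rfl⟩ : ∃ m, r = m + 3 := ⟨r - 3, by omega⟩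
      rw [show m + 3 - 2 = m + 1 by omega, show m + 3 - 3 = m by omega]
      ring
    have h7 : ∑ i, #(T.image fun x => x i) ≤ (r - 3) * e + (e + 3) := h5
    omega

/-- **Dense subsets of linear WNU pieces.** -/
theorem piece_dense (r : ℕ) (hr : 3 ≤ r) (e : ℕ) (ε : ℝ) (hε : 0 < ε) : ∃ n₀ : ℕ,
    ∀ (V : Type) [Fintype V] (H F : Set (Finset V)), n₀ ≤ Fintype.card V → WNUPiece r F →
    Linear F → H ⊆ F → SpanMore H e ((r - 2) * e + 3) →
    (H.ncard : ℝ) ≤ ε * (Fintype.card V : ℝ) ^ 2 := by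
  classical
  by_cases he : 1 ≤ e
  swap
  · refine ⟨0, fun V _ H F _ _ _ _ hsp => ?_⟩
    have h0 : e = 0 := by omega
    subst h0
    have h1 := hsp ∅ (by simp) rfl
    simp at h1
  obtain ⟨m₀, hm₀⟩ := rel_dense r hr e he (ε / 2) (by linarith)
  refine ⟨⌈2 * m₀ / ε ^ 2⌉₊, ?_⟩
  intro V _ H F hV hF hlin hHF hsp
  obtain ⟨X, v, E, k, t, hk, ht, hv, hE, rfl⟩ := hF
  have hfi : ∀ i, Function.Injective fun a : X i => v ⟨i, a⟩ := fun i a b hab =>
    eq_of_heq (Sigma.mk.inj (hv hab)).2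
  have : ∀ i, Finite (X i) := fun i => Finite.of_injective _ (hfi i)
  let _ : ∀ i, Fintype (X i) := fun i => Fintype.ofFinite (X i)
  let D : Finset (∀ i, X i) := E.toFinset.filter fun x => edge v x ∈ H
  have hD : H = edge v '' (D : Set (∀ i, X i)) := by
    ext a
    constructor
    · intro ha
      obtain ⟨x, hx, rfl⟩ := hHF ha
      exact ⟨x, mem_coe.2 (mem_filter.2 ⟨Set.mem_toFinset.2 hx, ha⟩), rfl⟩
    · rintro ⟨x, hx, rfl⟩
      exact (mem_filter.1 (mem_coe.1 hx)).2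
  have h1 := hm₀ X E.toFinset k t hk ht (by rwa [Set.coe_toFinset])
    (by rw [Set.coe_toFinset]; exact lin_of_linear hv hlin) D (filter_subset _ _) (by
      intro T hT hTe
      have h2 := hsp (T.image (edge v)) (by
        rw [coe_image]
        rintro a ⟨x, hx, rfl⟩
        exact (mem_filter.1 (hT (mem_coe.1 hx))).2)
        (by rw [card_image_of_injective _ (edge_injective hv), hTe])
      rwa [union_eq hv] at h2) (Fintype.card V)
    (fun i => Fintype.card_le_of_injective _ (hfi i))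
  have h2 : H.ncard = #D := by
    rw [hD, Set.ncard_image_of_injective _ (edge_injective hv), Set.ncard_coe_finset]
  rw [h2]
  obtain ⟨n, hn⟩ : ∃ n : ℝ, n = (Fintype.card V : ℝ) := ⟨_, rfl⟩
  have hn0 : 0 ≤ n := by
    rw [hn]
    exact Nat.cast_nonneg _
  have h3 : 2 * (m₀ : ℝ) / ε ^ 2 ≤ n := by
    rw [hn]
    exact Nat.ceil_le.1 hV
  rw [← hn] at h1 ⊢
  rw [div_le_iff₀ (by positivity)] at h3
  have h4 : ((ε / 2) ^ 2 * n + m₀) * n ^ 3 ≤ (ε * n ^ 2) ^ 2 := by
    have h5 : (ε / 2) ^ 2 * n + m₀ ≤ ε ^ 2 * n := by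
      have : 0 ≤ ε ^ 2 * n := by positivity
      nlinarith
    calc ((ε / 2) ^ 2 * n + m₀) * n ^ 3 ≤ (ε ^ 2 * n) * n ^ 3 :=
          mul_le_mul_of_nonneg_right h5 (by positivity)
      _ = (ε * n ^ 2) ^ 2 := by ring
  exact le_of_sq_le_sq (h1.trans h4) (by positivity)

end Pool.Agent.U422.Dense
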