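import Pool.Agent.U422.CentStar

/-!
# Latin blocks are tables of abelian groups
-/

set_option autoImplicit false

namespace Pool.Agent.U422.Dense

open Finset Pool.Agent.U422.Kak Pool.Agent.U422.Taylor Pool.Agent.U422.Tame

section Abs

variable {A ι : Type} {n : ℕ} {θ : ι → Setoid A} {w : (Fin n → A) → A} [Finite A]

omit [Finite A] in
theorem inv_top : Inv θ (⊤ : Setoid A) := fun _ _ _ _ _ => trivial

/-- the identity is a retraction -/
theorem retr_top (v : A) : Retr θ (⊤ : Setoid A) ⊤ id v where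
  pol := pol1_id
  idem := fun _ => rfl
  max := fun _ _ => Set.ncard_le_ncard (fun _ _ => trivial) (Set.toFinite _)
  fix := fun _ _ => rfl
  min := fun _ _ _ _ h x y _ _ hxy => h x y trivial trivial hxy

theorem cen_top (hn : 2 ≤ n) (hwnu : IsWNU w) (hw : Pres θ w) {i j l : ι}
    (hij : θ i ⊓ θ j ≤ ⊥) (hil : θ i ⊓ θ l ≤ ⊥) (hjl : θ j ⊓ θ l ≤ ⊥)
    (h1 : θ j ⊔ θ l = ⊤) (h2 : θ i ⊔ θ l = ⊤) (h3 : θ i ⊔ θ j = ⊤) :
    Cen θ (⊤ : Setoid A) ⊤ := by
  have hji : θ j ⊓ θ i ≤ ⊥ := by rw [inf_comm]; exact hij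
  have c1 := cen_star hn hwnu hw hij hil hjl
  have c2 := cen_star hn hwnu hw hji hjl hil
  rw [h1] at c1
  rw [h2] at c2
  have := cen_sup c1 c2
  rwa [h3] at this

theorem perm_top (hn : 2 ≤ n) (hwnu : IsWNU w) (hw : Pres θ w) (hC : Cen θ (⊤ : Setoid A) ⊤)
    {i j : ι} (h3 : θ i ⊔ θ j = ⊤) (x z : A) : ∃ y, θ i x y ∧ θ j y z := by
  obtain ⟨y, -, h1, h2⟩ := (retr_top (θ := θ) x).decomp hn hwnu hw inv_top hC le_rfl
    (inv_self θ i) (inv_self θ j) le_top le_top (x := x) (z := z) rfl rfl trivial
    (by rw [h3]; trivial)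
  exact ⟨y, h1, h2⟩

theorem exists_plus (hn : 2 ≤ n) (hwnu : IsWNU w) (hw : Pres θ w)
    (hC : Cen θ (⊤ : Setoid A) ⊤) (c : A) : ∃ p : A → A → A,
    (∀ i x x' y y', θ i x x' → θ i y y' → θ i (p x y) (p x' y')) ∧ (∀ x, p x c = x) ∧
      ∀ y, p c y = y := by
  classical
  let l₀ : Fin n := ⟨0, by omega⟩
  let l₁ : Fin n := ⟨1, by omega⟩
  have hl : l₀ ≠ l₁ := fun h => by
    have := congrArg Fin.val h
    simp [l₀, l₁] at this
  let h : A → A := fun s => w (Function.update (fun _ => c) l₀ s)
  obtain ⟨k, hk⟩ := exists_inverse (e := id) (h := h) (fun x => rfl)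
    ((retr_top (θ := θ) c).inj hwnu hw inv_top hC le_rfl l₀ (fun _ => c) fun _ => trivial)
  have hhc : h c = c := by
    show w (Function.update (fun _ => c) l₀ c) = c
    have : Function.update (fun _ : Fin n => c) l₀ c = fun _ => c :=
      Function.update_eq_self l₀ (fun _ : Fin n => c)
    rw [this, hwnu.1]
  have hkc : h^[k] c = c := by
    have := (hk c rfl).2.2
    rwa [hhc] at this
  have q1 : ∀ s, (w fun m => if m = l₀ then h^[k] s else
      if m = l₁ then h^[k] c else c) = s := by
    intro s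
    have h1 : (fun m => if m = l₀ then h^[k] s else if m = l₁ then h^[k] c else c) =
        Function.update (fun _ => c) l₀ (h^[k] s) := by
      funext m
      by_cases hm : m = l₀
      · rw [if_pos hm, hm, Function.update_self]
      · rw [if_neg hm, Function.update_of_ne hm, hkc, ite_self]
    rw [h1]
    exact (hk s rfl).2.1
  have q2 : ∀ s, (w fun m => if m = l₀ then h^[k] c else
      if m = l₁ then h^[k] s else c) = s := by
    intro s
    have h1 : (fun m => if m = l₀ then h^[k] c else if m = l₁ then h^[k] s else c) =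
        Function.update (fun _ => c) l₁ (h^[k] s) := by
      funext m
      by_cases hm : m = l₁
      · rw [hm, Function.update_self, if_neg hl.symm, if_pos rfl]
      · rw [Function.update_of_ne hm, if_neg hm, hkc, ite_self]
    rw [h1, hwnu.2 l₁ l₀ c _]
    exact (hk s rfl).2.1
  have hh : Pol1 θ (h^[k]) := Pol1.iter (pol_upd hw _ _) k
  refine ⟨fun x y => w fun m => if m = l₀ then h^[k] x else if m = l₁ then h^[k] y else c,
    ?_, fun x => ?_, fun y => ?_⟩
  · intro i x x' y y' hx hy
    refine hw i _ _ fun m => ?_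
    by_cases hm : m = l₀
    · simp only [if_pos hm]
      exact hh i _ _ hx
    · simp only [if_neg hm]
      by_cases hm' : m = l₁
      · simp only [if_pos hm']
        exact hh i _ _ hy
      · simp only [if_neg hm']
        exact (θ i).refl _
  · exact q1 x
  · exact q2 y

end Abs

section Group

variable {A : Type} {θ : Fin 3 → Setoid A}

/-- a Latin square with a compatible operation with a unit is the table of an abelian group -/
theorem exists_group (hbot : ∀ i j, i ≠ j → ∀ x y, θ i x y → θ j x y → x = y)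
    (hlat : ∀ i j, i ≠ j → ∀ x z, ∃ y, θ i x y ∧ θ j y z) (c : A) (p : A → A → A)
    (hp : ∀ i x x' y y', θ i x x' → θ i y y' → θ i (p x y) (p x' y')) (hpc : ∀ x, p x c = x)
    (hcp : ∀ y, p c y = y) :
    ∃ (G : Type) (_ : AddCommGroup G) (f g : A → G), (∀ x y, θ 0 x y ↔ f x = f y) ∧
      (∀ x y, θ 1 x y ↔ g x = g y) ∧ (∀ x y, θ 2 x y ↔ f x + g x = f y + g y) ∧
      ∀ u v, ∃ x, f x = u ∧ g x = v := by
  classical
  -- rewriting rules
  have e0 : ∀ x y, θ 0 y c → θ 0 (p x y) x := fun x y h => by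
    have := hp 0 x x y c ((θ 0).refl x) h
    rwa [hpc] at this
  have e1 : ∀ x y, θ 1 x c → θ 1 (p x y) y := fun x y h => by
    have := hp 1 x c y y h ((θ 1).refl y)
    rwa [hcp] at this
  -- representatives
  have rL : ∀ x, ∃ x', θ 2 x x' ∧ θ 1 x' c := fun x => hlat 2 1 (by decide) x c
  have rR : ∀ x, ∃ x', θ 2 x x' ∧ θ 0 x' c := fun x => hlat 2 0 (by decide) x c
  have comm : ∀ x y, θ 2 (p x y) (p y x) := by
    intro x y
    obtain ⟨a, ha, ha'⟩ := rL x
    obtain ⟨b, hb, hb'⟩ := rR y
    have h1 : p a b = p b a := by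
      refine hbot 0 1 (by decide) _ _ ?_ ?_
      · refine (θ 0).trans (e0 a b hb') ((θ 0).symm ?_)
        have := hp 0 b c a a hb' ((θ 0).refl a)
        rwa [hcp] at this
      · refine (θ 1).trans (e1 a b ha') ((θ 1).symm ?_)
        have := hp 1 b b a c ((θ 1).refl b) ha'
        rwa [hpc] at this
    refine (θ 2).trans (hp 2 _ _ _ _ ha hb) ?_
    rw [h1]
    exact (θ 2).symm (hp 2 _ _ _ _ hb ha)
  have assoc : ∀ x y z, θ 2 (p (p x y) z) (p x (p y z)) := by
    intro x y z
    obtain ⟨a, ha, ha'⟩ := rL x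
    obtain ⟨b, hb, hb'⟩ := rR z
    have h1 : p (p a y) b = p a (p y b) := by
      refine hbot 0 1 (by decide) _ _ ?_ ?_
      · refine (θ 0).trans (e0 (p a y) b hb') ?_
        exact hp 0 _ _ _ _ ((θ 0).refl a) ((θ 0).symm (e0 y b hb'))
      · refine (θ 1).trans ?_ ((θ 1).symm (e1 a (p y b) ha'))
        exact hp 1 _ _ _ _ (e1 a y ha') ((θ 1).refl b)
    refine (θ 2).trans (hp 2 _ _ _ _ (hp 2 _ _ _ _ ha ((θ 2).refl y)) hb) ?_
    rw [h1]
    exact (θ 2).symm (hp 2 _ _ _ _ ha (hp 2 _ _ _ _ ((θ 2).refl y) hb))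
  have inv : ∀ x, ∃ y, θ 2 (p x y) c := by
    intro x
    obtain ⟨a, ha, ha'⟩ := rL x
    obtain ⟨z, hz, hz'⟩ := hlat 0 2 (by decide) a c
    obtain ⟨b, hb, hb'⟩ := hlat 1 0 (by decide) z c
    have h1 : p a b = z := by
      refine hbot 0 1 (by decide) _ _ ?_ ?_
      · exact (θ 0).trans (e0 a b hb') hz
      · exact (θ 1).trans (e1 a b ha') ((θ 1).symm hb)
    refine ⟨b, (θ 2).trans (hp 2 _ _ _ _ ha ((θ 2).refl b)) ?_⟩
    rw [h1]
    exact hz'
  choose ν hν using inv
  let G := Quotient (θ 2)
  let iA : Add G := ⟨Quotient.map₂ p fun x x' hx y y' hy => hp 2 _ _ _ _ hx hy⟩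
  let iZ : Zero G := ⟨Quotient.mk _ c⟩
  let iN : Neg G := ⟨fun q => Quotient.mk _ (ν q.out)⟩
  have hadd : ∀ x y : A, (Quotient.mk (θ 2) x + Quotient.mk (θ 2) y : G) =
      Quotient.mk (θ 2) (p x y) := fun _ _ => rfl
  let iG : AddGroup G := AddGroup.ofLeftAxioms
    (by
      intro a b d
      induction a using Quotient.inductionOn
      induction b using Quotient.inductionOn
      induction d using Quotient.inductionOn
      exact Quotient.sound (assoc _ _ _))
    (by
      intro a
      induction a using Quotient.inductionOn with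
      | h a =>
        show Quotient.mk (θ 2) (p c a) = _
        rw [hcp])
    (by
      intro a
      have h1 : (-a : G) + a = Quotient.mk (θ 2) (p (ν a.out) a.out) := by
        conv_lhs => rw [← Quotient.out_eq a]
        show Quotient.mk (θ 2) (p (ν (Quotient.mk (θ 2) a.out).out) a.out) = _
        rw [Quotient.out_eq a]
      rw [h1]
      exact Quotient.sound ((θ 2).trans (comm _ _) (hν _)))
  let iC : AddCommGroup G := { iG with
    add_comm := by
      intro a b
      induction a using Quotient.inductionOn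
      induction b using Quotient.inductionOn
      exact Quotient.sound (comm _ _) }
  choose L hL using fun x => hlat 0 1 (by decide) x c
  choose R hR using fun x => hlat 1 0 (by decide) x c
  have hLR : ∀ x, p (L x) (R x) = x := fun x => by
    refine hbot 0 1 (by decide) _ _ ?_ ?_
    · exact (θ 0).trans (e0 _ _ (hR x).2) ((θ 0).symm (hL x).1)
    · exact (θ 1).trans (e1 _ _ (hL x).2) ((θ 1).symm (hR x).1)
  have hsum : ∀ x, (Quotient.mk (θ 2) (L x) + Quotient.mk (θ 2) (R x) : G) =
      Quotient.mk (θ 2) x := fun x => by rw [hadd, hLR]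
  refine ⟨G, iC, fun x => Quotient.mk (θ 2) (L x), fun x => Quotient.mk (θ 2) (R x), ?_, ?_, ?_, ?_⟩
  · intro x y
    constructor
    · intro h
      have : L x = L y := hbot 0 1 (by decide) _ _
        ((θ 0).trans ((θ 0).symm (hL x).1) ((θ 0).trans h (hL y).1))
        ((θ 1).trans (hL x).2 ((θ 1).symm (hL y).2))
      simp only [this]
    · intro h
      have h2 : θ 2 (L x) (L y) := Quotient.exact h
      have : L x = L y := hbot 2 1 (by decide) _ _ h2 ((θ 1).trans (hL x).2 ((θ 1).symm (hL y).2))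
      refine (θ 0).trans (hL x).1 ?_
      rw [this]
      exact (θ 0).symm (hL y).1
  · intro x y
    constructor
    · intro h
      have : R x = R y := hbot 1 0 (by decide) _ _
        ((θ 1).trans ((θ 1).symm (hR x).1) ((θ 1).trans h (hR y).1))
        ((θ 0).trans (hR x).2 ((θ 0).symm (hR y).2))
      simp only [this]
    · intro h
      have h2 : θ 2 (R x) (R y) := Quotient.exact h
      have : R x = R y := hbot 2 0 (by decide) _ _ h2 ((θ 0).trans (hR x).2 ((θ 0).symm (hR y).2))
      refine (θ 1).trans (hR x).1 ?_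
      rw [this]
      exact (θ 1).symm (hR y).1
  · intro x y
    have h1 := hsum x
    have h2 := hsum y
    constructor
    · intro h
      exact h1.trans ((Quotient.sound h).trans h2.symm)
    · intro h
      exact Quotient.exact (h1.symm.trans (h.trans h2))
  · intro u v
    induction u using Quotient.inductionOn with
    | h x =>
      induction v using Quotient.inductionOn with
      | h y =>
        obtain ⟨a, ha, ha'⟩ := rL x
        obtain ⟨b, hb, hb'⟩ := rR y
        have h1 : L (p a b) = a := hbot 0 1 (by decide) _ _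
          ((θ 0).trans ((θ 0).symm (hL _).1) (e0 a b hb'))
          ((θ 1).trans (hL _).2 ((θ 1).symm ha'))
        have h2 : R (p a b) = b := hbot 1 0 (by decide) _ _
          ((θ 1).trans ((θ 1).symm (hR _).1) (e1 a b ha'))
          ((θ 0).trans (hR _).2 ((θ 0).symm hb'))
        refine ⟨p a b, ?_, ?_⟩
        · show Quotient.mk (θ 2) (L (p a b)) = _
          rw [h1]
          exact Quotient.sound ((θ 2).symm ha)
        · show Quotient.mk (θ 2) (R (p a b)) = _
          rw [h2]
          exact Quotient.sound ((θ 2).symm hb)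

end Group

end Pool.Agent.U422.Dense
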