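import Pool.Agent.U422.DenseLW
import Pool.Agent.U422.DenseGrp

/-!
# The dichotomy: a linear closed relation is Latin or decomposes
-/

set_option autoImplicit false

namespace Pool.Agent.U422.Dense

open Finset Pool.Agent.U422.Kak Pool.Agent.U422.Taylor Pool.Agent.U422.Tame Pool.Agent.U422.TLat

variable {X : Fin 3 → Type} {E : Finset (∀ i, X i)} {k : ℕ} {t : ∀ i, (Fin k → X i) → X i}

/-- the operation on the elements of `E` -/
def opE (hcl : Cl (E : Set (∀ i, X i)) t) (v : Fin k → {x // x ∈ E}) : {x // x ∈ E} :=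
  ⟨fun i => t i fun j => (v j).1 i, mem_coe.1 (hcl (fun j => (v j).1) fun j => mem_coe.2 (v j).2)⟩

/-- the kernels of the coordinates -/
def kerE (E : Finset (∀ i, X i)) (i : Fin 3) : Setoid {x // x ∈ E} :=
  Setoid.ker fun a : {x // x ∈ E} => a.1 i

theorem opE_pres (hcl : Cl (E : Set (∀ i, X i)) t) : Pres (kerE E) (opE hcl) := by
  intro i x y hxy
  show t i (fun j => (x j).1 i) = t i fun j => (y j).1 i
  exact congrArg (t i) (funext fun l => hxy l)

theorem opE_wnu (hcl : Cl (E : Set (∀ i, X i)) t) (ht : ∀ i, IsWNU (t i)) :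
    IsWNU (opE hcl) := by
  have hupd : ∀ (x y : {x // x ∈ E}) (l : Fin k) i,
      (fun j => (Function.update (fun _ => x) l y j).1 i) =
        Function.update (fun _ => x.1 i) l (y.1 i) := by
    intro x y l i
    funext j
    by_cases hj : j = l
    · subst hj
      rw [Function.update_self, Function.update_self]
    · rw [Function.update_of_ne hj, Function.update_of_ne hj]
  refine ⟨fun x => Subtype.ext (funext fun i => ?_), fun l m x y =>
    Subtype.ext (funext fun i => ?_)⟩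
  · exact (ht i).1 _
  · show t i (fun j => (Function.update (fun _ => x) l y j).1 i) =
      t i fun j => (Function.update (fun _ => x) m y j).1 i
    rw [hupd, hupd]
    exact (ht i).2 l m _ _

theorem kerE_bot (hlin : Lin (E : Set (∀ i, X i))) (i j : Fin 3) (hij : i ≠ j) :
    kerE E i ⊓ kerE E j ≤ ⊥ := fun x y h =>
  Subtype.ext (hlin x.1 (mem_coe.2 x.2) y.1 (mem_coe.2 y.2) i j hij h.1 h.2)

/-- the joins -/
def joinE (E : Finset (∀ i, X i)) (i : Fin 3) : Setoid {x // x ∈ E} :=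
  ![kerE E 1 ⊔ kerE E 2, kerE E 0 ⊔ kerE E 2, kerE E 0 ⊔ kerE E 1] i

theorem le_joinE : ∀ i j : Fin 3, i ≠ j → kerE E j ≤ joinE E i := by
  intro i j hij
  fin_cases i <;> fin_cases j
  · exact absurd rfl hij
  · exact le_sup_left
  · exact le_sup_right
  · exact le_sup_left
  · exact absurd rfl hij
  · exact le_sup_right
  · exact le_sup_left
  · exact le_sup_right
  · exact absurd rfl hij

theorem inv_joinE (i : Fin 3) : Inv (kerE E) (joinE E i) := by
  fin_cases i
  · exact inv_sup (inv_self _ 1) (inv_self _ 2)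
  · exact inv_sup (inv_self _ 0) (inv_self _ 2)
  · exact inv_sup (inv_self _ 0) (inv_self _ 1)

theorem cen_of_joinE (hk : 2 ≤ k) (ht : ∀ i, IsWNU (t i)) (hlin : Lin (E : Set (∀ i, X i)))
    (hcl : Cl (E : Set (∀ i, X i)) t) (h : ∀ i, joinE E i = ⊤) :
    Cen (kerE E) (⊤ : Setoid {x // x ∈ E}) ⊤ :=
  cen_top hk (opE_wnu hcl ht) (opE_pres hcl) (kerE_bot hlin 0 1 (by decide))
    (kerE_bot hlin 0 2 (by decide)) (kerE_bot hlin 1 2 (by decide)) (h 0) (h 1) (h 2)

theorem perm_of_joinE (hk : 2 ≤ k) (ht : ∀ i, IsWNU (t i)) (hlin : Lin (E : Set (∀ i, X i)))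
    (hcl : Cl (E : Set (∀ i, X i)) t) (h : ∀ i, joinE E i = ⊤) (i j : Fin 3) (hij : i ≠ j)
    (x z : {x // x ∈ E}) : ∃ y, kerE E i x y ∧ kerE E j y z := by
  refine perm_top hk (opE_wnu hcl ht) (opE_pres hcl) (cen_of_joinE hk ht hlin hcl h) ?_ x z
  have h0 := h 0
  have h1 := h 1
  have h2 := h 2
  fin_cases i <;> fin_cases j
  · exact absurd rfl hij
  · exact h2
  · exact h1
  · exact (sup_comm _ _).trans h2
  · exact absurd rfl hij
  · exact h0
  · exact (sup_comm _ _).trans h1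
  · exact (sup_comm _ _).trans h0
  · exact absurd rfl hij

variable [∀ i, DecidableEq (X i)]

theorem latin_iff (hlat : Latin E) (i : Fin 3) : joinE E i = ⊤ := by
  have key : ∀ a b : Fin 3, a ≠ b → kerE E a ⊔ kerE E b = ⊤ := by
    intro a b hab
    refine top_le_iff.1 fun x z _ => ?_
    obtain ⟨y, hy, h1, h2⟩ := hlat a b hab x.1 x.2 z.1 z.2
    have h3 : kerE E a x ⟨y, hy⟩ := h1.symm
    have h4 : kerE E b ⟨y, hy⟩ z := h2
    exact (kerE E a ⊔ kerE E b).trans ((le_sup_left : kerE E a ≤ _) h3)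
      ((le_sup_right : kerE E b ≤ _) h4)
  fin_cases i
  · exact key 1 2 (by decide)
  · exact key 0 2 (by decide)
  · exact key 0 1 (by decide)

/-- **The dichotomy.** -/
theorem dich (hk : 2 ≤ k) (ht : ∀ i, IsWNU (t i)) (hlin : Lin (E : Set (∀ i, X i)))
    (hcl : Cl (E : Set (∀ i, X i)) t) :
    Latin E ∨ ∃ p : Fin 3 → (∀ i, X i) → Finset (∀ i, X i),
        (∀ i j, i ≠ j → ∀ x ∈ E, ∀ y ∈ E, x j = y j → p i x = p i y) ∧
        (∀ q : Fin 3 → Finset (∀ i, X i),
          Cl ((E.filter fun x => ∀ i, p i x = q i : Finset _) : Set (∀ i, X i)) t) ∧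
        ∃ x ∈ E, ∃ y ∈ E, ∃ i, p i x ≠ p i y := by
  classical
  by_cases h : ∀ i, joinE E i = ⊤
  · left
    intro i j hij x hx z hz
    obtain ⟨y, h1, h2⟩ := perm_of_joinE hk ht hlin hcl h i j hij ⟨x, hx⟩ ⟨z, hz⟩
    exact ⟨y.1, y.2, (show x i = y.1 i from h1).symm, h2⟩
  · right
    push Not at h
    obtain ⟨i₀, hi₀⟩ := h
    let p : Fin 3 → (∀ i, X i) → Finset (∀ i, X i) := fun i x =>
      (univ.filter fun y : {x // x ∈ E} => ∃ hx : x ∈ E, joinE E i ⟨x, hx⟩ y).image Subtype.val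
    have hp : ∀ i (x y : {x // x ∈ E}), p i x.1 = p i y.1 ↔ joinE E i x y := by
      intro i x y
      constructor
      · intro h
        have h1 : y.1 ∈ p i y.1 := mem_image.2 ⟨y, mem_filter.2 ⟨mem_univ _, y.2,
          (joinE E i).refl y⟩, rfl⟩
        rw [← h] at h1
        obtain ⟨z, hz, hzy⟩ := mem_image.1 h1
        obtain ⟨-, hx, hxz⟩ := mem_filter.1 hz
        rw [← (Subtype.ext hzy : z = y)]
        exact hxz
      · intro h
        refine congrArg (fun s : Finset {x // x ∈ E} => s.image Subtype.val) ?_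
        ext z
        rw [mem_filter, mem_filter]
        constructor
        · rintro ⟨h1, hx, h2⟩
          exact ⟨h1, y.2, (joinE E i).trans ((joinE E i).symm h) h2⟩
        · rintro ⟨h1, hx, h2⟩
          exact ⟨h1, x.2, (joinE E i).trans h h2⟩
    refine ⟨p, ?_, ?_, ?_⟩
    · intro i j hij x hx y hy hxy
      exact (hp i ⟨x, hx⟩ ⟨y, hy⟩).2 (le_joinE i j hij (show x j = y j from hxy))
    · intro q v hv
      rw [mem_coe, mem_filter]
      have hv' : ∀ j, v j ∈ E ∧ ∀ i, p i (v j) = q i := fun j => mem_filter.1 (mem_coe.1 (hv j))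
      have hmem : (fun i => t i fun j => v j i) ∈ E := mem_coe.1 (hcl v fun j => mem_coe.2 (hv' j).1)
      refine ⟨hmem, fun i => ?_⟩
      obtain ⟨j₀⟩ : Nonempty (Fin k) := ⟨⟨0, by omega⟩⟩
      rw [← (hv' j₀).2 i]
      refine (hp i ⟨_, hmem⟩ ⟨v j₀, (hv' j₀).1⟩).2 ?_
      have h1 := inv_w (opE_pres hcl) (inv_joinE i) (fun j => ⟨v j, (hv' j).1⟩)
        (fun _ => ⟨v j₀, (hv' j₀).1⟩) (fun j =>
          (hp i ⟨v j, (hv' j).1⟩ ⟨v j₀, (hv' j₀).1⟩).1 (((hv' j).2 i).trans ((hv' j₀).2 i).symm))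
      rw [(opE_wnu hcl ht).1] at h1
      exact h1
    · by_contra hcon
      push Not at hcon
      refine hi₀ (top_le_iff.1 fun x y _ => ?_)
      exact (hp i₀ x y).1 (hcon x.1 x.2 y.1 y.2 i₀)

end Pool.Agent.U422.Dense
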