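import Pool.Agent.U422.CentBound

/-!
# A weighted form of the Loomis–Whitney inequality, and recursive decompositions
-/

set_option autoImplicit false

namespace Pool.Agent.U422.Dense

open Finset Pool.Agent.U422.Taylor Pool.Agent.U422.TLat

theorem wlw {Q : Type} (P0 P1 P2 : Finset Q) (a b c : Q → Q → ℝ) (ha : ∀ q r, 0 ≤ a q r)
    (hb : ∀ p r, 0 ≤ b p r) (hc : ∀ p q, 0 ≤ c p q) :
    ∑ p ∈ P0, ∑ q ∈ P1, ∑ r ∈ P2, √(a q r) * √(b p r) * √(c p q) ≤
      √(∑ q ∈ P1, ∑ r ∈ P2, a q r) * √(∑ p ∈ P0, ∑ r ∈ P2, b p r) *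
        √(∑ p ∈ P0, ∑ q ∈ P1, c p q) := by
  have h1 : ∀ p q, ∑ r ∈ P2, √(a q r) * √(b p r) * √(c p q) ≤
      √((∑ r ∈ P2, b p r) * ∑ r ∈ P2, a q r) * √(c p q) := by
    intro p q
    rw [← sum_mul]
    refine mul_le_mul_of_nonneg_right ?_ (Real.sqrt_nonneg _)
    rw [Real.sqrt_mul (sum_nonneg fun r _ => hb p r), mul_comm]
    exact Real.sum_sqrt_mul_sqrt_le _ (fun r => ha q r) (fun r => hb p r)
  refine (sum_le_sum fun p _ => sum_le_sum fun q _ => h1 p q).trans ?_
  have h2 := Real.sum_sqrt_mul_sqrt_le (P0 ×ˢ P1)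
    (f := fun z : Q × Q => (∑ r ∈ P2, b z.1 r) * ∑ r ∈ P2, a z.2 r) (g := fun z => c z.1 z.2)
    (fun z => mul_nonneg (sum_nonneg fun r _ => hb _ r) (sum_nonneg fun r _ => ha _ r))
    (fun z => hc _ _)
  rw [sum_product, sum_product, sum_product] at h2
  simp only at h2
  refine h2.trans (le_of_eq ?_)
  rw [← sum_mul_sum, Real.sqrt_mul (sum_nonneg fun p _ => sum_nonneg fun r _ => hb p r)]
  ring

variable {X : Fin 3 → Type} [∀ i, DecidableEq (X i)]

/-- any two coordinates are independent -/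
def Latin (B : Finset (∀ i, X i)) : Prop :=
  ∀ i j : Fin 3, i ≠ j → ∀ x ∈ B, ∀ z ∈ B, ∃ y ∈ B, y i = x i ∧ y j = z j

/-- **Recursive decomposition into Latin blocks**. -/
theorem kl {k : ℕ} {t : ∀ i, (Fin k → X i) → X i}
    (dich : ∀ E : Finset (∀ i, X i), E.Nonempty → Lin (E : Set (∀ i, X i)) →
      Cl (E : Set (∀ i, X i)) t → Latin E ∨ ∃ p : Fin 3 → (∀ i, X i) → Finset (∀ i, X i),
        (∀ i j, i ≠ j → ∀ x ∈ E, ∀ y ∈ E, x j = y j → p i x = p i y) ∧
        (∀ q : Fin 3 → Finset (∀ i, X i),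
          Cl ((E.filter fun x => ∀ i, p i x = q i : Finset _) : Set (∀ i, X i)) t) ∧
        ∃ x ∈ E, ∃ y ∈ E, ∃ i, p i x ≠ p i y)
    {K : ℝ} (hK : 0 ≤ K) (H : Finset (∀ i, X i)) : ∀ (n : ℕ) (E : Finset (∀ i, X i)), #E ≤ n →
      Lin (E : Set (∀ i, X i)) → Cl (E : Set (∀ i, X i)) t →
      (∀ B ⊆ E, B.Nonempty → Cl (B : Set (∀ i, X i)) t → Latin B →
        (#(H ∩ B) : ℝ) ^ 2 ≤ K * ∏ i, (#(B.image fun x => x i) : ℝ)) →
      (#(H ∩ E) : ℝ) ^ 2 ≤ K * ∏ i, (#(E.image fun x => x i) : ℝ) := by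
  classical
  intro n
  induction n with
  | zero =>
    intro E hE _ _ _
    have h0 : E = ∅ := card_eq_zero.1 (Nat.le_zero.1 hE)
    subst h0
    rw [inter_empty, card_empty, Nat.cast_zero, zero_pow two_ne_zero]
    exact mul_nonneg hK (prod_nonneg fun _ _ => Nat.cast_nonneg _)
  | succ n ih =>
    intro E hEn hlin hcl hB
    rcases E.eq_empty_or_nonempty with rfl | hne
    · rw [inter_empty, card_empty, Nat.cast_zero, zero_pow two_ne_zero]
      exact mul_nonneg hK (prod_nonneg fun _ _ => Nat.cast_nonneg _)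
    rcases dich E hne hlin hcl with hL | ⟨p, hp1, hp2, x₀, hx₀, y₀, hy₀, i₀, hxy⟩
    · exact hB E (Subset.refl E) hne hcl hL
    let blk : Finset (∀ i, X i) → Finset (∀ i, X i) → Finset (∀ i, X i) → Finset (∀ i, X i) :=
      fun q r s => E.filter fun x => ∀ i, p i x = ![q, r, s] i
    let P : Fin 3 → Finset (Finset (∀ i, X i)) := fun i => E.image (p i)
    -- the projections of the blocks
    let a : Finset (∀ i, X i) → Finset (∀ i, X i) → Finset (X 0) := fun r s =>
      (E.filter fun x => p 1 x = r ∧ p 2 x = s).image fun x => x 0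
    let b : Finset (∀ i, X i) → Finset (∀ i, X i) → Finset (X 1) := fun q s =>
      (E.filter fun x => p 0 x = q ∧ p 2 x = s).image fun x => x 1
    let c : Finset (∀ i, X i) → Finset (∀ i, X i) → Finset (X 2) := fun q r =>
      (E.filter fun x => p 0 x = q ∧ p 1 x = r).image fun x => x 2
    have hblk : ∀ q r s, (#(H ∩ blk q r s) : ℝ) ≤ √K * (√(#(a r s) : ℝ) * √(#(b q s) : ℝ) *
        √(#(c q r) : ℝ)) := by
      intro q r s
      have hsub : blk q r s ⊆ E := filter_subset _ _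
      have hlt : #(blk q r s) < #E := by
        refine card_lt_card ⟨hsub, fun h => hxy ?_⟩
        rw [(mem_filter.1 (h hx₀)).2 i₀, (mem_filter.1 (h hy₀)).2 i₀]
      have h1 := ih (blk q r s) (by omega) (fun x hx y hy => hlin x (hsub hx) y (hsub hy))
        (hp2 _) (fun B hBs => hB B (hBs.trans hsub))
      have h2 : ∏ i, (#((blk q r s).image fun x => x i) : ℝ) ≤
          (#(a r s) : ℝ) * (#(b q s) : ℝ) * (#(c q r) : ℝ) := by
        rw [Fin.prod_univ_three]
        have e0 : (blk q r s).image (fun x => x 0) ⊆ a r s := by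
          refine image_subset_image fun x hx => ?_
          obtain ⟨h3, h4⟩ := mem_filter.1 hx
          exact mem_filter.2 ⟨h3, h4 1, h4 2⟩
        have e1 : (blk q r s).image (fun x => x 1) ⊆ b q s := by
          refine image_subset_image fun x hx => ?_
          obtain ⟨h3, h4⟩ := mem_filter.1 hx
          exact mem_filter.2 ⟨h3, h4 0, h4 2⟩
        have e2 : (blk q r s).image (fun x => x 2) ⊆ c q r := by
          refine image_subset_image fun x hx => ?_
          obtain ⟨h3, h4⟩ := mem_filter.1 hx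
          exact mem_filter.2 ⟨h3, h4 0, h4 1⟩
        have f0 : (#((blk q r s).image fun x => x 0) : ℝ) ≤ #(a r s) := by
          exact_mod_cast card_le_card e0
        have f1 : (#((blk q r s).image fun x => x 1) : ℝ) ≤ #(b q s) := by
          exact_mod_cast card_le_card e1
        have f2 : (#((blk q r s).image fun x => x 2) : ℝ) ≤ #(c q r) := by
          exact_mod_cast card_le_card e2
        exact mul_le_mul (mul_le_mul f0 f1 (Nat.cast_nonneg _) (Nat.cast_nonneg _)) f2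
          (Nat.cast_nonneg _) (mul_nonneg (Nat.cast_nonneg _) (Nat.cast_nonneg _))
      have h3 : (#(H ∩ blk q r s) : ℝ) ≤ √(K * ((#(a r s) : ℝ) * (#(b q s) : ℝ) *
          (#(c q r) : ℝ))) :=
        Real.le_sqrt_of_sq_le (h1.trans (mul_le_mul_of_nonneg_left h2 hK))
      refine h3.trans (le_of_eq ?_)
      rw [Real.sqrt_mul hK, Real.sqrt_mul (mul_nonneg (Nat.cast_nonneg _) (Nat.cast_nonneg _)),
        Real.sqrt_mul (Nat.cast_nonneg _)]
    have hsum : (#(H ∩ E) : ℝ) = ∑ q ∈ P 0, ∑ r ∈ P 1, ∑ s ∈ P 2, (#(H ∩ blk q r s) : ℝ) := by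
      have h1 : #(H ∩ E) = ∑ z ∈ P 0 ×ˢ P 1 ×ˢ P 2,
          #((H ∩ E).filter fun x => (p 0 x, p 1 x, p 2 x) = z) := by
        refine card_eq_sum_card_fiberwise fun x hx => ?_
        have hx' := (mem_inter.1 (mem_coe.1 hx)).2
        rw [mem_coe, mem_product, mem_product]
        exact ⟨mem_image_of_mem _ hx', mem_image_of_mem _ hx', mem_image_of_mem _ hx'⟩
      rw [h1, sum_product]
      push_cast
      refine sum_congr rfl fun q _ => ?_
      rw [sum_product]
      refine sum_congr rfl fun r _ => sum_congr rfl fun s _ => ?_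
      congr 2
      ext x
      simp only [mem_filter, mem_inter, blk, Prod.mk.injEq]
      constructor
      · rintro ⟨⟨h1, h2⟩, h3, h4, h5⟩
        refine ⟨h1, h2, fun i => ?_⟩
        fin_cases i
        · exact h3
        · exact h4
        · exact h5
      · rintro ⟨h1, h2, h3⟩
        exact ⟨⟨h1, h2⟩, h3 0, h3 1, h3 2⟩
    have hA : ∑ r ∈ P 1, ∑ s ∈ P 2, (#(a r s) : ℝ) ≤ #(E.image fun x => x 0) := by
      have h1 : ∑ r ∈ P 1, ∑ s ∈ P 2, #(a r s) = #((P 1 ×ˢ P 2).biUnion fun z => a z.1 z.2) := by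
        rw [card_biUnion, sum_product]
        rintro ⟨r, s⟩ _ ⟨r', s'⟩ _ hne
        refine disjoint_left.2 fun u hu hu' => hne ?_
        obtain ⟨x, hx, rfl⟩ := mem_image.1 hu
        obtain ⟨y, hy, hxy⟩ := mem_image.1 hu'
        obtain ⟨hx, h1, h2⟩ := mem_filter.1 hx
        obtain ⟨hy, h3, h4⟩ := mem_filter.1 hy
        have h5 := hp1 1 0 (by decide) y hy x hx hxy
        have h6 := hp1 2 0 (by decide) y hy x hx hxy
        exact Prod.ext (h1.symm.trans (h5.symm.trans h3)) (h2.symm.trans (h6.symm.trans h4))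
      have h2 : #((P 1 ×ˢ P 2).biUnion fun z => a z.1 z.2) ≤ #(E.image fun x => x 0) := by
        refine card_le_card (biUnion_subset.2 fun z _ => image_subset_image (filter_subset _ _))
      exact_mod_cast h1.le.trans h2
    have hBb : ∑ q ∈ P 0, ∑ s ∈ P 2, (#(b q s) : ℝ) ≤ #(E.image fun x => x 1) := by
      have h1 : ∑ q ∈ P 0, ∑ s ∈ P 2, #(b q s) = #((P 0 ×ˢ P 2).biUnion fun z => b z.1 z.2) := by
        rw [card_biUnion, sum_product]
        rintro ⟨r, s⟩ _ ⟨r', s'⟩ _ hne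
        refine disjoint_left.2 fun u hu hu' => hne ?_
        obtain ⟨x, hx, rfl⟩ := mem_image.1 hu
        obtain ⟨y, hy, hxy⟩ := mem_image.1 hu'
        obtain ⟨hx, h1, h2⟩ := mem_filter.1 hx
        obtain ⟨hy, h3, h4⟩ := mem_filter.1 hy
        have h5 := hp1 0 1 (by decide) y hy x hx hxy
        have h6 := hp1 2 1 (by decide) y hy x hx hxy
        exact Prod.ext (h1.symm.trans (h5.symm.trans h3)) (h2.symm.trans (h6.symm.trans h4))
      have h2 : #((P 0 ×ˢ P 2).biUnion fun z => b z.1 z.2) ≤ #(E.image fun x => x 1) := by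
        refine card_le_card (biUnion_subset.2 fun z _ => image_subset_image (filter_subset _ _))
      exact_mod_cast h1.le.trans h2
    have hCc : ∑ q ∈ P 0, ∑ r ∈ P 1, (#(c q r) : ℝ) ≤ #(E.image fun x => x 2) := by
      have h1 : ∑ q ∈ P 0, ∑ r ∈ P 1, #(c q r) = #((P 0 ×ˢ P 1).biUnion fun z => c z.1 z.2) := by
        rw [card_biUnion, sum_product]
        rintro ⟨r, s⟩ _ ⟨r', s'⟩ _ hne
        refine disjoint_left.2 fun u hu hu' => hne ?_
        obtain ⟨x, hx, rfl⟩ := mem_image.1 hu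
        obtain ⟨y, hy, hxy⟩ := mem_image.1 hu'
        obtain ⟨hx, h1, h2⟩ := mem_filter.1 hx
        obtain ⟨hy, h3, h4⟩ := mem_filter.1 hy
        have h5 := hp1 0 2 (by decide) y hy x hx hxy
        have h6 := hp1 1 2 (by decide) y hy x hx hxy
        exact Prod.ext (h1.symm.trans (h5.symm.trans h3)) (h2.symm.trans (h6.symm.trans h4))
      have h2 : #((P 0 ×ˢ P 1).biUnion fun z => c z.1 z.2) ≤ #(E.image fun x => x 2) := by
        refine card_le_card (biUnion_subset.2 fun z _ => image_subset_image (filter_subset _ _))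
      exact_mod_cast h1.le.trans h2
    have hw := wlw (P 0) (P 1) (P 2) (fun r s => (#(a r s) : ℝ))
      (fun q s => (#(b q s) : ℝ)) (fun q r => (#(c q r) : ℝ))
      (fun _ _ => Nat.cast_nonneg _) (fun _ _ => Nat.cast_nonneg _)
      (fun _ _ => Nat.cast_nonneg _)
    have hm : √(∑ r ∈ P 1, ∑ s ∈ P 2, (#(a r s) : ℝ)) *
        √(∑ q ∈ P 0, ∑ s ∈ P 2, (#(b q s) : ℝ)) *
        √(∑ q ∈ P 0, ∑ r ∈ P 1, (#(c q r) : ℝ)) ≤
        √(#(E.image fun x => x 0) : ℝ) * √(#(E.image fun x => x 1) : ℝ) *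
          √(#(E.image fun x => x 2) : ℝ) :=
      mul_le_mul (mul_le_mul (Real.sqrt_le_sqrt hA) (Real.sqrt_le_sqrt hBb) (Real.sqrt_nonneg _)
        (Real.sqrt_nonneg _)) (Real.sqrt_le_sqrt hCc) (Real.sqrt_nonneg _)
        (mul_nonneg (Real.sqrt_nonneg _) (Real.sqrt_nonneg _))
    have h1 : (#(H ∩ E) : ℝ) ≤ √K * ∑ q ∈ P 0, ∑ r ∈ P 1, ∑ s ∈ P 2,
        √(#(a r s) : ℝ) * √(#(b q s) : ℝ) * √(#(c q r) : ℝ) := by
      rw [hsum, mul_sum]
      refine sum_le_sum fun q _ => ?_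
      rw [mul_sum]
      refine sum_le_sum fun r _ => ?_
      rw [mul_sum]
      exact sum_le_sum fun s _ => hblk q r s
    have h2 := h1.trans (mul_le_mul_of_nonneg_left (hw.trans hm) (Real.sqrt_nonneg K))
    have h3 : √K * (√(#(E.image fun x => x 0) : ℝ) * √(#(E.image fun x => x 1) : ℝ) *
        √(#(E.image fun x => x 2) : ℝ)) = √(K * ∏ i, (#(E.image fun x => x i) : ℝ)) := by
      rw [Fin.prod_univ_three, Real.sqrt_mul hK, Real.sqrt_mul (mul_nonneg (Nat.cast_nonneg _)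
        (Nat.cast_nonneg _)), Real.sqrt_mul (Nat.cast_nonneg _)]
    rw [h3] at h2
    have h0 : 0 ≤ K * ∏ i, (#(E.image fun x => x i) : ℝ) :=
      mul_nonneg hK (prod_nonneg fun _ _ => Nat.cast_nonneg _)
    rw [← Real.sq_sqrt h0]
    exact pow_le_pow_left₀ (Nat.cast_nonneg _) h2 2

end Pool.Agent.U422.Dense
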