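import Pool.Agent.U422.DenseTri
import Pool.Agent.U422.Sat

/-!
# Sparse linear hypergraphs closed under weak near unanimity operations: few triangles
-/

set_option autoImplicit false

namespace Pool.Agent.U422.Dense

open Finset Pool.Agent.R181.Maj Pool.Agent.U422.Gumm Pool.Agent.U422.Taylor Pool.Agent.U422.TLat

variable {X : Fin 3 → Type} [∀ i, Fintype (X i)] [∀ i, DecidableEq (X i)] {E : Finset (∀ i, X i)}

/-- the number of triangles -/
theorem tris_le (hlin : Lin (E : Set (∀ i, X i))) (s : ℕ) (hs : ∀ a ∈ E, #(good E a) ≤ s) :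
    #(tris E) ≤ (s + 1) * #E := by
  classical
  refine (card_le_mul_card_image (f := fun w : (∀ i, X i) × (∀ i, X i) × (∀ i, X i) => w.1)
    (tris E) (s + 1) ?_).trans (Nat.mul_le_mul_left _ (card_le_card ?_))
  · intro a ha
    obtain ⟨w, hw, hwa⟩ := mem_image.1 ha
    have haE : a ∈ E := by
      rw [← hwa]
      exact (mem_tris.1 hw).1.1
    refine (card_le_card_of_injOn (t := insert (a 2) (good E a)) (fun w => w.2.1 2) ?_ ?_).trans
      ((card_insert_le _ _).trans (Nat.succ_le_succ (hs a haE)))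
    · rintro ⟨a', b, c⟩ hw
      obtain ⟨hw1, rfl⟩ := mem_filter.1 (mem_coe.1 hw)
      obtain ⟨⟨h1, h2, h3⟩, h4, h5, h6⟩ := mem_tris.1 hw1
      rw [mem_coe, mem_insert]
      by_cases h7 : b 2 = a' 2
      · exact Or.inl h7
      · refine Or.inr ?_
        rw [good, mem_filter]
        exact ⟨mem_univ _, ⟨c, h3, h5.symm, h6.symm⟩, ⟨b, h2, h4.symm, rfl⟩, h7⟩
    · rintro ⟨a₁, b, c⟩ hw ⟨a₂, b', c'⟩ hw' h
      obtain ⟨hw1, hwa1⟩ := mem_filter.1 (mem_coe.1 hw)
      obtain ⟨hw2, hwa2⟩ := mem_filter.1 (mem_coe.1 hw')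
      have e1 : a₁ = a := hwa1
      have e2 : a₂ = a := hwa2
      subst e1 e2
      obtain ⟨⟨h1, h2, h3⟩, h4, h5, h6⟩ := mem_tris.1 hw1
      obtain ⟨⟨k1, k2, k3⟩, k4, k5, k6⟩ := mem_tris.1 hw2
      have hb : b = b' := hlin b (mem_coe.2 h2) b' (mem_coe.2 k2) 0 2 (by decide)
        (h4.symm.trans k4) h
      subst hb
      have hc : c = c' := hlin c (mem_coe.2 h3) c' (mem_coe.2 k3) 1 2 (by decide)
        (h5.symm.trans k5) (h6.symm.trans k6)
      subst hc
      rfl
  · intro a ha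
    obtain ⟨w, hw, rfl⟩ := mem_image.1 ha
    exact (mem_tris.1 hw).1.1

/-- in a sparse relation every element is in few triangles -/
theorem good_le {k : ℕ} (hk : 2 ≤ k) {t : ∀ i, (Fin k → X i) → X i} (ht : ∀ i, IsWNU (t i))
    (hlin : Lin (E : Set (∀ i, X i))) (hE : Cl (E : Set (∀ i, X i)) t) {e : ℕ}
    (hsp : ∀ S : Finset (Sigma X), #S ≤ e + 3 → #(ins E S) < e) {a : ∀ i, X i} (haE : a ∈ E) :
    2 * (#(good E a) + 1) ≤ e := by
  classical
  obtain ⟨S, haS, hS, hcl, hgood⟩ := exists_sat hk ht hE hsp haE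
  have hg : ∀ z ∈ good E a, (∃ b ∈ E, b 1 = a 1 ∧ b 2 = z) ∧ (∃ c ∈ E, c 0 = a 0 ∧ c 2 = z) ∧
      z ≠ a 2 := fun z hz => by
    rw [good, mem_filter] at hz
    exact hz.2
  have hne0 : Nonempty (∀ i, X i) := ⟨a⟩
  choose! b hb using fun z hz => (hg z hz).1
  choose! c hc using fun z hz => (hg z hz).2.1
  have hne : ∀ z ∈ good E a, z ≠ a 2 := fun z hz => (hg z hz).2.2
  have hzS : ∀ z ∈ good E a, (⟨2, z⟩ : Sigma X) ∈ S := hgood a haE haS
  have hins : ∀ x ∈ E, ∀ i j : Fin 3, i ≠ j → (⟨i, x i⟩ : Sigma X) ∈ S →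
      (⟨j, x j⟩ : Sigma X) ∈ S → x ∈ ins E S := by
    intro x hx i j hij h1 h2
    rw [TLat.mem_ins]
    exact ⟨hx, hcl x (mem_coe.2 hx) i j hij h1 h2⟩
  have h1 : insert a ((good E a).image b ∪ (good E a).image c) ⊆ ins E S := by
    intro x hx
    rcases mem_insert.1 hx with rfl | hx
    · rw [TLat.mem_ins]
      exact ⟨haE, haS⟩
    rcases mem_union.1 hx with hx | hx
    · obtain ⟨z, hz, rfl⟩ := mem_image.1 hx
      refine hins _ (hb z hz).1 1 2 (by decide) ?_ ?_
      · rw [(hb z hz).2.1]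
        exact haS 1
      · rw [(hb z hz).2.2]
        exact hzS z hz
    · obtain ⟨z, hz, rfl⟩ := mem_image.1 hx
      refine hins _ (hc z hz).1 0 2 (by decide) ?_ ?_
      · rw [(hc z hz).2.1]
        exact haS 0
      · rw [(hc z hz).2.2]
        exact hzS z hz
  have h2 : #((good E a).image b) = #(good E a) := by
    refine card_image_of_injOn fun z hz z' hz' h => ?_
    rw [← (hb z hz).2.2, ← (hb z' hz').2.2, h]
  have h3 : #((good E a).image c) = #(good E a) := by
    refine card_image_of_injOn fun z hz z' hz' h => ?_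
    rw [← (hc z hz).2.2, ← (hc z' hz').2.2, h]
  have h4 : Disjoint ((good E a).image b) ((good E a).image c) := by
    refine disjoint_left.2 fun x hx hx' => ?_
    obtain ⟨z, hz, rfl⟩ := mem_image.1 hx
    obtain ⟨z', hz', h⟩ := mem_image.1 hx'
    have h5 : b z 0 = a 0 := by
      rw [← h]
      exact (hc z' hz').2.1
    have h6 : b z = a := hlin _ (mem_coe.2 (hb z hz).1) a (mem_coe.2 haE) 0 1 (by decide) h5
      (hb z hz).2.1
    exact hne z hz ((hb z hz).2.2.symm.trans (congrFun h6 2))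
  have h5 : a ∉ (good E a).image b ∪ (good E a).image c := by
    intro h
    rcases mem_union.1 h with h | h
    · obtain ⟨z, hz, h6⟩ := mem_image.1 h
      exact hne z hz ((hb z hz).2.2.symm.trans (congrFun h6 2))
    · obtain ⟨z, hz, h6⟩ := mem_image.1 h
      exact hne z hz ((hc z hz).2.2.symm.trans (congrFun h6 2))
  have h6 := card_le_card h1
  rw [card_insert_of_notMem h5, card_union_of_disjoint h4, h2, h3] at h6
  omega

/-- **The bound for sparse linear relations.** -/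
theorem sparse_saving' (hlin : Lin (E : Set (∀ i, X i))) {k : ℕ} (hk : 2 ≤ k)
    {t : ∀ i, (Fin k → X i) → X i} (ht : ∀ i, IsWNU (t i)) (hE : Cl (E : Set (∀ i, X i)) t)
    {e : ℕ} (hsp : ∀ S : Finset (Sigma X), #S ≤ e + 3 → #(ins E S) < e) :
    2 * #E ^ 2 ≤ e * ∏ i, Fintype.card (X i) := by
  classical
  rcases E.eq_empty_or_nonempty with rfl | hne
  · simp
  obtain ⟨s, hs1, hs2⟩ : ∃ s, (∀ a ∈ E, #(good E a) ≤ s) ∧ 2 * (s + 1) ≤ e := by
    obtain ⟨a₀, ha₀, hmax⟩ := exists_max_image E (fun a => #(good E a)) hne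
    exact ⟨#(good E a₀), hmax, good_le hk ht hlin hE hsp ha₀⟩
  have h1 := supersat hk ht E hlin hE
  have h2 := tris_le hlin s hs1
  have h3 : ∏ i, #(E.image fun x => x i) ≤ ∏ i, Fintype.card (X i) :=
    prod_le_prod' fun i _ => card_le_univ _
  have h4 : 0 < #E := card_pos.2 hne
  refine Nat.le_of_mul_le_mul_left ?_ h4
  calc #E * (2 * #E ^ 2) = 2 * #E ^ 3 := by ring
    _ ≤ 2 * (((s + 1) * #E) * ∏ i, Fintype.card (X i)) :=
        Nat.mul_le_mul_left _ (h1.trans (Nat.mul_le_mul h2 h3))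
    _ = (2 * (s + 1)) * (#E * ∏ i, Fintype.card (X i)) := by ring
    _ ≤ e * (#E * ∏ i, Fintype.card (X i)) := Nat.mul_le_mul_right _ hs2
    _ = #E * (e * ∏ i, Fintype.card (X i)) := by ring

theorem rel_saving' (r : ℕ) (hr : 3 ≤ r) (σ : Fin 3 ↪ Fin r) (e : ℕ) (X : Fin r → Type)
    [∀ i, Fintype (X i)] [∀ i, DecidableEq (X i)] (E : Finset (∀ i, X i)) (k : ℕ)
    (t : ∀ i, (Fin k → X i) → X i) (hk : 2 ≤ k) (ht : ∀ i, IsWNU (t i))
    (hE : Cl (E : Set (∀ i, X i)) t) (hlin : Lin (E : Set (∀ i, X i)))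
    (hsp : ∀ T ⊆ E, #T = e → (r - 2) * e + 3 < ∑ i, #(T.image fun x => x i)) :
    2 * #E ^ 2 ≤ e * ∏ i : Fin 3, Fintype.card (X (σ i)) := by
  classical
  have hmem : ∀ a', a' ∈ E.image (prσ σ) ↔ ∃ a ∈ E, prσ σ a = a' := fun a' => mem_image
  have h1 := sparse_saving' (X := fun i => X (σ i)) (E := E.image (prσ σ)) ?_ hk
    (t := fun i => t (σ i)) (fun i => ht _) ?_ (e := e) ?_
  · rwa [card_image_of_injOn] at h1
    intro a ha b hb hab
    exact prσ_inj σ hlin ha hb (i := 0) (j := 1) (by decide) (congrFun hab 0) (congrFun hab 1)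
  · intro a' ha' b' hb' i j hij h2 h3
    obtain ⟨a, ha, rfl⟩ := (hmem _).1 (mem_coe.1 ha')
    obtain ⟨b, hb, rfl⟩ := (hmem _).1 (mem_coe.1 hb')
    rw [prσ_inj σ hlin (mem_coe.2 ha) (mem_coe.2 hb) hij h2 h3]
  · intro a ha
    have h2 : ∀ j, ∃ b ∈ E, prσ σ b = a j := fun j => (hmem _).1 (mem_coe.1 (ha j))
    choose b hb hb' using h2
    rw [mem_coe, hmem]
    refine ⟨_, hE b fun j => mem_coe.2 (hb j), ?_⟩
    funext i
    show t (σ i) (fun j => b j (σ i)) = t (σ i) fun j => a j i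
    congr 1
    funext j
    exact congrFun (hb' j) i
  · intro S hS
    by_contra hcon
    push Not at hcon
    obtain ⟨T', hT', hTe⟩ := exists_subset_card_eq hcon
    have hTT : (E.filter fun a => prσ σ a ∈ T').image (prσ σ) = T' := by
      ext a'
      rw [mem_image]
      constructor
      · rintro ⟨a, ha, rfl⟩
        exact (mem_filter.1 ha).2
      · intro ha'
        have h2 := hT' ha'
        rw [TLat.mem_ins, hmem] at h2
        obtain ⟨⟨a, ha, rfl⟩, -⟩ := h2
        exact ⟨a, mem_filter.2 ⟨ha, ha'⟩, rfl⟩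
    set T := E.filter fun a => prσ σ a ∈ T' with hT
    have hTE : T ⊆ E := filter_subset _ _
    have hTc : #T = e := by
      rw [← hTe, ← hTT, card_image_of_injOn]
      intro a ha b hb hab
      exact prσ_inj σ hlin (hTE ha) (hTE hb) (i := 0) (j := 1) (by decide) (congrFun hab 0)
        (congrFun hab 1)
    have h2 := hsp T hTE hTc
    have h3 : ∑ i, #(T'.image fun x => x i) ≤ e + 3 := by
      refine le_trans ?_ hS
      refine sum_image_le T' S fun a ha => ?_
      have h4 := hT' ha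
      rw [TLat.mem_ins] at h4
      exact h4.2
    have h4 : ∑ i : Fin 3, #(T.image fun x => x (σ i)) ≤ e + 3 := by
      refine le_trans (le_of_eq (sum_congr rfl fun i _ => ?_)) h3
      rw [← hTT, image_image]
      rfl
    have h5 := sum_split' σ (fun i => #(T.image fun x => x i)) e (e + 3)
      (fun i => card_image_le.trans hTc.le) h4
    have h6 : (r - 2) * e = (r - 3) * e + e := by
      obtain ⟨m, rfl⟩ : ∃ m, r = m + 3 := ⟨r - 3, by omega⟩
      rw [show m + 3 - 2 = m + 1 by omega, show m + 3 - 3 = m by omega]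
      ring
    have h7 : ∑ i, #(T.image fun x => x i) ≤ (r - 3) * e + (e + 3) := h5
    omega

/-- **Linear WNU pieces of sparse hypergraphs.** -/
theorem piece_saving' (r : ℕ) (hr : 3 ≤ r) (e : ℕ) (V : Type) [Fintype V] (H F : Set (Finset V))
    (hF : WNUPiece r F) (hlin : Linear F) (hFH : F ⊆ H) (hsp : SpanMore H e ((r - 2) * e + 3)) :
    (F.ncard : ℝ) ≤ √((e : ℝ) / 2) * ((Fintype.card V : ℝ) / r) ^ (3 / 2 : ℝ) := by
  classical
  obtain ⟨X, v, E, k, t, hk, ht, hv, hE, rfl⟩ := hF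
  have hfi : ∀ i, Function.Injective fun a : X i => v ⟨i, a⟩ := fun i a b hab =>
    eq_of_heq (Sigma.mk.inj (hv hab)).2
  have : ∀ i, Finite (X i) := fun i => Finite.of_injective _ (hfi i)
  let _ : ∀ i, Fintype (X i) := fun i => Fintype.ofFinite (X i)
  obtain ⟨σ, hσ⟩ := exists_three r hr fun i => Fintype.card (X i)
  have h1 := rel_saving' r hr σ e X E.toFinset k t hk ht (by rwa [Set.coe_toFinset])
    (by rw [Set.coe_toFinset]; exact lin_of_linear hv hlin) (by
      intro T hT hTe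
      have h2 := hsp (T.image (edge v)) (by
        rw [coe_image]
        rintro a ⟨x, hx, rfl⟩
        exact hFH ⟨x, Set.mem_toFinset.1 (hT (mem_coe.1 hx)), rfl⟩)
        (by rw [card_image_of_injective _ (edge_injective hv), hTe])
      rwa [union_eq hv] at h2)
  have h2 : r * ∑ i : Fin 3, Fintype.card (X (σ i)) ≤ 3 * Fintype.card V := by
    refine hσ.trans (Nat.mul_le_mul_left 3 ?_)
    rw [← Fintype.card_sigma]
    exact Fintype.card_le_of_injective v hv
  rw [Set.ncard_image_of_injective _ (edge_injective hv), Set.ncard_eq_toFinset_card']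
  obtain ⟨n, hn⟩ : ∃ n : ℝ, n = (Fintype.card V : ℝ) := ⟨_, rfl⟩
  rw [← hn]
  have hn0 : 0 ≤ n := by
    rw [hn]
    positivity
  have hr0 : (0 : ℝ) < r := by
    have : 0 < r := by omega
    exact_mod_cast this
  have h3 : ((#E.toFinset : ℕ) : ℝ) ^ 2 ≤ (e : ℝ) / 2 * (n / r) ^ 3 := by
    have h4 : 2 * ((#E.toFinset : ℕ) : ℝ) ^ 2 ≤ (e : ℝ) *
        ∏ i : Fin 3, (Fintype.card (X (σ i)) : ℝ) := by exact_mod_cast h1
    have h5 : ∏ i : Fin 3, (Fintype.card (X (σ i)) : ℝ) ≤ (n / r) ^ 3 := by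
      rw [Fin.sum_univ_three] at h2
      rw [Fin.prod_univ_three]
      refine (amgm3 (Nat.cast_nonneg _) (Nat.cast_nonneg _) (Nat.cast_nonneg _)).trans ?_
      refine pow_le_pow_left₀ (by positivity) ?_ 3
      rw [div_le_div_iff₀ (by norm_num) hr0, hn, mul_comm, mul_comm (Fintype.card V : ℝ) 3]
      exact_mod_cast h2
    have h6 := mul_le_mul_of_nonneg_left h5 (Nat.cast_nonneg (α := ℝ) e)
    linarith
  have h5 : (e : ℝ) / 2 * (n / r) ^ 3 = (√((e : ℝ) / 2) * (n / r) ^ (3 / 2 : ℝ)) ^ 2 := by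
    rw [mul_pow, rpow_sq (by positivity), Real.sq_sqrt (by positivity)]
  rw [h5] at h3
  exact le_of_sq_le_sq h3 (by positivity)

end Pool.Agent.U422.Dense
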