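import Pool.Agent.U422.DenseBlock
import Pool.Agent.U422.TNonBound

/-!
# Restriction to the vertices of a piece
-/

set_option autoImplicit false

namespace Pool.Agent.U422.Dense

open Finset Pool.Agent.U422.Taylor Pool.Agent.U422.TLat Pool.Agent.R181.Maj

variable {V : Type}

theorem mem_edge {r : ℕ} {X : Fin r → Type} {v : (Σ i, X i) → V} {a : ∀ i, X i} {x : V} :
    x ∈ edge v a ↔ ∃ i, v ⟨i, a i⟩ = x := by
  classical
  rw [edge, mem_image]
  constructor
  · rintro ⟨i, -, h⟩
    exact ⟨i, h⟩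
  · rintro ⟨i, h⟩
    exact ⟨i, mem_univ _, h⟩

/-- the vertices of the edges -/
def verts (F : Set (Finset V)) : Set V := ⋃ a ∈ F, (a : Set V)

/-- the edges in a set of vertices -/
def pull (W : Set V) (F : Set (Finset V)) : Set (Finset W) :=
  {a | a.map (Function.Embedding.subtype fun x => x ∈ W) ∈ F}

theorem pull_image (W : Set V) (F : Set (Finset V)) (hW : verts F ⊆ W) :
    F = (fun a : Finset W => a.map (Function.Embedding.subtype fun x => x ∈ W)) '' pull W F := by
  classical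
  ext a
  constructor
  · intro ha
    have h1 : (a.subtype fun x => x ∈ W).map (Function.Embedding.subtype fun x => x ∈ W) = a :=
      Finset.subtype_map_of_mem fun x hx => hW (Set.mem_biUnion ha (mem_coe.2 hx))
    refine ⟨a.subtype fun x => x ∈ W, ?_, h1⟩
    show _ ∈ F
    rw [h1]
    exact ha
  · rintro ⟨a', ha', rfl⟩
    exact ha'

theorem pull_ncard (W : Set V) (F : Set (Finset V)) (hW : verts F ⊆ W) :
    F.ncard = (pull W F).ncard := by
  conv_lhs => rw [pull_image W F hW]
  exact Set.ncard_image_of_injective _ (Finset.map_injective _)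

theorem pull_span (W : Set V) (H : Set (Finset V)) {e d : ℕ} (hsp : SpanMore H e d) :
    SpanMore (pull W H) e d := by
  classical
  intro T hT hTe
  have h1 := hsp (T.image fun a => a.map (Function.Embedding.subtype fun x => x ∈ W)) (by
    intro a ha
    obtain ⟨a', ha', rfl⟩ := mem_image.1 (mem_coe.1 ha)
    exact hT (mem_coe.2 ha')) (by
    rw [card_image_of_injective _ (Finset.map_injective _), hTe])
  have h2 : (⋃ a ∈ (T.image fun a : Finset W => a.map
      (Function.Embedding.subtype fun x => x ∈ W)), (a : Set V)) =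
      Subtype.val '' (⋃ a ∈ T, (a : Set W)) := by
    ext x
    simp only [Set.mem_iUnion, mem_image, mem_coe, Set.mem_image, exists_prop]
    constructor
    · rintro ⟨a, ⟨a', ha', rfl⟩, hx⟩
      obtain ⟨y, hy, rfl⟩ := mem_map.1 hx
      exact ⟨y, ⟨a', ha', hy⟩, rfl⟩
    · rintro ⟨y, ⟨a', ha', hy⟩, rfl⟩
      exact ⟨_, ⟨a', ha', rfl⟩, mem_map.2 ⟨y, hy, rfl⟩⟩
  rw [h2, Set.ncard_image_of_injective _ Subtype.val_injective] at h1
  exact h1

theorem pull_linear (W : Set V) (F : Set (Finset V)) (h : Linear F) : Linear (pull W F) := by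
  intro a ha b hb hab x hx y hy
  refine Subtype.ext (h _ ha _ hb (fun h => hab (Finset.map_injective _ h)) (x := x.1) ?_
    (y := y.1) ?_)
  · exact ⟨mem_coe.2 (mem_map.2 ⟨x, mem_coe.1 hx.1, rfl⟩),
      mem_coe.2 (mem_map.2 ⟨x, mem_coe.1 hx.2, rfl⟩)⟩
  · exact ⟨mem_coe.2 (mem_map.2 ⟨y, mem_coe.1 hy.1, rfl⟩),
      mem_coe.2 (mem_map.2 ⟨y, mem_coe.1 hy.2, rfl⟩)⟩

theorem pull_piece (r : ℕ) (F : Set (Finset V)) (hF : WNUPiece r F) (W : Set V)
    (hW : verts F ⊆ W) : WNUPiece r (pull W F) := by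
  classical
  obtain ⟨X, v, E, k, t, hk, ht, hv, hE, rfl⟩ := hF
  have hvW : ∀ a ∈ E, ∀ i, v ⟨i, a i⟩ ∈ W := by
    intro a ha i
    exact hW (Set.mem_biUnion ⟨a, ha, rfl⟩ (mem_coe.2 (mem_edge.2 ⟨i, rfl⟩)))
  let X' : Fin r → Type := fun i => {x : X i // ∃ a ∈ E, a i = x}
  let v' : (Σ i, X' i) → W := fun z => ⟨v ⟨z.1, z.2.1⟩, by
    obtain ⟨a, ha, h⟩ := z.2.2
    rw [← h]
    exact hvW a ha z.1⟩
  let E' : Set (∀ i, X' i) := {a | (fun i => (a i).1) ∈ E}
  let t' : ∀ i, (Fin k → X' i) → X' i := fun i y => ⟨t i fun j => (y j).1, by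
    choose a ha ha' using fun j => (y j).2
    refine ⟨fun i => t i fun j => a j i, hE a ha, ?_⟩
    show t i (fun j => a j i) = _
    congr 1
    funext j
    exact ha' j⟩
  have hupd : ∀ i (x y : X' i) (l : Fin k),
      (fun j => (Function.update (fun _ => x) l y j).1) =
        Function.update (fun _ => x.1) l y.1 := by
    intro i x y l
    funext j
    by_cases hj : j = l
    · subst hj
      rw [Function.update_self, Function.update_self]
    · rw [Function.update_of_ne hj, Function.update_of_ne hj]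
  have hedge : ∀ a' : ∀ i, X' i, (edge v' a').map (Function.Embedding.subtype fun x => x ∈ W) =
      edge v fun i => (a' i).1 := by
    intro a'
    ext x
    rw [mem_map]
    constructor
    · rintro ⟨y, hy, rfl⟩
      obtain ⟨i, rfl⟩ := mem_edge.1 hy
      exact mem_edge.2 ⟨i, rfl⟩
    · intro hx
      obtain ⟨i, rfl⟩ := mem_edge.1 hx
      exact ⟨v' ⟨i, a' i⟩, mem_edge.2 ⟨i, rfl⟩, rfl⟩
  refine ⟨X', v', E', k, t', hk, fun i => ⟨fun x => Subtype.ext ((ht i).1 _),
    fun l m x y => Subtype.ext ?_⟩, ?_, ?_, ?_⟩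
  · show t i (fun j => (Function.update (fun _ => x) l y j).1) =
      t i fun j => (Function.update (fun _ => x) m y j).1
    rw [hupd, hupd]
    exact (ht i).2 l m _ _
  · rintro ⟨i, x⟩ ⟨j, y⟩ h
    have h1 : v ⟨i, x.1⟩ = v ⟨j, y.1⟩ := congrArg Subtype.val h
    have h2 := hv h1
    obtain ⟨h3, h4⟩ := Sigma.mk.inj h2
    subst h3
    rw [Subtype.ext (eq_of_heq h4)]
  · intro y hy
    exact hE (fun j i => (y j i).1) hy
  · ext a'
    constructor
    · rintro ⟨a, ha, h⟩
      refine ⟨fun i => ⟨a i, a, ha, rfl⟩, ha, ?_⟩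
      apply Finset.map_injective (Function.Embedding.subtype fun x => x ∈ W)
      rw [hedge]
      exact h
    · rintro ⟨b, hb, rfl⟩
      show _ ∈ edge v '' E
      rw [hedge]
      exact ⟨_, hb, rfl⟩

/-- **The bound for one piece**, with the number of vertices of the piece. -/
theorem piece_all (r : ℕ) (hr : 3 ≤ r) (e : ℕ) (ε : ℝ) (hε : 0 < ε) : ∃ C : ℝ,
    ∀ (V : Type) [Fintype V] (H F : Set (Finset V)), WNUPiece r F → F ⊆ H ∨ Linear F →
    SpanMore H e ((r - 2) * e + 3) →
    ((H ∩ F).ncard : ℝ) ≤ ε * ((verts F).ncard : ℝ) ^ 2 + C := by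
  classical
  obtain ⟨n₀, hn₀⟩ := piece_bound' r hr e ε hε
  obtain ⟨n₁, hn₁⟩ := piece_dense r hr e ε hε
  refine ⟨(2 : ℝ) ^ max n₀ n₁, ?_⟩
  intro V _ H F hF hFH hsp
  have hsub : verts (H ∩ F) ⊆ verts F := Set.biUnion_subset_biUnion_left Set.inter_subset_right
  have h1 : (H ∩ F).ncard = (pull (verts F) (H ∩ F)).ncard := pull_ncard _ _ hsub
  have hpos : (0 : ℝ) ≤ (2 : ℝ) ^ max n₀ n₁ := by positivity
  have h0 : (0 : ℝ) ≤ ε * ((verts F).ncard : ℝ) ^ 2 := by positivity
  have hcard : Fintype.card (verts F) = (verts F).ncard := by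
    rw [← Nat.card_eq_fintype_card, Nat.card_coe_set_eq]
  have hsp' : SpanMore (pull (verts F) H) e ((r - 2) * e + 3) := pull_span _ _ hsp
  have hF' : WNUPiece r (pull (verts F) F) := pull_piece r F hF _ (Set.Subset.refl _)
  rw [h1]
  by_cases hn : max n₀ n₁ ≤ Fintype.card (verts F)
  · refine le_trans ?_ (le_add_of_nonneg_right hpos)
    rw [← hcard]
    rcases hFH with h | h
    · have h2 : pull (verts F) (H ∩ F) = pull (verts F) F := by
        rw [Set.inter_eq_right.2 h]
      rw [h2]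
      exact hn₀ (verts F) (pull (verts F) H) (pull (verts F) F)
        (le_trans (le_max_left _ _) hn) hF' (fun a ha => h ha) hsp'
    · refine hn₁ (verts F) (pull (verts F) (H ∩ F)) (pull (verts F) F)
        (le_trans (le_max_right _ _) hn) hF' (pull_linear _ _ h) (fun a ha => ha.2) ?_
      intro T hT hTe
      exact hsp' T (fun a ha => (hT ha).1) hTe
  · refine le_trans ?_ (le_add_of_nonneg_left h0)
    have h2 : (pull (verts F) (H ∩ F)).ncard ≤ 2 ^ Fintype.card (verts F) := by
      refine (Set.ncard_le_ncard (Set.subset_univ _) (Set.toFinite _)).trans ?_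
      rw [Set.ncard_univ, Nat.card_eq_fintype_card, Fintype.card_finset]
    have h3 : 2 ^ Fintype.card (verts F) ≤ 2 ^ max n₀ n₁ :=
      Nat.pow_le_pow_right (by norm_num) (not_le.1 hn).le
    exact_mod_cast h2.trans h3

end Pool.Agent.U422.Dense
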