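import Pool.Agent.U422.DenseTri

/-!
# Relations between three finite sets without triangles
-/

set_option autoImplicit false

namespace Pool.Agent.U422.Dense

open Finset Pool.Agent.U422.Taylor Pool.Agent.U422.TLat

/-- three types -/
def XX (A B C : Type) : Fin 3 → Type
  | 0 => A
  | 1 => B
  | 2 => C

/-- a triple as a tuple -/
def tup {A B C : Type} (z : A × B × C) : ∀ i, XX A B C i
  | 0 => z.1
  | 1 => z.2.1
  | 2 => z.2.2

/-- closed under some weak near unanimity operations of one arity -/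
def WNU3 {A B C : Type} (R : Finset (A × B × C)) : Prop :=
  ∃ (k : ℕ) (a : (Fin k → A) → A) (b : (Fin k → B) → B) (c : (Fin k → C) → C), 2 ≤ k ∧
    IsWNU a ∧ IsWNU b ∧ IsWNU c ∧ ∀ z : Fin k → A × B × C, (∀ j, z j ∈ R) →
      (a fun j => (z j).1, b fun j => (z j).2.1, c fun j => (z j).2.2) ∈ R

theorem three_bound {A B C : Type} [Fintype A] [Fintype B] [Fintype C] (R : Finset (A × B × C))
    (hcl : WNU3 R) (h01 : ∀ x ∈ R, ∀ y ∈ R, x.1 = y.1 → x.2.1 = y.2.1 → x = y)
    (h02 : ∀ x ∈ R, ∀ y ∈ R, x.1 = y.1 → x.2.2 = y.2.2 → x = y)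
    (h12 : ∀ x ∈ R, ∀ y ∈ R, x.2.1 = y.2.1 → x.2.2 = y.2.2 → x = y)
    (htri : ∀ x ∈ R, ∀ y ∈ R, ∀ z ∈ R, x.1 = y.1 → x.2.1 = z.2.1 → y.2.2 = z.2.2 → x = y) :
    #R ^ 2 ≤ Fintype.card A * Fintype.card B * Fintype.card C := by
  classical
  obtain ⟨k, a, b, c, hk, ha, hb, hc, hR⟩ := hcl
  let t : ∀ i, (Fin k → XX A B C i) → XX A B C i := fun i =>
    match i with
    | 0 => a
    | 1 => b
    | 2 => c
  have ht : ∀ i, IsWNU (t i) := by
    intro i
    fin_cases i
    · exact ha
    · exact hb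
    · exact hc
  have hinj : Function.Injective (tup (A := A) (B := B) (C := C)) := by
    intro x y h
    exact Prod.ext (congrFun h 0) (Prod.ext (congrFun h 1) (congrFun h 2))
  let E : Finset (∀ i, XX A B C i) := R.image tup
  have hmem : ∀ x, x ∈ E ↔ ∃ y ∈ R, tup y = x := fun x => mem_image
  have hlin : Lin (E : Set (∀ i, XX A B C i)) := by
    intro x' hx' y' hy' i j hij h1 h2
    obtain ⟨x, hx, rfl⟩ := (hmem _).1 (mem_coe.1 hx')
    obtain ⟨y, hy, rfl⟩ := (hmem _).1 (mem_coe.1 hy')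
    congr 1
    fin_cases i <;> fin_cases j
    · exact absurd rfl hij
    · exact h01 x hx y hy h1 h2
    · exact h02 x hx y hy h1 h2
    · exact h01 x hx y hy h2 h1
    · exact absurd rfl hij
    · exact h12 x hx y hy h1 h2
    · exact h02 x hx y hy h2 h1
    · exact h12 x hx y hy h2 h1
    · exact absurd rfl hij
  have hE : Cl (E : Set (∀ i, XX A B C i)) t := by
    intro v hv
    have h1 : ∀ j, ∃ y ∈ R, tup y = v j := fun j => (hmem _).1 (mem_coe.1 (hv j))
    choose y hy hy' using h1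
    rw [mem_coe, hmem]
    refine ⟨_, hR y hy, ?_⟩
    funext i
    fin_cases i
    · show a (fun j => (y j).1) = a fun j => v j 0
      congr 1
      funext j
      exact congrFun (hy' j) 0
    · show b (fun j => (y j).2.1) = b fun j => v j 1
      congr 1
      funext j
      exact congrFun (hy' j) 1
    · show c (fun j => (y j).2.2) = c fun j => v j 2
      congr 1
      funext j
      exact congrFun (hy' j) 2
  have h := supersat hk ht E hlin hE
  have h1 : #(tris E) ≤ #E := by
    refine card_le_card_of_injOn (fun w => w.1) ?_ ?_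
    · intro w hw
      exact mem_coe.2 (mem_tris.1 (mem_coe.1 hw)).1.1
    · rintro ⟨x, y, z⟩ hw ⟨x₁, y₁, z₁⟩ hw₁ hxx
      have e : x = x₁ := hxx
      subst e
      have key : ∀ y z : ∀ i, XX A B C i, (x, y, z) ∈ tris E → y = x ∧ z = x := by
        intro y z hw
        obtain ⟨⟨hx, hy, hz⟩, k0, k1, k2⟩ := mem_tris.1 hw
        obtain ⟨x', hx', rfl⟩ := (hmem _).1 hx
        obtain ⟨y', hy', rfl⟩ := (hmem _).1 hy
        obtain ⟨z', hz', rfl⟩ := (hmem _).1 hz
        have g0 : x'.1 = y'.1 := k0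
        have g1 : x'.2.1 = z'.2.1 := k1
        have g2 : y'.2.2 = z'.2.2 := k2
        have e1 := htri x' hx' y' hy' z' hz' g0 g1 g2
        subst e1
        have e2 := h12 x' hx' z' hz' g1 g2
        exact ⟨rfl, by rw [e2]⟩
      obtain ⟨e1, e2⟩ := key y z (mem_coe.1 hw)
      obtain ⟨e3, e4⟩ := key y₁ z₁ (mem_coe.1 hw₁)
      rw [e1, e2, e3, e4]
  have h2 : #E = #R := card_image_of_injective _ hinj
  have c0 : #(E.image fun x => x 0) ≤ Fintype.card A := by
    rw [← card_univ]
    exact card_le_card (t := (univ : Finset A)) fun _ _ => mem_univ _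
  have c1 : #(E.image fun x => x 1) ≤ Fintype.card B := by
    rw [← card_univ]
    exact card_le_card (t := (univ : Finset B)) fun _ _ => mem_univ _
  have c2 : #(E.image fun x => x 2) ≤ Fintype.card C := by
    rw [← card_univ]
    exact card_le_card (t := (univ : Finset C)) fun _ _ => mem_univ _
  rw [Fin.prod_univ_three] at h
  have h3 : #E ^ 3 ≤ #E * (Fintype.card A * Fintype.card B * Fintype.card C) :=
    h.trans (Nat.mul_le_mul h1 (Nat.mul_le_mul (Nat.mul_le_mul c0 c1) c2))
  rw [h2] at h3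
  rcases Nat.eq_zero_or_pos #R with h0 | h0
  · rw [h0]
    exact Nat.zero_le _
  · refine Nat.le_of_mul_le_mul_left ?_ h0
    calc #R * #R ^ 2 = #R ^ 3 := by ring
      _ ≤ _ := h3

end Pool.Agent.U422.Dense
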