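import Pool.Agent.R181.MajPieces

/-!
# Algebras with Gumm operations: the modular law, permutability modulo an abelian-type congruence
-/

set_option autoImplicit false

namespace Pool.Agent.U422.Gumm

open Finset Pool.Agent.R181.Maj

variable {A : Type*}

/-- `f i x x y` or `f i x y y`, according to the direction `σ i`. -/
def lo {m : ℕ} (σ : Fin (m + 1) → Bool) (f : Fin (m + 1) → A → A → A → A) (i : Fin (m + 1))
    (x y : A) : A := if σ i then f i x x y else f i x y y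

/-- `f i x y y` or `f i x x y`, according to the direction `σ i`. -/
def hi {m : ℕ} (σ : Fin (m + 1) → Bool) (f : Fin (m + 1) → A → A → A → A) (i : Fin (m + 1))
    (x y : A) : A := if σ i then f i x y y else f i x x y

/-- `f 0, …, f m` and `p` are Gumm operations on `A`. -/
structure IsGumm {m : ℕ} (σ : Fin (m + 1) → Bool) (f : Fin (m + 1) → A → A → A → A)
    (p : A → A → A → A) : Prop where
  mid : ∀ i x y, f i x y x = x
  start : ∀ x y, lo σ f 0 x y = x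
  step : ∀ (i : Fin m) x y, hi σ f i.castSucc x y = lo σ f i.succ x y
  last : ∀ x y, hi σ f (Fin.last m) x y = p x y y
  malt : ∀ x y, p x x y = y

variable {m : ℕ} {σ : Fin (m + 1) → Bool} {f : Fin (m + 1) → A → A → A → A} {p : A → A → A → A}

/-- Congruences. -/
structure Cg (f : Fin (m + 1) → A → A → A → A) (p : A → A → A → A) (s : Setoid A) : Prop where
  f : ∀ i, Compat (f i) s
  p : Compat p s

theorem Cg.inf {s t : Setoid A} (hs : Cg f p s) (ht : Cg f p t) : Cg f p (s ⊓ t) :=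
  ⟨fun i => compat_inf (hs.f i) (ht.f i), compat_inf hs.p ht.p⟩

theorem Cg.sup {s t : Setoid A} (hs : Cg f p s) (ht : Cg f p t) : Cg f p (s ⊔ t) :=
  ⟨fun i => compat_sup (hs.f i) (ht.f i), compat_sup hs.p ht.p⟩

/-- the chain from `a` to `p a b b` -/
theorem chain (hg : IsGumm σ f p) (w : Setoid A) (a b : A)
    (h : ∀ i, w (f i a a b) (f i a b b)) : w a (p a b b) := by
  have h1 : ∀ i, w (lo σ f i a b) (hi σ f i a b) := by
    intro i
    unfold lo hi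
    split_ifs
    · exact h i
    · exact w.symm (h i)
  have h2 : ∀ i : Fin (m + 1), w a (hi σ f i a b) := by
    intro i
    induction i using Fin.induction with
    | zero =>
      have := h1 0
      rwa [hg.start] at this
    | succ i ih =>
      refine w.trans ih ?_
      rw [hg.step]
      exact h1 _
  have := h2 (Fin.last m)
  rwa [hg.last] at this

theorem p_self (hg : IsGumm σ f p) (a : A) : p a a a = a := hg.malt a a

/-- if `a α b` and `a (β ∨ γ) b` then `a` and `p(a,b,b)` are related by any equivalence relation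
which contains `α ∧ β` and `α ∧ γ` -/
theorem diff (hg : IsGumm σ f p) {α β γ δ : Setoid A} (hα : Cg f p α) (hβ : Cg f p β)
    (hγ : Cg f p γ) (h1 : α ⊓ β ≤ δ) (h2 : α ⊓ γ ≤ δ) {a b : A} (hab : α a b)
    (hab' : (β ⊔ γ) a b) : δ a (p a b b) := by
  refine chain hg δ a b fun i => ?_
  have key : ∀ g g', α (f i a g b) (f i a g' b) := by
    intro g g'
    have e1 : α (f i a g b) (f i a g a) := hα.f i _ _ _ _ _ _ (α.refl _) (α.refl _) (α.symm hab)
    have e2 : α (f i a g' b) (f i a g' a) := hα.f i _ _ _ _ _ _ (α.refl _) (α.refl _) (α.symm hab)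
    rw [hg.mid] at e1 e2
    exact α.trans e1 (α.symm e2)
  exact sup_map (s := β) (t := γ) (w := δ) (fun g => f i a g b)
    (fun x y hxy => h1 ⟨key x y, hβ.f i _ _ _ _ _ _ (β.refl _) hxy (β.refl _)⟩)
    (fun x y hxy => h2 ⟨key x y, hγ.f i _ _ _ _ _ _ (γ.refl _) hxy (γ.refl _)⟩) hab'

/-- The relations `β ∘ γ ∘ β`, `β ∘ γ ∘ β ∘ γ ∘ β ∘ γ ∘ β`, … -/
def Lam (β γ : Setoid A) : ℕ → A → A → Prop
  | 0, a, b => β a b
  | n + 1, a, b => ∃ c d, Lam β γ n a c ∧ γ c d ∧ Lam β γ n b d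

theorem Lam.refl (β γ : Setoid A) (n : ℕ) (a : A) : Lam β γ n a a := by
  induction n generalizing a with
  | zero => exact β.refl a
  | succ n ih => exact ⟨a, a, ih a, γ.refl a, ih a⟩

theorem Lam.symm {β γ : Setoid A} {n : ℕ} {a b : A} (h : Lam β γ n a b) : Lam β γ n b a := by
  cases n with
  | zero => exact β.symm h
  | succ n =>
    obtain ⟨c, d, h1, h2, h3⟩ := h
    exact ⟨d, c, h3, γ.symm h2, h1⟩

theorem Lam.succ {β γ : Setoid A} {n : ℕ} {a b : A} (h : Lam β γ n a b) : Lam β γ (n + 1) a b :=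
  ⟨b, b, h, γ.refl b, Lam.refl β γ n b⟩

theorem Lam.mono {β γ : Setoid A} {n k : ℕ} (hnk : n ≤ k) {a b : A} (h : Lam β γ n a b) :
    Lam β γ k a b := by
  induction k, hnk using Nat.le_induction with
  | base => exact h
  | succ k _ ih => exact ih.succ

theorem Lam.trans {β γ : Setoid A} {n : ℕ} {a b c : A} (h : Lam β γ n a b) (h' : Lam β γ n b c) :
    Lam β γ (n + 1) a c :=
  ⟨b, b, h, γ.refl b, h'.symm⟩

theorem Lam.compat {β γ : Setoid A} {g : A → A → A → A} (hβ : Compat g β) (hγ : Compat g γ)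
    {n : ℕ} {a a' b b' c c' : A} (h1 : Lam β γ n a a') (h2 : Lam β γ n b b')
    (h3 : Lam β γ n c c') : Lam β γ n (g a b c) (g a' b' c') := by
  induction n generalizing a a' b b' c c' with
  | zero => exact hβ _ _ _ _ _ _ h1 h2 h3
  | succ n ih =>
    obtain ⟨u1, v1, p1, q1, r1⟩ := h1
    obtain ⟨u2, v2, p2, q2, r2⟩ := h2
    obtain ⟨u3, v3, p3, q3, r3⟩ := h3
    exact ⟨g u1 u2 u3, g v1 v2 v3, ih p1 p2 p3, hγ _ _ _ _ _ _ q1 q2 q3, ih r1 r2 r3⟩

theorem sup_lam {β γ : Setoid A} {a b : A} (h : (β ⊔ γ) a b) : ∃ n, Lam β γ n a b := by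
  let s : Setoid A := ⟨fun a b => ∃ n, Lam β γ n a b, fun a => ⟨0, Lam.refl β γ 0 a⟩,
    fun ⟨n, hn⟩ => ⟨n, hn.symm⟩, fun ⟨n, hn⟩ ⟨k, hk⟩ =>
      ⟨max n k + 1, (hn.mono (le_max_left n k)).trans (hk.mono (le_max_right n k))⟩⟩
  have h1 : β ⊔ γ ≤ s := by
    refine sup_le ?_ ?_
    · intro x y hxy
      exact ⟨0, hxy⟩
    · intro x y hxy
      exact ⟨1, x, y, β.refl x, hxy, β.refl y⟩
  exact h1 h

/-- **The modular law** for congruences. -/
theorem modular (hg : IsGumm σ f p) {α β γ : Setoid A} (hα : Cg f p α) (hβ : Cg f p β)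
    (hγ : Cg f p γ) (hle : γ ≤ α) : α ⊓ (β ⊔ γ) ≤ (α ⊓ β) ⊔ γ := by
  set δ := (α ⊓ β) ⊔ γ with hδ
  have hγδ : γ ≤ δ := le_sup_right
  have key : ∀ n a b, α a b → Lam β γ n a b → δ a b := by
    intro n
    induction n with
    | zero => intro a b h1 h2; exact (le_sup_left : α ⊓ β ≤ δ) ⟨h1, h2⟩
    | succ n ih =>
      rintro a b hab ⟨c, d, hac, hcd, hbd⟩
      have key : ∀ i g, α (f i a g b) a := by
        intro i g
        have e1 : α (f i a g b) (f i a g a) :=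
          hα.f i _ _ _ _ _ _ (α.refl _) (α.refl _) (α.symm hab)
        rwa [hg.mid] at e1
      have h1 : δ a (p a b b) := by
        refine chain hg δ a b fun i => ?_
        have e1 : δ (f i a a b) (f i a c b) :=
          ih _ _ (α.trans (key i a) (α.symm (key i c)))
            (Lam.compat (hβ.f i) (hγ.f i) (Lam.refl _ _ _ _) hac (Lam.refl _ _ _ _))
        have e2 : δ (f i a c b) (f i a d b) :=
          hγδ (hγ.f i _ _ _ _ _ _ (γ.refl _) hcd (γ.refl _))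
        have e3 : δ (f i a b b) (f i a d b) :=
          ih _ _ (α.trans (key i b) (α.symm (key i d)))
            (Lam.compat (hβ.f i) (hγ.f i) (Lam.refl _ _ _ _) hbd (Lam.refl _ _ _ _))
        exact δ.trans e1 (δ.trans e2 (δ.symm e3))
      have h2 : δ (p a b b) (p c d b) := by
        refine ih _ _ ?_ (Lam.compat hβ.p hγ.p hac hbd (Lam.refl _ _ _ _))
        have e1 : α (p a b b) (p b b b) := hα.p _ _ _ _ _ _ hab (α.refl _) (α.refl _)
        have e2 : α (p c d b) (p d d b) := hα.p _ _ _ _ _ _ (hle hcd) (α.refl _) (α.refl _)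
        rw [p_self hg] at e1
        rw [hg.malt] at e2
        exact α.trans e1 (α.symm e2)
      have h3 : δ (p c d b) b := by
        have e1 : γ (p c d b) (p d d b) := hγ.p _ _ _ _ _ _ hcd (γ.refl _) (γ.refl _)
        rw [hg.malt] at e1
        exact hγδ e1
      exact δ.trans h1 (δ.trans h2 h3)
  intro a b hab
  obtain ⟨n, hn⟩ := sup_lam hab.2
  exact key n a b hab.1 hn

/-- Equivalence relations which commute. -/
theorem sup_of_comm {l v : Setoid A} (h : ∀ a b c, v a b → l b c → ∃ t, l a t ∧ v t c) {a b : A}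
    (hab : (l ⊔ v) a b) : ∃ t, l a t ∧ v t b := by
  let s : Setoid A := ⟨fun a b => ∃ t, l a t ∧ v t b, fun a => ⟨a, l.refl a, v.refl a⟩, by
    rintro a b ⟨t, h1, h2⟩
    exact h b t a (v.symm h2) (l.symm h1), by
    rintro a b c ⟨t, h1, h2⟩ ⟨t', h3, h4⟩
    obtain ⟨t'', h5, h6⟩ := h t b t' h2 h3
    exact ⟨t'', l.trans h1 h5, v.trans h6 h4⟩⟩
  have h1 : l ⊔ v ≤ s := by
    refine sup_le ?_ ?_
    · intro x y hxy
      exact ⟨y, hxy, v.refl y⟩
    · intro x y hxy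
      exact ⟨x, l.refl x, hxy⟩
  exact h1 hab

/-- Three congruences `α, β, γ`, the join `l` of their meets and the meet `u` of their joins. -/
structure Setup (f : Fin (m + 1) → A → A → A → A) (p : A → A → A → A)
    (l u α β γ : Setoid A) : Prop where
  ca : Cg f p α
  cb : Cg f p β
  cc : Cg f p γ
  cl : Cg f p l
  cu : Cg f p u
  ab : α ⊓ β ≤ l
  ac : α ⊓ γ ≤ l
  bc : β ⊓ γ ≤ l
  lu : l ≤ u
  uab : u ≤ α ⊔ β
  uac : u ≤ α ⊔ γ
  ubc : u ≤ β ⊔ γ
  ule : (α ⊔ β) ⊓ (α ⊔ γ) ⊓ (β ⊔ γ) ≤ u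

theorem Setup.swap {l u α β γ : Setoid A} (h : Setup f p l u α β γ) : Setup f p l u β α γ :=
  ⟨h.cb, h.ca, h.cc, h.cl, h.cu, by rw [inf_comm]; exact h.ab, h.bc, h.ac, h.lu,
    by rw [sup_comm]; exact h.uab, h.ubc, h.uac, by
      refine le_trans (le_of_eq ?_) h.ule
      rw [sup_comm β α, inf_right_comm]⟩

theorem Setup.rot {l u α β γ : Setoid A} (h : Setup f p l u α β γ) : Setup f p l u β γ α :=
  ⟨h.cb, h.cc, h.ca, h.cl, h.cu, h.bc, by rw [inf_comm]; exact h.ab, by rw [inf_comm]; exact h.ac, h.lu,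
    h.ubc, by rw [sup_comm]; exact h.uab, by rw [sup_comm]; exact h.uac, by
      refine le_trans (le_of_eq ?_) h.ule
      rw [sup_comm β α, sup_comm γ α]
      ac_rfl⟩

section

variable {l u α β γ : Setoid A}

/-- `u ≤ (u ∧ α) ∨ (u ∧ β)` -/
theorem Setup.u_le (hg : IsGumm σ f p) (h : Setup f p l u α β γ) : u ≤ (u ⊓ α) ⊔ (u ⊓ β) := by
  have h1 : (α ⊔ γ) ⊓ (β ⊔ α) ≤ ((α ⊔ γ) ⊓ β) ⊔ α := modular hg (h.ca.sup h.cc) h.cb h.ca le_sup_left
  have h2 : (α ⊔ γ) ⊓ β ≤ u ⊓ β := by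
    refine le_inf (le_trans ?_ h.ule) inf_le_right
    refine le_inf (le_inf ?_ inf_le_left) ?_
    · exact inf_le_right.trans le_sup_right
    · exact inf_le_right.trans le_sup_left
  have h3 : u ≤ α ⊔ (u ⊓ β) := by
    calc u ≤ (α ⊔ γ) ⊓ (β ⊔ α) := le_inf h.uac (by rw [sup_comm]; exact h.uab)
      _ ≤ ((α ⊔ γ) ⊓ β) ⊔ α := h1
      _ ≤ (u ⊓ β) ⊔ α := sup_le_sup_right h2 α
      _ = _ := sup_comm _ _
  have h4 : u ⊓ (α ⊔ (u ⊓ β)) ≤ (u ⊓ α) ⊔ (u ⊓ β) :=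
    modular hg h.cu h.ca (h.cu.inf h.cb) inf_le_left
  exact (le_inf le_rfl h3).trans h4

/-- rows: `u ∧ α` commutes with `l` -/
theorem Setup.comm_l (hg : IsGumm σ f p) (h : Setup f p l u α β γ) (a b c : A)
    (hab : (u ⊓ α) a b) (hbc : l b c) : ∃ t, l a t ∧ (u ⊓ α) t c := by
  have h1 : l a (p a b b) := diff hg h.ca h.cb h.cc h.ab h.ac hab.2 (h.ubc hab.1)
  have h2 : l (p a b b) (p a b c) := h.cl.p _ _ _ _ _ _ (l.refl _) (l.refl _) hbc
  have h3 : (u ⊓ α) (p a b c) (p b b c) :=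
    (h.cu.inf h.ca).p _ _ _ _ _ _ hab ((u ⊓ α).refl _) ((u ⊓ α).refl _)
  rw [hg.malt] at h3
  exact ⟨_, l.trans h1 h2, h3⟩

theorem Setup.row (hg : IsGumm σ f p) (h : Setup f p l u α β γ) {a b : A}
    (hab : (l ⊔ (u ⊓ α)) a b) : ∃ t, l a t ∧ (u ⊓ α) t b :=
  sup_of_comm (h.comm_l hg) hab

/-- rows and columns: they commute -/
theorem Setup.comm (hg : IsGumm σ f p) (h : Setup f p l u α β γ) (a b c : A)
    (hab : (l ⊔ (u ⊓ β)) a b) (hbc : (l ⊔ (u ⊓ α)) b c) :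
    ∃ t, (l ⊔ (u ⊓ α)) a t ∧ (l ⊔ (u ⊓ β)) t c := by
  obtain ⟨t1, h1, h2⟩ := h.swap.row hg ((l ⊔ (u ⊓ β)).symm hab)
  obtain ⟨t2, h3, h4⟩ := h.row hg hbc
  obtain ⟨t3, h5, h6⟩ := h.swap.comm_l hg a t1 t2 ((u ⊓ β).symm h2) (l.trans (l.symm h1) h3)
  -- `a l t3 (u ∧ β) t2 (u ∧ α) c`
  have h7 : l t3 (p t3 t2 t2) :=
    diff hg h.cb h.ca h.cc h.swap.ab h.bc h6.2 (h.uac h6.1)
  have h8 : (u ⊓ α) (p t3 t2 t2) (p t3 t2 c) :=
    (h.cu.inf h.ca).p _ _ _ _ _ _ ((u ⊓ α).refl _) ((u ⊓ α).refl _) h4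
  have h9 : (u ⊓ β) (p t3 t2 c) (p t2 t2 c) :=
    (h.cu.inf h.cb).p _ _ _ _ _ _ h6 ((u ⊓ β).refl _) ((u ⊓ β).refl _)
  rw [hg.malt] at h9
  refine ⟨p t3 t2 c, ?_, (le_sup_right : u ⊓ β ≤ l ⊔ (u ⊓ β)) h9⟩
  exact (l ⊔ (u ⊓ α)).trans ((le_sup_left : l ≤ l ⊔ (u ⊓ α)) (l.trans h5 h7))
    ((le_sup_right : u ⊓ α ≤ l ⊔ (u ⊓ α)) h8)

/-- two elements of a class of `u`: there is one in the row of the first and in the column of the
second -/
theorem Setup.rect (hg : IsGumm σ f p) (h : Setup f p l u α β γ) {a b : A} (hab : u a b) :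
    ∃ t, (l ⊔ (u ⊓ α)) a t ∧ (l ⊔ (u ⊓ β)) t b := by
  refine sup_of_comm (l := l ⊔ (u ⊓ α)) (v := l ⊔ (u ⊓ β)) (h.comm hg) ?_
  exact (sup_le_sup le_sup_right le_sup_right : (u ⊓ α) ⊔ (u ⊓ β) ≤ _) (h.u_le hg hab)

end

end Pool.Agent.U422.Gumm
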