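import Pool.Agent.U422.GummGrow

/-!
# Sparse hypergraphs which are unions of relations closed under Gumm operations
-/

set_option autoImplicit false

namespace Pool.Agent.U422.Gumm

open Finset Pool.Agent.R181.Maj Pool.Agent.R181.LW

/-- **Bound** for three coordinates. -/
theorem bound3 {A : Type} [Fintype A] {X : Fin 3 → Type} [∀ i, DecidableEq (X i)]
    (g : ∀ i, A → X i) {m : ℕ} {σ : Fin (m + 1) → Bool} {f : Fin (m + 1) → A → A → A → A}
    {p : A → A → A → A} (hg : IsGumm σ f p) (hc : ∀ i, Cg f p (Setoid.ker (g i))) {s : ℕ}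
    (hs : 1 ≤ s) (hsp : Sp g s) :
    #(univ : Finset A) ^ 2 ≤ (s - 1) ^ 2 * ∏ i, #((univ : Finset A).image (g i)) := by
  classical
  rcases (univ : Finset A).eq_empty_or_nonempty with h0 | hne
  · rw [h0]
    simp
  let θ : Fin 3 → Setoid A := fun i => Setoid.ker (g i)
  have hθ : ∀ i a b, θ i a b ↔ g i a = g i b := fun i a b => Iff.rfl
  let l : Setoid A := (θ 0 ⊓ θ 1) ⊔ ((θ 0 ⊓ θ 2) ⊔ (θ 1 ⊓ θ 2))
  let u : Setoid A := (θ 0 ⊔ θ 1) ⊓ ((θ 0 ⊔ θ 2) ⊓ (θ 1 ⊔ θ 2))
  have h01 : θ 0 ⊓ θ 1 ≤ l := le_sup_left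
  have h02 : θ 0 ⊓ θ 2 ≤ l := le_sup_of_le_right le_sup_left
  have h12 : θ 1 ⊓ θ 2 ≤ l := le_sup_of_le_right le_sup_right
  have hbase : Setup f p l u (θ 0) (θ 1) (θ 2) := by
    refine ⟨hc 0, hc 1, hc 2, ?_, ?_, h01, h02, h12, ?_, inf_le_left,
      inf_le_right.trans inf_le_left, inf_le_right.trans inf_le_right, ?_⟩
    · exact ((hc 0).inf (hc 1)).sup (((hc 0).inf (hc 2)).sup ((hc 1).inf (hc 2)))
    · exact ((hc 0).sup (hc 1)).inf (((hc 0).sup (hc 2)).inf ((hc 1).sup (hc 2)))
    · refine sup_le ?_ (sup_le ?_ ?_)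
      · exact le_inf (inf_le_left.trans le_sup_left)
          (le_inf (inf_le_left.trans le_sup_left) (inf_le_right.trans le_sup_left))
      · exact le_inf (inf_le_left.trans le_sup_left)
          (le_inf (inf_le_left.trans le_sup_left) (inf_le_right.trans le_sup_right))
      · exact le_inf (inf_le_left.trans le_sup_right)
          (le_inf (inf_le_right.trans le_sup_right) (inf_le_right.trans le_sup_right))
    · rw [inf_assoc]
  have hset : ∀ i j : Fin 3, i ≠ j → ∃ k, Setup f p l u (θ i) (θ j) (θ k) := by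
    intro i j hij
    fin_cases i <;> fin_cases j
    · exact absurd rfl hij
    · exact ⟨2, hbase⟩
    · exact ⟨1, hbase.rot.rot.swap⟩
    · exact ⟨2, hbase.swap⟩
    · exact absurd rfl hij
    · exact ⟨0, hbase.rot⟩
    · exact ⟨1, hbase.rot.rot⟩
    · exact ⟨0, hbase.rot.swap⟩
    · exact absurd rfl hij
  have hl : ∀ a b, l a b ↔ Relation.EqvGen (Share g) a b := by
    intro a b
    constructor
    · intro h
      let w : Setoid A := Relation.EqvGen.setoid (Share g)
      have hw : l ≤ w := by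
        refine sup_le ?_ (sup_le ?_ ?_)
        · intro x y hxy
          exact Relation.EqvGen.rel _ _ ⟨0, 1, by decide, hxy.1, hxy.2⟩
        · intro x y hxy
          exact Relation.EqvGen.rel _ _ ⟨0, 2, by decide, hxy.1, hxy.2⟩
        · intro x y hxy
          exact Relation.EqvGen.rel _ _ ⟨1, 2, by decide, hxy.1, hxy.2⟩
      exact hw h
    · intro h
      induction h with
      | rel a b h =>
        obtain ⟨i, j, hij, h1, h2⟩ := h
        fin_cases i <;> fin_cases j
        · exact absurd rfl hij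
        · exact h01 ⟨h1, h2⟩
        · exact h02 ⟨h1, h2⟩
        · exact h01 ⟨h2, h1⟩
        · exact absurd rfl hij
        · exact h12 ⟨h1, h2⟩
        · exact h02 ⟨h2, h1⟩
        · exact h12 ⟨h2, h1⟩
        · exact absurd rfl hij
      | refl a => exact l.refl a
      | symm a b _ ih => exact l.symm ih
      | trans a b c _ _ ih1 ih2 => exact l.trans ih1 ih2
  have hclass : ∀ x₀ : A, #(univ.filter fun y => u x₀ y) ≤ s - 1 := by
    intro x₀
    have h1 := class_small hg θ hθ hset hl hs hsp (univ.filter fun y => u x₀ y)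
      ⟨x₀, mem_filter.2 ⟨mem_univ _, u.refl x₀⟩⟩ (by
        intro a ha b
        have ha' := (mem_filter.1 ha).2
        rw [mem_filter]
        exact ⟨fun h => u.trans (u.symm ha') h.2, fun h => ⟨mem_univ _, u.trans ha' h⟩⟩)
    omega
  let ψ : Fin 3 → Setoid A := ![θ 1 ⊔ θ 2, θ 0 ⊔ θ 2, θ 0 ⊔ θ 1]
  let Φ : A → ∀ k, Quotient (ψ k) := fun x k => Quotient.mk _ x
  have hΦ : ∀ x y k, Φ x k = Φ y k ↔ ψ k x y := fun x y k => Quotient.eq
  have h1 : #(univ : Finset A) ≤ (s - 1) * #(univ.image Φ) := by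
    refine card_le_mul_card_image_of_maps_to (f := Φ) (fun x hx => mem_image_of_mem _ hx) _ ?_
    intro b hb
    obtain ⟨x₀, -, rfl⟩ := mem_image.1 hb
    refine le_trans (card_le_card ?_) (hclass x₀)
    intro y hy
    rw [mem_filter] at hy ⊢
    refine ⟨mem_univ _, u.symm ⟨?_, ?_, ?_⟩⟩
    · exact (hΦ y x₀ 2).1 (congrFun hy.2 2)
    · exact (hΦ y x₀ 1).1 (congrFun hy.2 1)
    · exact (hΦ y x₀ 0).1 (congrFun hy.2 0)
  have hneA : (univ.image Φ).Nonempty := hne.image Φ
  have h2 := loomisWhitney 2 (fun k => Quotient (ψ k)) (univ.image Φ) hneA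
  have h3 : ∀ i : Fin 3, #((univ.image Φ).image fun x => i.removeNth x) ≤
      #((univ : Finset A).image (g i)) := by
    intro i
    rw [image_image]
    refine card_image_le_of_factor (univ : Finset A) (g i) _ ?_
    intro x _ y _ hxy
    funext k
    show Φ x (i.succAbove k) = Φ y (i.succAbove k)
    rw [hΦ]
    have h4 : θ i ≤ ψ (i.succAbove k) := by
      fin_cases i <;> fin_cases k
      · exact le_sup_left
      · exact le_sup_left
      · exact le_sup_left
      · exact le_sup_right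
      · exact le_sup_right
      · exact le_sup_right
    exact h4 hxy
  calc #(univ : Finset A) ^ 2 ≤ ((s - 1) * #(univ.image Φ)) ^ 2 := Nat.pow_le_pow_left h1 _
    _ = (s - 1) ^ 2 * #(univ.image Φ) ^ 2 := mul_pow _ _ _
    _ ≤ (s - 1) ^ 2 * ∏ i : Fin 3, #((univ.image Φ).image fun x => i.removeNth x) :=
        Nat.mul_le_mul_left _ h2
    _ ≤ _ := Nat.mul_le_mul_left _ (prod_le_prod' fun i _ => h3 i)

/-- `F` is a relation between `r` pairwise disjoint sets of vertices, closed under componentwise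
application of Gumm operations on these sets. -/
def GummPiece {V : Type} (r : ℕ) (F : Set (Finset V)) : Prop :=
  ∃ (X : Fin r → Type) (v : (Σ i, X i) → V) (E : Set (∀ i, X i)) (m : ℕ)
    (σ : Fin (m + 1) → Bool) (f : ∀ i, Fin (m + 1) → X i → X i → X i → X i)
    (p : ∀ i, X i → X i → X i → X i), (∀ i, IsGumm σ (f i) (p i)) ∧ Function.Injective v ∧
    (∀ j, ∀ x ∈ E, ∀ y ∈ E, ∀ z ∈ E, (fun i => f i j (x i) (y i) (z i)) ∈ E) ∧
    (∀ x ∈ E, ∀ y ∈ E, ∀ z ∈ E, (fun i => p i (x i) (y i) (z i)) ∈ E) ∧ F = edge v '' E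

/-- three of `k + 3` numbers in cyclic order have a sum which is at most three times the average -/
theorem exists_small_triple (k : ℕ) (x : Fin (k + 3) → ℕ) :
    ∃ ι : Fin 3 → Fin (k + 3), Function.Injective ι ∧
      (k + 3) * ∑ j, x (ι j) ≤ 3 * ∑ i, x i := by
  have h1 : ∀ c : Fin (k + 3), ∑ i, x (i + c) = ∑ i, x i := fun c =>
    Equiv.sum_comp (Equiv.addRight c) x
  have h2 : ∑ i : Fin (k + 3), (k + 3) * (x i + x (i + 1) + x (i + 2)) =
      ∑ _i : Fin (k + 3), 3 * ∑ i, x i := by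
    rw [← mul_sum, sum_add_distrib, sum_add_distrib, h1, h1, sum_const, card_univ,
      Fintype.card_fin, smul_eq_mul]
    ring
  obtain ⟨i, -, hi⟩ := exists_le_of_sum_le (univ_nonempty (α := Fin (k + 3))) h2.le
  refine ⟨![i, i + 1, i + 2], ?_, ?_⟩
  · have e1 : (1 : Fin (k + 3)) ≠ 0 := by
      rw [Ne, Fin.ext_iff]
      simp
    have e2 : (2 : Fin (k + 3)) ≠ 0 := by
      rw [Ne, Fin.ext_iff]
      simp [Nat.mod_eq_of_lt (show 2 < k + 3 by omega)]
    have e3 : (2 : Fin (k + 3)) ≠ 1 := by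
      rw [Ne, Fin.ext_iff]
      simp [Nat.mod_eq_of_lt (show 2 < k + 3 by omega)]
    intro a b hab
    fin_cases a <;> fin_cases b <;> simp_all
  · rw [Fin.sum_univ_three]
    exact hi

theorem piece_le {V : Type} [Fintype V] {r e : ℕ} (hr : 3 ≤ r) (he : 1 ≤ e) {H : Set (Finset V)}
    (hH : SpanMore H e ((r - 2) * e + 3)) {F : Set (Finset V)} (hF : GummPiece r F)
    (hFH : F ⊆ H) :
    r ^ 3 * F.ncard ^ 2 ≤ (e - 1) ^ 2 * Fintype.card V ^ 3 := by
  classical
  obtain ⟨k, rfl⟩ : ∃ k, r = k + 3 := ⟨r - 3, by omega⟩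
  obtain ⟨X, v, E, m, σ, f, p, hg, hv, hEf, hEp, rfl⟩ := hF
  have hfi : ∀ i, Function.Injective fun a : X i => v ⟨i, a⟩ := fun i a b hab =>
    eq_of_heq (Sigma.mk.inj (hv hab)).2
  have : ∀ i, Finite (X i) := fun i => Finite.of_injective _ (hfi i)
  let _ : ∀ i, Fintype (X i) := fun i => Fintype.ofFinite (X i)
  obtain ⟨ι, hι, hsum⟩ := exists_small_triple k fun i => Fintype.card (X i)
  let A := {x // x ∈ E}
  let _ : Fintype A := Fintype.ofFinite A
  let g : ∀ j : Fin 3, A → X (ι j) := fun j x => x.1 (ι j)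
  let fA : Fin (m + 1) → A → A → A → A := fun j x y z =>
    ⟨fun i => f i j (x.1 i) (y.1 i) (z.1 i), hEf j _ x.2 _ y.2 _ z.2⟩
  let pA : A → A → A → A := fun x y z =>
    ⟨fun i => p i (x.1 i) (y.1 i) (z.1 i), hEp _ x.2 _ y.2 _ z.2⟩
  have hgA : IsGumm σ fA pA := by
    refine ⟨?_, ?_, ?_, ?_, ?_⟩
    · intro j x y
      exact Subtype.ext (funext fun i => (hg i).mid j _ _)
    · intro x y
      refine Subtype.ext (funext fun i => ?_)
      have := (hg i).start (x.1 i) (y.1 i)
      unfold lo at this ⊢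
      split_ifs at this ⊢ with h
      · exact this
      · exact this
    · intro j x y
      refine Subtype.ext (funext fun i => ?_)
      have := (hg i).step j (x.1 i) (y.1 i)
      unfold lo hi at this ⊢
      split_ifs at this ⊢ with h h'
      · exact this
      · exact this
      · exact this
      · exact this
    · intro x y
      refine Subtype.ext (funext fun i => ?_)
      have := (hg i).last (x.1 i) (y.1 i)
      unfold hi at this ⊢
      split_ifs at this ⊢ with h
      · exact this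
      · exact this
    · intro x y
      exact Subtype.ext (funext fun i => (hg i).malt _ _)
  have hc : ∀ j, Cg fA pA (Setoid.ker (g j)) := by
    intro j
    refine ⟨fun i => ?_, ?_⟩
    · intro a a' b b' c c' h1 h2 h3
      rw [Setoid.ker_def] at *
      show f (ι j) i (a.1 (ι j)) (b.1 (ι j)) (c.1 (ι j)) =
        f (ι j) i (a'.1 (ι j)) (b'.1 (ι j)) (c'.1 (ι j))
      have e1 : a.1 (ι j) = a'.1 (ι j) := h1
      have e2 : b.1 (ι j) = b'.1 (ι j) := h2
      have e3 : c.1 (ι j) = c'.1 (ι j) := h3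
      rw [e1, e2, e3]
    · intro a a' b b' c c' h1 h2 h3
      rw [Setoid.ker_def] at *
      show p (ι j) (a.1 (ι j)) (b.1 (ι j)) (c.1 (ι j)) =
        p (ι j) (a'.1 (ι j)) (b'.1 (ι j)) (c'.1 (ι j))
      have e1 : a.1 (ι j) = a'.1 (ι j) := h1
      have e2 : b.1 (ι j) = b'.1 (ι j) := h2
      have e3 : c.1 (ι j) = c'.1 (ι j) := h3
      rw [e1, e2, e3]
  have hsp : Sp g e := by
    intro T hTe
    have h1 := hH ((T.map (Function.Embedding.subtype _)).image (edge v)) (by
      rw [coe_image]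
      intro a ha
      obtain ⟨x, hx, rfl⟩ := ha
      obtain ⟨y, -, rfl⟩ := mem_map.1 (mem_coe.1 hx)
      exact hFH ⟨_, y.2, rfl⟩)
      (by rw [card_image_of_injective _ (edge_injective hv), card_map, hTe])
    rw [union_eq hv] at h1
    have h2 : ∀ i, #((T.map (Function.Embedding.subtype _)).image fun x : ∀ i, X i => x i) ≤ e := by
      intro i
      refine card_image_le.trans ?_
      rw [card_map, hTe]
    have h3 : ∀ j, (T.map (Function.Embedding.subtype _)).image (fun x : ∀ i, X i => x (ι j)) =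
        T.image (g j) := by
      intro j
      rw [map_eq_image, image_image]
      rfl
    have h4 : ∑ i, #((T.map (Function.Embedding.subtype _)).image fun x : ∀ i, X i => x i) ≤
        spn g T + k * e := by
      have h5 : (univ : Finset (Fin (k + 3))) = univ.map ⟨ι, hι⟩ ∪ (univ.map ⟨ι, hι⟩)ᶜ :=
        (union_compl _).symm
      rw [h5, sum_union disjoint_compl_right, sum_map]
      refine add_le_add ?_ ?_
      · unfold spn
        refine sum_le_sum fun j _ => ?_
        have := h3 j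
        simp only [Function.Embedding.coeFn_mk]
        rw [this]
      · refine (sum_le_card_nsmul _ _ e fun i _ => h2 i).trans ?_
        rw [card_compl, card_map, Fintype.card_fin, card_univ, Fintype.card_fin, smul_eq_mul]
        exact le_of_eq (by congr 1)
    have h6 : (k + 3 - 2) * e + 3 = k * e + (e + 3) := by
      have : k + 3 - 2 = k + 1 := by omega
      rw [this]
      ring
    rw [h6] at h1
    omega
  have h := bound3 g hgA hc he hsp
  have h1 : (edge v '' E).ncard = #(univ : Finset A) := by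
    rw [Set.ncard_image_of_injective _ (edge_injective hv), card_univ, ← Nat.card_eq_fintype_card]
    rfl
  rw [h1]
  have h3 : ∏ j, #((univ : Finset A).image (g j)) ≤ ∏ j, Fintype.card (X (ι j)) :=
    prod_le_prod' fun i _ => card_le_univ _
  have h4 := amgm (univ : Finset (Fin 3)) univ_nonempty fun j => Fintype.card (X (ι j))
  rw [card_univ, Fintype.card_fin] at h4
  have h5 : ∑ i, Fintype.card (X i) ≤ Fintype.card V := by
    rw [← Fintype.card_sigma]
    exact Fintype.card_le_of_injective v hv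
  have h6 : (k + 3) ^ 3 * ∏ j, Fintype.card (X (ι j)) ≤ Fintype.card V ^ 3 := by
    have h7 : 3 ^ 3 * ((k + 3) ^ 3 * ∏ j, Fintype.card (X (ι j))) ≤
        3 ^ 3 * Fintype.card V ^ 3 := by
      calc 3 ^ 3 * ((k + 3) ^ 3 * ∏ j, Fintype.card (X (ι j)))
          = (k + 3) ^ 3 * (3 ^ 3 * ∏ j, Fintype.card (X (ι j))) := by ring
        _ ≤ (k + 3) ^ 3 * (∑ j, Fintype.card (X (ι j))) ^ 3 := Nat.mul_le_mul_left _ h4
        _ = ((k + 3) * ∑ j, Fintype.card (X (ι j))) ^ 3 := by ring
        _ ≤ (3 * ∑ i, Fintype.card (X i)) ^ 3 := Nat.pow_le_pow_left hsum _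
        _ = 3 ^ 3 * (∑ i, Fintype.card (X i)) ^ 3 := by ring
        _ ≤ _ := Nat.mul_le_mul_left _ (Nat.pow_le_pow_left h5 _)
    exact Nat.le_of_mul_le_mul_left h7 (by norm_num)
  calc (k + 3) ^ 3 * #(univ : Finset A) ^ 2
      ≤ (k + 3) ^ 3 * ((e - 1) ^ 2 * ∏ j, Fintype.card (X (ι j))) :=
        Nat.mul_le_mul_left _ (h.trans (Nat.mul_le_mul_left _ h3))
    _ = (e - 1) ^ 2 * ((k + 3) ^ 3 * ∏ j, Fintype.card (X (ι j))) := by ring
    _ ≤ _ := Nat.mul_le_mul_left _ h6

end Pool.Agent.U422.Gumm
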