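import Pool.Agent.U422.Gumm

/-!
# Classes of a sparse triple system with Gumm operations are small
-/

set_option autoImplicit false

namespace Pool.Agent.U422.Gumm

open Finset Pool.Agent.R181.Maj

/-- counting with rows -/
theorem count_rows {κ τ V : Type*} [DecidableEq κ] [DecidableEq τ] [DecidableEq V] (C : Finset κ)
    (S : κ → Finset V) (ρ : κ → τ) (h : ∀ c ∈ C, ∀ c' ∈ C, ρ c = ρ c' → S c = S c')
    (hne : ∀ c ∈ C, (S c).Nonempty) :
    #(C.biUnion S) + #C ≤ ∑ c ∈ C, #(S c) + #(C.image ρ) := by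
  induction C using Finset.induction_on with
  | empty => simp
  | insert a C ha ih =>
    have h1 := ih (fun c hc c' hc' => h c (mem_insert_of_mem hc) c' (mem_insert_of_mem hc'))
      (fun c hc => hne c (mem_insert_of_mem hc))
    rw [biUnion_insert, sum_insert ha, image_insert, card_insert_of_notMem ha]
    have h2 := card_pos.2 (hne a (mem_insert_self a C))
    by_cases h3 : ρ a ∈ C.image ρ
    · obtain ⟨c, hc, hca⟩ := mem_image.1 h3
      have h4 : S a ⊆ C.biUnion S := by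
        rw [← h c (mem_insert_of_mem hc) a (mem_insert_self a C) hca]
        exact subset_biUnion_of_mem S hc
      rw [union_eq_right.2 h4, insert_eq_of_mem h3]
      omega
    · rw [card_insert_of_notMem h3]
      have := card_union_le (S a) (C.biUnion S)
      omega

theorem latin_arith {N q0 q1 q2 : ℕ} (h0 : 1 ≤ q0) (h1 : 1 ≤ q1) (h2 : 1 ≤ q2)
    (h01 : q0 * q1 ≤ N) (h12 : q1 * q2 ≤ N) (h02 : q0 * q2 ≤ N) : q0 + q1 + q2 ≤ N + 2 := by
  obtain ⟨a, rfl⟩ := Nat.exists_eq_add_of_le h0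
  obtain ⟨b, rfl⟩ := Nat.exists_eq_add_of_le h1
  obtain ⟨c, rfl⟩ := Nat.exists_eq_add_of_le h2
  rcases Nat.eq_zero_or_pos a with ha | ha
  · subst ha; nlinarith
  rcases Nat.eq_zero_or_pos b with hb | hb
  · subst hb; nlinarith
  rcases le_total a c with hac | hac
  · nlinarith
  · nlinarith

section Grow

variable {A : Type} {X : Fin 3 → Type} [∀ i, DecidableEq (X i)] (g : ∀ i, A → X i)

/-- the three vertices of an element -/
def vs (a : A) : Finset (Σ i, X i) := univ.image fun i => ⟨i, g i a⟩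

theorem mem_vs {a : A} {i : Fin 3} {x : X i} : (⟨i, x⟩ : Σ i, X i) ∈ vs g a ↔ g i a = x := by
  unfold vs
  rw [mem_image]
  constructor
  · rintro ⟨j, -, hj⟩
    cases hj
    rfl
  · rintro rfl
    exact ⟨i, mem_univ _, rfl⟩

theorem biUnion_vs (T : Finset A) :
    T.biUnion (vs g) = (univ : Finset (Fin 3)).sigma fun i => T.image (g i) := by
  ext ⟨i, x⟩
  rw [mem_biUnion, mem_sigma, mem_image]
  constructor
  · rintro ⟨a, ha, h⟩
    exact ⟨mem_univ _, a, ha, (mem_vs g).1 h⟩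
  · rintro ⟨-, a, ha, h⟩
    exact ⟨a, ha, (mem_vs g).2 h⟩

theorem card_biUnion_vs (T : Finset A) : #(T.biUnion (vs g)) = spn g T := by
  rw [biUnion_vs, card_sigma]
  rfl

/-- the elements of `C` all of whose vertices are in `W` -/
def ins (C : Finset A) (W : Finset (Σ i, X i)) : Finset A := C.filter fun a => vs g a ⊆ W

theorem mem_ins {C : Finset A} {W : Finset (Σ i, X i)} {a : A} :
    a ∈ ins g C W ↔ a ∈ C ∧ vs g a ⊆ W := by
  unfold ins
  exact mem_filter

/-- Any `s` elements have more than `s + 3` vertices. -/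
def Sp (s : ℕ) : Prop := ∀ T : Finset A, #T = s → s + 3 < spn g T

variable {g}

theorem Sp.small {s : ℕ} (h : Sp g s) (C : Finset A) {W : Finset (Σ i, X i)} (hW : #W ≤ s + 3) :
    #(ins g C W) < s := by
  by_contra hcon
  push Not at hcon
  obtain ⟨T, hT, hTs⟩ := exists_subset_card_eq hcon
  have h1 := h T hTs
  rw [← card_biUnion_vs] at h1
  have h2 : T.biUnion (vs g) ⊆ W := by
    intro v hv
    obtain ⟨a, ha, hva⟩ := mem_biUnion.1 hv
    exact ((mem_ins g).1 (hT ha)).2 hva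
  have := card_le_card h2
  omega

/-- **Count** for a union `D` of tight components which is closed in the sense of rows and
columns. -/
theorem closed_count [Fintype A] {D : Finset A} (hD : D.Nonempty) (l : Setoid A)
    (ρ : Fin 3 → Setoid A) (hl : ∀ a b, l a b ↔ Relation.EqvGen (Share g) a b)
    (hlρ : ∀ i, l ≤ ρ i) (hDl : ∀ a ∈ D, ∀ b, l a b → b ∈ D)
    (hrow : ∀ i a b, ρ i a b → ∃ t, l a t ∧ g i t = g i b)
    (hrect : ∀ i j, i ≠ j → ∀ a ∈ D, ∀ b ∈ D, ∃ t ∈ D, ρ i a t ∧ ρ j t b) :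
    #(D.biUnion (vs g)) ≤ #D + 2 := by
  classical
  set mk : A → Quotient l := Quotient.mk l with hmk
  have hmk' : ∀ a b, mk a = mk b ↔ l a b := fun a b => Quotient.eq
  set cls := D.image mk with hcls
  let V : ∀ i, Quotient l → Finset (X i) := fun i c => (D.filter fun a => mk a = c).image (g i)
  let R : ∀ i, Quotient l → Quotient (ρ i) := fun i c => Quotient.mk (ρ i) c.out
  have hR : ∀ i a, R i (mk a) = Quotient.mk (ρ i) a := by
    intro i a
    refine Quotient.sound ?_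
    exact hlρ i (Quotient.exact (Quotient.out_eq (mk a)))
  have hR' : ∀ i a b, R i (mk a) = R i (mk b) ↔ ρ i a b := by
    intro i a b
    rw [hR, hR]
    exact Quotient.eq
  have hVeq : ∀ i a b, a ∈ D → b ∈ D → ρ i a b → V i (mk a) ⊆ V i (mk b) := by
    intro i a b ha hb hab x hx
    obtain ⟨d, hd, rfl⟩ := mem_image.1 hx
    obtain ⟨hdD, hda⟩ := mem_filter.1 hd
    have h1 : ρ i b d := (ρ i).trans ((ρ i).symm hab) (hlρ i (l.symm ((hmk' d a).1 hda)))
    obtain ⟨t, ht1, ht2⟩ := hrow i b d h1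
    refine mem_image.2 ⟨t, mem_filter.2 ⟨hDl b hb t ht1, (hmk' t b).2 (l.symm ht1)⟩, ht2⟩
  have h1 : ∀ i, #(D.image (g i)) + #(cls) ≤ ∑ c ∈ cls, #(V i c) + #(cls.image (R i)) := by
    intro i
    have h2 := count_rows cls (V i) (R i) ?_ ?_
    · refine le_trans (Nat.add_le_add_right (card_le_card ?_) _) h2
      intro x hx
      obtain ⟨a, ha, rfl⟩ := mem_image.1 hx
      exact mem_biUnion.2 ⟨mk a, mem_image_of_mem mk ha,
        mem_image.2 ⟨a, mem_filter.2 ⟨ha, rfl⟩, rfl⟩⟩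
    · intro c hc c' hc' hcc
      obtain ⟨a, ha, rfl⟩ := mem_image.1 hc
      obtain ⟨b, hb, rfl⟩ := mem_image.1 hc'
      have h3 := (hR' i a b).1 hcc
      exact subset_antisymm (hVeq i a b ha hb h3) (hVeq i b a hb ha ((ρ i).symm h3))
    · intro c hc
      obtain ⟨a, ha, rfl⟩ := mem_image.1 hc
      exact ⟨g i a, mem_image.2 ⟨a, mem_filter.2 ⟨ha, rfl⟩, rfl⟩⟩
  have h2 : ∀ c ∈ cls, ∑ i, #(V i c) ≤ #(D.filter fun a => mk a = c) + 2 := by
    intro c hc
    obtain ⟨a, ha, rfl⟩ := mem_image.1 hc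
    set Cl := D.filter fun b => mk b = mk a with hCl
    have haC : a ∈ Cl := mem_filter.2 ⟨ha, rfl⟩
    obtain ⟨T, hT, hTe, hsp⟩ := growth (by norm_num : 2 ≤ 3) g a Cl (fun y => by
      rw [hCl, mem_filter, hmk', ← hl]
      constructor
      · rintro ⟨-, h⟩
        exact l.symm h
      · intro h
        exact ⟨hDl a ha y h, l.symm h⟩) (#Cl) (card_pos.2 ⟨a, haC⟩) le_rfl
    have hTC : T = Cl := eq_of_subset_of_card_le hT hTe.ge
    rw [hTC] at hsp
    have h3 : (3 - 2) * #Cl + 2 = #Cl + 2 := by norm_num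
    rw [h3] at hsp
    exact hsp
  have h3 : ∑ c ∈ cls, #(D.filter fun a => mk a = c) = #D :=
    (card_eq_sum_card_fiberwise (f := mk) (s := D) (t := cls)
      fun a ha => mem_coe.2 (mem_image_of_mem mk ha)).symm
  have h4 : ∑ c ∈ cls, ∑ i, #(V i c) ≤ #D + 2 * #(cls) := by
    calc _ ≤ ∑ c ∈ cls, (#(D.filter fun a => mk a = c) + 2) := sum_le_sum h2
      _ = #D + 2 * #(cls) := by
        rw [sum_add_distrib, h3, sum_const, smul_eq_mul]
        ring
  rw [sum_comm] at h4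
  have hq : ∀ i j, i ≠ j → #(cls.image (R i)) * #(cls.image (R j)) ≤ #(cls) := by
    intro i j hij
    rw [← card_product]
    refine le_trans (card_le_card ?_) (card_image_le (f := fun c => (R i c, R j c)) (s := cls))
    rintro ⟨x, y⟩ hxy
    obtain ⟨hx, hy⟩ := mem_product.1 hxy
    obtain ⟨c, hc, rfl⟩ := mem_image.1 hx
    obtain ⟨c', hc', rfl⟩ := mem_image.1 hy
    obtain ⟨a, ha, rfl⟩ := mem_image.1 hc
    obtain ⟨b, hb, rfl⟩ := mem_image.1 hc'
    obtain ⟨t, ht, h5, h6⟩ := hrect i j hij a ha b hb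
    refine mem_image.2 ⟨mk t, mem_image_of_mem mk ht, ?_⟩
    rw [Prod.mk.injEq]
    exact ⟨(hR' i t a).2 ((ρ i).symm h5), (hR' j t b).2 h6⟩
  have hq1 : ∀ i, 1 ≤ #(cls.image (R i)) := by
    intro i
    exact card_pos.2 ((hD.image mk).image (R i))
  have h5 := latin_arith (hq1 0) (hq1 1) (hq1 2) (hq 0 1 (by decide)) (hq 1 2 (by decide))
    (hq 0 2 (by decide))
  have h6 := h1 0
  have h7 := h1 1
  have h8 := h1 2
  rw [Fin.sum_univ_three] at h4
  rw [card_biUnion_vs, spn, Fin.sum_univ_three]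
  omega

/-- **A class of `u` has less than `s` elements.** -/
theorem class_small [Fintype A] {m : ℕ} {σ : Fin (m + 1) → Bool}
    {f : Fin (m + 1) → A → A → A → A} {p : A → A → A → A} (hg : IsGumm σ f p)
    (θ : Fin 3 → Setoid A) (hθ : ∀ i a b, θ i a b ↔ g i a = g i b) {l u : Setoid A}
    (hset : ∀ i j, i ≠ j → ∃ k, Setup f p l u (θ i) (θ j) (θ k))
    (hl : ∀ a b, l a b ↔ Relation.EqvGen (Share g) a b) {s : ℕ} (hs : 1 ≤ s) (hsp : Sp g s)
    (C : Finset A) (hC : C.Nonempty) (hCu : ∀ a ∈ C, ∀ b, b ∈ C ↔ u a b) : #C < s := by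
  classical
  obtain ⟨a₀, ha₀⟩ := hC
  have hu : ∀ a ∈ C, ∀ b ∈ C, u a b := fun a ha b hb => (hCu a ha b).1 hb
  obtain ⟨k, hset01⟩ := hset 0 1 (by decide)
  have hlu : l ≤ u := hset01.lu
  -- good sets of vertices
  let P : Finset (Σ i, X i) → Prop := fun W =>
    W ⊆ C.biUnion (vs g) ∧ W ⊆ (ins g C W).biUnion (vs g) ∧ (ins g C W).Nonempty ∧
      #W ≤ #(ins g C W) + 3 ∧ #W ≤ s + 2
  have hmono : ∀ {W W' : Finset (Σ i, X i)}, W ⊆ W' → ins g C W ⊆ ins g C W' := by
    intro W W' h a ha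
    rw [mem_ins] at ha ⊢
    exact ⟨ha.1, ha.2.trans h⟩
  have hP0 : P (vs g a₀) := by
    have h1 : a₀ ∈ ins g C (vs g a₀) := (mem_ins g).2 ⟨ha₀, subset_rfl⟩
    have h2 : #(vs g a₀) ≤ 3 := by
      unfold vs
      exact card_image_le.trans (by simp)
    have h3 := card_pos.2 ⟨a₀, h1⟩
    refine ⟨subset_biUnion_of_mem (vs g) ha₀, subset_biUnion_of_mem (vs g) h1, ⟨a₀, h1⟩, ?_, ?_⟩
    · omega
    · omega
  obtain ⟨W, hW, hmax⟩ := exists_max_image ((C.biUnion (vs g)).powerset.filter P) card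
    ⟨vs g a₀, mem_filter.2 ⟨mem_powerset.2 hP0.1, hP0⟩⟩
  obtain ⟨-, hWC, hcov, hne, hW3, hWs⟩ := mem_filter.1 hW
  -- adding an element
  have hadd : ∀ b ∈ C, ¬ vs g b ⊆ W → #(W ∪ vs g b) ≤ s + 3 →
      #(W ∪ vs g b) ≤ #(ins g C W) + 4 → False := by
    intro b hb hbW h1 h2
    have h3 : insert b (ins g C W) ⊆ ins g C (W ∪ vs g b) := by
      refine insert_subset_iff.2 ⟨(mem_ins g).2 ⟨hb, subset_union_right⟩, hmono subset_union_left⟩
    have h4 := card_le_card h3
    rw [card_insert_of_notMem (fun h => hbW ((mem_ins g).1 h).2)] at h4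
    have h5 := hsp.small C h1
    have h6 : #W < #(W ∪ vs g b) := by
      refine card_lt_card (Finset.ssubset_iff_subset_ne.2 ⟨subset_union_left, fun h => hbW ?_⟩)
      rw [h]
      exact subset_union_right
    have h7 : P (W ∪ vs g b) := by
      refine ⟨union_subset hWC (subset_biUnion_of_mem (vs g) hb), ?_, ?_, by omega, by omega⟩
      · refine union_subset (hcov.trans (biUnion_subset_biUnion_of_subset_left _
          (hmono subset_union_left))) ?_
        exact subset_biUnion_of_mem (vs g) ((mem_ins g).2 ⟨hb, subset_union_right⟩)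
      · exact ⟨b, (mem_ins g).2 ⟨hb, subset_union_right⟩⟩
    have h8 := hmax _ (mem_filter.2 ⟨mem_powerset.2 h7.1, h7⟩)
    omega
  have hcard : ∀ (b : A) (I : Finset (Fin 3)), (∀ i ∈ I, (⟨i, g i b⟩ : Σ i, X i) ∈ W) →
      #(W ∪ vs g b) + #I ≤ #W + 3 := by
    intro b I hI
    have h1 : W ∪ vs g b ⊆ W ∪ (Iᶜ).image fun i => (⟨i, g i b⟩ : Σ i, X i) := by
      refine union_subset subset_union_left ?_
      rintro ⟨i, x⟩ hv
      have := (mem_vs g).1 hv
      subst this
      by_cases hi : i ∈ I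
      · exact mem_union_left _ (hI i hi)
      · exact mem_union_right _ (mem_image.2 ⟨i, mem_compl.2 hi, rfl⟩)
    have h2 := (card_le_card h1).trans (card_union_le _ _)
    have h3 : #((Iᶜ).image fun i => (⟨i, g i b⟩ : Σ i, X i)) ≤ #(Iᶜ) := card_image_le
    rw [card_compl, Fintype.card_fin] at h3
    have h4 : #I ≤ 3 := (card_le_univ I).trans (by simp)
    omega
  have hclosed : ∀ b ∈ C, ∀ i j, i ≠ j → (⟨i, g i b⟩ : Σ i, X i) ∈ W →
      (⟨j, g j b⟩ : Σ i, X i) ∈ W → b ∈ ins g C W := by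
    intro b hb i j hij hi hj
    by_contra hcon
    have hbW : ¬ vs g b ⊆ W := fun h => hcon ((mem_ins g).2 ⟨hb, h⟩)
    have h1 := hcard b {i, j} (by
      intro k hk
      rw [mem_insert, mem_singleton] at hk
      rcases hk with rfl | rfl
      · exact hi
      · exact hj)
    rw [card_pair hij] at h1
    exact hadd b hb hbW (by omega) (by omega)
  set D := ins g C W with hD
  have hDC : D ⊆ C := fun a ha => ((mem_ins g).1 ha).1
  have hDW : ∀ a ∈ D, ∀ i, (⟨i, g i a⟩ : Σ i, X i) ∈ W := fun a ha i =>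
    ((mem_ins g).1 ha).2 ((mem_vs g).2 rfl)
  have hDl : ∀ a ∈ D, ∀ b, l a b → b ∈ D := by
    intro a ha b hab
    have h1 : ∀ a b, Relation.EqvGen (Share g) a b → (a ∈ D ↔ b ∈ D) := by
      intro a b hab
      have hstep : ∀ a b, Share g a b → a ∈ D → b ∈ D := by
        intro a b hab ha
        have hb : b ∈ C := (hCu a (hDC ha) b).2 (hlu ((hl a b).2 (Relation.EqvGen.rel _ _ hab)))
        obtain ⟨i, j, hij, h1, h2⟩ := hab
        refine hclosed b hb i j hij ?_ ?_
        · rw [← h1]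
          exact hDW a ha i
        · rw [← h2]
          exact hDW a ha j
      induction hab with
      | rel a b h =>
        refine ⟨hstep a b h, hstep b a ?_⟩
        obtain ⟨i, j, hij, hi, hj⟩ := h
        exact ⟨i, j, hij, hi.symm, hj.symm⟩
      | refl a => exact Iff.rfl
      | symm a b _ ih => exact ih.symm
      | trans a b c _ _ ih1 ih2 => exact ih1.trans ih2
    exact (h1 a b ((hl a b).1 hab)).1 ha
  by_cases hDall : D = C
  · rw [← hDall]
    exact hsp.small C (by omega)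
  exfalso
  let ρ : Fin 3 → Setoid A := fun i => l ⊔ (u ⊓ θ i)
  have hrow : ∀ i a b, ρ i a b → ∃ t, l a t ∧ (u ⊓ θ i) t b := by
    intro i a b hab
    obtain ⟨j, hj⟩ : ∃ j, i ≠ j := ⟨i + 1, by fin_cases i <;> decide⟩
    obtain ⟨k, hk⟩ := hset i j hj
    exact hk.row hg hab
  have hcount : #(D.biUnion (vs g)) ≤ #D + 2 := by
    refine closed_count hne l ρ hl (fun i => le_sup_left) hDl ?_ ?_
    · intro i a b hab
      obtain ⟨t, ht1, ht2⟩ := hrow i a b hab
      exact ⟨t, ht1, (hθ i t b).1 ht2.2⟩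
    · intro i j hij a ha b hb
      obtain ⟨k, hk⟩ := hset i j hij
      obtain ⟨t, ht1, ht2⟩ := hk.rect hg (hu a (hDC ha) b (hDC hb))
      refine ⟨t, ?_, ht1, ht2⟩
      obtain ⟨t1, h1, h2⟩ := hrow i a t ht1
      obtain ⟨t2, h3, h4⟩ := hrow j b t ((ρ j).symm ht2)
      have htC : t ∈ C := (hCu a (hDC ha) t).2 (u.trans (hlu h1) h2.1)
      refine hclosed t htC i j hij ?_ ?_
      · rw [← (hθ i t1 t).1 h2.2]
        exact hDW t1 (hDl a ha t1 h1) i
      · rw [← (hθ j t2 t).1 h4.2]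
        exact hDW t2 (hDl b hb t2 h3) j
  have hWD : #W ≤ #D + 2 := (card_le_card hcov).trans hcount
  -- a neighbour of `D`
  obtain ⟨b, hbC, hbD, i, hi⟩ : ∃ b ∈ C, b ∉ D ∧ ∃ i, (⟨i, g i b⟩ : Σ i, X i) ∈ W := by
    by_contra hcon
    push Not at hcon
    obtain ⟨a, ha⟩ := hne
    let w : Setoid A := ⟨fun a b => u a b ∧ (a ∈ D ↔ b ∈ D), fun a => ⟨u.refl a, Iff.rfl⟩,
      fun h => ⟨u.symm h.1, h.2.symm⟩, fun h h' => ⟨u.trans h.1 h'.1, h.2.trans h'.2⟩⟩
    have hw : ∀ i, u ⊓ θ i ≤ w := by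
      have hstep : ∀ i a b, (u ⊓ θ i) a b → a ∈ D → b ∈ D := by
        intro i a b hab ha
        by_contra hb
        refine hcon b ((hCu a (hDC ha) b).2 hab.1) hb i ?_
        rw [← (hθ i a b).1 hab.2]
        exact hDW a ha i
      intro i a b hab
      exact ⟨hab.1, hstep i a b hab, hstep i b a ((u ⊓ θ i).symm hab)⟩
    have hw' : u ≤ w := (hset01.u_le hg).trans (sup_le (hw 0) (hw 1))
    refine hDall (subset_antisymm hDC fun c hc => ?_)
    exact (hw' (hu a (hDC ha) c hc)).2.1 ha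
  have hbW : ¬ vs g b ⊆ W := fun h => hbD ((mem_ins g).2 ⟨hbC, h⟩)
  have h1 := hcard b {i} (by
    intro k hk
    rw [mem_singleton] at hk
    subst hk
    exact hi)
  rw [card_singleton] at h1
  have h2 := hsp.small C (W := W) (by omega)
  rw [← hD] at h2
  exact hadd b hbC hbW (by omega) (by omega)

end Grow

end Pool.Agent.U422.Gumm
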