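import Pool.Agent.U422.GummExamples

/-!
# Projections of sets closed under Gumm operations in torsion-free groups
-/

set_option autoImplicit false

namespace Pool.Agent.U422.Kak

open Finset Pool.Agent.R181.Maj Pool.Agent.R181.LW Pool.Agent.U422.Gumm

section Lattice

variable {A ι : Type} [Fintype ι] [DecidableEq ι] (θ : ι → Setoid A)

/-- the join of all `θ j`, `j ≠ i` -/
noncomputable def psi (i : ι) : Setoid A := (univ.erase i).sup θ

variable {θ}

theorem le_psi {i j : ι} (h : j ≠ i) : θ j ≤ psi θ i :=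
  Finset.le_sup (f := θ) (mem_erase.2 ⟨h, mem_univ j⟩)

theorem sup_le_psi {i : ι} {s : Finset ι} (h : i ∉ s) : s.sup θ ≤ psi θ i := by
  refine Finset.sup_le fun j hj => le_psi ?_
  rintro rfl
  exact h hj

/-- if the `θ i` are independent, then `⋀ ψ i = 0` -/
theorem eq_of_psi (hmod : ∀ i (s : Finset ι), i ∉ s → psi θ i ⊓ (θ i ⊔ s.sup θ) ≤ s.sup θ)
    (i₀ : ι) {x y : A} (h : ∀ i, psi θ i x y) : x = y := by
  have key : ∀ s : Finset ι, ((insert i₀ s)ᶜ.sup θ) x y := by
    intro s
    induction s using Finset.induction_on with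
    | empty =>
      have h1 : (insert i₀ (∅ : Finset ι))ᶜ = univ.erase i₀ := by
        ext j
        simp
      rw [h1]
      exact h i₀
    | insert i s hi ih =>
      by_cases hii : i = i₀
      · subst hii
        rw [insert_idem]
        exact ih
      · have h1 : (insert i₀ s)ᶜ = insert i (insert i₀ (insert i s))ᶜ := by
          ext j
          simp only [mem_compl, mem_insert]
          constructor
          · intro hj
            by_cases hji : j = i
            · exact Or.inl hji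
            · right
              push Not at hj ⊢
              exact ⟨hj.1, hji, hj.2⟩
          · rintro (rfl | hj)
            · push Not
              exact ⟨hii, hi⟩
            · push Not at hj ⊢
              exact ⟨hj.1, hj.2.2⟩
        rw [h1, sup_insert] at ih
        exact hmod i _ (by simp) ⟨h i, ih⟩
  have h1 := key univ
  have h2 : (insert i₀ (univ : Finset ι))ᶜ = ∅ := by
    ext j
    simp
  rw [h2, sup_empty] at h1
  exact h1

end Lattice

/-- the inequality of Loomis and Whitney for independent equivalence relations -/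
theorem lw_bound {A : Type} [Fintype A] {n : ℕ} {X : Fin (n + 1) → Type}
    [∀ i, DecidableEq (X i)] (g : ∀ i, A → X i) (hne : (univ : Finset A).Nonempty)
    (h : ∀ x y : A, (∀ i, psi (fun i => Setoid.ker (g i)) i x y) → x = y) :
    #(univ : Finset A) ^ n ≤ ∏ i, #((univ : Finset A).image (g i)) := by
  classical
  set θ : Fin (n + 1) → Setoid A := fun i => Setoid.ker (g i) with hθ
  let Φ : A → ∀ k, Quotient (psi θ k) := fun x k => Quotient.mk _ x
  have hΦ : ∀ x y k, Φ x k = Φ y k ↔ psi θ k x y := fun x y k => Quotient.eq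
  have hinj : Function.Injective Φ := by
    intro x y hxy
    exact h x y fun k => (hΦ x y k).1 (congrFun hxy k)
  have h2 := loomisWhitney n (fun k => Quotient (psi θ k)) (univ.image Φ) (hne.image Φ)
  rw [card_image_of_injective _ hinj] at h2
  refine h2.trans (prod_le_prod' fun i _ => ?_)
  rw [image_image]
  refine card_image_le_of_factor (univ : Finset A) (g i) _ ?_
  intro x _ y _ hxy
  funext k
  show Φ x (i.succAbove k) = Φ y (i.succAbove k)
  rw [hΦ]
  exact le_psi (θ := θ) (Fin.succAbove_ne i k).symm hxy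

section Gumm

variable {A ι : Type} {m : ℕ} {σ : Fin (m + 1) → Bool} {f : Fin (m + 1) → A → A → A → A}
  {p : A → A → A → A}

theorem cg_bot : Cg f p (⊥ : Setoid A) := by
  refine ⟨fun i => ?_, ?_⟩
  · rintro a a' b b' c c' h1 h2 h3
    have e1 : a = a' := h1
    have e2 : b = b' := h2
    have e3 : c = c' := h3
    rw [e1, e2, e3]
  · rintro a a' b b' c c' h1 h2 h3
    have e1 : a = a' := h1
    have e2 : b = b' := h2
    have e3 : c = c' := h3
    rw [e1, e2, e3]

theorem cg_sup {θ : ι → Setoid A} (hθ : ∀ i, Cg f p (θ i)) (s : Finset ι) :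
    Cg f p (s.sup θ) :=
  Finset.sup_induction (p := Cg f p) cg_bot (fun _ h _ h' => h.sup h') fun i _ => hθ i

theorem diff_sup (hg : IsGumm σ f p) {θ : ι → Setoid A} (hθ : ∀ i, Cg f p (θ i)) {i : ι}
    (s : Finset ι) (h : ∀ j ∈ s, θ i ⊓ θ j ≤ ⊥) {a b : A} (hab : θ i a b)
    (hab' : (s.sup θ) a b) : p a b b = a := by
  have h1 : (⊥ : Setoid A) a (p a b b) := by
    refine chain hg ⊥ a b fun k => ?_
    have key : ∀ g g', θ i (f k a g b) (f k a g' b) := by
      intro g g'
      have e1 : θ i (f k a g b) (f k a g a) :=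
        (hθ i).f k _ _ _ _ _ _ ((θ i).refl _) ((θ i).refl _) ((θ i).symm hab)
      have e2 : θ i (f k a g' b) (f k a g' a) :=
        (hθ i).f k _ _ _ _ _ _ ((θ i).refl _) ((θ i).refl _) ((θ i).symm hab)
      rw [hg.mid] at e1 e2
      exact (θ i).trans e1 ((θ i).symm e2)
    let w : Setoid A := ⟨fun x y => f k a x b = f k a y b, fun _ => rfl, fun h => h.symm,
      fun h h' => h.trans h'⟩
    have hw : s.sup θ ≤ w := by
      refine Finset.sup_le fun j hj x y hxy => ?_
      exact h j hj ⟨key x y, (hθ j).f k _ _ _ _ _ _ ((θ j).refl _) hxy ((θ j).refl _)⟩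
    exact hw hab'
  exact Eq.symm h1

end Gumm

section Group

variable {G : Type} [AddCommGroup G] {n : ℕ} {Y : Fin (n + 1) → Type} [∀ i, AddCommGroup (Y i)]
  (π : ∀ i, G →+ Y i)

/-- a finite set is not invariant under a translation -/
theorem no_shift (htf : ∀ (k : ℕ) (v : G), k ≠ 0 → k • v = 0 → v = 0) {A : Finset G} (v : G)
    (Q : G → Prop) {a : G} (ha : Q a) (hQ : ∀ c, Q c → Q (c + v)) (hQA : ∀ c, Q c → c ∈ A) :
    v = 0 := by
  by_contra hv
  have h1 : ∀ k : ℕ, Q (a + k • v) := by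
    intro k
    induction k with
    | zero => simpa using ha
    | succ k ih =>
      have := hQ _ ih
      rwa [add_assoc, ← succ_nsmul] at this
  have hinj : Function.Injective fun k : ℕ => (⟨a + k • v, hQA _ (h1 k)⟩ : {x // x ∈ A}) := by
    intro k l hkl
    have h2 : a + k • v = a + l • v := congrArg Subtype.val hkl
    have h3 : k • v = l • v := add_left_cancel h2
    rcases lt_trichotomy k l with h | h | h
    · exfalso
      refine hv (htf (l - k) v (by omega) ?_)
      have h4 : l • v = (l - k) • v + k • v := by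
        rw [← add_nsmul]
        congr 1
        omega
      rw [h4] at h3
      exact right_eq_add.1 h3
    · exact h
    · exfalso
      refine hv (htf (k - l) v (by omega) ?_)
      have h4 : k • v = (k - l) • v + l • v := by
        rw [← add_nsmul]
        congr 1
        omega
      rw [h4] at h3
      exact add_eq_right.1 h3
  exact not_injective_infinite_finite _ hinj

/-- **Independence** of the kernels of the projections for sets closed under Gumm operations. -/
theorem gumm_indep (htf : ∀ (k : ℕ) (v : G), k ≠ 0 → k • v = 0 → v = 0)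
    (hπ : ∀ i j, i ≠ j → ∀ v, π i v = 0 → π j v = 0 → v = 0) {A : Finset G} {m : ℕ}
    {σ : Fin (m + 1) → Bool} {f : Fin (m + 1) → {x // x ∈ A} → {x // x ∈ A} → {x // x ∈ A} →
      {x // x ∈ A}} {p : {x // x ∈ A} → {x // x ∈ A} → {x // x ∈ A} → {x // x ∈ A}}
    (hg : IsGumm σ f p)
    (hc : ∀ i, Cg f p (Setoid.ker fun a : {x // x ∈ A} => π i a.1)) (i : Fin (n + 1))
    {a b : {x // x ∈ A}} (hab : π i a.1 = π i b.1)
    (hab' : psi (fun i => Setoid.ker fun a : {x // x ∈ A} => π i a.1) i a b) : a = b := by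
  classical
  set θ : Fin (n + 1) → Setoid {x // x ∈ A} := fun i => Setoid.ker fun a => π i a.1 with hθ
  have hbot : ∀ i j, i ≠ j → θ i ⊓ θ j ≤ ⊥ := by
    intro i j hij x y hxy
    have e1 : π i x.1 = π i y.1 := hxy.1
    have e2 : π j x.1 = π j y.1 := hxy.2
    have h1 := hπ i j hij (x.1 - y.1) (by rw [map_sub, e1, sub_self]) (by rw [map_sub, e2, sub_self])
    exact Subtype.ext (sub_eq_zero.1 h1)
  set v : G := b.1 - a.1 with hv
  have hiv : π i v = 0 := by rw [hv, map_sub, hab, sub_self]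
  let Q : {x // x ∈ A} → Prop := fun c => ∃ d : {x // x ∈ A}, d.1 = c.1 + v ∧ psi θ i c d
  have hQa : Q a := ⟨b, by rw [hv]; abel, hab'⟩
  have hstep : ∀ j, j ≠ i → ∀ c c', θ j c c' → Q c → Q c' := by
    rintro j hj c c' hcc ⟨d, hd, hcd⟩
    have hicd : θ i d c := by
      show π i d.1 = π i c.1
      rw [hd, map_add, hiv, add_zero]
    have h1 : p d c c = d := diff_sup hg hc (univ.erase i)
      (fun k hk => hbot i k (mem_erase.1 hk).1.symm) hicd ((psi θ i).symm hcd)
    have h2 : θ i (p d c c') c' := by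
      have := (hc i).p _ _ _ _ _ _ hicd ((θ i).refl c) ((θ i).refl c')
      rwa [hg.malt] at this
    have h3 : θ j (p d c c') d := by
      have := (hc j).p _ _ _ _ _ _ ((θ j).refl d) ((θ j).refl c) ((θ j).symm hcc)
      rwa [h1] at this
    have e2 : π i (p d c c').1 = π i c'.1 := h2
    have e3 : π j (p d c c').1 = π j d.1 := h3
    have e4 : π j c.1 = π j c'.1 := hcc
    refine ⟨p d c c', ?_, ?_⟩
    · have h4 := hπ i j hj.symm ((p d c c').1 - (c'.1 + v))
        (by rw [map_sub, map_add, e2, hiv, add_zero, sub_self])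
        (by rw [map_sub, map_add, e3, hd, map_add, e4, sub_self])
      exact sub_eq_zero.1 h4
    · exact (psi θ i).trans ((psi θ i).symm (le_psi hj hcc))
        ((psi θ i).trans hcd ((psi θ i).symm (le_psi hj h3)))
  let w : Setoid {x // x ∈ A} := ⟨fun c c' => (Q c ↔ Q c'), fun _ => Iff.rfl, fun h => h.symm,
    fun h h' => h.trans h'⟩
  have hw : psi θ i ≤ w := by
    refine Finset.sup_le fun j hj c c' hcc => ?_
    have hji := (mem_erase.1 hj).1
    exact ⟨hstep j hji c c' hcc, hstep j hji c' c ((θ j).symm hcc)⟩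
  have h1 := no_shift htf v (fun c => ∃ h : c ∈ A, Q ⟨c, h⟩) (A := A) (a := a.1) ⟨a.2, hQa⟩ (by
    rintro c ⟨hc, d, hd, hcd⟩
    have h2 : Q d := (hw hcd).1 ⟨d, hd, hcd⟩
    have h3 : c + v = d.1 := hd.symm
    rw [h3]
    exact ⟨d.2, h2⟩) (fun c hc => hc.1)
  rw [hv] at h1
  exact Subtype.ext (sub_eq_zero.1 h1).symm

/-- `A` is closed under completing parallelograms with sides in the kernels of two different
projections. -/
def ParClosed (A : Finset G) : Prop :=
  ∀ i j, i ≠ j → ∀ z ∈ A, ∀ u v, π i u = 0 → π j v = 0 → z + u ∈ A → z + v ∈ A → z + u + v ∈ A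

variable {π}

theorem par_move {A : Finset G} (hA : ParClosed π A) {i j : Fin (n + 1)} (hij : i ≠ j)
    {a b c : G} (ha : a ∈ A) (hb : b ∈ A) (hc : c ∈ A) (hab : π j a = π j b)
    (hbc : π i b = π i c) : a + (c - b) ∈ A := by
  have h1 := hA j i hij.symm b hb (a - b) (c - b) (by rw [map_sub, hab, sub_self])
    (by rw [map_sub, hbc, sub_self]) (by rwa [add_sub_cancel]) (by rwa [add_sub_cancel])
  rwa [add_sub_cancel] at h1

theorem par_indep (htf : ∀ (k : ℕ) (v : G), k ≠ 0 → k • v = 0 → v = 0) {A : Finset G}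
    (hA : ParClosed π A) (i : Fin (n + 1)) {a b : {x // x ∈ A}} (hab : π i a.1 = π i b.1)
    (hab' : psi (fun i => Setoid.ker fun a : {x // x ∈ A} => π i a.1) i a b) : a = b := by
  classical
  set θ : Fin (n + 1) → Setoid {x // x ∈ A} := fun i => Setoid.ker fun a => π i a.1 with hθ
  set v : G := b.1 - a.1 with hv
  let Q : {x // x ∈ A} → Prop := fun c => ∃ d : {x // x ∈ A}, d.1 = c.1 + v ∧ psi θ i c d
  have hQa : Q a := ⟨b, by rw [hv]; abel, hab'⟩
  have hiv : π i v = 0 := by rw [hv, map_sub, hab, sub_self]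
  have hstep : ∀ j, j ≠ i → ∀ c c', θ j c c' → Q c → Q c' := by
    rintro j hj c c' hcc ⟨d, hd, hcd⟩
    have hcc' : π j c.1 = π j c'.1 := hcc
    have h1 : c'.1 + v ∈ A := by
      have := par_move hA hj.symm c'.2 c.2 d.2 hcc'.symm
        (by rw [hd, map_add, hiv, add_zero])
      rwa [hd, add_sub_cancel_left] at this
    refine ⟨⟨c'.1 + v, h1⟩, rfl, ?_⟩
    have h2 : θ j d ⟨c'.1 + v, h1⟩ := by
      show π j d.1 = π j (c'.1 + v)
      rw [hd, map_add, map_add, hcc']
    exact (psi θ i).trans ((psi θ i).symm (le_psi hj hcc))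
      ((psi θ i).trans hcd (le_psi hj h2))
  let w : Setoid {x // x ∈ A} := ⟨fun c c' => (Q c ↔ Q c'), fun _ => Iff.rfl, fun h => h.symm,
    fun h h' => h.trans h'⟩
  have hw : psi θ i ≤ w := by
    refine Finset.sup_le fun j hj c c' hcc => ?_
    have hji := (mem_erase.1 hj).1
    exact ⟨hstep j hji c c' hcc, hstep j hji c' c ((θ j).symm hcc)⟩
  have h1 := no_shift htf v (fun c => ∃ h : c ∈ A, Q ⟨c, h⟩) (A := A) (a := a.1) ⟨a.2, hQa⟩ (by
    rintro c ⟨hc, d, hd, hcd⟩
    have h2 : Q d := (hw hcd).1 ⟨d, hd, hcd⟩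
    have h3 : c + v = d.1 := hd.symm
    rw [h3]
    exact ⟨d.2, h2⟩) (fun c hc => hc.1)
  rw [hv] at h1
  exact Subtype.ext (sub_eq_zero.1 h1).symm

theorem par_mod (htf : ∀ (k : ℕ) (v : G), k ≠ 0 → k • v = 0 → v = 0) {A : Finset G}
    (hA : ParClosed π A) (i : Fin (n + 1)) (s : Finset (Fin (n + 1))) (hi : i ∉ s) :
    let θ : Fin (n + 1) → Setoid {x // x ∈ A} := fun i => Setoid.ker fun a => π i a.1
    psi θ i ⊓ (θ i ⊔ s.sup θ) ≤ s.sup θ := by
  intro θ x y hxy
  have hcomm : ∀ a b c, (s.sup θ) a b → θ i b c → ∃ t, θ i a t ∧ (s.sup θ) t c := by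
    let w : Setoid {x // x ∈ A} := ⟨fun a b => (∀ c, θ i b c → ∃ t, θ i a t ∧ (s.sup θ) t c) ∧
      ∀ c, θ i a c → ∃ t, θ i b t ∧ (s.sup θ) t c,
      fun a => ⟨fun c hc => ⟨c, hc, (s.sup θ).refl c⟩, fun c hc => ⟨c, hc, (s.sup θ).refl c⟩⟩,
      fun h => ⟨h.2, h.1⟩, by
        rintro a b c ⟨h1, h2⟩ ⟨h3, h4⟩
        constructor
        · intro d hd
          obtain ⟨t, ht1, ht2⟩ := h3 d hd
          obtain ⟨t', ht3, ht4⟩ := h1 t ht1
          exact ⟨t', ht3, (s.sup θ).trans ht4 ht2⟩
        · intro d hd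
          obtain ⟨t, ht1, ht2⟩ := h2 d hd
          obtain ⟨t', ht3, ht4⟩ := h4 t ht1
          exact ⟨t', ht3, (s.sup θ).trans ht4 ht2⟩⟩
    have hstep : ∀ j ∈ s, ∀ a b, θ j a b → ∀ c, θ i b c → ∃ t, θ i a t ∧ (s.sup θ) t c := by
      intro j hj a b hab c hbc
      have hab' : π j a.1 = π j b.1 := hab
      have hbc' : π i b.1 = π i c.1 := hbc
      have hij : i ≠ j := by
        rintro rfl
        exact hi hj
      refine ⟨⟨a.1 + (c.1 - b.1), par_move hA hij a.2 b.2 c.2 hab' hbc'⟩, ?_, ?_⟩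
      · show π i a.1 = π i (a.1 + (c.1 - b.1))
        rw [map_add, map_sub, hbc', sub_self, add_zero]
      · refine (Finset.le_sup (f := θ) hj) ?_
        show π j (a.1 + (c.1 - b.1)) = π j c.1
        rw [map_add, map_sub, hab', add_sub_cancel]
    have hw : s.sup θ ≤ w := by
      refine Finset.sup_le fun j hj a b hab => ?_
      exact ⟨hstep j hj a b hab, hstep j hj b a ((θ j).symm hab)⟩
    intro a b c hab hbc
    exact (hw hab).1 c hbc
  obtain ⟨t, ht1, ht2⟩ := sup_of_comm hcomm hxy.2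
  have h1 : psi θ i x t := (psi θ i).trans hxy.1 ((psi θ i).symm (sup_le_psi hi ht2))
  have h2 : x = t := par_indep htf hA i ht1 h1
  rw [h2]
  exact ht2

/-- **The bound** for sets closed under completing parallelograms. -/
theorem par_bound [∀ i, DecidableEq (Y i)]
    (htf : ∀ (k : ℕ) (v : G), k ≠ 0 → k • v = 0 → v = 0) {A : Finset G} (hA : ParClosed π A)
    (hn : 1 ≤ n) : #A ^ n ≤ ∏ i, #(A.image (π i)) := by
  classical
  rcases A.eq_empty_or_nonempty with rfl | hne
  · rw [card_empty, zero_pow (by omega)]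
    exact Nat.zero_le _
  have hne' : (univ : Finset {x // x ∈ A}).Nonempty := by
    obtain ⟨a, ha⟩ := hne
    exact ⟨⟨a, ha⟩, mem_univ _⟩
  have h := lw_bound (A := {x // x ∈ A}) (fun i a => π i a.1) hne' fun x y hxy =>
    eq_of_psi (fun i s hi => par_mod htf hA i s hi) 0 hxy
  rw [card_univ, Fintype.card_coe] at h
  refine h.trans (prod_le_prod' fun i _ => card_le_card fun y hy => ?_)
  obtain ⟨a, -, rfl⟩ := mem_image.1 hy
  exact mem_image_of_mem _ a.2

/-- **The bound** for sets closed under Gumm operations. -/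
theorem gumm_bound [∀ i, DecidableEq (Y i)]
    (htf : ∀ (k : ℕ) (v : G), k ≠ 0 → k • v = 0 → v = 0)
    (hπ : ∀ i j, i ≠ j → ∀ v, π i v = 0 → π j v = 0 → v = 0) {A : Finset G} {m : ℕ}
    {σ : Fin (m + 1) → Bool} (f : ∀ i, Fin (m + 1) → Y i → Y i → Y i → Y i)
    (p : ∀ i, Y i → Y i → Y i → Y i) (hg : ∀ i, IsGumm σ (f i) (p i))
    (hf : ∀ j, ∀ a ∈ A, ∀ b ∈ A, ∀ c ∈ A, ∃ d ∈ A, ∀ i,
      π i d = f i j (π i a) (π i b) (π i c))
    (hp : ∀ a ∈ A, ∀ b ∈ A, ∀ c ∈ A, ∃ d ∈ A, ∀ i, π i d = p i (π i a) (π i b) (π i c))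
    (hn : 1 ≤ n) : #A ^ n ≤ ∏ i, #(A.image (π i)) := by
  classical
  rcases A.eq_empty_or_nonempty with rfl | hne
  · rw [card_empty, zero_pow (by omega)]
    exact Nat.zero_le _
  have hne' : (univ : Finset {x // x ∈ A}).Nonempty := by
    obtain ⟨a, ha⟩ := hne
    exact ⟨⟨a, ha⟩, mem_univ _⟩
  choose F hF1 hF2 using hf
  choose P hP1 hP2 using hp
  let fA : Fin (m + 1) → {x // x ∈ A} → {x // x ∈ A} → {x // x ∈ A} → {x // x ∈ A} :=
    fun j a b c => ⟨F j a.1 a.2 b.1 b.2 c.1 c.2, hF1 j a.1 a.2 b.1 b.2 c.1 c.2⟩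
  let pA : {x // x ∈ A} → {x // x ∈ A} → {x // x ∈ A} → {x // x ∈ A} :=
    fun a b c => ⟨P a.1 a.2 b.1 b.2 c.1 c.2, hP1 a.1 a.2 b.1 b.2 c.1 c.2⟩
  have hfA : ∀ j a b c i, π i (fA j a b c).1 = f i j (π i a.1) (π i b.1) (π i c.1) :=
    fun j a b c i => hF2 j a.1 a.2 b.1 b.2 c.1 c.2 i
  have hpA : ∀ a b c i, π i (pA a b c).1 = p i (π i a.1) (π i b.1) (π i c.1) :=
    fun a b c i => hP2 a.1 a.2 b.1 b.2 c.1 c.2 i
  have h01 : (0 : Fin (n + 1)) ≠ Fin.last n := by
    intro h
    have := congrArg Fin.val h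
    simp at this
    omega
  have hext : ∀ x y : {x // x ∈ A}, (∀ i, π i x.1 = π i y.1) → x = y := by
    intro x y h
    refine Subtype.ext (sub_eq_zero.1 (hπ 0 (Fin.last n) h01 (x.1 - y.1) ?_ ?_))
    · rw [map_sub, h, sub_self]
    · rw [map_sub, h, sub_self]
  have hgA : IsGumm σ fA pA := by
    refine ⟨?_, ?_, ?_, ?_, ?_⟩
    · intro j x y
      refine hext _ _ fun i => ?_
      rw [hfA]
      exact (hg i).mid j _ _
    · intro x y
      refine hext _ _ fun i => ?_
      have h1 := (hg i).start (π i x.1) (π i y.1)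
      unfold lo at h1 ⊢
      split_ifs at h1 ⊢ with h
      · rw [hfA]; exact h1
      · rw [hfA]; exact h1
    · intro j x y
      refine hext _ _ fun i => ?_
      have h1 := (hg i).step j (π i x.1) (π i y.1)
      unfold lo hi at h1 ⊢
      split_ifs at h1 ⊢ with h h'
      · rw [hfA, hfA]; exact h1
      · rw [hfA, hfA]; exact h1
      · rw [hfA, hfA]; exact h1
      · rw [hfA, hfA]; exact h1
    · intro x y
      refine hext _ _ fun i => ?_
      have h1 := (hg i).last (π i x.1) (π i y.1)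
      unfold hi at h1 ⊢
      split_ifs at h1 ⊢ with h
      · rw [hfA, hpA]; exact h1
      · rw [hfA, hpA]; exact h1
    · intro x y
      refine hext _ _ fun i => ?_
      rw [hpA]
      exact (hg i).malt _ _
  set θ : Fin (n + 1) → Setoid {x // x ∈ A} := fun i => Setoid.ker fun a => π i a.1 with hθ
  have hc : ∀ i, Cg fA pA (θ i) := by
    intro i
    refine ⟨fun j => ?_, ?_⟩
    · intro a a' b b' c c' h1 h2 h3
      have e1 : π i a.1 = π i a'.1 := h1
      have e2 : π i b.1 = π i b'.1 := h2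
      have e3 : π i c.1 = π i c'.1 := h3
      show π i (fA j a b c).1 = π i (fA j a' b' c').1
      rw [hfA, hfA, e1, e2, e3]
    · intro a a' b b' c c' h1 h2 h3
      have e1 : π i a.1 = π i a'.1 := h1
      have e2 : π i b.1 = π i b'.1 := h2
      have e3 : π i c.1 = π i c'.1 := h3
      show π i (pA a b c).1 = π i (pA a' b' c').1
      rw [hpA, hpA, e1, e2, e3]
  have hmod : ∀ i (s : Finset (Fin (n + 1))), i ∉ s →
      psi θ i ⊓ (θ i ⊔ s.sup θ) ≤ s.sup θ := by
    intro i s hi
    refine (modular hgA (cg_sup hc (univ.erase i)) (hc i) (cg_sup hc s)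
      (sup_le_psi hi)).trans ?_
    refine sup_le ?_ le_rfl
    intro x y hxy
    have : x = y := gumm_indep π htf hπ hgA hc i hxy.2 hxy.1
    rw [this]
  have h := lw_bound (A := {x // x ∈ A}) (fun i a => π i a.1) hne' fun x y hxy =>
    eq_of_psi hmod 0 hxy
  rw [card_univ, Fintype.card_coe] at h
  refine h.trans (prod_le_prod' fun i _ => card_le_card fun y hy => ?_)
  obtain ⟨a, -, rfl⟩ := mem_image.1 hy
  exact mem_image_of_mem _ a.2

end Group

end Pool.Agent.U422.Kak
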