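import Pool.Agent.U422.TLat

/-!
# Growing sparse configurations inside Latin squares
-/

set_option autoImplicit false

namespace Pool.Agent.U422.TLat

open Finset Pool.Agent.R181.Maj Pool.Agent.U422.Gumm Pool.Agent.U422.Taylor

section Grow

variable {X : Fin 3 → Type} [∀ i, DecidableEq (X i)] (E : Finset (∀ i, X i))

/-- the elements of `E` with all coordinates in `S` -/
def ins (S : Finset (Sigma X)) : Finset (∀ i, X i) := E.filter fun a => ∀ i, ⟨i, a i⟩ ∈ S

/-- the third coordinates of elements of `E` given by two coordinates in `Q` are in `Q` -/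
def Comp (Q : Finset (Sigma X)) : Prop :=
  ∀ i j, i ≠ j → ∀ p q, (⟨i, p⟩ : Sigma X) ∈ Q → (⟨j, q⟩ : Sigma X) ∈ Q →
    ∃ a ∈ E, a i = p ∧ a j = q ∧ ∀ m, (⟨m, a m⟩ : Sigma X) ∈ Q

variable {E}

theorem mem_ins {S : Finset (Sigma X)} {a : ∀ i, X i} :
    a ∈ ins E S ↔ a ∈ E ∧ ∀ i, (⟨i, a i⟩ : Sigma X) ∈ S := mem_filter

theorem ins_mono {S T : Finset (Sigma X)} (h : S ⊆ T) : ins E S ⊆ ins E T := fun a ha => by
  rw [mem_ins] at ha ⊢
  exact ⟨ha.1, fun i => h (ha.2 i)⟩

theorem card_ins_insert {S : Finset (Sigma X)} {v : Sigma X} (hv : v ∉ S)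
    (A : Finset (∀ i, X i)) (hA : ∀ a ∈ A, a ∈ E ∧ (∃ i, v = ⟨i, a i⟩) ∧
      ∀ i, (⟨i, a i⟩ : Sigma X) ∈ insert v S) : #(ins E S) + #A ≤ #(ins E (insert v S)) := by
  rw [← card_union_of_disjoint]
  · refine card_le_card (union_subset (ins_mono (subset_insert v S)) fun a ha => ?_)
    rw [mem_ins]
    exact ⟨(hA a ha).1, (hA a ha).2.2⟩
  · rw [disjoint_left]
    intro a ha ha'
    obtain ⟨i, hi⟩ := (hA a ha').2.1
    rw [mem_ins] at ha
    exact hv (hi ▸ ha.2 i)

/-- the vertices of `a` and `z` -/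
def base (a : ∀ i, X i) (z : X 2) : Finset (Sigma X) := insert ⟨2, z⟩ (univ.image fun i => ⟨i, a i⟩)

theorem mem_base (a : ∀ i, X i) (z : X 2) (i : Fin 3) : (⟨i, a i⟩ : Sigma X) ∈ base a z :=
  mem_insert_of_mem (mem_image_of_mem _ (mem_univ i))

theorem mem_base' (a : ∀ i, X i) (z : X 2) : (⟨2, z⟩ : Sigma X) ∈ base a z := mem_insert_self _ _

/-- a vertex which can be added with an element of `E` -/
theorem exists_next {Q S : Finset (Sigma X)} {a : ∀ i, X i} {z : X 2} (hQ : Comp E Q)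
    (hb : base a z ⊆ Q) (hmin : ∀ Q', Comp E Q' → base a z ⊆ Q' → #Q ≤ #Q')
    (hS : base a z ⊆ S) (hQS : ¬ Q ⊆ S) :
    ∃ v ∈ Q, v ∉ S ∧ #(ins E S) + 1 ≤ #(ins E (insert v S)) := by
  have h1 : ¬ Comp E (Q ∩ S) := by
    intro h
    have h2 := hmin _ h (subset_inter hb hS)
    have h3 := eq_of_subset_of_card_le inter_subset_left h2
    exact hQS (inter_eq_left.1 h3)
  unfold Comp at h1
  push Not at h1
  obtain ⟨i, j, hij, p, q, hp, hq, hno⟩ := h1
  rw [mem_inter] at hp hq
  obtain ⟨b, hbE, hbi, hbj, hbQ⟩ := hQ i j hij p q hp.1 hq.1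
  obtain ⟨m, hm⟩ := hno b hbE hbi hbj
  have hmS : (⟨m, b m⟩ : Sigma X) ∉ S := fun h => hm (mem_inter.2 ⟨hbQ m, h⟩)
  have hmi : m ≠ i := by
    rintro rfl
    exact hmS (hbi ▸ hp.2)
  have hmj : m ≠ j := by
    rintro rfl
    exact hmS (hbj ▸ hq.2)
  refine ⟨⟨m, b m⟩, hbQ m, hmS, ?_⟩
  have := card_ins_insert hmS {b} (by
    intro c hc
    rw [mem_singleton] at hc
    subst hc
    refine ⟨hbE, ⟨m, rfl⟩, fun n => ?_⟩
    rcases cases_third i j m n hij hmi hmj with rfl | rfl | rfl
    · exact mem_insert_of_mem (hbi ▸ hp.2)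
    · exact mem_insert_of_mem (hbj ▸ hq.2)
    · exact mem_insert_self _ _)
  rwa [card_singleton] at this

/-- the last vertex is in two elements of `E` -/
theorem last_two (hlin : Lin (E : Set (∀ i, X i))) {Q S : Finset (Sigma X)} {a : ∀ i, X i}
    {z : X 2} (haE : a ∈ E) (hz : z ≠ a 2) (hQ : Comp E Q) (hb : base a z ⊆ Q) {v : Sigma X}
    (hv : v ∈ Q) (hvS : v ∉ S) (hQS : Q ⊆ insert v S) :
    #(ins E S) + 2 ≤ #(ins E (insert v S)) := by
  have key : ∀ (j : Fin 3) (p q : X j), v.1 ≠ j → (⟨j, p⟩ : Sigma X) ∈ Q →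
      (⟨j, q⟩ : Sigma X) ∈ Q → p ≠ q → #(ins E S) + 2 ≤ #(ins E (insert v S)) := by
    intro j p q hvj hp hq hpq
    obtain ⟨i, x⟩ := v
    obtain ⟨b, hbE, hbi, hbj, hbQ⟩ := hQ i j hvj x p hv hp
    obtain ⟨c, hcE, hci, hcj, hcQ⟩ := hQ i j hvj x q hv hq
    have hbc : b ≠ c := by
      rintro rfl
      exact hpq (hbj.symm.trans hcj)
    have := card_ins_insert hvS {b, c} (by
      intro d hd
      rw [mem_insert, mem_singleton] at hd
      rcases hd with rfl | rfl
      · exact ⟨hbE, ⟨i, by rw [hbi]⟩, fun n => hQS (hbQ n)⟩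
      · exact ⟨hcE, ⟨i, by rw [hci]⟩, fun n => hQS (hcQ n)⟩)
    rwa [card_pair hbc] at this
  by_cases h2 : v.1 = 2
  · obtain ⟨b, hbE, hb1, hb2, hbQ⟩ := hQ 1 2 (by decide) (a 1) z (hb (mem_base a z 1))
      (hb (mem_base' a z))
    refine key 0 (b 0) (a 0) (by rw [h2]; decide) (hbQ 0) (hb (mem_base a z 0)) ?_
    intro h0
    have := hlin b hbE a haE 0 1 (by decide) h0 hb1
    rw [this] at hb2
    exact hz hb2.symm
  · exact key 2 z (a 2) h2 (hb (mem_base' a z)) (hb (mem_base a z 2)) hz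

/-- sets of all sizes between `S` and `S ∪ Q` -/
theorem exists_between {Q S : Finset (Sigma X)} {a : ∀ i, X i} {z : X 2} (hQ : Comp E Q)
    (hb : base a z ⊆ Q) (hmin : ∀ Q', Comp E Q' → base a z ⊆ Q' → #Q ≤ #Q')
    (haS : ∀ i, (⟨i, a i⟩ : Sigma X) ∈ S) (hzS : (⟨2, z⟩ : Sigma X) ∉ S)
    (hS : #S ≤ #(ins E S) + 2) (m : ℕ) (hm : #S + 1 ≤ m) (hm' : m ≤ #(S ∪ Q)) :
    ∃ S', insert ⟨2, z⟩ S ⊆ S' ∧ S' ⊆ S ∪ Q ∧ #S' = m ∧ #S' ≤ #(ins E S') + 3 := by
  induction m, hm using Nat.le_induction with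
  | base =>
    refine ⟨insert ⟨2, z⟩ S, subset_rfl, ?_, card_insert_of_notMem hzS, ?_⟩
    · exact insert_subset_iff.2 ⟨mem_union_right _ (hb (mem_base' a z)), subset_union_left⟩
    · have h1 := card_le_card (ins_mono (E := E) (subset_insert (⟨2, z⟩ : Sigma X) S))
      rw [card_insert_of_notMem hzS]
      omega
  | succ m hm ih =>
    obtain ⟨S', h1, h2, h3, h4⟩ := ih (by omega)
    have hQS : ¬ Q ⊆ S' := by
      intro h
      have h5 : S ∪ Q ⊆ S' := union_subset ((subset_insert _ _).trans h1) h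
      have := card_le_card h5
      omega
    have hbS : base a z ⊆ S' := by
      intro x hx
      rw [base, mem_insert, mem_image] at hx
      rcases hx with rfl | ⟨i, -, rfl⟩
      · exact h1 (mem_insert_self _ _)
      · exact h1 (mem_insert_of_mem (haS i))
    obtain ⟨v, hvQ, hvS, hv⟩ := exists_next hQ hb hmin hbS hQS
    refine ⟨insert v S', h1.trans (subset_insert _ _),
      insert_subset_iff.2 ⟨mem_union_right _ hvQ, h2⟩, ?_, ?_⟩
    · rw [card_insert_of_notMem hvS, h3]
    · rw [card_insert_of_notMem hvS]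
      omega

/-- **Growth.** If every small set `S` containing the vertices of `a` misses a vertex `z` which is in
a Latin square together with `a`, there are sets of `s` vertices with at least `s - 3` edges. -/
theorem exists_dense (hlin : Lin (E : Set (∀ i, X i))) {a : ∀ i, X i} (haE : a ∈ E) (s : ℕ)
    (hs : 3 ≤ s) (hgood : ∀ S : Finset (Sigma X), #S < s → ∃ z, (⟨2, z⟩ : Sigma X) ∉ S ∧
      ∃ Q, Comp E Q ∧ base a z ⊆ Q) : ∃ S : Finset (Sigma X), #S = s ∧ s ≤ #(ins E S) + 3 := by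
  classical
  have key : ∀ (n : ℕ) (S : Finset (Sigma X)), (∀ i, (⟨i, a i⟩ : Sigma X) ∈ S) →
      #S ≤ #(ins E S) + 2 → #S ≤ s → s - #S ≤ n →
      ∃ S' : Finset (Sigma X), #S' = s ∧ s ≤ #(ins E S') + 3 := by
    intro n
    induction n with
    | zero =>
      intro S _ h2 h3 h4
      exact ⟨S, by omega, by omega⟩
    | succ n ih =>
      intro S haS h2 h3 h4
      by_cases hSs : #S = s
      · exact ⟨S, hSs, by omega⟩
      obtain ⟨z, hzS, Q₀, hQ₀, hb₀⟩ := hgood S (by omega)
      have hza : z ≠ a 2 := by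
        rintro rfl
        exact hzS (haS 2)
      have hex : ∃ c, ∃ Q, Comp E Q ∧ base a z ⊆ Q ∧ #Q = c := ⟨_, Q₀, hQ₀, hb₀, rfl⟩
      obtain ⟨Q, hQ, hb, hQc⟩ := Nat.find_spec hex
      have hmin : ∀ Q', Comp E Q' → base a z ⊆ Q' → #Q ≤ #Q' := by
        intro Q' h5 h6
        rw [hQc]
        exact Nat.find_min' hex ⟨Q', h5, h6, rfl⟩
      have hlt : #S + 1 ≤ #(S ∪ Q) := by
        have h5 : insert (⟨2, z⟩ : Sigma X) S ⊆ S ∪ Q :=
          insert_subset_iff.2 ⟨mem_union_right _ (hb (mem_base' a z)), subset_union_left⟩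
        have h6 := card_le_card h5
        rwa [card_insert_of_notMem hzS] at h6
      by_cases hle : s ≤ #(S ∪ Q)
      · obtain ⟨S', -, -, h5, h6⟩ := exists_between hQ hb hmin haS hzS h2 s (by omega) hle
        exact ⟨S', h5, by omega⟩
      · push Not at hle
        obtain ⟨S', h5, h6, h7, h8⟩ : ∃ S', S ⊆ S' ∧ S' ⊆ S ∪ Q ∧ #S' + 1 = #(S ∪ Q) ∧
            #S' ≤ #(ins E S') + 3 := by
          by_cases heq : #S + 1 = #(S ∪ Q)
          · exact ⟨S, subset_rfl, subset_union_left, heq, by omega⟩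
          · obtain ⟨S', h5, h6, h7, h8⟩ := exists_between hQ hb hmin haS hzS h2
              (#(S ∪ Q) - 1) (by omega) (by omega)
            exact ⟨S', (subset_insert _ _).trans h5, h6, by omega, h8⟩
        obtain ⟨v, hv⟩ : ((S ∪ Q) \ S').Nonempty := by
          rw [← card_pos, card_sdiff_of_subset h6]
          omega
        rw [mem_sdiff] at hv
        have hvQ : v ∈ Q := (mem_union.1 hv.1).resolve_left fun h => hv.2 (h5 h)
        have hSQ : S ∪ Q = insert v S' := by
          symm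
          refine eq_of_subset_of_card_le (insert_subset_iff.2 ⟨hv.1, h6⟩) ?_
          rw [card_insert_of_notMem hv.2, h7]
        have h9 := last_two hlin haE hza hQ hb hvQ hv.2 (by
          rw [← hSQ]
          exact subset_union_right)
        rw [← hSQ] at h9
        refine ih (S ∪ Q) (fun i => mem_union_left _ (haS i)) (by omega) hle.le (by omega)
  refine key s (univ.image fun i => (⟨i, a i⟩ : Sigma X)) (fun i => mem_image_of_mem _ (mem_univ i))
    ?_ ?_ ?_
  · have h1 : #(univ.image fun i => (⟨i, a i⟩ : Sigma X)) ≤ 3 := by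
      refine card_image_le.trans ?_
      rw [card_univ, Fintype.card_fin]
    have h2 : 1 ≤ #(ins E (univ.image fun i => (⟨i, a i⟩ : Sigma X))) := by
      refine card_pos.2 ⟨a, ?_⟩
      rw [mem_ins]
      exact ⟨haE, fun i => mem_image_of_mem _ (mem_univ i)⟩
    omega
  · refine card_image_le.trans ?_
    rw [card_univ, Fintype.card_fin]
    exact hs
  · omega

end Grow

section Good

variable {X : Fin 3 → Type} [∀ i, Fintype (X i)] [∀ i, DecidableEq (X i)] {E : Finset (∀ i, X i)}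

/-- A triangle is in a complete set. -/
theorem exists_comp (hlin : Lin (E : Set (∀ i, X i))) {k : ℕ} (hk : 2 ≤ k)
    {t : ∀ i, (Fin k → X i) → X i} (ht : ∀ i, IsWNU (t i)) (hE : Cl (E : Set (∀ i, X i)) t)
    {u u' : ∀ i, X i} (hne : ∀ i, u i ≠ u' i) (htri : ∀ i, tri u u' i ∈ E) :
    ∃ Q, Comp E Q ∧ ∀ i, (⟨i, u i⟩ : Sigma X) ∈ Q ∧ (⟨i, u' i⟩ : Sigma X) ∈ Q := by
  classical
  obtain ⟨δ, c, h, hδ, -, h0, hc, hn⟩ := exists_cyclic hlin hk ht hE hne
    (fun i => mem_coe.2 (htri i))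
  have : NeZero δ := ⟨by omega⟩
  have hmem : ∀ i p, (⟨i, p⟩ : Sigma X) ∈ (univ.sigma fun i => univ.image (h i) : Finset (Sigma X))
      ↔ ∃ x, h i x = p := by
    intro i p
    simp
  refine ⟨univ.sigma fun i => univ.image (h i), ?_, fun i => ⟨?_, ?_⟩⟩
  · intro i j hij p q hp hq
    obtain ⟨x, hx⟩ := (hmem i p).1 hp
    obtain ⟨y, hy⟩ := (hmem j q).1 hq
    obtain ⟨l, hli, hlj⟩ := third i j hij
    obtain ⟨a, ha, hai, haj, hal⟩ := edge3 hn hij hli hlj x y (c - x - y) (by abel)
    refine ⟨a, mem_coe.1 ha, hai.trans hx, haj.trans hy, fun m => ?_⟩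
    rw [hmem]
    rcases cases_third i j l m hij hli hlj with rfl | rfl | rfl
    · exact ⟨_, hai.symm⟩
    · exact ⟨_, haj.symm⟩
    · exact ⟨_, hal.symm⟩
  · rw [hmem]
    exact ⟨0, h0 i⟩
  · rw [hmem]
    exact ⟨c, hc i⟩

/-- the vertices `z` which form a triangle with the first two vertices of `a` -/
def good (E : Finset (∀ i, X i)) (a : ∀ i, X i) : Finset (X 2) :=
  univ.filter fun z => (∃ b ∈ E, b 1 = a 1 ∧ b 2 = z) ∧ (∃ c ∈ E, c 0 = a 0 ∧ c 2 = z) ∧ z ≠ a 2

theorem good_small (hlin : Lin (E : Set (∀ i, X i))) {k : ℕ} (hk : 2 ≤ k)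
    {t : ∀ i, (Fin k → X i) → X i} (ht : ∀ i, IsWNU (t i)) (hE : Cl (E : Set (∀ i, X i)) t)
    {e : ℕ} (hsp : ∀ S : Finset (Sigma X), #S = e + 3 → #(ins E S) < e) {a : ∀ i, X i}
    (haE : a ∈ E) : #(good E a) ≤ e + 3 := by
  classical
  by_contra hcon
  push Not at hcon
  obtain ⟨S, hS, hS'⟩ := exists_dense hlin haE (e + 3) (by omega) (by
    intro S hS
    obtain ⟨z, hz, hzS⟩ : ∃ z ∈ good E a, (⟨2, z⟩ : Sigma X) ∉ S := by
      by_contra hno
      push Not at hno
      have h1 : #((good E a).image fun z => (⟨2, z⟩ : Sigma X)) ≤ #S :=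
        card_le_card fun x hx => by
          obtain ⟨z, hz, rfl⟩ := mem_image.1 hx
          exact hno z hz
      rw [card_image_of_injective _ (fun x y hxy => eq_of_heq (Sigma.mk.inj hxy).2)] at h1
      omega
    refine ⟨z, hzS, ?_⟩
    rw [good, mem_filter] at hz
    obtain ⟨-, ⟨b, hb, hb1, hb2⟩, ⟨c, hc, hc0, hc2⟩, hza⟩ := hz
    -- the triangle
    let u : ∀ i, X i := Function.update a 2 z
    let u' : ∀ i, X i := Function.update (Function.update a 0 (b 0)) 1 (c 1)
    have u0 : u 0 = a 0 := Function.update_of_ne (by decide) _ _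
    have u1 : u 1 = a 1 := Function.update_of_ne (by decide) _ _
    have u2 : u 2 = z := Function.update_self _ _ _
    have v0 : u' 0 = b 0 := by
      show Function.update (Function.update a 0 (b 0)) 1 (c 1) 0 = b 0
      rw [Function.update_of_ne (by decide), Function.update_self]
    have v1 : u' 1 = c 1 := Function.update_self _ _ _
    have v2 : u' 2 = a 2 := by
      show Function.update (Function.update a 0 (b 0)) 1 (c 1) 2 = a 2
      rw [Function.update_of_ne (by decide), Function.update_of_ne (by decide)]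
    have t0 : tri u u' 0 = b := by
      funext i
      fin_cases i
      · exact (tri_self 0).trans v0
      · exact (tri_ne (by decide)).trans (u1.trans hb1.symm)
      · exact (tri_ne (by decide)).trans (u2.trans hb2.symm)
    have t1 : tri u u' 1 = c := by
      funext i
      fin_cases i
      · exact (tri_ne (by decide)).trans (u0.trans hc0.symm)
      · exact (tri_self 1).trans v1
      · exact (tri_ne (by decide)).trans (u2.trans hc2.symm)
    have t2 : tri u u' 2 = a := by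
      funext i
      fin_cases i
      · exact (tri_ne (by decide)).trans u0
      · exact (tri_ne (by decide)).trans u1
      · exact (tri_self 2).trans v2
    obtain ⟨Q, hQ, hQ'⟩ := exists_comp (u := u) (u' := u') hlin hk ht hE (by
      intro i
      fin_cases i
      · show u 0 ≠ u' 0
        rw [u0, v0]
        intro h
        have := hlin a haE b hb 0 1 (by decide) h hb1.symm
        exact hza (by rw [this, hb2])
      · show u 1 ≠ u' 1
        rw [u1, v1]
        intro h
        have := hlin a haE c hc 0 1 (by decide) hc0.symm h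
        exact hza (by rw [this, hc2])
      · show u 2 ≠ u' 2
        rw [u2, v2]
        exact hza) (by
      intro i
      fin_cases i
      · show tri u u' 0 ∈ E
        rw [t0]; exact hb
      · show tri u u' 1 ∈ E
        rw [t1]; exact hc
      · show tri u u' 2 ∈ E
        rw [t2]; exact haE)
    refine ⟨Q, hQ, ?_⟩
    intro x hx
    rw [base, mem_insert, mem_image] at hx
    rcases hx with rfl | ⟨i, -, rfl⟩
    · have := (hQ' 2).1
      rwa [u2] at this
    · fin_cases i
      · have := (hQ' 0).1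
        rwa [u0] at this
      · have := (hQ' 1).1
        rwa [u1] at this
      · have := (hQ' 2).2
        rwa [v2] at this)
  have := hsp S hS
  omega

end Good

end Pool.Agent.U422.TLat
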