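import Pool.Agent.U422.TaylorRS

/-!
# Triangles in linear relations closed under weak near unanimity operations

A triangle of a finite linear relation between three sets, closed under a weak near unanimity
operation, is contained in a Latin square.
-/

set_option autoImplicit false

namespace Pool.Agent.U422.TLat

open Finset Pool.Agent.R181.Maj Pool.Agent.U422.Gumm Pool.Agent.U422.Taylor

/-- `t` is an idempotent weak near unanimity operation with the arguments indexed by `ι`. -/
def IsW {A ι : Type} [DecidableEq ι] (t : (ι → A) → A) : Prop :=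
  (∀ x, t (fun _ => x) = x) ∧
    ∀ i j x y, t (Function.update (fun _ => x) i y) = t (Function.update (fun _ => x) j y)

/-- `E` is closed under the componentwise application of the operations `t i`. -/
def Cl {m : ℕ} {X : Fin m → Type} {ι : Type} (E : Set (∀ i, X i)) (t : ∀ i, (ι → X i) → X i) :
    Prop :=
  ∀ a : ι → ∀ i, X i, (∀ j, a j ∈ E) → (fun i => t i fun j => a j i) ∈ E

/-- composition -/
def cmp {A ι κ : Type} (t : (ι → A) → A) (s : (κ → A) → A) : (ι × κ → A) → A := fun v =>
  t fun i => s fun k => v (i, k)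

theorem isW_cmp {A ι κ : Type} [DecidableEq ι] [DecidableEq κ] {t : (ι → A) → A}
    {s : (κ → A) → A} (ht : IsW t) (hs : IsW s) : IsW (cmp t s) := by
  have key : ∀ (i : ι) (k : κ) (x y : A), cmp t s (Function.update (fun _ => x) (i, k) y) =
      t (Function.update (fun _ => x) i (s (Function.update (fun _ => x) k y))) := by
    intro i k x y
    unfold cmp
    congr 1
    funext i'
    by_cases hi : i' = i
    · subst hi
      rw [Function.update_self]
      congr 1
      funext k'
      by_cases hk : k' = k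
      · subst hk
        rw [Function.update_self, Function.update_self]
      · rw [Function.update_of_ne hk, Function.update_of_ne]
        intro h
        exact hk (congrArg Prod.snd h)
    · rw [Function.update_of_ne hi]
      refine Eq.trans ?_ (hs.1 x)
      congr 1
      funext k'
      rw [Function.update_of_ne]
      intro h
      exact hi (congrArg Prod.fst h)
  refine ⟨fun x => ?_, ?_⟩
  · unfold cmp
    rw [show (fun _ : ι => s fun _ => x) = fun _ => x from funext fun _ => hs.1 x]
    exact ht.1 x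
  · rintro ⟨i, k⟩ ⟨j, l⟩ x y
    rw [key, key, hs.2 k l x y]
    exact ht.2 _ _ _ _

theorem cl_cmp {m : ℕ} {X : Fin m → Type} {ι κ : Type} {E : Set (∀ i, X i)}
    {t : ∀ i, (ι → X i) → X i} {s : ∀ i, (κ → X i) → X i} (ht : Cl E t) (hs : Cl E s) :
    Cl E fun i => cmp (t i) (s i) := by
  intro a ha
  exact ht (fun i' i => s i fun k => a (i', k) i) fun i' => hs (fun k => a (i', k)) fun k => ha _

/-- operations of large arity -/
theorem exists_large {m : ℕ} {X : Fin m → Type} {E : Set (∀ i, X i)} {k : ℕ} (hk : 2 ≤ k)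
    {t : ∀ i, (Fin k → X i) → X i} (ht : ∀ i, IsWNU (t i)) (hE : Cl E t) (N : ℕ) :
    ∃ (ι : Type) (_ : Fintype ι) (_ : DecidableEq ι) (s : ∀ i, (ι → X i) → X i),
      N ≤ Fintype.card ι ∧ (∀ i, IsW (s i)) ∧ Cl E s := by
  have ht' : ∀ i, IsW (t i) := fun i => ⟨(ht i).1, (ht i).2⟩
  induction N with
  | zero => exact ⟨Fin k, inferInstance, inferInstance, t, Nat.zero_le _, ht', hE⟩
  | succ N ih =>
    obtain ⟨ι, _, _, s, hN, hs, hsE⟩ := ih
    rcases Nat.eq_zero_or_pos (Fintype.card ι) with h0 | h0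
    · refine ⟨Fin k, inferInstance, inferInstance, t, ?_, ht', hE⟩
      rw [Fintype.card_fin]
      omega
    · refine ⟨Fin k × ι, inferInstance, inferInstance, fun i => cmp (t i) (s i), ?_,
        fun i => isW_cmp (ht' i) (hs i), cl_cmp hE hsE⟩
      rw [Fintype.card_prod, Fintype.card_fin]
      nlinarith

/-- two different elements agree in at most one coordinate -/
def Lin {m : ℕ} {X : Fin m → Type} (E : Set (∀ i, X i)) : Prop :=
  ∀ a ∈ E, ∀ b ∈ E, ∀ i j, i ≠ j → a i = b i → a j = b j → a = b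

section Grid

variable {ι : Type} [Fintype ι] [DecidableEq ι] {X : Fin 3 → Type} (t : ∀ i, (ι → X i) → X i)
  (u u' : ∀ i, X i)

/-- the value of `t i` if the arguments in the positions in `S` are `u' i` and the others `u i` -/
def FG (i : Fin 3) (S : Finset ι) : X i := t i fun j => if j ∈ S then u' i else u i

variable {t u u'}

theorem exists_edgeG {E : Set (∀ i, X i)} (hE : Cl E t) (htri : ∀ i, tri u u' i ∈ E)
    {i j l : Fin 3} (hij : i ≠ j) (hli : l ≠ i) (hlj : l ≠ j) {A B : Finset ι}
    (hAB : Disjoint A B) :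
    ∃ a ∈ E, a i = FG t u u' i A ∧ a j = FG t u u' j B ∧ a l = FG t u u' l (A ∪ B)ᶜ := by
  let c : ι → Fin 3 := fun x => if x ∈ A then i else if x ∈ B then j else l
  refine ⟨fun m => t m fun x => tri u u' (c x) m, hE (fun x => tri u u' (c x)) (fun x => htri _),
    ?_, ?_, ?_⟩
  · refine congrArg (t i) (funext fun x => ?_)
    by_cases hA : x ∈ A
    · simp only [c, if_pos hA]
      exact tri_self i
    · simp only [c, if_neg hA]
      by_cases hB : x ∈ B
      · rw [if_pos hB]
        exact tri_ne hij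
      · rw [if_neg hB]
        exact tri_ne hli.symm
  · refine congrArg (t j) (funext fun x => ?_)
    by_cases hB : x ∈ B
    · have hA : x ∉ A := fun h => (disjoint_left.1 hAB) h hB
      simp only [c, if_neg hA, if_pos hB]
      exact tri_self j
    · simp only [c, if_neg hB]
      by_cases hA : x ∈ A
      · rw [if_pos hA]
        exact tri_ne hij.symm
      · rw [if_neg hA]
        exact tri_ne hlj.symm
  · refine congrArg (t l) (funext fun x => ?_)
    by_cases hA : x ∈ A
    · simp only [c, if_pos hA]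
      rw [if_neg (by simp [hA])]
      exact tri_ne hli
    · by_cases hB : x ∈ B
      · simp only [c, if_neg hA, if_pos hB]
        rw [if_neg (by simp [hB])]
        exact tri_ne hlj
      · simp only [c, if_neg hA, if_neg hB]
        rw [if_pos (by simp [hA, hB])]
        exact tri_self l

theorem FG_empty (ht : ∀ i, IsW (t i)) (i : Fin 3) : FG t u u' i ∅ = u i := by
  unfold FG
  simp [(ht i).1]

theorem FG_univ (ht : ∀ i, IsW (t i)) (i : Fin 3) : FG t u u' i univ = u' i := by
  unfold FG
  simp [(ht i).1]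

theorem FG_single (ht : ∀ i, IsW (t i)) (i : Fin 3) (p q : ι) :
    FG t u u' i {p} = FG t u u' i {q} := by
  have h : ∀ p : ι, FG t u u' i {p} = t i (Function.update (fun _ => u i) p (u' i)) := by
    intro p
    unfold FG
    congr 1
    funext x
    by_cases hx : x = p
    · subst hx
      simp
    · rw [Function.update_of_ne hx, if_neg (by simpa using hx)]
  rw [h, h]
  exact (ht i).2 _ _ _ _

theorem others : ∀ l : Fin 3, ∃ i j : Fin 3, i ≠ j ∧ l ≠ i ∧ l ≠ j := by decide

/-- exchange of one position -/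
theorem FG_swap {E : Set (∀ i, X i)} (hE : Cl E t) (hlin : Lin E) (ht : ∀ i, IsW (t i))
    (htri : ∀ i, tri u u' i ∈ E) (l : Fin 3) {D : Finset ι} {p q : ι} (hp : p ∉ D) (hq : q ∉ D) :
    FG t u u' l (insert p D) = FG t u u' l (insert q D) := by
  by_cases hpq : p = q
  · rw [hpq]
  obtain ⟨i, j, hij, hli, hlj⟩ := others l
  have hA : ∀ x : ι, x = p ∨ x = q → x ∉ (insert p (insert q D))ᶜ := by
    rintro x (rfl | rfl) <;> simp
  obtain ⟨a, ha, hai, haj, hal⟩ := exists_edgeG hE htri hij hli hlj
    (disjoint_singleton_left.2 (hA q (Or.inr rfl)))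
  obtain ⟨b, hb, hbi, hbj, hbl⟩ := exists_edgeG hE htri hij hli hlj
    (disjoint_singleton_left.2 (hA p (Or.inl rfl)))
  have h1 : a = b := hlin a ha b hb i j hij (by rw [hai, hbi]; exact FG_single ht i q p)
    (by rw [haj, hbj])
  have e1 : ({q} ∪ (insert p (insert q D))ᶜ : Finset ι)ᶜ = insert p D := by
    ext x
    simp only [mem_compl, mem_union, mem_singleton, mem_insert]
    constructor
    · intro h
      push Not at h
      rcases h.2 with h2 | h2 | h2
      · exact Or.inl h2
      · exact absurd h2 h.1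
      · exact Or.inr h2
    · rintro (rfl | h)
      · push Not
        exact ⟨hpq, Or.inl rfl⟩
      · push Not
        exact ⟨fun h' => hq (h' ▸ h), Or.inr (Or.inr h)⟩
  have e2 : ({p} ∪ (insert p (insert q D))ᶜ : Finset ι)ᶜ = insert q D := by
    ext x
    simp only [mem_compl, mem_union, mem_singleton, mem_insert]
    constructor
    · intro h
      push Not at h
      rcases h.2 with h2 | h2 | h2
      · exact absurd h2 h.1
      · exact Or.inl h2
      · exact Or.inr h2
    · rintro (rfl | h)
      · push Not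
        exact ⟨fun h' => hpq h'.symm, Or.inr (Or.inl rfl)⟩
      · push Not
        exact ⟨fun h' => hp (h' ▸ h), Or.inr (Or.inr h)⟩
  rw [e1] at hal
  rw [e2] at hbl
  rw [← hal, ← hbl, h1]

/-- the values are symmetric -/
theorem FG_card {E : Set (∀ i, X i)} (hE : Cl E t) (hlin : Lin E) (ht : ∀ i, IsW (t i))
    (htri : ∀ i, tri u u' i ∈ E) (l : Fin 3) :
    ∀ (n : ℕ) (S S' : Finset ι), #(S \ S') = n → #S = #S' → FG t u u' l S = FG t u u' l S' := by
  intro n
  induction n with
  | zero =>
    intro S S' h h'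
    have h1 : S ⊆ S' := sdiff_eq_empty_iff_subset.1 (card_eq_zero.1 h)
    rw [eq_of_subset_of_card_le h1 h'.ge]
  | succ n ih =>
    intro S S' h h'
    obtain ⟨p, hp⟩ : (S \ S').Nonempty := card_pos.1 (by omega)
    have h2 : #(S' \ S) = #(S \ S') := (card_sdiff_comm h').symm
    obtain ⟨q, hq⟩ : (S' \ S).Nonempty := card_pos.1 (by omega)
    rw [mem_sdiff] at hp hq
    have hqD : q ∉ S.erase p := fun h3 => hq.2 (mem_of_mem_erase h3)
    have h3 := FG_swap (u := u) (u' := u') hE hlin ht htri l (notMem_erase p S) hqD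
    rw [insert_erase hp.1] at h3
    rw [h3]
    have hc : #(insert q (S.erase p)) = #S := by
      rw [card_insert_of_notMem hqD, card_erase_of_mem hp.1]
      have : 0 < #S := card_pos.2 ⟨p, hp.1⟩
      omega
    refine ih _ _ ?_ (hc.trans h')
    have h4 : insert q (S.erase p) \ S' = (S \ S').erase p := by
      ext x
      simp only [mem_sdiff, mem_insert, mem_erase]
      constructor
      · rintro ⟨rfl | h5, h6⟩
        · exact absurd hq.1 h6
        · exact ⟨h5.1, h5.2, h6⟩
      · rintro ⟨h5, h6, h7⟩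
        exact ⟨Or.inr ⟨h5, h6⟩, h7⟩
    rw [h4, card_erase_of_mem (mem_sdiff.2 hp), h]
    rfl

/-- **The grid** generated by a triangle. -/
theorem exists_grid {E : Set (∀ i, X i)} (hE : Cl E t) (hlin : Lin E) (ht : ∀ i, IsW (t i))
    (htri : ∀ i, tri u u' i ∈ E) : ∃ g : ∀ i : Fin 3, ℕ → X i,
      (∀ i, g i 0 = u i) ∧ (∀ i, g i (Fintype.card ι) = u' i) ∧
      ∀ n : Fin 3 → ℕ, ∑ i, n i = Fintype.card ι → (fun i => g i (n i)) ∈ E := by
  classical
  set M := Fintype.card ι with hM
  have hex : ∀ n, n ≤ M → ∃ S : Finset ι, #S = n := by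
    intro n hn
    obtain ⟨S, -, hS⟩ := exists_subset_card_eq (s := (univ : Finset ι)) (n := n)
      (by rw [card_univ]; exact hn)
    exact ⟨S, hS⟩
  choose! T hT using hex
  let g : ∀ i : Fin 3, ℕ → X i := fun i n => FG t u u' i (T n)
  have hg : ∀ i (S : Finset ι), g i #S = FG t u u' i S := by
    intro i S
    have h1 : #S ≤ M := by rw [hM, ← card_univ]; exact card_le_card (subset_univ S)
    exact FG_card hE hlin ht htri i _ (T #S) S rfl (hT _ h1)
  refine ⟨g, ?_, ?_, ?_⟩
  · intro i
    have := hg i ∅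
    rwa [card_empty, FG_empty ht] at this
  · intro i
    have := hg i univ
    rwa [card_univ, FG_univ ht] at this
  · intro n hn
    rw [Fin.sum_univ_three] at hn
    obtain ⟨A, -, hA⟩ := exists_subset_card_eq (s := (univ : Finset ι)) (n := n 0)
      (by rw [card_univ]; omega)
    obtain ⟨B, hB, hBc⟩ := exists_subset_card_eq (s := Aᶜ) (n := n 1)
      (by rw [card_compl]; omega)
    have hAB : Disjoint A B := disjoint_of_subset_right hB disjoint_compl_right
    obtain ⟨a, ha, ha0, ha1, ha2⟩ := exists_edgeG hE htri (i := 0) (j := 1) (l := 2) (by decide)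
      (by decide) (by decide) hAB
    have h2 : #((A ∪ B)ᶜ) = n 2 := by
      rw [card_compl, card_union_of_disjoint hAB]
      omega
    have h3 : a = fun i => g i (n i) := by
      funext i
      fin_cases i
      · show a 0 = g 0 (n 0)
        rw [← hA, hg, ha0]
      · show a 1 = g 1 (n 1)
        rw [← hBc, hg, ha1]
      · show a 2 = g 2 (n 2)
        rw [← h2, hg, ha2]
    rw [← h3]
    exact ha

end Grid

section Period

variable {X : Fin 3 → Type} {E : Set (∀ i, X i)} {g : ∀ i : Fin 3, ℕ → X i} {M : ℕ}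

theorem sum3 {A : Type} [AddCommMonoid A] : ∀ {i j l : Fin 3}, i ≠ j → l ≠ i → l ≠ j →
    ∀ (n : Fin 3 → A), ∑ m, n m = n i + n j + n l := by
  intro i j l hij hli hlj n
  have h : (univ : Finset (Fin 3)) = {i, j, l} := by
    revert i j l
    decide
  rw [h, sum_insert (by simp [hij, hli.symm]), sum_insert (by simp [hlj.symm]), sum_singleton,
    add_assoc]

theorem edge3 {C : Type} [AddCommMonoid C] {g : ∀ i : Fin 3, C → X i} {M : C}
    (hg : ∀ n : Fin 3 → C, ∑ i, n i = M → (fun i => g i (n i)) ∈ E) {i j l : Fin 3}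
    (hij : i ≠ j) (hli : l ≠ i) (hlj : l ≠ j) (p q r : C) (h : p + q + r = M) :
    ∃ a ∈ E, a i = g i p ∧ a j = g j q ∧ a l = g l r := by
  let n : Fin 3 → C := fun m => if m = i then p else if m = j then q else r
  have hi : n i = p := if_pos rfl
  have hj : n j = q := by
    show (if j = i then p else if j = j then q else r) = q
    rw [if_neg hij.symm, if_pos rfl]
  have hl : n l = r := by
    show (if l = i then p else if l = j then q else r) = r
    rw [if_neg hli, if_neg hlj]
  refine ⟨fun m => g m (n m), hg n ?_, by rw [← hi], by rw [← hj], by rw [← hl]⟩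
  rw [sum3 hij hli hlj, hi, hj, hl, h]

theorem shift (hlin : Lin E) (hg : ∀ n : Fin 3 → ℕ, ∑ i, n i = M → (fun i => g i (n i)) ∈ E)
    {i l : Fin 3} (hli : l ≠ i) {p q δ : ℕ} (h : p + δ + q ≤ M) (hp : g i p = g i (p + δ)) :
    g l q = g l (q + δ) := by
  obtain ⟨j, hji, hjl⟩ := third i l hli.symm
  obtain ⟨a, ha, hai, haj, hal⟩ := edge3 hg hji.symm hli hjl.symm p (M - p - δ - q) (q + δ)
    (by omega)
  obtain ⟨b, hb, hbi, hbj, hbl⟩ := edge3 hg hji.symm hli hjl.symm (p + δ) (M - p - δ - q) q
    (by omega)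
  have h1 : a = b := hlin a ha b hb i j hji.symm (by rw [hai, hbi, hp]) (by rw [haj, hbj])
  rw [← hal, ← hbl, h1]

theorem avoid : ∀ i m : Fin 3, ∃ l, l ≠ i ∧ l ≠ m := by decide

theorem per (hlin : Lin E) (hg : ∀ n : Fin 3 → ℕ, ∑ i, n i = M → (fun i => g i (n i)) ∈ E)
    {i : Fin 3} {p δ : ℕ} (h : p + δ ≤ M) (hp : g i p = g i (p + δ)) (m : Fin 3) {q : ℕ}
    (hq : q + δ ≤ M) : g m q = g m (q + δ) := by
  obtain ⟨l, hli, hlm⟩ := avoid i m
  have h1 : g l 0 = g l (0 + δ) := shift hlin hg hli (p := p) (by omega) hp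
  exact shift hlin hg hlm.symm (p := 0) (by omega) h1

theorem per_mod (hlin : Lin E)
    (hg : ∀ n : Fin 3 → ℕ, ∑ i, n i = M → (fun i => g i (n i)) ∈ E) {i : Fin 3} {p δ : ℕ}
    (h : p + δ ≤ M) (hp : g i p = g i (p + δ)) (m : Fin 3) :
    ∀ q, q ≤ M → g m q = g m (q % δ) := by
  intro q
  induction q using Nat.strong_induction_on with
  | _ q ih =>
    intro hq
    rcases Nat.eq_zero_or_pos δ with h0 | h0
    · rw [h0, Nat.mod_zero]
    · by_cases hlt : q < δ
      · rw [Nat.mod_eq_of_lt hlt]
      · push Not at hlt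
        have h1 := per hlin hg h hp m (q := q - δ) (by omega)
        rw [Nat.sub_add_cancel hlt] at h1
        rw [← h1, ih (q - δ) (by omega) (by omega), Nat.mod_eq_sub_mod hlt]

/-- **A triangle is contained in an addition table modulo `δ`.** -/
theorem exists_cyclic [∀ i, Fintype (X i)] (hlin : Lin E) {k : ℕ} (hk : 2 ≤ k)
    {t : ∀ i, (Fin k → X i) → X i} (ht : ∀ i, IsWNU (t i)) (hE : Cl E t) {u u' : ∀ i, X i}
    (hne : ∀ i, u i ≠ u' i) (htri : ∀ i, tri u u' i ∈ E) :
    ∃ (δ : ℕ) (c : ZMod δ) (h : ∀ i, ZMod δ → X i), 2 ≤ δ ∧ (∀ i, Function.Injective (h i)) ∧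
      (∀ i, h i 0 = u i) ∧ (∀ i, h i c = u' i) ∧
      ∀ n : Fin 3 → ZMod δ, ∑ i, n i = c → (fun i => h i (n i)) ∈ E := by
  classical
  obtain ⟨ι, _, _, s, hN, hs, hsE⟩ := exists_large hk ht hE (2 * Fintype.card (X 0))
  obtain ⟨g, hg0, hgM, hg⟩ := exists_grid hsE hlin hs htri
  set M := Fintype.card ι with hM
  -- a coincidence
  have hex : ∃ δ, 1 ≤ δ ∧ ∃ i p, p + δ ≤ M ∧ g i p = g i (p + δ) := by
    obtain ⟨p, hp, q, hq, hpq, hgpq⟩ := exists_ne_map_eq_of_card_lt_of_maps_to
      (s := range (Fintype.card (X 0) + 1)) (t := (univ : Finset (X 0)))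
      (by rw [card_range, card_univ]; omega) (f := g 0) (fun _ _ => mem_coe.2 (mem_univ _))
    rw [mem_range] at hp hq
    rcases Nat.lt_or_gt_of_ne hpq with h | h
    · exact ⟨q - p, by omega, 0, p, by omega, by rw [hgpq]; congr 1; omega⟩
    · exact ⟨p - q, by omega, 0, q, by omega, by rw [← hgpq]; congr 1; omega⟩
  have hle : Nat.find hex ≤ Fintype.card (X 0) := by
    obtain ⟨p, hp, q, hq, hpq, hgpq⟩ := exists_ne_map_eq_of_card_lt_of_maps_to
      (s := range (Fintype.card (X 0) + 1)) (t := (univ : Finset (X 0)))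
      (by rw [card_range, card_univ]; omega) (f := g 0) (fun _ _ => mem_coe.2 (mem_univ _))
    rw [mem_range] at hp hq
    rcases Nat.lt_or_gt_of_ne hpq with h | h
    · exact (Nat.find_min' hex ⟨by omega, 0, p, by omega, by rw [hgpq]; congr 1; omega⟩ :
        _ ≤ q - p).trans (by omega)
    · exact (Nat.find_min' hex ⟨by omega, 0, q, by omega, by rw [← hgpq]; congr 1; omega⟩ :
        _ ≤ p - q).trans (by omega)
  set δ := Nat.find hex with hδ
  obtain ⟨hδ1, i₀, p₀, hp₀, hgp₀⟩ := Nat.find_spec hex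
  rw [← hδ] at hδ1 hp₀ hgp₀
  have hmod := fun m => per_mod hlin hg hp₀ hgp₀ m
  have hinj : ∀ m p q, p < q → q < δ → g m p ≠ g m q := by
    intro m p q hpq hq h
    have h1 : δ ≤ q - p := Nat.find_min' hex ⟨by omega, m, p, by omega, by
      rw [h]; congr 1; omega⟩
    omega
  have hinj' : ∀ m p q, p < δ → q < δ → g m p = g m q → p = q := by
    intro m p q hp hq h
    rcases lt_trichotomy p q with h1 | h1 | h1
    · exact absurd h (hinj m p q h1 hq)
    · exact h1
    · exact absurd h.symm (hinj m q p h1 hp)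
  have hδ2 : 2 ≤ δ := by
    by_contra hcon
    have h1 : δ = 1 := by omega
    have h2 := hmod 0 M le_rfl
    rw [h1, Nat.mod_one, hg0, hgM] at h2
    exact hne 0 h2.symm
  have : NeZero δ := ⟨by omega⟩
  refine ⟨δ, (M : ZMod δ), fun i n => g i n.val, hδ2, ?_, ?_, ?_, ?_⟩
  · intro i a b hab
    exact ZMod.val_injective δ (hinj' i _ _ (ZMod.val_lt a) (ZMod.val_lt b) hab)
  · intro i
    show g i (0 : ZMod δ).val = u i
    rw [ZMod.val_zero, hg0]
  · intro i
    show g i ((M : ZMod δ)).val = u' i
    rw [ZMod.val_natCast, ← hmod i M le_rfl, hgM]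
  · intro n hn
    have hl0 := ZMod.val_lt (n 0)
    have hl1 := ZMod.val_lt (n 1)
    obtain ⟨a, ha, ha0, ha1, ha2⟩ := edge3 hg (i := 0) (j := 1) (l := 2) (by decide) (by decide)
      (by decide) (n 0).val (n 1).val (M - (n 0).val - (n 1).val) (by omega)
    have h2 : (n 2).val = (M - (n 0).val - (n 1).val) % δ := by
      rw [← ZMod.val_natCast]
      congr 1
      rw [Nat.cast_sub (by omega), Nat.cast_sub (by omega), ZMod.natCast_zmod_val,
        ZMod.natCast_zmod_val, ← hn, Fin.sum_univ_three]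
      ring
    have h3 : a = fun i => g i (n i).val := by
      funext i
      fin_cases i
      · exact ha0
      · exact ha1
      · show a 2 = g 2 (n 2).val
        rw [ha2, h2]
        exact hmod 2 _ (by omega)
    show (fun i => g i (n i).val) ∈ E
    rw [← h3]
    exact ha

end Period

end Pool.Agent.U422.TLat
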