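import Pool.Agent.U422.TRemoval

/-!
# Growth of sparse configurations without linearity

Let `E ⊆ X 0 × X 1 × X 2` be closed under weak near unanimity operations, and let `S` be a set of
vertices which is closed: an element of `E` with two coordinates in `S` has its third coordinate in
`S`. If `S` contains two vertices of a triangle of `E` but not the third one then up to seven
vertices can be added to `S` such that all intermediate sets have excess at most one more, and the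
final one the same excess.
-/

set_option autoImplicit false

namespace Pool.Agent.U422.TLat

open Finset Pool.Agent.R181.Maj Pool.Agent.U422.Gumm Pool.Agent.U422.Taylor

section Tuples

variable {X : Fin 3 → Type}

theorem sigma_ne {i j : Fin 3} (h : i ≠ j) {a : X i} {b : X j} : (⟨i, a⟩ : Sigma X) ≠ ⟨j, b⟩ :=
  fun h' => h (congrArg Sigma.fst h')

/-- the triple -/
def tp (a : X 0) (b : X 1) (g : X 2) : ∀ i : Fin 3, X i
  | 0 => a
  | 1 => b
  | 2 => g

theorem eq_tp (c : ∀ i, X i) : c = tp (c 0) (c 1) (c 2) := by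
  funext i
  fin_cases i <;> rfl

theorem all_tp {a : X 0} {b : X 1} {g : X 2} {S : Finset (Sigma X)} (h0 : (⟨0, a⟩ : Sigma X) ∈ S)
    (h1 : (⟨1, b⟩ : Sigma X) ∈ S) (h2 : (⟨2, g⟩ : Sigma X) ∈ S) :
    ∀ i, (⟨i, tp a b g i⟩ : Sigma X) ∈ S := by
  intro i
  fin_cases i
  · exact h0
  · exact h1
  · exact h2

variable {ι : Type} [Fintype ι] [DecidableEq ι] {t : ∀ i, (ι → X i) → X i} {u u' : ∀ i, X i}

theorem FG_cosingle (ht : ∀ i, IsW (t i)) (i : Fin 3) (p q : ι) :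
    FG t u u' i {p}ᶜ = FG t u u' i {q}ᶜ := by
  have h : ∀ p : ι, FG t u u' i {p}ᶜ = t i (Function.update (fun _ => u' i) p (u i)) := by
    intro p
    unfold FG
    congr 1
    funext x
    by_cases hx : x = p
    · subst hx
      simp
    · rw [Function.update_of_ne hx, if_pos (by simpa using hx)]
  rw [h, h]
  exact (ht i).2 _ _ _ _

theorem tp_mem {E : Set (∀ i, X i)} (hE : Cl E t) (htri : ∀ i, tri u u' i ∈ E) {A B : Finset ι}
    (hAB : Disjoint A B) : tp (FG t u u' 0 A) (FG t u u' 1 B) (FG t u u' 2 (A ∪ B)ᶜ) ∈ E := by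
  obtain ⟨a, ha, h0, h1, h2⟩ := exists_edgeG hE htri (i := 0) (j := 1) (l := 2) (by decide)
    (by decide) (by decide) hAB
  rw [← h0, ← h1, ← h2, ← eq_tp]
  exact ha

end Tuples

section Closed

variable {X : Fin 3 → Type}

/-- `S` is closed: if two coordinates of an element of `E` are in `S` then all of them are. -/
def Clo (E : Set (∀ i, X i)) (S : Finset (Sigma X)) : Prop :=
  ∀ a ∈ E, ∀ i j, i ≠ j → (⟨i, a i⟩ : Sigma X) ∈ S → (⟨j, a j⟩ : Sigma X) ∈ S →
    ∀ m, (⟨m, a m⟩ : Sigma X) ∈ S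

variable {ι : Type} [Fintype ι] [DecidableEq ι] {t : ∀ i, (ι → X i) → X i} {u u' : ∀ i, X i}

theorem closed_mem {E : Set (∀ i, X i)} (hE : Cl E t) (ht : ∀ i, IsW (t i))
    (htri : ∀ i, tri u u' i ∈ E) {S : Finset (Sigma X)} (hS : Clo E S)
    (h0 : (⟨0, u 0⟩ : Sigma X) ∈ S) (h1 : (⟨1, u 1⟩ : Sigma X) ∈ S) {p : ι}
    (hx : (⟨0, FG t u u' 0 {p}⟩ : Sigma X) ∈ S) : (⟨2, u 2⟩ : Sigma X) ∈ S := by
  have hG : (⟨2, FG t u u' 2 {p}ᶜ⟩ : Sigma X) ∈ S := by
    have h := tp_mem (u := u) (u' := u') hE htri (disjoint_empty_right {p})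
    rw [union_empty, FG_empty ht] at h
    exact hS _ h 0 1 (by decide) hx h1 2
  have hY : ∀ q : ι, (⟨1, FG t u u' 1 {q}⟩ : Sigma X) ∈ S := by
    intro q
    have h := tp_mem (u := u) (u' := u') hE htri (disjoint_empty_left {q})
    rw [empty_union, FG_empty ht, FG_cosingle ht 2 q p] at h
    exact hS _ h 0 2 (by decide) h0 hG 1
  have hA : ∀ A : Finset ι, (⟨0, FG t u u' 0 A⟩ : Sigma X) ∈ S := by
    intro A
    induction A using Finset.induction_on with
    | empty =>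
      rw [FG_empty ht]
      exact h0
    | insert q A hq ih =>
      have h := tp_mem (u := u) (u' := u') hE htri (disjoint_singleton_right.2 hq)
      have h2 : (⟨2, FG t u u' 2 (A ∪ {q})ᶜ⟩ : Sigma X) ∈ S :=
        hS _ h 0 1 (by decide) ih (hY q) 2
      have h3 := tp_mem (u := u) (u' := u') hE htri (disjoint_empty_right (insert q A))
      rw [union_empty, FG_empty ht] at h3
      have h4 : A ∪ {q} = insert q A := by
        rw [union_comm]
        rfl
      rw [h4] at h2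
      exact hS _ h3 1 2 (by decide) h1 h2 0
  have h5 := hA univ
  rw [FG_univ ht] at h5
  have h6 : tri u u' 0 0 = u' 0 := tri_self 0
  have h7 : tri u u' 0 1 = u 1 := tri_ne (by decide)
  have h8 : tri u u' 0 2 = u 2 := tri_ne (by decide)
  have h9 := hS _ (htri 0) 0 1 (by decide) (by rw [h6]; exact h5) (by rw [h7]; exact h1) 2
  rwa [h8] at h9

end Closed

section Chain

variable {X : Fin 3 → Type} [∀ i, DecidableEq (X i)] {E : Finset (∀ i, X i)}

/-- the sparse configuration -/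
theorem chain {s : ℕ} (hs : ∀ T : Finset (Sigma X), #T ≤ #(ins E T) + 3 → #T ≠ s)
    {S : Finset (Sigma X)} (hS : #S ≤ #(ins E S) + 2) (hSs : #S < s)
    {u0 x1 x2 : X 0} {u1 y1 y2 : X 1} {g1 g2 g3 : X 2}
    (e1 : tp x1 u1 g1 ∈ E) (e2 : tp u0 y1 g1 ∈ E) (e3 : tp x1 y1 g2 ∈ E) (e4 : tp x2 u1 g2 ∈ E)
    (e5 : tp u0 y2 g2 ∈ E) (e6 : tp x1 y2 g3 ∈ E) (e7 : tp x2 y1 g3 ∈ E)
    (hu0 : (⟨0, u0⟩ : Sigma X) ∈ S) (hu1 : (⟨1, u1⟩ : Sigma X) ∈ S)
    (hx1 : (⟨0, x1⟩ : Sigma X) ∉ S) (hg1 : (⟨2, g1⟩ : Sigma X) ∉ S)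
    (hy1 : (⟨1, y1⟩ : Sigma X) ∉ S) :
    ∃ S' : Finset (Sigma X), S ⊆ S' ∧ #S < #S' ∧ #S' ≤ #(ins E S') + 2 ∧ #S' < s := by
  classical
  have lt_of : ∀ (T : Finset (Sigma X)) (v : Sigma X), #T < s →
      #(insert v T) ≤ #(ins E (insert v T)) + 3 → #(insert v T) < s := by
    intro T v h1 h2
    have h3 := hs _ h2
    have h4 := card_insert_le v T
    omega
  have step1 : ∀ (T : Finset (Sigma X)) (v : Sigma X) (c : ∀ i, X i), v ∉ T → c ∈ E →
      (∃ i, v = ⟨i, c i⟩) → (∀ i, (⟨i, c i⟩ : Sigma X) ∈ insert v T) → #T ≤ #(ins E T) + 3 →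
      #T < s → #(insert v T) ≤ #(ins E (insert v T)) + 3 ∧ #(insert v T) < s := by
    intro T v c hv hc hvc hcT h1 h2
    have h3 := card_ins_insert (E := E) hv {c} (by
      intro d hd
      rw [mem_singleton] at hd
      subst hd
      exact ⟨hc, hvc, hcT⟩)
    rw [card_singleton] at h3
    have h4 : #(insert v T) ≤ #(ins E (insert v T)) + 3 := by
      rw [card_insert_of_notMem hv]
      omega
    exact ⟨h4, lt_of T v h2 h4⟩
  have step2 : ∀ (T : Finset (Sigma X)) (v : Sigma X) (c d : ∀ i, X i), v ∉ T → c ∈ E → d ∈ E →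
      c ≠ d → (∃ i, v = ⟨i, c i⟩) → (∃ i, v = ⟨i, d i⟩) →
      (∀ i, (⟨i, c i⟩ : Sigma X) ∈ insert v T) → (∀ i, (⟨i, d i⟩ : Sigma X) ∈ insert v T) →
      #T ≤ #(ins E T) + 3 → #T < s →
      #(insert v T) ≤ #(ins E (insert v T)) + 2 ∧ #(insert v T) < s := by
    intro T v c d hv hc hd hcd hvc hvd hcT hdT h1 h2
    have h3 := card_ins_insert (E := E) hv {c, d} (by
      intro b hb
      rw [mem_insert, mem_singleton] at hb
      rcases hb with rfl | rfl
      · exact ⟨hc, hvc, hcT⟩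
      · exact ⟨hd, hvd, hdT⟩)
    rw [card_pair hcd] at h3
    have h4 : #(insert v T) ≤ #(ins E (insert v T)) + 2 := by
      rw [card_insert_of_notMem hv]
      omega
    exact ⟨h4, lt_of T v h2 (by omega)⟩
  have hux : u0 ≠ x1 := by
    rintro rfl
    exact hx1 hu0
  have huy : u1 ≠ y1 := by
    rintro rfl
    exact hy1 hu1
  -- the first vertex
  obtain ⟨T1, hT1⟩ : ∃ T1 : Finset (Sigma X), T1 = insert ⟨0, x1⟩ S := ⟨_, rfl⟩
  have L1 : #T1 ≤ #(ins E T1) + 3 := by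
    have h1 := card_le_card (ins_mono (E := E) (subset_insert (⟨0, x1⟩ : Sigma X) S))
    rw [hT1, card_insert_of_notMem hx1]
    omega
  have B1 : #T1 < s := by
    have := lt_of S ⟨0, x1⟩ hSs (by rw [← hT1]; exact L1)
    rwa [← hT1] at this
  have C1 : #S < #T1 := by
    rw [hT1, card_insert_of_notMem hx1]
    exact Nat.lt_succ_self _
  have S1 : S ⊆ T1 := by
    rw [hT1]
    exact subset_insert _ _
  have x1T1 : (⟨0, x1⟩ : Sigma X) ∈ T1 := by
    rw [hT1]
    exact mem_insert_self _ _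
  have g1T1 : (⟨2, g1⟩ : Sigma X) ∉ T1 := by
    rw [hT1, mem_insert]
    rintro (h | h)
    · exact sigma_ne (by decide) h
    · exact hg1 h
  have y1T1 : (⟨1, y1⟩ : Sigma X) ∉ T1 := by
    rw [hT1, mem_insert]
    rintro (h | h)
    · exact sigma_ne (by decide) h
    · exact hy1 h
  -- the second vertex
  obtain ⟨T2, hT2⟩ : ∃ T2 : Finset (Sigma X), T2 = insert ⟨2, g1⟩ T1 := ⟨_, rfl⟩
  obtain ⟨L2, B2⟩ := step1 T1 ⟨2, g1⟩ _ g1T1 e1 ⟨2, rfl⟩
    (all_tp (mem_insert_of_mem x1T1) (mem_insert_of_mem (S1 hu1)) (mem_insert_self _ _)) L1 B1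
  rw [← hT2] at L2 B2
  have S2 : T1 ⊆ T2 := by
    rw [hT2]
    exact subset_insert _ _
  have g1T2 : (⟨2, g1⟩ : Sigma X) ∈ T2 := by
    rw [hT2]
    exact mem_insert_self _ _
  have y1T2 : (⟨1, y1⟩ : Sigma X) ∉ T2 := by
    rw [hT2, mem_insert]
    rintro (h | h)
    · exact sigma_ne (by decide) h
    · exact y1T1 h
  -- the third vertex
  obtain ⟨T3, hT3⟩ : ∃ T3 : Finset (Sigma X), T3 = insert ⟨1, y1⟩ T2 := ⟨_, rfl⟩
  have S3 : T2 ⊆ T3 := by
    rw [hT3]
    exact subset_insert _ _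
  have y1T3 : (⟨1, y1⟩ : Sigma X) ∈ T3 := by
    rw [hT3]
    exact mem_insert_self _ _
  have e23 : tp u0 y1 g1 ≠ tp x1 y1 g2 := fun h => hux (congrFun h 0)
  by_cases hg2 : (⟨2, g2⟩ : Sigma X) ∈ T2
  · obtain ⟨L3, B3⟩ := step2 T2 ⟨1, y1⟩ _ _ y1T2 e2 e3 e23 ⟨1, rfl⟩ ⟨1, rfl⟩
      (all_tp (mem_insert_of_mem (S2 (S1 hu0))) (mem_insert_self _ _) (mem_insert_of_mem g1T2))
      (all_tp (mem_insert_of_mem (S2 x1T1)) (mem_insert_self _ _) (mem_insert_of_mem hg2)) L2 B2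
    rw [← hT3] at L3 B3
    exact ⟨T3, S1.trans (S2.trans S3), C1.trans_le (card_le_card (S2.trans S3)), L3, B3⟩
  obtain ⟨L3, B3⟩ := step1 T2 ⟨1, y1⟩ _ y1T2 e2 ⟨1, rfl⟩
    (all_tp (mem_insert_of_mem (S2 (S1 hu0))) (mem_insert_self _ _) (mem_insert_of_mem g1T2)) L2 B2
  rw [← hT3] at L3 B3
  have g2T3 : (⟨2, g2⟩ : Sigma X) ∉ T3 := by
    rw [hT3, mem_insert]
    rintro (h | h)
    · exact sigma_ne (by decide) h
    · exact hg2 h
  have u0T3 : (⟨0, u0⟩ : Sigma X) ∈ T3 := S3 (S2 (S1 hu0))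
  have u1T3 : (⟨1, u1⟩ : Sigma X) ∈ T3 := S3 (S2 (S1 hu1))
  have x1T3 : (⟨0, x1⟩ : Sigma X) ∈ T3 := S3 (S2 x1T1)
  -- the fourth vertex
  obtain ⟨T4, hT4⟩ : ∃ T4 : Finset (Sigma X), T4 = insert ⟨2, g2⟩ T3 := ⟨_, rfl⟩
  have S4 : T3 ⊆ T4 := by
    rw [hT4]
    exact subset_insert _ _
  have g2T4 : (⟨2, g2⟩ : Sigma X) ∈ T4 := by
    rw [hT4]
    exact mem_insert_self _ _
  have hsub4 : S ⊆ T4 := S1.trans (S2.trans (S3.trans S4))
  have hlt4 : #S < #T4 := C1.trans_le (card_le_card (S2.trans (S3.trans S4)))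
  by_cases hx2 : (⟨0, x2⟩ : Sigma X) ∈ T3
  · obtain ⟨L4, B4⟩ := step2 T3 ⟨2, g2⟩ _ _ g2T3 e3 e4 (fun h => huy (congrFun h 1).symm)
      ⟨2, rfl⟩ ⟨2, rfl⟩
      (all_tp (mem_insert_of_mem x1T3) (mem_insert_of_mem y1T3) (mem_insert_self _ _))
      (all_tp (mem_insert_of_mem hx2) (mem_insert_of_mem u1T3) (mem_insert_self _ _)) L3 B3
    rw [← hT4] at L4 B4
    exact ⟨T4, hsub4, hlt4, L4, B4⟩
  by_cases hy2 : (⟨1, y2⟩ : Sigma X) ∈ T3
  · obtain ⟨L4, B4⟩ := step2 T3 ⟨2, g2⟩ _ _ g2T3 e3 e5 (fun h => hux (congrFun h 0).symm)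
      ⟨2, rfl⟩ ⟨2, rfl⟩
      (all_tp (mem_insert_of_mem x1T3) (mem_insert_of_mem y1T3) (mem_insert_self _ _))
      (all_tp (mem_insert_of_mem u0T3) (mem_insert_of_mem hy2) (mem_insert_self _ _)) L3 B3
    rw [← hT4] at L4 B4
    exact ⟨T4, hsub4, hlt4, L4, B4⟩
  obtain ⟨L4, B4⟩ := step1 T3 ⟨2, g2⟩ _ g2T3 e3 ⟨2, rfl⟩
    (all_tp (mem_insert_of_mem x1T3) (mem_insert_of_mem y1T3) (mem_insert_self _ _)) L3 B3
  rw [← hT4] at L4 B4
  have x2T4 : (⟨0, x2⟩ : Sigma X) ∉ T4 := by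
    rw [hT4, mem_insert]
    rintro (h | h)
    · exact sigma_ne (by decide) h
    · exact hx2 h
  have y2T4 : (⟨1, y2⟩ : Sigma X) ∉ T4 := by
    rw [hT4, mem_insert]
    rintro (h | h)
    · exact sigma_ne (by decide) h
    · exact hy2 h
  -- the fifth vertex
  obtain ⟨T5, hT5⟩ : ∃ T5 : Finset (Sigma X), T5 = insert ⟨0, x2⟩ T4 := ⟨_, rfl⟩
  obtain ⟨L5, B5⟩ := step1 T4 ⟨0, x2⟩ _ x2T4 e4 ⟨0, rfl⟩
    (all_tp (mem_insert_self _ _) (mem_insert_of_mem (S4 u1T3)) (mem_insert_of_mem g2T4)) L4 B4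
  rw [← hT5] at L5 B5
  have S5 : T4 ⊆ T5 := by
    rw [hT5]
    exact subset_insert _ _
  have x2T5 : (⟨0, x2⟩ : Sigma X) ∈ T5 := by
    rw [hT5]
    exact mem_insert_self _ _
  have y2T5 : (⟨1, y2⟩ : Sigma X) ∉ T5 := by
    rw [hT5, mem_insert]
    rintro (h | h)
    · exact sigma_ne (by decide) h
    · exact y2T4 h
  -- the sixth vertex
  obtain ⟨T6, hT6⟩ : ∃ T6 : Finset (Sigma X), T6 = insert ⟨1, y2⟩ T5 := ⟨_, rfl⟩
  have S6 : T5 ⊆ T6 := by
    rw [hT6]
    exact subset_insert _ _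
  by_cases hg3 : (⟨2, g3⟩ : Sigma X) ∈ T5
  · obtain ⟨L6, B6⟩ := step2 T5 ⟨1, y2⟩ _ _ y2T5 e5 e6 (fun h => hux (congrFun h 0))
      ⟨1, rfl⟩ ⟨1, rfl⟩
      (all_tp (mem_insert_of_mem (S5 (S4 u0T3))) (mem_insert_self _ _)
        (mem_insert_of_mem (S5 g2T4)))
      (all_tp (mem_insert_of_mem (S5 (S4 x1T3))) (mem_insert_self _ _) (mem_insert_of_mem hg3))
      L5 B5
    rw [← hT6] at L6 B6
    exact ⟨T6, hsub4.trans (S5.trans S6), hlt4.trans_le (card_le_card (S5.trans S6)), L6, B6⟩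
  obtain ⟨L6, B6⟩ := step1 T5 ⟨1, y2⟩ _ y2T5 e5 ⟨1, rfl⟩
    (all_tp (mem_insert_of_mem (S5 (S4 u0T3))) (mem_insert_self _ _)
      (mem_insert_of_mem (S5 g2T4))) L5 B5
  rw [← hT6] at L6 B6
  have y2T6 : (⟨1, y2⟩ : Sigma X) ∈ T6 := by
    rw [hT6]
    exact mem_insert_self _ _
  have g3T6 : (⟨2, g3⟩ : Sigma X) ∉ T6 := by
    rw [hT6, mem_insert]
    rintro (h | h)
    · exact sigma_ne (by decide) h
    · exact hg3 h
  -- the seventh vertex
  have hx12 : x1 ≠ x2 := by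
    rintro rfl
    exact hx2 x1T3
  obtain ⟨L7, B7⟩ := step2 T6 ⟨2, g3⟩ _ _ g3T6 e6 e7 (fun h => hx12 (congrFun h 0))
    ⟨2, rfl⟩ ⟨2, rfl⟩
    (all_tp (mem_insert_of_mem (S6 (S5 (S4 x1T3)))) (mem_insert_of_mem y2T6)
      (mem_insert_self _ _))
    (all_tp (mem_insert_of_mem (S6 x2T5)) (mem_insert_of_mem (S6 (S5 (S4 y1T3))))
      (mem_insert_self _ _)) L6 B6
  exact ⟨_, hsub4.trans (S5.trans (S6.trans (subset_insert _ _))),
    hlt4.trans_le (card_le_card (S5.trans (S6.trans (subset_insert _ _)))), L7, B7⟩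

end Chain

section Good

variable {X : Fin 3 → Type} [∀ i, Fintype (X i)] [∀ i, DecidableEq (X i)] {E : Finset (∀ i, X i)}

/-- the triangle at `a` given by a good vertex -/
theorem good_tri {a : ∀ i, X i} (haE : a ∈ E) {z : X 2} (hz : z ∈ good E a) :
    ∃ u u' : ∀ i, X i, u 0 = a 0 ∧ u 1 = a 1 ∧ u 2 = z ∧ ∀ i, tri u u' i ∈ E := by
  classical
  rw [good, mem_filter] at hz
  obtain ⟨-, ⟨b, hb, hb1, hb2⟩, ⟨c, hc, hc0, hc2⟩, hza⟩ := hz
  -- the triangle
  let u : ∀ i, X i := Function.update a 2 z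
  let u' : ∀ i, X i := Function.update (Function.update a 0 (b 0)) 1 (c 1)
  have u0 : u 0 = a 0 := Function.update_of_ne (by decide) _ _
  have u1 : u 1 = a 1 := Function.update_of_ne (by decide) _ _
  have u2 : u 2 = z := Function.update_self _ _ _
  have v0 : u' 0 = b 0 := by
    show Function.update (Function.update a 0 (b 0)) 1 (c 1) 0 = b 0
    rw [Function.update_of_ne (by decide), Function.update_self]
  have v1 : u' 1 = c 1 := Function.update_self _ _ _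
  have v2 : u' 2 = a 2 := by
    show Function.update (Function.update a 0 (b 0)) 1 (c 1) 2 = a 2
    rw [Function.update_of_ne (by decide), Function.update_of_ne (by decide)]
  have t0 : tri u u' 0 = b := by
    funext i
    fin_cases i
    · exact (tri_self 0).trans v0
    · exact (tri_ne (by decide)).trans (u1.trans hb1.symm)
    · exact (tri_ne (by decide)).trans (u2.trans hb2.symm)
  have t1 : tri u u' 1 = c := by
    funext i
    fin_cases i
    · exact (tri_ne (by decide)).trans (u0.trans hc0.symm)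
    · exact (tri_self 1).trans v1
    · exact (tri_ne (by decide)).trans (u2.trans hc2.symm)
  have t2 : tri u u' 2 = a := by
    funext i
    fin_cases i
    · exact (tri_ne (by decide)).trans u0
    · exact (tri_ne (by decide)).trans u1
    · exact (tri_self 2).trans v2
  refine ⟨u, u', u0, u1, u2, fun i => ?_⟩
  fin_cases i
  · show tri u u' 0 ∈ E
    rw [t0]; exact hb
  · show tri u u' 1 ∈ E
    rw [t1]; exact hc
  · show tri u u' 2 ∈ E
    rw [t2]; exact haE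

/-- growth of a closed set -/
theorem grow {ι : Type} [Fintype ι] [DecidableEq ι] (hι : 3 ≤ Fintype.card ι)
    {t : ∀ i, (ι → X i) → X i} (ht : ∀ i, IsW (t i)) (hE : Cl (E : Set (∀ i, X i)) t) {s : ℕ}
    (hs : ∀ T : Finset (Sigma X), #T ≤ #(ins E T) + 3 → #T ≠ s) {a : ∀ i, X i} (haE : a ∈ E)
    {S : Finset (Sigma X)} (haS : ∀ i, (⟨i, a i⟩ : Sigma X) ∈ S) (hS : #S ≤ #(ins E S) + 2)
    (hSs : #S < s) (hcl : Clo (E : Set (∀ i, X i)) S) {z : X 2} (hz : z ∈ good E a)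
    (hzS : (⟨2, z⟩ : Sigma X) ∉ S) :
    ∃ S' : Finset (Sigma X), S ⊆ S' ∧ #S < #S' ∧ #S' ≤ #(ins E S') + 2 ∧ #S' < s := by
  obtain ⟨u, u', hu0, hu1, hu2, htri⟩ := good_tri haE hz
  have htri' : ∀ i, tri u u' i ∈ (E : Set (∀ i, X i)) := fun i => mem_coe.2 (htri i)
  obtain ⟨p, q, r, hpq, hpr, hqr⟩ := Fintype.two_lt_card_iff.1 (show 2 < Fintype.card ι by omega)
  have h0 : (⟨0, u 0⟩ : Sigma X) ∈ S := by rw [hu0]; exact haS 0
  have h1 : (⟨1, u 1⟩ : Sigma X) ∈ S := by rw [hu1]; exact haS 1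
  have hx1 : (⟨0, FG t u u' 0 {p}⟩ : Sigma X) ∉ S := by
    intro hx
    have := closed_mem hE ht htri' hcl h0 h1 hx
    rw [hu2] at this
    exact hzS this
  -- the edges
  have e1 := tp_mem (u := u) (u' := u') hE htri' (disjoint_empty_right {p})
  rw [union_empty, FG_empty ht] at e1
  have e2 := tp_mem (u := u) (u' := u') hE htri' (disjoint_empty_left {q})
  rw [empty_union, FG_empty ht, FG_cosingle ht 2 q p] at e2
  have e3 := tp_mem (u := u) (u' := u') hE htri' (disjoint_singleton.2 hpq)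
  have e4 := tp_mem (u := u) (u' := u') hE htri' (disjoint_empty_right ({p} ∪ {q}))
  rw [union_empty, FG_empty ht] at e4
  have e5 := tp_mem (u := u) (u' := u') hE htri' (disjoint_empty_left ({p} ∪ {q}))
  rw [empty_union, FG_empty ht] at e5
  have e6 := tp_mem (u := u) (u' := u') hE htri' (A := {r}) (B := {p} ∪ {q}) (by
    rw [disjoint_singleton_left, mem_union, mem_singleton, mem_singleton]
    push Not
    exact ⟨hpr.symm, hqr.symm⟩)
  rw [FG_single ht 0 r p, union_comm {r}] at e6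
  have e7 := tp_mem (u := u) (u' := u') hE htri' (A := {p} ∪ {q}) (B := {r}) (by
    rw [disjoint_singleton_right, mem_union, mem_singleton, mem_singleton]
    push Not
    exact ⟨hpr.symm, hqr.symm⟩)
  rw [FG_single ht 1 r q] at e7
  have hg1 : (⟨2, FG t u u' 2 {p}ᶜ⟩ : Sigma X) ∉ S := fun h =>
    hx1 (hcl _ e1 1 2 (by decide) h1 h 0)
  have hy1 : (⟨1, FG t u u' 1 {q}⟩ : Sigma X) ∉ S := fun h =>
    hg1 (hcl _ e2 0 1 (by decide) h0 h 2)
  exact chain hs hS hSs (mem_coe.1 e1) (mem_coe.1 e2) (mem_coe.1 e3) (mem_coe.1 e4)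
    (mem_coe.1 e5) (mem_coe.1 e6) (mem_coe.1 e7) h0 h1 hx1 hg1 hy1

/-- **Few triangles at every element.** -/
theorem good_small' {k : ℕ} (hk : 2 ≤ k) {t : ∀ i, (Fin k → X i) → X i} (ht : ∀ i, IsWNU (t i))
    (hE : Cl (E : Set (∀ i, X i)) t) {e : ℕ}
    (hsp : ∀ S : Finset (Sigma X), #S = e + 3 → #(ins E S) < e) {a : ∀ i, X i} (haE : a ∈ E) :
    #(good E a) ≤ e + 3 := by
  classical
  by_contra hcon
  push Not at hcon
  obtain ⟨ι, _, _, s, hN, hs, hsE⟩ := exists_large hk ht hE 3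
  have hsp' : ∀ T : Finset (Sigma X), #T ≤ #(ins E T) + 3 → #T ≠ e + 3 := by
    intro T h1 h2
    have := hsp T h2
    omega
  have key : ∀ (n : ℕ) (S : Finset (Sigma X)), (∀ i, (⟨i, a i⟩ : Sigma X) ∈ S) →
      #S ≤ #(ins E S) + 2 → #S < e + 3 → e + 3 - #S ≤ n → False := by
    intro n
    induction n with
    | zero =>
      intro S _ _ h3 h4
      omega
    | succ n ih =>
      intro S haS h2 h3 h4
      by_cases hcl : Clo (E : Set (∀ i, X i)) S
      · obtain ⟨z, hz, hzS⟩ : ∃ z ∈ good E a, (⟨2, z⟩ : Sigma X) ∉ S := by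
          by_contra hno
          push Not at hno
          have h1 : #((good E a).image fun z => (⟨2, z⟩ : Sigma X)) ≤ #S :=
            card_le_card fun x hx => by
              obtain ⟨z, hz, rfl⟩ := mem_image.1 hx
              exact hno z hz
          rw [card_image_of_injective _ (fun x y hxy => eq_of_heq (Sigma.mk.inj hxy).2)] at h1
          omega
        obtain ⟨S', h5, h6, h7, h8⟩ := grow hN hs hsE hsp' haE haS h2 h3 hcl hz hzS
        exact ih S' (fun i => h5 (haS i)) h7 h8 (by omega)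
      · unfold Clo at hcl
        push Not at hcl
        obtain ⟨b, hb, i, j, hij, hi, hj, m, hm⟩ := hcl
        have hmi : m ≠ i := by
          rintro rfl
          exact hm hi
        have hmj : m ≠ j := by
          rintro rfl
          exact hm hj
        have h5 := card_ins_insert (E := E) hm {b} (by
          intro c hc
          rw [mem_singleton] at hc
          subst hc
          refine ⟨mem_coe.1 hb, ⟨m, rfl⟩, fun n => ?_⟩
          rcases cases_third i j m n hij hmi hmj with rfl | rfl | rfl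
          · exact mem_insert_of_mem hi
          · exact mem_insert_of_mem hj
          · exact mem_insert_self _ _)
        rw [card_singleton] at h5
        have h6 := card_insert_of_notMem hm
        have h7 := hsp' (insert ⟨m, b m⟩ S) (by omega)
        exact ih (insert ⟨m, b m⟩ S) (fun i => mem_insert_of_mem (haS i)) (by omega) (by omega)
          (by omega)
  have h3 : #(univ.image fun i => (⟨i, a i⟩ : Sigma X)) = 3 := by
    rw [card_image_of_injective, card_univ, Fintype.card_fin]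
    intro i j hij
    exact congrArg Sigma.fst hij
  have h4 : 1 ≤ #(ins E (univ.image fun i => (⟨i, a i⟩ : Sigma X))) := by
    refine card_pos.2 ⟨a, ?_⟩
    rw [mem_ins]
    exact ⟨haE, fun i => mem_image_of_mem _ (mem_univ i)⟩
  have h5 := hsp' (univ.image fun i => (⟨i, a i⟩ : Sigma X)) (by omega)
  exact key _ (univ.image fun i => (⟨i, a i⟩ : Sigma X))
    (fun i => mem_image_of_mem _ (mem_univ i)) (by omega) (by omega) le_rfl

end Good

end Pool.Agent.U422.TLat
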