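import Pool.Agent.U422.TGrow

/-!
# Triangle removal for relations closed under weak near unanimity operations
-/

set_option autoImplicit false

namespace Pool.Agent.U422.TLat

open Finset Pool.Agent.R181.Maj Pool.Agent.U422.Gumm Pool.Agent.U422.Taylor

open SimpleGraph TripartiteFromTriangles TripartiteFromTriangles.Graph in
/-- Explicitly disjoint triples such that every one is in boundedly many other triangles: there
are few of them. -/
theorem rs_count (ε : ℝ) (hε : 0 < ε) (s : ℕ) : ∃ n₀ : ℕ, ∀ (α β γ : Type) [Fintype α]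
    [Fintype β] [Fintype γ] [DecidableEq α] [DecidableEq β] [DecidableEq γ]
    (t : Finset (α × β × γ)) [ExplicitDisjoint t],
    (∀ x ∈ t, #(univ.filter fun z : γ => (∃ a', (a', x.2.1, z) ∈ t) ∧ (∃ b', (x.1, b', z) ∈ t) ∧
      z ≠ x.2.2) ≤ s) →
    ∀ n : ℕ, n₀ ≤ n → Fintype.card α + Fintype.card β + Fintype.card γ ≤ n →
    (#t : ℝ) ≤ ε * (n : ℝ) ^ 2 := by
  set b := triangleRemovalBound ε with hb
  have hb0 : 0 < b := triangleRemovalBound_pos hε
  set K : ℝ := ((s : ℝ) + 1) / b with hK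
  have hK0 : 0 < K := by positivity
  obtain ⟨n₀, hn₀⟩ := exists_nat_gt (K ^ 2 / ε + 1)
  refine ⟨n₀, ?_⟩
  intro α β γ _ _ _ _ _ _ t _ hs n hn hcard
  by_contra hcon
  push Not at hcon
  set N : ℕ := Fintype.card α + Fintype.card β + Fintype.card γ with hN
  have hNn : (N : ℝ) ≤ n := by exact_mod_cast hcard
  have hfar : (graph t).FarFromTriangleFree ε := by
    refine farFromTriangleFree t ?_
    have h1 : ε * (N : ℝ) ^ 2 ≤ ε * (n : ℝ) ^ 2 := by
      refine mul_le_mul_of_nonneg_left ?_ hε.le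
      exact pow_le_pow_left₀ (Nat.cast_nonneg _) hNn 2
    have h2 : ε * (((Fintype.card α + Fintype.card β + Fintype.card γ) ^ 2 : ℕ) : ℝ) =
        ε * (N : ℝ) ^ 2 := by
      rw [hN]
      push_cast
      ring
    rw [h2]
    exact (h1.trans_lt hcon).le
  have h1 := hfar.le_card_cliqueFinset
  rw [← hb] at h1
  have h2 : (Fintype.card (α ⊕ β ⊕ γ) : ℝ) = N := by
    rw [Fintype.card_sum, Fintype.card_sum, hN, add_assoc]
  rw [h2] at h1
  -- the number of triangles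
  have hcl : #((graph t).cliqueFinset 3) ≤ #t * (s + 1) := by
    have hsub : (graph t).cliqueFinset 3 ⊆ t.biUnion fun x =>
        (insert x.2.2 (univ.filter fun z : γ => (∃ a', (a', x.2.1, z) ∈ t) ∧
          (∃ b', (x.1, b', z) ∈ t) ∧ z ≠ x.2.2)).image fun z =>
          ({Sum3.in₀ x.1, Sum3.in₁ x.2.1, Sum3.in₂ z} : Finset (α ⊕ β ⊕ γ)) := by
      intro C hC
      rw [mem_cliqueFinset_iff, is3Clique_iff] at hC
      obtain ⟨x, y, z, hxy, hxz, hyz, rfl⟩ := hC
      obtain ⟨a, b', c, habc, hab, hac, hbc⟩ := graph_triple hxy hxz hyz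
      obtain ⟨p, hp⟩ := in₀₁_iff.1 hab
      obtain ⟨q, hq⟩ := in₀₂_iff.1 hac
      obtain ⟨r, hr⟩ := in₁₂_iff.1 hbc
      rw [mem_biUnion]
      refine ⟨(a, b', p), hp, ?_⟩
      rw [mem_image]
      refine ⟨c, ?_, habc⟩
      rw [mem_insert, mem_filter]
      by_cases hc : c = p
      · exact Or.inl hc
      · exact Or.inr ⟨mem_univ _, ⟨r, hr⟩, ⟨q, hq⟩, hc⟩
    refine (card_le_card hsub).trans (card_biUnion_le.trans ?_)
    rw [← smul_eq_mul]
    refine sum_le_card_nsmul _ _ _ fun x hx => ?_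
    exact card_image_le.trans ((card_insert_le _ _).trans (Nat.succ_le_succ (hs x hx)))
  have h3 : #t ≤ Fintype.card α * Fintype.card β := by
    rw [← Fintype.card_prod, ← card_univ]
    refine card_le_card_of_injOn (fun x => (x.1, x.2.1)) (fun _ _ => mem_coe.2 (mem_univ _)) ?_
    rintro ⟨a, b, c⟩ hx ⟨a', b', c'⟩ hy hxy
    rw [Prod.mk.injEq] at hxy
    obtain ⟨e1, e2⟩ := hxy
    simp only at e1 e2
    subst e1
    subst e2
    rw [ExplicitDisjoint.inj₂ (mem_coe.1 hx) (mem_coe.1 hy)]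
  have h4 : #t ≤ N ^ 2 := by
    refine h3.trans ?_
    rw [sq]
    exact Nat.mul_le_mul (by omega) (by omega)
  have h5 : (#t : ℝ) ≤ (N : ℝ) ^ 2 := by exact_mod_cast h4
  have hpos : (0 : ℝ) < #t := lt_of_le_of_lt (by positivity) hcon
  have hN0 : (0 : ℝ) < N := by
    by_contra h
    have : (N : ℝ) = 0 := le_antisymm (not_lt.1 h) (Nat.cast_nonneg _)
    rw [this] at h5
    norm_num at h5
    rw [h5] at hpos
    norm_num at hpos
  have h6 : (N : ℝ) ≤ K := by
    rw [hK, le_div_iff₀ hb0]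
    have h7 : b * (N : ℝ) * (N : ℝ) ^ 2 ≤ ((s : ℝ) + 1) * (N : ℝ) ^ 2 := by
      calc b * (N : ℝ) * (N : ℝ) ^ 2 = b * (N : ℝ) ^ 3 := by ring
        _ ≤ (#((graph t).cliqueFinset 3) : ℝ) := h1
        _ ≤ (#t * (s + 1) : ℕ) := by exact_mod_cast hcl
        _ = ((s : ℝ) + 1) * #t := by push_cast; ring
        _ ≤ ((s : ℝ) + 1) * (N : ℝ) ^ 2 := mul_le_mul_of_nonneg_left h5 (by positivity)
    have h8 := le_of_mul_le_mul_right h7 (by positivity)
    linarith
  have h8 : (#t : ℝ) ≤ K ^ 2 := h5.trans (pow_le_pow_left₀ hN0.le h6 2)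
  have h9 : K ^ 2 / ε + 1 < n := by
    have : (n₀ : ℝ) ≤ n := by exact_mod_cast hn
    linarith
  have h10 : (1 : ℝ) ≤ n := by
    have : 0 < K ^ 2 / ε := by positivity
    linarith
  have h11 : K ^ 2 ≤ ε * (n : ℝ) := by
    have h12 : K ^ 2 / ε ≤ n := by linarith
    rw [div_le_iff₀ hε] at h12
    linarith
  have h12 : ε * (n : ℝ) ≤ ε * (n : ℝ) ^ 2 := by
    refine mul_le_mul_of_nonneg_left ?_ hε.le
    nlinarith
  linarith

/-- The bound for linear relations with few triangles. -/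
theorem lin_bound (ε : ℝ) (hε : 0 < ε) (s : ℕ) : ∃ n₀ : ℕ, ∀ (X : Fin 3 → Type)
    [∀ i, Fintype (X i)] [∀ i, DecidableEq (X i)] (E : Finset (∀ i, X i)),
    Lin (E : Set (∀ i, X i)) → (∀ a ∈ E, #(good E a) ≤ s) →
    ∀ n : ℕ, n₀ ≤ n → ∑ i, Fintype.card (X i) ≤ n → (#E : ℝ) ≤ ε * (n : ℝ) ^ 2 := by
  classical
  obtain ⟨n₀, hn₀⟩ := rs_count ε hε s
  refine ⟨n₀, ?_⟩
  intro X _ _ E hlin hgood n hn hcard
  let τ : (∀ i, X i) → X 0 × X 1 × X 2 := fun x => (x 0, x 1, x 2)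
  have hτ : Function.Injective τ := by
    intro x y hxy
    simp only [τ, Prod.mk.injEq] at hxy
    funext i
    fin_cases i
    · exact hxy.1
    · exact hxy.2.1
    · exact hxy.2.2
  set t := E.image τ with ht
  have hmem : ∀ a b c, (a, b, c) ∈ t → ∃ d ∈ E, d 0 = a ∧ d 1 = b ∧ d 2 = c := by
    intro a b c h
    obtain ⟨d, hd, hdd⟩ := mem_image.1 h
    simp only [τ, Prod.mk.injEq] at hdd
    exact ⟨d, hd, hdd⟩
  have i1 : SimpleGraph.TripartiteFromTriangles.ExplicitDisjoint t := by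
    constructor
    · intro a b c a' h h'
      obtain ⟨d, hd, h0, h1, h2⟩ := hmem _ _ _ h
      obtain ⟨d', hd', h0', h1', h2'⟩ := hmem _ _ _ h'
      have := hlin d hd d' hd' 1 2 (by decide) (h1.trans h1'.symm) (h2.trans h2'.symm)
      rw [← h0, ← h0', this]
    · intro a b c b' h h'
      obtain ⟨d, hd, h0, h1, h2⟩ := hmem _ _ _ h
      obtain ⟨d', hd', h0', h1', h2'⟩ := hmem _ _ _ h'
      have := hlin d hd d' hd' 0 2 (by decide) (h0.trans h0'.symm) (h2.trans h2'.symm)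
      rw [← h1, ← h1', this]
    · intro a b c c' h h'
      obtain ⟨d, hd, h0, h1, h2⟩ := hmem _ _ _ h
      obtain ⟨d', hd', h0', h1', h2'⟩ := hmem _ _ _ h'
      have := hlin d hd d' hd' 0 1 (by decide) (h0.trans h0'.symm) (h1.trans h1'.symm)
      rw [← h2, ← h2', this]
  have h1 := hn₀ (X 0) (X 1) (X 2) t (by
    intro x hx
    obtain ⟨a, ha, rfl⟩ := mem_image.1 hx
    refine (card_le_card fun z hz => ?_).trans (hgood a ha)
    rw [mem_filter] at hz
    obtain ⟨-, ⟨a', ha'⟩, ⟨b', hb'⟩, hz⟩ := hz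
    obtain ⟨b, hb, h0, h1, h2⟩ := hmem _ _ _ ha'
    obtain ⟨c, hc, h0', h1', h2'⟩ := hmem _ _ _ hb'
    rw [good, mem_filter]
    exact ⟨mem_univ _, ⟨b, hb, h1, h2⟩, ⟨c, hc, h0', h2'⟩, hz⟩) n hn (by
    rw [Fin.sum_univ_three] at hcard
    exact hcard)
  rwa [ht, card_image_of_injective _ hτ] at h1

/-- **Sparse linear relations closed under weak near unanimity operations.** -/
theorem wnu_bound (ε : ℝ) (hε : 0 < ε) (e : ℕ) : ∃ n₀ : ℕ, ∀ (X : Fin 3 → Type)
    [∀ i, Fintype (X i)] [∀ i, DecidableEq (X i)] (E : Finset (∀ i, X i)) (k : ℕ)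
    (t : ∀ i, (Fin k → X i) → X i), 2 ≤ k → (∀ i, IsWNU (t i)) → Cl (E : Set (∀ i, X i)) t →
    Lin (E : Set (∀ i, X i)) → (∀ S : Finset (Sigma X), #S = e + 3 → #(ins E S) < e) →
    ∀ n : ℕ, n₀ ≤ n → ∑ i, Fintype.card (X i) ≤ n → (#E : ℝ) ≤ ε * (n : ℝ) ^ 2 := by
  obtain ⟨n₀, hn₀⟩ := lin_bound ε hε (e + 3)
  refine ⟨n₀, ?_⟩
  intro X _ _ E k t hk ht hE hlin hsp n hn hcard
  exact hn₀ X E hlin (fun a ha => good_small hlin hk ht hE hsp ha) n hn hcard

theorem sum_image_le {X : Fin 3 → Type} [∀ i, DecidableEq (X i)] (T : Finset (∀ i, X i))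
    (S : Finset (Sigma X)) (h : ∀ a ∈ T, ∀ i, (⟨i, a i⟩ : Sigma X) ∈ S) :
    ∑ i, #(T.image fun x => x i) ≤ #S := by
  rw [← card_sigma]
  refine card_le_card fun y hy => ?_
  obtain ⟨i, y⟩ := y
  rw [mem_sigma, mem_image] at hy
  obtain ⟨-, a, ha, hay⟩ := hy
  have h1 : a i = y := hay
  rw [← h1]
  exact h a ha i

theorem sum_split {r : ℕ} (hr : 3 ≤ r) (f : Fin r → ℕ) (e s : ℕ) (hf : ∀ i, f i ≤ e)
    (h : ∑ i : Fin 3, f (Fin.castLE hr i) ≤ s) : ∑ i, f i ≤ (r - 3) * e + s := by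
  rw [← sum_compl_add_sum (univ.map (Fin.castLEEmb hr)), sum_map]
  refine add_le_add ?_ h
  refine (sum_le_card_nsmul _ _ e fun i _ => hf i).trans ?_
  rw [card_compl, card_map, card_univ, Fintype.card_fin, Fintype.card_fin, smul_eq_mul]

/-- the first three coordinates -/
def pr3 {r : ℕ} (hr : 3 ≤ r) {X : Fin r → Type} (a : ∀ i, X i) :
    ∀ i : Fin 3, X (Fin.castLE hr i) := fun i => a (Fin.castLE hr i)

theorem pr3_inj {r : ℕ} (hr : 3 ≤ r) {X : Fin r → Type} {E : Set (∀ i, X i)} (hlin : Lin E)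
    {a b : ∀ i, X i} (ha : a ∈ E) (hb : b ∈ E) {i j : Fin 3} (hij : i ≠ j)
    (h1 : pr3 hr a i = pr3 hr b i) (h2 : pr3 hr a j = pr3 hr b j) : a = b :=
  hlin a ha b hb (Fin.castLE hr i) (Fin.castLE hr j)
    (fun h => hij (Fin.castLE_injective hr h)) h1 h2

theorem rel_bound (r : ℕ) (hr : 3 ≤ r) (e : ℕ) (ε : ℝ) (hε : 0 < ε) : ∃ n₀ : ℕ,
    ∀ (X : Fin r → Type) [∀ i, Fintype (X i)] [∀ i, DecidableEq (X i)] (E : Finset (∀ i, X i))
      (k : ℕ) (t : ∀ i, (Fin k → X i) → X i), 2 ≤ k → (∀ i, IsWNU (t i)) →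
      Cl (E : Set (∀ i, X i)) t → Lin (E : Set (∀ i, X i)) →
      (∀ T ⊆ E, #T = e → (r - 2) * e + 3 < ∑ i, #(T.image fun x => x i)) →
      ∀ n : ℕ, n₀ ≤ n → ∑ i : Fin 3, Fintype.card (X (Fin.castLE hr i)) ≤ n →
      (#E : ℝ) ≤ ε * (n : ℝ) ^ 2 := by
  classical
  obtain ⟨n₀, hn₀⟩ := wnu_bound ε hε e
  refine ⟨n₀, ?_⟩
  intro X _ _ E k t hk ht hE hlin hsp n hn hcard
  have hmem : ∀ a', a' ∈ E.image (pr3 hr) ↔ ∃ a ∈ E, pr3 hr a = a' := fun a' => mem_image
  have h1 := hn₀ (fun i => X (Fin.castLE hr i)) (E.image (pr3 hr)) k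
    (fun i => t (Fin.castLE hr i)) hk (fun i => ht _) ?_ ?_ ?_ n hn hcard
  · rwa [card_image_of_injOn] at h1
    intro a ha b hb hab
    exact pr3_inj hr hlin ha hb (i := 0) (j := 1) (by decide) (congrFun hab 0) (congrFun hab 1)
  · intro a ha
    have h2 : ∀ j, ∃ b ∈ E, pr3 hr b = a j := fun j => (hmem _).1 (mem_coe.1 (ha j))
    choose b hb hb' using h2
    rw [mem_coe, hmem]
    refine ⟨_, hE b fun j => mem_coe.2 (hb j), ?_⟩
    funext i
    show t (Fin.castLE hr i) (fun j => b j (Fin.castLE hr i)) = t (Fin.castLE hr i) fun j => a j i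
    congr 1
    funext j
    exact congrFun (hb' j) i
  · intro a' ha' b' hb' i j hij h2 h3
    obtain ⟨a, ha, rfl⟩ := (hmem _).1 (mem_coe.1 ha')
    obtain ⟨b, hb, rfl⟩ := (hmem _).1 (mem_coe.1 hb')
    rw [pr3_inj hr hlin (mem_coe.2 ha) (mem_coe.2 hb) hij h2 h3]
  · intro S hS
    by_contra hcon
    push Not at hcon
    obtain ⟨T', hT', hTe⟩ := exists_subset_card_eq hcon
    have hTT : (E.filter fun a => pr3 hr a ∈ T').image (pr3 hr) = T' := by
      ext a'
      rw [mem_image]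
      constructor
      · rintro ⟨a, ha, rfl⟩
        exact (mem_filter.1 ha).2
      · intro ha'
        have h2 := hT' ha'
        rw [mem_ins, hmem] at h2
        obtain ⟨⟨a, ha, rfl⟩, -⟩ := h2
        exact ⟨a, mem_filter.2 ⟨ha, ha'⟩, rfl⟩
    set T := E.filter fun a => pr3 hr a ∈ T' with hT
    have hTE : T ⊆ E := filter_subset _ _
    have hTc : #T = e := by
      rw [← hTe, ← hTT, card_image_of_injOn]
      intro a ha b hb hab
      exact pr3_inj hr hlin (hTE ha) (hTE hb) (i := 0) (j := 1) (by decide) (congrFun hab 0)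
        (congrFun hab 1)
    have h2 := hsp T hTE hTc
    have h3 : ∑ i, #(T'.image fun x => x i) ≤ e + 3 := by
      rw [← hS]
      refine sum_image_le T' S fun a ha => ?_
      have h4 := hT' ha
      rw [mem_ins] at h4
      exact h4.2
    have h4 : ∑ i : Fin 3, #(T.image fun x => x (Fin.castLE hr i)) ≤ e + 3 := by
      refine le_trans (le_of_eq (sum_congr rfl fun i _ => ?_)) h3
      rw [← hTT, image_image]
      rfl
    have h5 := sum_split hr (fun i => #(T.image fun x => x i)) e (e + 3)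
      (fun i => card_image_le.trans hTc.le) h4
    have h6 : (r - 2) * e = (r - 3) * e + e := by
      obtain ⟨m, rfl⟩ : ∃ m, r = m + 3 := ⟨r - 3, by omega⟩
      rw [show m + 3 - 2 = m + 1 by omega, show m + 3 - 3 = m by omega]
      ring
    have h7 : ∑ i, #(T.image fun x => x i) ≤ (r - 3) * e + (e + 3) := h5
    omega

/-- `F` is a relation between `r` pairwise disjoint sets of vertices, closed under componentwise
application of idempotent weak near unanimity operations of some arity `k ≥ 2`. -/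
def WNUPiece {V : Type} (r : ℕ) (F : Set (Finset V)) : Prop :=
  ∃ (X : Fin r → Type) (v : (Σ i, X i) → V) (E : Set (∀ i, X i)) (k : ℕ)
    (t : ∀ i, (Fin k → X i) → X i), 2 ≤ k ∧ (∀ i, IsWNU (t i)) ∧ Function.Injective v ∧
    Cl E t ∧ F = edge v '' E

/-- two different edges have at most one common vertex -/
def Linear {V : Type} (F : Set (Finset V)) : Prop :=
  ∀ a ∈ F, ∀ b ∈ F, a ≠ b → ((a : Set V) ∩ b).Subsingleton

theorem lin_of_linear {V : Type} {r : ℕ} {X : Fin r → Type} {v : (Σ i, X i) → V}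
    (hv : Function.Injective v) {E : Set (∀ i, X i)} (hlin : Linear (edge v '' E)) : Lin E := by
  classical
  intro a ha b hb i j hij h1 h2
  by_contra hab
  have h3 := hlin _ ⟨a, ha, rfl⟩ _ ⟨b, hb, rfl⟩ fun h => hab (edge_injective hv h)
  have hm : ∀ (a : ∀ i, X i) (i : Fin r), v ⟨i, a i⟩ ∈ edge v a := fun a i => by
    rw [edge, mem_image]
    exact ⟨i, mem_univ _, rfl⟩
  have h4 := h3 ⟨mem_coe.2 (hm a i), mem_coe.2 (by have := hm b i; rwa [← h1] at this)⟩
    ⟨mem_coe.2 (hm a j), mem_coe.2 (by have := hm b j; rwa [← h2] at this)⟩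
  exact hij (congrArg Sigma.fst (hv h4))

theorem piece_bound (r : ℕ) (hr : 3 ≤ r) (e : ℕ) (ε : ℝ) (hε : 0 < ε) : ∃ n₀ : ℕ,
    ∀ (V : Type) [Fintype V] (H F : Set (Finset V)), n₀ ≤ Fintype.card V → WNUPiece r F →
    Linear F → F ⊆ H → SpanMore H e ((r - 2) * e + 3) →
    (F.ncard : ℝ) ≤ ε * (Fintype.card V : ℝ) ^ 2 := by
  classical
  obtain ⟨n₀, hn₀⟩ := rel_bound r hr e ε hε
  refine ⟨n₀, ?_⟩
  intro V _ H F hn hF hlin hFH hsp
  obtain ⟨X, v, E, k, t, hk, ht, hv, hE, rfl⟩ := hF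
  have hfi : ∀ i, Function.Injective fun a : X i => v ⟨i, a⟩ := fun i a b hab =>
    eq_of_heq (Sigma.mk.inj (hv hab)).2
  have : ∀ i, Finite (X i) := fun i => Finite.of_injective _ (hfi i)
  let _ : ∀ i, Fintype (X i) := fun i => Fintype.ofFinite (X i)
  have h1 := hn₀ X E.toFinset k t hk ht (by rwa [Set.coe_toFinset])
    (by rw [Set.coe_toFinset]; exact lin_of_linear hv hlin) (by
      intro T hT hTe
      have h2 := hsp (T.image (edge v)) (by
        rw [coe_image]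
        rintro a ⟨x, hx, rfl⟩
        exact hFH ⟨x, Set.mem_toFinset.1 (hT (mem_coe.1 hx)), rfl⟩)
        (by rw [card_image_of_injective _ (edge_injective hv), hTe])
      rwa [union_eq hv] at h2) (Fintype.card V) hn (by
      rw [← Fintype.card_sigma]
      refine Fintype.card_le_of_injective
        (fun y : Σ i : Fin 3, X (Fin.castLE hr i) => v ⟨Fin.castLE hr y.1, y.2⟩) ?_
      rintro ⟨i, y⟩ ⟨j, z⟩ h
      have h3 := hv h
      rw [Sigma.mk.injEq] at h3
      obtain ⟨h4, h5⟩ := h3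
      have h6 : i = j := Fin.castLE_injective hr h4
      subst h6
      have h7 : y = z := eq_of_heq h5
      rw [h7])
  rw [Set.ncard_image_of_injective _ (edge_injective hv), Set.ncard_eq_toFinset_card']
  exact h1

end Pool.Agent.U422.TLat
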