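import Pool.Agent.U422.GummExamples

/-!
# Four triples on seven vertices from a triangle and a Taylor operation
-/

set_option autoImplicit false

namespace Pool.Agent.U422.Taylor

open Finset Pool.Agent.R181.Maj Pool.Agent.U422.Gumm

/-- `t` is an idempotent weak near unanimity operation. -/
def IsWNU {A : Type} {k : ℕ} (t : (Fin k → A) → A) : Prop :=
  (∀ x, t (fun _ => x) = x) ∧
    ∀ i j x y, t (Function.update (fun _ => x) i y) = t (Function.update (fun _ => x) j y)

/-- `t` is an idempotent Siggers operation. -/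
def IsSiggers {A : Type} (t : (Fin 4 → A) → A) : Prop :=
  (∀ x, t (fun _ => x) = x) ∧ ∀ r a e, t ![r, a, r, e] = t ![a, r, e, a]

/-- `E` is closed under the componentwise application of the operations `t i`. -/
def ClosedUnder {X : Fin 3 → Type} (E : Set (∀ i, X i)) {k : ℕ}
    (t : ∀ i, (Fin k → X i) → X i) : Prop :=
  ∀ a : Fin k → ∀ i, X i, (∀ j, a j ∈ E) → (fun i => t i fun j => a j i) ∈ E

theorem third : ∀ i j : Fin 3, i ≠ j → ∃ l, l ≠ i ∧ l ≠ j := by decide

theorem eq_third : ∀ i j l m : Fin 3, i ≠ j → l ≠ i → l ≠ j → m ≠ i → m ≠ j → m = l := by decide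

theorem cases_third : ∀ i j l m : Fin 3, i ≠ j → l ≠ i → l ≠ j → m = i ∨ m = j ∨ m = l := by
  decide

section Triangle

variable {k : ℕ} {X : Fin 3 → Type} (t : ∀ i, (Fin k → X i) → X i)
  (u u' : ∀ i, X i)

/-- the value of `t i` if the arguments in the positions in `S` are `u' i` and the others `u i` -/
def FF (i : Fin 3) (S : Finset (Fin k)) : X i := t i fun j => if j ∈ S then u' i else u i

/-- the edge of the triangle with the private vertex `u' i` -/
def tri (i : Fin 3) : ∀ i, X i := Function.update u i (u' i)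

variable {t u u'}

theorem tri_self (i : Fin 3) : tri u u' i i = u' i := Function.update_self _ _ _

theorem tri_ne {i j : Fin 3} (h : i ≠ j) : tri u u' j i = u i := Function.update_of_ne h _ _

theorem exists_edge {E : Set (∀ i, X i)} (hE : ClosedUnder E t) (htri : ∀ i, tri u u' i ∈ E)
    {i j : Fin 3} (hij : i ≠ j) {A B : Finset (Fin k)} (hAB : Disjoint A B) :
    ∃ a ∈ E, a i = FF t u u' i A ∧ a j = FF t u u' j B ∧
      ∀ l, l ≠ i → l ≠ j → a l = FF t u u' l (A ∪ B)ᶜ := by
  obtain ⟨l, hli, hlj⟩ := third i j hij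
  let c : Fin k → Fin 3 := fun x => if x ∈ A then i else if x ∈ B then j else l
  refine ⟨fun m => t m fun x => tri u u' (c x) m, hE (fun x => tri u u' (c x)) (fun x => htri _),
    ?_, ?_, ?_⟩
  · refine congrArg (t i) (funext fun x => ?_)
    by_cases hA : x ∈ A
    · simp only [c, if_pos hA]
      exact tri_self i
    · simp only [c, if_neg hA]
      by_cases hB : x ∈ B
      · rw [if_pos hB]
        exact tri_ne hij
      · rw [if_neg hB]
        exact tri_ne hli.symm
  · refine congrArg (t j) (funext fun x => ?_)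
    by_cases hB : x ∈ B
    · have hA : x ∉ A := fun h => (disjoint_left.1 hAB) h hB
      simp only [c, if_neg hA, if_pos hB]
      exact tri_self j
    · simp only [c, if_neg hB]
      by_cases hA : x ∈ A
      · rw [if_pos hA]
        exact tri_ne hij.symm
      · rw [if_neg hA]
        exact tri_ne hlj.symm
  · intro m hmi hmj
    have hml : m = l := eq_third i j l m hij hli hlj hmi hmj
    subst hml
    refine congrArg (t m) (funext fun x => ?_)
    by_cases hA : x ∈ A
    · simp only [c, if_pos hA]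
      rw [if_neg (by simp [hA])]
      exact tri_ne hmi
    · by_cases hB : x ∈ B
      · simp only [c, if_neg hA, if_pos hB]
        rw [if_neg (by simp [hB])]
        exact tri_ne hmj
      · simp only [c, if_neg hA, if_neg hB]
        rw [if_pos (by simp [hA, hB])]
        exact tri_self m

theorem FF_empty (hid : ∀ i x, t i (fun _ => x) = x) (i : Fin 3) : FF t u u' i ∅ = u i := by
  unfold FF
  simp [hid]

theorem FF_univ (hid : ∀ i x, t i (fun _ => x) = x) (i : Fin 3) : FF t u u' i univ = u' i := by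
  unfold FF
  simp [hid]

variable [∀ i, DecidableEq (X i)]

/-- any four triples have more than seven coordinates -/
def Sp4 (E : Set (∀ i, X i)) : Prop :=
  ∀ T : Finset (∀ i, X i), ↑T ⊆ E → #T = 4 → 7 < ∑ i, #(T.image fun x => x i)

theorem count7 {i j : Fin 3} (hij : i ≠ j) (n : Fin 3 → ℕ) (h2 : ∀ m, n m ≤ 3)
    (hi : n i ≤ 2) (hj : n j ≤ 2) : ∑ m, n m ≤ 7 := by
  rw [Fin.sum_univ_three]
  have h20 := h2 0
  have h21 := h2 1
  have h22 := h2 2
  fin_cases i <;> fin_cases j <;> simp at hij hi hj <;> omega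

/-- an edge with two old vertices is an edge of the triangle -/
theorem old_edge {E : Set (∀ i, X i)} (hsp : Sp4 E) (hne : ∀ i, u i ≠ u' i)
    (htri : ∀ i, tri u u' i ∈ E) {a : ∀ i, X i} (ha : a ∈ E) {i j : Fin 3} (hij : i ≠ j)
    (hi : a i = u i ∨ a i = u' i) (hj : a j = u j ∨ a j = u' j) : ∃ m, a = tri u u' m := by
  classical
  by_contra hcon
  push Not at hcon
  have hinj : Function.Injective (tri u u') := by
    intro m m' h
    by_contra hmm
    have h1 := congrFun h m
    rw [tri_self, tri_ne hmm] at h1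
    exact hne m h1.symm
  have h1 := hsp (insert a (univ.image (tri u u'))) (by
    intro x hx
    rw [mem_coe, mem_insert, mem_image] at hx
    rcases hx with rfl | ⟨m, -, rfl⟩
    · exact ha
    · exact htri m) (by
    rw [card_insert_of_notMem, card_image_of_injective _ hinj, card_univ, Fintype.card_fin]
    rw [mem_image]
    rintro ⟨m, -, hm⟩
    exact hcon m hm.symm)
  have himg : ∀ m, (insert a (univ.image (tri u u'))).image (fun x => x m) ⊆
      {a m, u m, u' m} := by
    intro m x hx
    obtain ⟨y, hy, rfl⟩ := mem_image.1 hx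
    rw [mem_insert, mem_image] at hy
    rw [mem_insert, mem_insert, mem_singleton]
    rcases hy with rfl | ⟨m', -, rfl⟩
    · exact Or.inl rfl
    · by_cases h : m = m'
      · subst h
        exact Or.inr (Or.inr (tri_self m))
      · exact Or.inr (Or.inl (tri_ne h))
  have h3 : ∀ m, #((insert a (univ.image (tri u u'))).image fun x => x m) ≤ 3 := fun m =>
    (card_le_card (himg m)).trans card_le_three
  have h2 : ∀ m, (a m = u m ∨ a m = u' m) →
      #((insert a (univ.image (tri u u'))).image fun x => x m) ≤ 2 := by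
    intro m hm
    refine (card_le_card ((himg m).trans ?_)).trans (card_le_two (a := u m) (b := u' m))
    intro x hx
    rw [mem_insert, mem_insert, mem_singleton] at hx
    rw [mem_insert, mem_singleton]
    rcases hx with rfl | hx
    · exact hm
    · exact hx
  have h4 := count7 hij _ h3 (h2 i hi) (h2 j hj)
  omega

/-- the `2 × 2` configuration -/
theorem no_square {E : Set (∀ i, X i)} (hE : ClosedUnder E t) (hsp : Sp4 E)
    (hid : ∀ i x, t i (fun _ => x) = x) (htri : ∀ i, tri u u' i ∈ E) {i j : Fin 3} (hij : i ≠ j)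
    {S S' S'' : Finset (Fin k)} (hd : Disjoint S'' S')
    (hi : FF t u u' i S'' = FF t u u' i S) (hj : FF t u u' j S' = FF t u u' j S)
    (hui : FF t u u' i S ≠ u i) (huj : FF t u u' j S ≠ u j) : False := by
  classical
  obtain ⟨l, hli, hlj⟩ := third i j hij
  obtain ⟨f, hf, hfi, hfj, hfl⟩ := exists_edge hE htri hij (disjoint_empty_left S)
  obtain ⟨g, hg, hgi, hgj, hgl⟩ := exists_edge hE htri hij (disjoint_empty_right S)
  obtain ⟨h, hh, hhi, hhj, -⟩ := exists_edge hE htri hij hd
  rw [FF_empty hid] at hfi hgj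
  rw [hi] at hhi
  rw [hj] at hhj
  have hfl' := hfl l hli hlj
  have hgl' := hgl l hli hlj
  rw [empty_union] at hfl'
  rw [union_empty] at hgl'
  set e := tri u u' l with he
  have hei : e i = u i := tri_ne hli.symm
  have hej : e j = u j := tri_ne hlj.symm
  have d1 : e ≠ f := fun h0 => huj (by rw [← hfj, ← h0, hej])
  have d2 : e ≠ g := fun h0 => hui (by rw [← hgi, ← h0, hei])
  have d3 : e ≠ h := fun h0 => hui (by rw [← hhi, ← h0, hei])
  have d4 : f ≠ g := fun h0 => hui (by rw [← hgi, ← h0, hfi])
  have d5 : f ≠ h := fun h0 => hui (by rw [← hhi, ← h0, hfi])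
  have d6 : g ≠ h := fun h0 => huj (by rw [← hhj, ← h0, hgj])
  have h1 := hsp {e, f, g, h} (by
    intro x hx
    simp only [coe_insert, coe_singleton, Set.mem_insert_iff, Set.mem_singleton_iff] at hx
    rcases hx with rfl | rfl | rfl | rfl
    · exact htri l
    · exact hf
    · exact hg
    · exact hh) (by
    rw [card_insert_of_notMem, card_insert_of_notMem, card_pair d6]
    · simp [d4, d5]
    · simp [d1, d2, d3])
  have c1 : ({e, f, g, h} : Finset (∀ i, X i)).image (fun x => x i) ⊆ {u i, FF t u u' i S} := by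
    intro x hx
    obtain ⟨y, hy, rfl⟩ := mem_image.1 hx
    simp only [mem_insert, mem_singleton] at hy ⊢
    rcases hy with rfl | rfl | rfl | rfl
    · exact Or.inl hei
    · exact Or.inl hfi
    · exact Or.inr hgi
    · exact Or.inr hhi
  have c2 : ({e, f, g, h} : Finset (∀ i, X i)).image (fun x => x j) ⊆ {u j, FF t u u' j S} := by
    intro x hx
    obtain ⟨y, hy, rfl⟩ := mem_image.1 hx
    simp only [mem_insert, mem_singleton] at hy ⊢
    rcases hy with rfl | rfl | rfl | rfl
    · exact Or.inl hej
    · exact Or.inr hfj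
    · exact Or.inl hgj
    · exact Or.inr hhj
  have c3 : ({e, f, g, h} : Finset (∀ i, X i)).image (fun x => x l) ⊆ {e l, f l, h l} := by
    intro x hx
    obtain ⟨y, hy, rfl⟩ := mem_image.1 hx
    simp only [mem_insert, mem_singleton] at hy ⊢
    rcases hy with rfl | rfl | rfl | rfl
    · exact Or.inl rfl
    · exact Or.inr (Or.inl rfl)
    · exact Or.inr (Or.inl (by rw [hgl', hfl']))
    · exact Or.inr (Or.inr rfl)
  have b1 := (card_le_card c1).trans card_le_two
  have b2 := (card_le_card c2).trans card_le_two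
  have b3 := (card_le_card c3).trans card_le_three
  have h4 := count7 hij (fun m => #(({e, f, g, h} : Finset (∀ i, X i)).image fun x => x m))
    (by
      intro m
      have hm : m = i ∨ m = j ∨ m = l := cases_third i j l m hij hli hlj
      rcases hm with rfl | rfl | rfl
      · exact b1.trans (by norm_num)
      · exact b2.trans (by norm_num)
      · exact b3) b1 b2
  omega

variable (t u u')

/-- the sets of positions for which `u' i` does not matter -/
def Fam (S : Finset (Fin k)) : Prop := FF t u u' 0 S = u 0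

variable {t u u'}

/-- all properties of the family of sets of positions -/
theorem fam_props {E : Set (∀ i, X i)} (hE : ClosedUnder E t) (hsp : Sp4 E)
    (hid : ∀ i x, t i (fun _ => x) = x) (hne : ∀ i, u i ≠ u' i) (htri : ∀ i, tri u u' i ∈ E) :
    (∀ i S, FF t u u' i S = u i ↔ Fam t u u' S) ∧ (∀ i S, FF t u u' i Sᶜ = u' i ↔ Fam t u u' S) ∧
    (∀ A B, Disjoint A B → Fam t u u' A → Fam t u u' B → Fam t u u' (A ∪ B)) ∧
    (∀ A B, A ∪ B = univ → Fam t u u' A → Fam t u u' B → False) ∧
    (∀ S S' S'', Disjoint S'' S' → (∀ i, FF t u u' i S' = FF t u u' i S) →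
      (∀ i, FF t u u' i S'' = FF t u u' i S) → Fam t u u' S) := by
  -- complements
  have h1 : ∀ i j, i ≠ j → ∀ S, FF t u u' i S = u i → FF t u u' j Sᶜ = u' j := by
    intro i j hij S hS
    obtain ⟨l, hli, hlj⟩ := third i j hij
    obtain ⟨a, ha, hai, haj, hal⟩ := exists_edge hE htri hij (disjoint_compl_right (a := S))
    have hal' := hal l hli hlj
    rw [union_compl, compl_univ, FF_empty hid] at hal'
    rw [hS] at hai
    obtain ⟨m, rfl⟩ := old_edge hsp hne htri ha hli.symm (Or.inl hai) (Or.inl hal')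
    have hmi : m ≠ i := by
      rintro rfl
      rw [tri_self] at hai
      exact hne m hai.symm
    have hml : m ≠ l := by
      rintro rfl
      rw [tri_self] at hal'
      exact hne m hal'.symm
    have hmj : m = j := eq_third i l j m hli.symm hij.symm hlj.symm hmi hml
    rw [← haj, hmj, tri_self]
  have h2 : ∀ i j, i ≠ j → ∀ S, FF t u u' j Sᶜ = u' j → FF t u u' i S = u i := by
    intro i j hij S hS
    obtain ⟨l, hli, hlj⟩ := third i j hij
    obtain ⟨a, ha, hai, haj, hal⟩ := exists_edge hE htri hij (disjoint_compl_right (a := S))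
    have hal' := hal l hli hlj
    rw [union_compl, compl_univ, FF_empty hid] at hal'
    rw [hS] at haj
    obtain ⟨m, rfl⟩ := old_edge hsp hne htri ha hlj.symm (Or.inr haj) (Or.inl hal')
    have hmj : m = j := by
      by_contra hmj
      rw [tri_ne (Ne.symm hmj)] at haj
      exact hne j haj
    rw [← hai, hmj, tri_ne hij]
  have h3 : ∀ i S, FF t u u' i S = u i ↔ Fam t u u' S := by
    intro i S
    by_cases hi : i = 0
    · subst hi
      exact Iff.rfl
    · obtain ⟨l, hli, hl0⟩ := third i 0 hi
      exact ⟨fun h => h2 0 l hl0.symm S (h1 i l hli.symm S h),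
        fun h => h2 i l hli.symm S (h1 0 l hl0.symm S h)⟩
  have h4 : ∀ i S, FF t u u' i Sᶜ = u' i ↔ Fam t u u' S := by
    intro i S
    obtain ⟨l, hli⟩ : ∃ l : Fin 3, l ≠ i := ⟨i + 1, by fin_cases i <;> decide⟩
    exact ⟨fun h => (h3 l S).1 (h2 l i hli S h), fun h => h1 l i hli S ((h3 l S).2 h)⟩
  refine ⟨h3, h4, ?_, ?_, ?_⟩
  · intro A B hAB hA hB
    obtain ⟨a, ha, ha0, ha1, ha2⟩ := exists_edge hE htri (i := 0) (j := 1) (by decide) hAB
    have ha2' := ha2 2 (by decide) (by decide)
    rw [(h3 0 A).2 hA] at ha0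
    rw [(h3 1 B).2 hB] at ha1
    obtain ⟨m, rfl⟩ := old_edge hsp hne htri ha (i := 0) (j := 1) (by decide) (Or.inl ha0)
      (Or.inl ha1)
    have hm : m = 2 := by
      have e0 : m ≠ 0 := by
        rintro rfl
        rw [tri_self] at ha0
        exact hne 0 ha0.symm
      have e1 : m ≠ 1 := by
        rintro rfl
        rw [tri_self] at ha1
        exact hne 1 ha1.symm
      exact eq_third 0 1 2 m (by decide) (by decide) (by decide) e0 e1
    subst hm
    rw [tri_self] at ha2'
    exact (h4 2 (A ∪ B)).1 ha2'.symm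
  · intro A B hAB hA hB
    have hd : Disjoint Aᶜ Bᶜ := by
      rw [disjoint_left]
      intro x hx hx'
      have : x ∈ A ∪ B := by rw [hAB]; exact mem_univ x
      rw [mem_union] at this
      rw [mem_compl] at hx hx'
      exact this.elim hx hx'
    obtain ⟨a, ha, ha0, ha1, -⟩ := exists_edge hE htri (i := 0) (j := 1) (by decide) hd
    rw [(h4 0 A).2 hA] at ha0
    rw [(h4 1 B).2 hB] at ha1
    obtain ⟨m, rfl⟩ := old_edge hsp hne htri ha (i := 0) (j := 1) (by decide) (Or.inr ha0)
      (Or.inr ha1)
    by_cases hm : m = 0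
    · subst hm
      rw [tri_ne (by decide)] at ha1
      exact hne 1 ha1
    · rw [tri_ne (Ne.symm hm)] at ha0
      exact hne 0 ha0
  · intro S S' S'' hd hS' hS''
    by_contra hcon
    exact no_square hE hsp hid htri (i := 0) (j := 1) (by decide) hd (hS'' 0) (hS' 1)
      (fun h => hcon ((h3 0 S).1 h)) (fun h => hcon ((h3 1 S).1 h))

/-- **No triangle** in a sparse relation with a weak near unanimity operation. -/
theorem wnu_no_triangle (hk : 2 ≤ k) {E : Set (∀ i, X i)} (hE : ClosedUnder E t) (hsp : Sp4 E)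
    (ht : ∀ i, IsWNU (t i)) (hne : ∀ i, u i ≠ u' i) (htri : ∀ i, tri u u' i ∈ E) : False := by
  obtain ⟨-, -, h3, h4, h5⟩ := fam_props hE hsp (fun i => (ht i).1) hne htri
  have hsing : ∀ i (j : Fin k), FF t u u' i {j} = t i (Function.update (fun _ => u i) j (u' i)) := by
    intro i j
    unfold FF
    congr 1
    funext x
    by_cases hx : x = j
    · subst hx
      simp
    · rw [Function.update_of_ne hx, if_neg (by simpa using hx)]
  have hmem : ∀ j : Fin k, Fam t u u' {j} := by
    intro j
    obtain ⟨j', hj'⟩ : ∃ j' : Fin k, j' ≠ j := by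
      by_cases h : j = ⟨0, by omega⟩
      · exact ⟨⟨1, by omega⟩, by rw [h]; simp [Fin.ext_iff]⟩
      · exact ⟨⟨0, by omega⟩, fun h' => h h'.symm⟩
    refine h5 {j} {j} {j'} (by simpa using hj') (fun i => rfl) fun i => ?_
    rw [hsing, hsing]
    exact (ht i).2 _ _ _ _
  have hall : ∀ S : Finset (Fin k), S.Nonempty → Fam t u u' S := by
    intro S hS
    induction hS using Finset.Nonempty.cons_induction with
    | singleton a => exact hmem a
    | cons a s ha hs ih =>
      rw [cons_eq_insert, insert_eq]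
      exact h3 {a} s (by simpa using ha) (hmem a) ih
  have hne' : (univ : Finset (Fin k)).Nonempty := ⟨⟨0, by omega⟩, mem_univ _⟩
  exact h4 univ univ (union_self _) (hall _ hne') (hall _ hne')

end Triangle

section Siggers

variable {X : Fin 3 → Type} [∀ i, DecidableEq (X i)] {u u' : ∀ i, X i}

/-- **No triangle** in a sparse relation with a Siggers operation. -/
theorem siggers_no_triangle {t : ∀ i, (Fin 4 → X i) → X i} {E : Set (∀ i, X i)}
    (hE : ClosedUnder E t) (hsp : Sp4 E) (ht : ∀ i, IsSiggers (t i)) (hne : ∀ i, u i ≠ u' i)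
    (htri : ∀ i, tri u u' i ∈ E) : False := by
  obtain ⟨h1, -, h3, h4, h5⟩ := fam_props hE hsp (fun i => (ht i).1) hne htri
  have hFF : ∀ i S, FF t u u' i S = t i ![if (0 : Fin 4) ∈ S then u' i else u i,
      if (1 : Fin 4) ∈ S then u' i else u i, if (2 : Fin 4) ∈ S then u' i else u i,
      if (3 : Fin 4) ∈ S then u' i else u i] := by
    intro i S
    unfold FF
    congr 1
    funext x
    fin_cases x <;> rfl
  have e1 : ∀ i, FF t u u' i {2} = FF t u u' i {3} := by
    intro i
    rw [hFF, hFF]
    exact ((ht i).2 (u i) (u i) (u' i)).symm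
  have e2 : ∀ i, FF t u u' i {0, 3} = FF t u u' i {1} := by
    intro i
    rw [hFF, hFF]
    exact ((ht i).2 (u i) (u' i) (u i)).symm
  have m3 : Fam t u u' {3} := h5 {3} {3} {2} (by decide) (fun _ => rfl) e1
  have m2 : Fam t u u' {2} := by
    rw [← h1 0, e1 0]
    exact (h1 0 _).2 m3
  have m1 : Fam t u u' {1} := h5 {1} {1} {0, 3} (by decide) (fun _ => rfl) e2
  have m03 : Fam t u u' {0, 3} := by
    rw [← h1 0, e2 0]
    exact (h1 0 _).2 m1
  have m := h3 _ _ (by decide) (h3 _ _ (by decide) m03 m1) m2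
  have hu : ({0, 3} ∪ {1} ∪ {2} : Finset (Fin 4)) = univ := by decide
  rw [hu] at m
  exact h4 univ univ (union_self _) m m

/-- **No triangle** in a sparse relation with a Mal'cev operation. -/
theorem malcev_no_triangle {p : ∀ i, X i → X i → X i → X i} {E : Set (∀ i, X i)}
    (hE : ∀ x ∈ E, ∀ y ∈ E, ∀ z ∈ E, (fun i => p i (x i) (y i) (z i)) ∈ E) (hsp : Sp4 E)
    (hp : ∀ i, IsMalcev (p i)) (hne : ∀ i, u i ≠ u' i) (htri : ∀ i, tri u u' i ∈ E) : False := by
  let t : ∀ i, (Fin 3 → X i) → X i := fun i a => p i (a 0) (a 1) (a 2)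
  have hE' : ClosedUnder E t := fun a ha => hE _ (ha 0) _ (ha 1) _ (ha 2)
  obtain ⟨h1, -, h3, h4, h5⟩ := fam_props hE' hsp (fun i x => (hp i x x).1) hne htri
  have m12 : Fam t u u' {1, 2} := by
    show p 0 (if (0 : Fin 3) ∈ ({1, 2} : Finset (Fin 3)) then u' 0 else u 0)
      (if (1 : Fin 3) ∈ ({1, 2} : Finset (Fin 3)) then u' 0 else u 0)
      (if (2 : Fin 3) ∈ ({1, 2} : Finset (Fin 3)) then u' 0 else u 0) = u 0
    rw [if_neg (by decide), if_pos (by decide), if_pos (by decide)]
    exact (hp 0 _ _).1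
  have m01 : Fam t u u' {0, 1} := by
    show p 0 (if (0 : Fin 3) ∈ ({0, 1} : Finset (Fin 3)) then u' 0 else u 0)
      (if (1 : Fin 3) ∈ ({0, 1} : Finset (Fin 3)) then u' 0 else u 0)
      (if (2 : Fin 3) ∈ ({0, 1} : Finset (Fin 3)) then u' 0 else u 0) = u 0
    rw [if_pos (by decide), if_pos (by decide), if_neg (by decide)]
    exact (hp 0 _ _).2
  exact h4 _ _ (by decide) m12 m01

end Siggers

end Pool.Agent.U422.Taylor
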