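import Pool.Agent.U422.Kak
import Pool.Agent.U422.Taylor

/-!
# Minimal sets for families of equivalence relations with a weak near unanimity operation
-/

set_option autoImplicit false

namespace Pool.Agent.U422.Tame

open Finset Pool.Agent.U422.Kak Pool.Agent.U422.Taylor

variable {A ι : Type}

/-- maps which preserve all the equivalence relations `θ i` -/
def Pol1 (θ : ι → Setoid A) (f : A → A) : Prop := ∀ i x y, θ i x y → θ i (f x) (f y)

/-- equivalence relations preserved by all maps in `Pol1 θ` -/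
def Inv (θ : ι → Setoid A) (β : Setoid A) : Prop := ∀ f, Pol1 θ f → ∀ x y, β x y → β (f x) (f y)

theorem Pol1.comp {θ : ι → Setoid A} {f g : A → A} (hf : Pol1 θ f) (hg : Pol1 θ g) :
    Pol1 θ fun x => f (g x) := fun i _ _ h => hf i _ _ (hg i _ _ h)

theorem Pol1.iter {θ : ι → Setoid A} {f : A → A} (hf : Pol1 θ f) (k : ℕ) : Pol1 θ (f^[k]) := by
  induction k with
  | zero => exact fun i x y h => h
  | succ k ih =>
    rw [Function.iterate_succ]
    exact ih.comp hf

theorem pol1_id {θ : ι → Setoid A} : Pol1 θ id := fun _ _ _ h => h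

theorem inv_self (θ : ι → Setoid A) (i : ι) : Inv θ (θ i) := fun _ hf x y h => hf i x y h

theorem inv_inf {θ : ι → Setoid A} {α β : Setoid A} (hα : Inv θ α) (hβ : Inv θ β) :
    Inv θ (α ⊓ β) := fun f hf x y h => ⟨hα f hf x y h.1, hβ f hf x y h.2⟩

theorem inv_sup {θ : ι → Setoid A} {α β : Setoid A} (hα : Inv θ α) (hβ : Inv θ β) :
    Inv θ (α ⊔ β) := by
  intro f hf x y h
  let w : Setoid A := ⟨fun x y => (α ⊔ β) (f x) (f y), fun x => (α ⊔ β).refl _,
    fun h => (α ⊔ β).symm h, fun h h' => (α ⊔ β).trans h h'⟩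
  have hw : α ⊔ β ≤ w := by
    refine sup_le (fun a b hab => ?_) (fun a b hab => ?_)
    · exact (le_sup_left : α ≤ α ⊔ β) (hα f hf a b hab)
    · exact (le_sup_right : β ≤ α ⊔ β) (hβ f hf a b hab)
  exact hw h

theorem inv_bot {θ : ι → Setoid A} : Inv θ ⊥ := by
  intro f _ x y h
  have e : x = y := h
  subst e
  exact (⊥ : Setoid A).refl _

theorem inv_fsup (θ : ι → Setoid A) (s : Finset ι) : Inv θ (s.sup θ) :=
  Finset.sup_induction (p := Inv θ) inv_bot (fun _ h _ h' => inv_sup h h') fun i _ => inv_self θ i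

/-- there are minimal nontrivial invariant equivalence relations -/
theorem exists_min [Finite A] {θ : ι → Setoid A} {μ : Setoid A} (hμ : Inv θ μ)
    (hne : ∃ a b, μ a b ∧ a ≠ b) : ∃ δ, Inv θ δ ∧ δ ≤ μ ∧ (∃ a b, δ a b ∧ a ≠ b) ∧
      ∀ β, Inv θ β → β ≤ δ → (∃ a b, β a b ∧ a ≠ b) → δ ≤ β := by
  classical
  let P : ℕ → Prop := fun n => ∃ δ, Inv θ δ ∧ δ ≤ μ ∧ (∃ a b, δ a b ∧ a ≠ b) ∧
    {p : A × A | δ p.1 p.2}.ncard = n
  have hP : ∃ n, P n := ⟨_, μ, hμ, le_rfl, hne, rfl⟩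
  obtain ⟨δ, h1, h2, h3, h4⟩ := Nat.find_spec hP
  refine ⟨δ, h1, h2, h3, fun β hβ hβδ hβne => ?_⟩
  have h5 : Nat.find hP ≤ {p : A × A | β p.1 p.2}.ncard :=
    Nat.find_min' hP ⟨β, hβ, hβδ.trans h2, hβne, rfl⟩
  have h6 : {p : A × A | β p.1 p.2} = {p : A × A | δ p.1 p.2} := by
    refine Set.eq_of_subset_of_ncard_le (fun p hp => hβδ hp) ?_ (Set.toFinite _)
    rw [h4]
    exact h5
  intro x y hxy
  have h7 : ((x, y) : A × A) ∈ {p : A × A | δ p.1 p.2} := hxy
  rw [← h6] at h7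
  exact h7

/-- permutations have inverses which are iterates -/
theorem exists_inverse [Finite A] {e h : A → A} (heh : ∀ x, e (h x) = h x)
    (hinj : ∀ x y, e x = x → e y = y → h x = h y → x = y) :
    ∃ k : ℕ, ∀ x, e x = x → e (h^[k] x) = h^[k] x ∧ h (h^[k] x) = x ∧ h^[k] (h x) = x := by
  let H : {x // e x = x} → {x // e x = x} := fun x => ⟨h x.1, heh x.1⟩
  have hH : Function.Injective H := fun x y hxy =>
    Subtype.ext (hinj x.1 y.1 x.2 y.2 (congrArg Subtype.val hxy))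
  let σ : Equiv.Perm {x // e x = x} := Equiv.ofBijective H (Finite.injective_iff_bijective.1 hH)
  have hit : ∀ (k : ℕ) (x : {x // e x = x}), h^[k] x.1 = ((σ ^ k) x).1 := by
    intro k
    induction k with
    | zero => intro x; rfl
    | succ k ih =>
      intro x
      rw [Function.iterate_succ, Function.comp_apply, pow_succ, Equiv.Perm.mul_apply, ← ih (σ x)]
      rfl
  have hpos : 0 < orderOf σ := orderOf_pos σ
  refine ⟨orderOf σ - 1, fun x hx => ⟨?_, ?_, ?_⟩⟩
  · rw [hit _ ⟨x, hx⟩]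
    exact ((σ ^ (orderOf σ - 1)) ⟨x, hx⟩).2
  · have h1 : h (h^[orderOf σ - 1] x) = h^[orderOf σ] x := by
      rw [← Function.iterate_succ_apply' h, Nat.succ_eq_add_one, Nat.sub_add_cancel hpos]
    rw [h1, hit _ ⟨x, hx⟩, pow_orderOf_eq_one]
    rfl
  · have h1 : h^[orderOf σ - 1] (h x) = h^[orderOf σ] x := by
      rw [← Function.iterate_succ_apply h, Nat.succ_eq_add_one, Nat.sub_add_cancel hpos]
    rw [h1, hit _ ⟨x, hx⟩, pow_orderOf_eq_one]
    rfl

/-- **Minimal sets**: a retraction `e` such that all maps to its image `U` which preserve the `θ i`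
and do not collapse `δ` on `U` are injective on `U`. -/
theorem exists_retraction [Finite A] {θ : ι → Setoid A} {δ : Setoid A} (hδ : Inv θ δ)
    (hne : ∃ a b, δ a b ∧ a ≠ b)
    (hmin : ∀ β, Inv θ β → β ≤ δ → (∃ a b, β a b ∧ a ≠ b) → δ ≤ β) :
    ∃ e, Pol1 θ e ∧ (∀ x, e (e x) = e x) ∧ (∃ x y, δ x y ∧ e x ≠ e y) ∧
      ∀ g, Pol1 θ g → (∀ x, e (g x) = g x) →
        (∃ x y, δ x y ∧ e x = x ∧ e y = y ∧ g x ≠ g y) →
        ∀ x y, e x = x → e y = y → g x = g y → x = y := by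
  classical
  let P : ℕ → Prop := fun n => ∃ f, Pol1 θ f ∧ (∃ x y, δ x y ∧ f x ≠ f y) ∧
    (Set.range f).ncard = n
  have hP : ∃ n, P n := ⟨_, id, pol1_id, hne, rfl⟩
  obtain ⟨f, hf, ⟨x0, y0, hxy0, hfxy0⟩, hfn⟩ := Nat.find_spec hP
  have hmin' : ∀ g, Pol1 θ g → (∃ x y, δ x y ∧ g x ≠ g y) →
      (Set.range f).ncard ≤ (Set.range g).ncard := by
    intro g hg hgn
    rw [hfn]
    exact Nat.find_min' hP ⟨g, hg, hgn, rfl⟩
  -- a map from the image to the image which does not collapse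
  obtain ⟨h, hh, x1, y1, hxy1, hne1⟩ : ∃ h, Pol1 θ h ∧ ∃ x y, δ x y ∧
      f (h (f x)) ≠ f (h (f y)) := by
    by_contra hcon
    push Not at hcon
    let β : Setoid A := ⟨fun x y => δ x y ∧ ∀ h, Pol1 θ h → f (h x) = f (h y),
      fun x => ⟨δ.refl x, fun _ _ => rfl⟩, fun h => ⟨δ.symm h.1, fun g hg => (h.2 g hg).symm⟩,
      fun h h' => ⟨δ.trans h.1 h'.1, fun g hg => (h.2 g hg).trans (h'.2 g hg)⟩⟩
    have hβ : Inv θ β := by
      intro g hg x y hxy
      exact ⟨hδ g hg x y hxy.1, fun k hk => hxy.2 _ (hk.comp hg)⟩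
    have h1 : δ ≤ β := hmin β hβ (fun x y h => h.1)
      ⟨f x0, f y0, ⟨hδ f hf _ _ hxy0, fun h hh => hcon h hh x0 y0 hxy0⟩, hfxy0⟩
    exact hfxy0 ((h1 hxy0).2 id pol1_id)
  set g : A → A := fun x => f (h x) with hg
  have hgP : Pol1 θ g := hf.comp hh
  have hgf : (Set.range fun x => g (f x)) = g '' Set.range f := by
    ext z
    constructor
    · rintro ⟨x, rfl⟩
      exact ⟨f x, ⟨x, rfl⟩, rfl⟩
    · rintro ⟨-, ⟨x, rfl⟩, rfl⟩
      exact ⟨x, rfl⟩
  have hgsub : g '' Set.range f ⊆ Set.range f := by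
    rintro z ⟨x, -, rfl⟩
    exact ⟨h x, rfl⟩
  have hgeq : g '' Set.range f = Set.range f := by
    refine Set.eq_of_subset_of_ncard_le hgsub ?_ (Set.toFinite _)
    rw [← hgf]
    exact hmin' _ (hgP.comp hf) ⟨x1, y1, hxy1, hne1⟩
  have hginj : Set.InjOn g (Set.range f) := by
    refine (Set.ncard_image_iff (Set.toFinite _)).1 ?_
    rw [hgeq]
  -- an iterate of `g` is the identity on the image
  let H : {x // x ∈ Set.range f} → {x // x ∈ Set.range f} :=
    fun x => ⟨g x.1, hgsub ⟨x.1, x.2, rfl⟩⟩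
  have hH : Function.Injective H := fun x y hxy =>
    Subtype.ext (hginj x.2 y.2 (congrArg Subtype.val hxy))
  let σ : Equiv.Perm {x // x ∈ Set.range f} :=
    Equiv.ofBijective H (Finite.injective_iff_bijective.1 hH)
  have hit : ∀ (k : ℕ) (x : {x // x ∈ Set.range f}), g^[k] x.1 = ((σ ^ k) x).1 := by
    intro k
    induction k with
    | zero => intro x; rfl
    | succ k ih =>
      intro x
      rw [Function.iterate_succ, Function.comp_apply, pow_succ, Equiv.Perm.mul_apply, ← ih (σ x)]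
      rfl
  have hpos : 0 < orderOf σ := orderOf_pos σ
  set e : A → A := g^[orderOf σ] with he
  have heU : ∀ x, x ∈ Set.range f → e x = x := by
    intro x hx
    rw [he, hit _ ⟨x, hx⟩, pow_orderOf_eq_one]
    rfl
  have heR : ∀ x, e x ∈ Set.range f := by
    intro x
    rw [he]
    obtain ⟨k, hk⟩ : ∃ k, orderOf σ = k + 1 := ⟨orderOf σ - 1, by omega⟩
    rw [hk, Function.iterate_succ_apply']
    exact ⟨h (g^[k] x), rfl⟩
  have heP : Pol1 θ e := hgP.iter _
  have hUe : ∀ x, e x = x → x ∈ Set.range f := fun x hx => hx ▸ heR x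
  have hre : Set.range e = Set.range f := by
    ext z
    constructor
    · rintro ⟨x, rfl⟩
      exact heR x
    · intro hz
      exact ⟨z, heU z hz⟩
  refine ⟨e, heP, fun x => heU _ (heR x), ⟨f x0, f y0, hδ f hf _ _ hxy0, ?_⟩, ?_⟩
  · rw [heU _ ⟨x0, rfl⟩, heU _ ⟨y0, rfl⟩]
    exact hfxy0
  · rintro k hk hek ⟨x, y, hxy, hx, hy, hkxy⟩
    have hke : (Set.range fun x => k (e x)) = k '' Set.range f := by
      rw [← hre]
      ext z
      constructor
      · rintro ⟨x, rfl⟩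
        exact ⟨e x, ⟨x, rfl⟩, rfl⟩
      · rintro ⟨-, ⟨x, rfl⟩, rfl⟩
        exact ⟨x, rfl⟩
    have hksub : k '' Set.range f ⊆ Set.range f := by
      rintro z ⟨x, -, rfl⟩
      exact hUe _ (hek x)
    have hkeq : k '' Set.range f = Set.range f := by
      refine Set.eq_of_subset_of_ncard_le hksub ?_ (Set.toFinite _)
      rw [← hke]
      refine hmin' _ (hk.comp heP) ⟨x, y, hxy, ?_⟩
      show k (e x) ≠ k (e y)
      rw [hx, hy]
      exact hkxy
    have hkinj : Set.InjOn k (Set.range f) := by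
      refine (Set.ncard_image_iff (Set.toFinite _)).1 ?_
      rw [hkeq]
    intro x y hx hy hxy
    exact hkinj (hUe x hx) (hUe y hy) hxy

end Pool.Agent.U422.Tame
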