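import Pool.Agent.U422.TamePlus

/-!
# Independence and the inequality of Loomis and Whitney from a weak near unanimity operation
-/

set_option autoImplicit false

namespace Pool.Agent.U422.Tame

open Finset Pool.Agent.U422.Kak Pool.Agent.U422.Taylor

variable {A ι : Type}

/-- `e` is a retraction to a minimal set for `δ`. -/
structure MinSet (θ : ι → Setoid A) (δ : Setoid A) (e : A → A) : Prop where
  inv : Inv θ δ
  pol : Pol1 θ e
  idem : ∀ x, e (e x) = e x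
  ne : ∃ x y, δ x y ∧ e x ≠ e y
  min : ∀ g, Pol1 θ g → (∀ x, e (g x) = g x) →
    (∃ x y, δ x y ∧ e x = x ∧ e y = y ∧ g x ≠ g y) → ∀ x y, e x = x → e y = y → g x = g y → x = y

theorem exists_minSet [Finite A] {θ : ι → Setoid A} {μ : Setoid A} (hμ : Inv θ μ)
    (hne : ∃ a b, μ a b ∧ a ≠ b) : ∃ δ e, MinSet θ δ e ∧ δ ≤ μ := by
  obtain ⟨δ, h1, h2, h3, h4⟩ := exists_min hμ hne
  obtain ⟨e, h5, h6, h7, h8⟩ := exists_retraction h1 h3 h4
  exact ⟨δ, e, ⟨h1, h5, h6, h7, h8⟩, h2⟩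

theorem MinSet.exists_pair {θ : ι → Setoid A} {δ : Setoid A} {e : A → A} (hM : MinSet θ δ e) :
    ∃ a b, e a = a ∧ e b = b ∧ δ a b ∧ a ≠ b := by
  obtain ⟨x, y, hxy, hne⟩ := hM.ne
  exact ⟨e x, e y, hM.idem x, hM.idem y, hM.inv e hM.pol _ _ hxy, hne⟩

/-- the points of the minimal set with a nontrivial class -/
def NT (δ : Setoid A) (e : A → A) (x : A) : Prop := ∃ y, e y = y ∧ x ≠ y ∧ δ x y

variable {n : ℕ} {θ : ι → Setoid A} {w : (Fin n → A) → A} {δ : Setoid A} {e : A → A}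
  {J : Finset ι} [Finite A]

theorem MinSet.plus (hM : MinSet θ δ e) (hn : 2 ≤ n) (hwnu : IsWNU w) (hw : Pres θ w)
    (hJ : ∀ j ∈ J, θ j ⊓ δ ≤ ⊥) (hδJ : δ ≤ J.sup θ) {a : A} (ha : e a = a) (hNT : NT δ e a) :
    ∃ q : A → A → A, (∀ x y, e (q x y) = q x y) ∧ (∀ x, e x = x → q x a = x ∧ q a x = x) ∧
      ∀ β, Inv θ β → ∀ x x' y y', β x x' → β y y' → β (q x y) (q x' y') := by
  obtain ⟨b, hb, hab, hδab⟩ := hNT
  obtain ⟨q, h1, h2, h3, h4⟩ := local_plus hn hwnu hw hM.inv hJ hδJ hM.pol hM.idem hM.min ha hb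
    hδab hab
  exact ⟨q, h1, h2, fun β hβ x x' y y' hx hy =>
    β.trans (hβ _ (h3 y) _ _ hx) (hβ _ (h4 x') _ _ hy)⟩

theorem nt_step (hM : MinSet θ δ e) (hn : 2 ≤ n) (hwnu : IsWNU w) (hw : Pres θ w)
    (hJ : ∀ j ∈ J, θ j ⊓ δ ≤ ⊥) (hδJ : δ ≤ J.sup θ) {j : ι} (hj : j ∈ J) {c c' : A}
    (hc : e c = c) (hc' : e c' = c') (hcc : θ j c c') (hNT : NT δ e c) : NT δ e c' := by
  obtain ⟨q, h1, h2, h3⟩ := hM.plus hn hwnu hw hJ hδJ hc hNT
  obtain ⟨d, hd, hcd, hδcd⟩ := hNT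
  have e1 : δ (q d c') c' := by
    have := h3 δ hM.inv d c c' c' (δ.symm hδcd) (δ.refl _)
    rwa [(h2 c' hc').2] at this
  have e2 : θ j (q d c') d := by
    have := h3 (θ j) (inv_self θ j) d d c' c ((θ j).refl _) ((θ j).symm hcc)
    rwa [(h2 d hd).1] at this
  refine ⟨q d c', h1 _ _, fun hcon => hcd ?_, δ.symm e1⟩
  rw [← hcon] at e2
  exact hJ j hj ⟨(θ j).trans hcc e2, hδcd⟩

theorem nt_sup (hM : MinSet θ δ e) (hn : 2 ≤ n) (hwnu : IsWNU w) (hw : Pres θ w)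
    (hJ : ∀ j ∈ J, θ j ⊓ δ ≤ ⊥) (hδJ : δ ≤ J.sup θ) {c c' : A} (hcc : (J.sup θ) c c') :
    NT δ e (e c) ↔ NT δ e (e c') := by
  let W : Setoid A := ⟨fun c c' => (NT δ e (e c) ↔ NT δ e (e c')), fun _ => Iff.rfl,
    fun h => h.symm, fun h h' => h.trans h'⟩
  have hW : J.sup θ ≤ W := Finset.sup_le fun j hj c c' h =>
    ⟨nt_step hM hn hwnu hw hJ hδJ hj (hM.idem _) (hM.idem _) (hM.pol j _ _ h),
      nt_step hM hn hwnu hw hJ hδJ hj (hM.idem _) (hM.idem _) (hM.pol j _ _ ((θ j).symm h))⟩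
  exact hW hcc

theorem permute (hM : MinSet θ δ e) (hn : 2 ≤ n) (hwnu : IsWNU w) (hw : Pres θ w)
    (hJ : ∀ j ∈ J, θ j ⊓ δ ≤ ⊥) (hδJ : δ ≤ J.sup θ) {α β : Setoid A} (hα : Inv θ α)
    (hβ : Inv θ β) {x y z : A} (hx : e x = x) (hy : e y = y) (hz : e z = z) (hNT : NT δ e y)
    (hxy : α x y) (hyz : β y z) : ∃ q, e q = q ∧ β x q ∧ α q z := by
  obtain ⟨q, h1, h2, h3⟩ := hM.plus hn hwnu hw hJ hδJ hy hNT
  refine ⟨q x z, h1 _ _, ?_, ?_⟩
  · have := h3 β hβ x x y z (β.refl _) hyz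
    rwa [(h2 x hx).1] at this
  · have := h3 α hα x y z z hxy (α.refl _)
    rwa [(h2 z hz).2] at this

/-- on the minimal set joins are compositions -/
theorem decomp (hM : MinSet θ δ e) (hn : 2 ≤ n) (hwnu : IsWNU w) (hw : Pres θ w)
    (hJ : ∀ j ∈ J, θ j ⊓ δ ≤ ⊥) (hδJ : δ ≤ J.sup θ) {α β : Setoid A} (hα : Inv θ α)
    (hβ : Inv θ β) (hαJ : α ≤ J.sup θ) (hβJ : β ≤ J.sup θ) {x z : A} (hx : e x = x) (hz : e z = z)
    (hNT : NT δ e x) (hxz : (α ⊔ β) x z) : ∃ y, e y = y ∧ α x y ∧ β y z := by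
  have hnt : ∀ {c c'}, (J.sup θ) c c' → (NT δ e (e c) ↔ NT δ e (e c')) := fun h =>
    nt_sup hM hn hwnu hw hJ hδJ h
  let T : Setoid A := ⟨fun c c' => (NT δ e (e c) ↔ NT δ e (e c')) ∧
      (NT δ e (e c) → ∃ y, e y = y ∧ α (e c) y ∧ β y (e c')),
    fun c => ⟨Iff.rfl, fun _ => ⟨e c, hM.idem c, α.refl _, β.refl _⟩⟩, by
      rintro c c' ⟨h1, h2⟩
      refine ⟨h1.symm, fun h3 => ?_⟩
      obtain ⟨y, hy, h4, h5⟩ := h2 (h1.2 h3)
      have h6 : NT δ e y := by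
        have h7 := (hnt (hβJ h5)).2
        rw [hM.idem] at h7
        rw [← hy]
        exact h7 h3
      obtain ⟨q, hq, h7, h8⟩ := permute hM hn hwnu hw hJ hδJ hβ hα (hM.idem c') hy (hM.idem c) h6
        (β.symm h5) (α.symm h4)
      exact ⟨q, hq, h7, h8⟩, by
      rintro c c' c'' ⟨h1, h2⟩ ⟨h3, h4⟩
      refine ⟨h1.trans h3, fun h5 => ?_⟩
      obtain ⟨y, hy, h6, h7⟩ := h2 h5
      obtain ⟨y', hy', h8, h9⟩ := h4 (h1.1 h5)
      obtain ⟨q, hq, h10, h11⟩ := permute hM hn hwnu hw hJ hδJ hβ hα hy (hM.idem c') hy' (h1.1 h5)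
        h7 h8
      exact ⟨q, hq, α.trans h6 h10, β.trans h11 h9⟩⟩
  have hT : α ⊔ β ≤ T := by
    refine sup_le (fun c c' h => ⟨hnt (hαJ h), fun _ => ?_⟩) (fun c c' h => ⟨hnt (hβJ h), fun _ => ?_⟩)
    · exact ⟨e c', hM.idem c', hα e hM.pol _ _ h, β.refl _⟩
    · exact ⟨e c, hM.idem c, α.refl _, hβ e hM.pol _ _ h⟩
  have h1 := (hT hxz).2
  rw [hx, hz] at h1
  exact h1 hNT

/-- **Independent** kernels of a weak near unanimity operation: the meet of the complementary joins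
is trivial. -/
theorem wnu_modular [Fintype ι] [DecidableEq ι] (hn : 2 ≤ n) (hwnu : IsWNU w) (hw : Pres θ w)
    (hind : ∀ i, θ i ⊓ psi θ i ≤ ⊥) (i₀ : ι) {x y : A} (h : ∀ i, psi θ i x y) : x = y := by
  by_contra hxy
  let μ : Setoid A := ⟨fun x y => ∀ i, psi θ i x y, fun x i => (psi θ i).refl x,
    fun h i => (psi θ i).symm (h i), fun h h' i => (psi θ i).trans (h i) (h' i)⟩
  have hμ : Inv θ μ := fun f hf x y h i => inv_fsup θ _ f hf x y (h i)
  obtain ⟨δ, e, hM, hδμ⟩ := exists_minSet hμ ⟨x, y, h, hxy⟩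
  obtain ⟨a, b, ha, hb, hab, hne⟩ := hM.exists_pair
  have hδψ : ∀ i, δ ≤ psi θ i := fun i x y hxy => hδμ hxy i
  have hJ : ∀ j ∈ (univ : Finset ι), θ j ⊓ δ ≤ ⊥ := fun j _ => (inf_le_inf_left _ (hδψ j)).trans
    (hind j)
  have hδJ : δ ≤ univ.sup θ := (hδψ i₀).trans (Finset.sup_mono (erase_subset _ _))
  have hNT : NT δ e a := ⟨b, hb, hne, hab⟩
  have key : ∀ s : Finset ι, ((insert i₀ s)ᶜ.sup θ) a b := by
    intro s
    induction s using Finset.induction_on with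
    | empty =>
      have h1 : (insert i₀ (∅ : Finset ι))ᶜ = univ.erase i₀ := by
        ext j
        simp
      rw [h1]
      exact hδψ i₀ hab
    | insert i s hi ih =>
      by_cases hii : i = i₀
      · subst hii
        rw [insert_idem]
        exact ih
      · have h1 : (insert i₀ s)ᶜ = insert i (insert i₀ (insert i s))ᶜ := by
          ext j
          simp only [mem_compl, mem_insert]
          constructor
          · intro hj
            by_cases hji : j = i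
            · exact Or.inl hji
            · right
              push Not at hj ⊢
              exact ⟨hj.1, hji, hj.2⟩
          · rintro (rfl | hj)
            · push Not
              exact ⟨hii, hi⟩
            · push Not at hj ⊢
              exact ⟨hj.1, hj.2.2⟩
        rw [h1, sup_insert, sup_comm] at ih
        obtain ⟨y, hy, h2, h3⟩ := decomp hM hn hwnu hw hJ hδJ (inv_fsup θ _) (inv_self θ i)
          (Finset.sup_mono (subset_univ _)) (Finset.le_sup (f := θ) (mem_univ i)) ha hb hNT ih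
        have h4 : psi θ i y b :=
          (psi θ i).trans ((psi θ i).symm (sup_le_psi (by simp) h2)) (hδψ i hab)
        have h5 : y = b := hind i ⟨h3, h4⟩
        rw [← h5]
        exact h2
  have h1 := key univ
  have h2 : (insert i₀ (univ : Finset ι))ᶜ = ∅ := by
    ext j
    simp
  rw [h2, sup_empty] at h1
  exact hne h1

end Pool.Agent.U422.Tame
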