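import Pool.Agent.U422.Tame

/-!
# The local addition on a minimal set
-/

set_option autoImplicit false

namespace Pool.Agent.U422.Tame

open Finset Pool.Agent.U422.Kak Pool.Agent.U422.Taylor

variable {A ι : Type} {n : ℕ} {θ : ι → Setoid A} {w : (Fin n → A) → A}

/-- `w` preserves all the `θ i` -/
def Pres (θ : ι → Setoid A) (w : (Fin n → A) → A) : Prop :=
  ∀ i (x y : Fin n → A), (∀ l, θ i (x l) (y l)) → θ i (w x) (w y)

theorem pol1_const (c : A) : Pol1 θ fun _ => c := fun i _ _ _ => (θ i).refl c

theorem Pres.pol1 (hw : Pres θ w) {f : Fin n → A → A} (hf : ∀ l, Pol1 θ (f l)) :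
    Pol1 θ fun x => w fun l => f l x := fun i x y h => hw i _ _ fun l => hf l i x y h

/-- **The term condition** follows from trivial intersections. -/
theorem term_step (hw : Pres θ w) {δ : Setoid A} (hδ : Inv θ δ) {J : Finset ι}
    (hJ : ∀ j ∈ J, θ j ⊓ δ ≤ ⊥) {e : A → A} (he : Pol1 θ e) {a b : A} (hab : δ a b) (l : Fin n)
    (c : Fin n → A) (m : Fin n) (z : A) (hz : (J.sup θ) (c m) z)
    (hc : e (w (Function.update c l a)) = e (w (Function.update c l b))) :
    e (w (Function.update (Function.update c m z) l a)) =
      e (w (Function.update (Function.update c m z) l b)) := by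
  by_cases hml : m = l
  · subst hml
    rw [Function.update_idem, Function.update_idem]
    exact hc
  let F : A → A → A := fun u z => e (w (Function.update (Function.update c m z) l u))
  have hF1 : ∀ j u z z', θ j z z' → θ j (F u z) (F u z') := by
    intro j u z z' h
    refine he j _ _ (hw j _ _ fun p => ?_)
    by_cases hp : p = l
    · subst hp
      rw [Function.update_self, Function.update_self]
    · rw [Function.update_of_ne hp, Function.update_of_ne hp]
      by_cases hp' : p = m
      · subst hp'
        rw [Function.update_self, Function.update_self]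
        exact h
      · rw [Function.update_of_ne hp', Function.update_of_ne hp']
  have hF2 : ∀ z, Pol1 θ fun u => F u z := by
    intro z
    have h1 : Pol1 θ fun u => w (Function.update (Function.update c m z) l u) := by
      intro i x y hxy
      refine hw i _ _ fun p => ?_
      by_cases hp : p = l
      · subst hp
        rw [Function.update_self, Function.update_self]
        exact hxy
      · rw [Function.update_of_ne hp, Function.update_of_ne hp]
    exact he.comp h1
  let W : Setoid A := ⟨fun z z' => (F a z = F b z ↔ F a z' = F b z'), fun _ => Iff.rfl,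
    fun h => h.symm, fun h h' => h.trans h'⟩
  have hstep : ∀ j ∈ J, ∀ z z', θ j z z' → F a z = F b z → F a z' = F b z' := by
    intro j hj z z' hzz h
    have h1 : θ j (F a z') (F b z') := by
      refine (θ j).trans ((θ j).symm (hF1 j a z z' hzz)) ?_
      rw [h]
      exact hF1 j b z z' hzz
    exact hJ j hj ⟨h1, hδ _ (hF2 z') a b hab⟩
  have hW : J.sup θ ≤ W := Finset.sup_le fun j hj z z' hzz =>
    ⟨hstep j hj z z' hzz, hstep j hj z' z ((θ j).symm hzz)⟩
  have h1 := (hW hz).1
  refine h1 ?_
  show e (w (Function.update (Function.update c m (c m)) l a)) =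
    e (w (Function.update (Function.update c m (c m)) l b))
  rw [Function.update_eq_self]
  exact hc

theorem term_condition (hw : Pres θ w) {δ : Setoid A} (hδ : Inv θ δ) {J : Finset ι}
    (hJ : ∀ j ∈ J, θ j ⊓ δ ≤ ⊥) {e : A → A} (he : Pol1 θ e) {a b : A} (hab : δ a b) (l : Fin n)
    (c c' : Fin n → A) (hcc : ∀ m, (J.sup θ) (c m) (c' m))
    (hc : e (w (Function.update c l a)) = e (w (Function.update c l b))) :
    e (w (Function.update c' l a)) = e (w (Function.update c' l b)) := by
  classical
  have key : ∀ S : Finset (Fin n), e (w (Function.update (fun m => if m ∈ S then c' m else c m) l a))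
      = e (w (Function.update (fun m => if m ∈ S then c' m else c m) l b)) := by
    intro S
    induction S using Finset.induction_on with
    | empty =>
      simp only [notMem_empty, if_false]
      exact hc
    | insert m S hm ih =>
      have h1 : (fun p => if p ∈ insert m S then c' p else c p) =
          Function.update (fun p => if p ∈ S then c' p else c p) m (c' m) := by
        funext p
        by_cases hp : p = m
        · subst hp
          rw [Function.update_self, if_pos (mem_insert_self _ _)]
        · rw [Function.update_of_ne hp]
          simp only [mem_insert, hp, false_or]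
      rw [h1]
      refine term_step hw hδ hJ he hab l _ m (c' m) ?_ ih
      simp only [if_neg hm]
      exact hcc m
  have h1 := key univ
  simpa using h1

/-- a translate of the operation does not collapse `δ` on the minimal set -/
theorem no_collapse (hwnu : IsWNU w) (hw : Pres θ w) {δ : Setoid A} (hδ : Inv θ δ) {J : Finset ι}
    (hJ : ∀ j ∈ J, θ j ⊓ δ ≤ ⊥) (hδJ : δ ≤ J.sup θ) {e : A → A} (he : Pol1 θ e) {a b : A}
    (ha : e a = a) (hb : e b = b) (hab : δ a b) (l₀ : Fin n)
    (hcol : e (w (Function.update (fun _ => a) l₀ b)) = a) : a = b := by
  classical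
  have h0 : ∀ l, e (w (Function.update (fun _ => a) l a)) =
      e (w (Function.update (fun _ => a) l b)) := by
    intro l
    rw [hwnu.2 l l₀ a b, hcol]
    have : Function.update (fun _ : Fin n => a) l a = fun _ => a :=
      Function.update_eq_self l (fun _ : Fin n => a)
    rw [this, hwnu.1, ha]
  have key : ∀ S : Finset (Fin n), e (w fun m => if m ∈ S then b else a) = a := by
    intro S
    induction S using Finset.induction_on with
    | empty =>
      simp only [notMem_empty, if_false]
      rw [hwnu.1, ha]
    | insert m S hm ih =>
      have h1 : (fun p => if p ∈ insert m S then b else a) =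
          Function.update (fun p => if p ∈ S then b else a) m b := by
        funext p
        by_cases hp : p = m
        · subst hp
          rw [Function.update_self, if_pos (mem_insert_self _ _)]
        · rw [Function.update_of_ne hp]
          simp only [mem_insert, hp, false_or]
      have h2 : (fun p => if p ∈ S then b else a) =
          Function.update (fun p => if p ∈ S then b else a) m a := by
        funext p
        by_cases hp : p = m
        · subst hp
          rw [Function.update_self, if_neg hm]
        · rw [Function.update_of_ne hp]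
      rw [h1, ← term_condition hw hδ hJ he hab m (fun _ => a) _ ?_ (h0 m), ← h2]
      · exact ih
      · intro p
        by_cases hp : p ∈ S
        · simp only [if_pos hp]
          exact hδJ hab
        · simp only [if_neg hp]
          exact (J.sup θ).refl a
  have h1 := key univ
  simp only [mem_univ, if_true] at h1
  rw [hwnu.1, hb] at h1
  exact h1.symm

/-- **The local addition** with zero `a`. -/
theorem local_plus [Finite A] (hn : 2 ≤ n) (hwnu : IsWNU w) (hw : Pres θ w) {δ : Setoid A}
    (hδ : Inv θ δ) {J : Finset ι} (hJ : ∀ j ∈ J, θ j ⊓ δ ≤ ⊥) (hδJ : δ ≤ J.sup θ) {e : A → A}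
    (he : Pol1 θ e) (hee : ∀ x, e (e x) = e x)
    (hmin : ∀ g, Pol1 θ g → (∀ x, e (g x) = g x) → (∃ x y, δ x y ∧ e x = x ∧ e y = y ∧ g x ≠ g y) →
      ∀ x y, e x = x → e y = y → g x = g y → x = y)
    {a b : A} (ha : e a = a) (hb : e b = b) (hab : δ a b) (hne : a ≠ b) :
    ∃ q : A → A → A, (∀ x y, e (q x y) = q x y) ∧ (∀ x, e x = x → q x a = x ∧ q a x = x) ∧
      (∀ y, Pol1 θ fun x => q x y) ∧ ∀ x, Pol1 θ (q x) := by
  classical
  let l₀ : Fin n := ⟨0, by omega⟩
  let l₁ : Fin n := ⟨1, by omega⟩
  have hl : l₀ ≠ l₁ := fun h => by
    have := congrArg Fin.val h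
    simp [l₀, l₁] at this
  let h : A → A := fun x => e (w (Function.update (fun _ => a) l₀ x))
  have hP : Pol1 θ h := by
    have h1 : Pol1 θ fun u => w (Function.update (fun _ => a) l₀ u) := by
      intro i x y hxy
      refine hw i _ _ fun p => ?_
      by_cases hp : p = l₀
      · subst hp
        rw [Function.update_self, Function.update_self]
        exact hxy
      · rw [Function.update_of_ne hp, Function.update_of_ne hp]
    exact he.comp h1
  have hca : Function.update (fun _ : Fin n => a) l₀ a = fun _ => a :=
    Function.update_eq_self l₀ (fun _ : Fin n => a)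
  have hha : h a = a := by
    show e (w (Function.update (fun _ => a) l₀ a)) = a
    rw [hca, hwnu.1, ha]
  have hinj := hmin h hP (fun x => hee _) ⟨b, a, δ.symm hab, hb, ha, fun hcon => hne
    (no_collapse hwnu hw hδ hJ hδJ he ha hb hab l₀ (hcon.trans hha))⟩
  obtain ⟨k, hk⟩ := exists_inverse (e := e) (h := h) (fun x => hee _) hinj
  have hka : h^[k] a = a := by
    have := (hk a ha).2.2
    rwa [hha] at this
  have hkP : Pol1 θ (h^[k]) := hP.iter k
  refine ⟨fun x y => e (w fun m => if m = l₀ then h^[k] x else if m = l₁ then h^[k] y else a),
    fun x y => hee _, fun x hx => ⟨?_, ?_⟩, fun y => ?_, fun x => ?_⟩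
  · have h1 : (fun m => if m = l₀ then h^[k] x else if m = l₁ then h^[k] a else a) =
        Function.update (fun _ => a) l₀ (h^[k] x) := by
      funext m
      by_cases hm : m = l₀
      · rw [if_pos hm, hm, Function.update_self]
      · rw [if_neg hm, Function.update_of_ne hm, hka, ite_self]
    show e (w fun m => if m = l₀ then h^[k] x else if m = l₁ then h^[k] a else a) = x
    rw [h1]
    exact (hk x hx).2.1
  · have h1 : (fun m => if m = l₀ then h^[k] a else if m = l₁ then h^[k] x else a) =
        Function.update (fun _ => a) l₁ (h^[k] x) := by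
      funext m
      by_cases hm : m = l₁
      · rw [hm, Function.update_self, if_neg hl.symm, if_pos rfl]
      · rw [Function.update_of_ne hm, if_neg hm, hka, ite_self]
    show e (w fun m => if m = l₀ then h^[k] a else if m = l₁ then h^[k] x else a) = x
    rw [h1, hwnu.2 l₁ l₀ a _]
    exact (hk x hx).2.1
  · refine he.comp (hw.pol1 fun m => ?_)
    by_cases hm : m = l₀
    · simp only [if_pos hm]
      exact hkP
    · simp only [if_neg hm]
      exact pol1_const _
  · refine he.comp (hw.pol1 (f := fun m y => if m = l₀ then h^[k] x else
      if m = l₁ then h^[k] y else a) fun m => ?_)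
    by_cases hm : m = l₀
    · simp only [if_pos hm]
      exact pol1_const _
    · simp only [if_neg hm]
      by_cases hm' : m = l₁
      · simp only [if_pos hm']
        exact hkP
      · simp only [if_neg hm']
        exact pol1_const _

end Pool.Agent.U422.Tame
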