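import Pool.Agent.U422.Taylor

/-!
# Triangle removal and triple systems closed under Taylor operations
-/

set_option autoImplicit false

namespace Pool.Agent.U422.Taylor

open Finset Pool.Agent.R181.Maj Pool.Agent.U422.Gumm

open SimpleGraph TripartiteFromTriangles in
/-- the theorem of Ruzsa and Szemerédi in a uniform form -/
theorem rs (ε : ℝ) (hε : 0 < ε) : ∃ n₀ : ℕ, ∀ (α β γ : Type) [Fintype α] [Fintype β] [Fintype γ]
    [DecidableEq α] [DecidableEq β] [DecidableEq γ] (t : Finset (α × β × γ)) [ExplicitDisjoint t]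
    [NoAccidental t] (n : ℕ), n₀ ≤ n → Fintype.card α + Fintype.card β + Fintype.card γ ≤ n →
    (#t : ℝ) ≤ ε * (n : ℝ) ^ 2 := by
  set b := triangleRemovalBound ε with hb
  have hb0 : 0 < b := triangleRemovalBound_pos hε
  obtain ⟨n₀, hn₀⟩ := exists_nat_gt (1 / (b ^ 2 * ε) + 1)
  refine ⟨n₀, ?_⟩
  intro α β γ _ _ _ _ _ _ t _ _ n hn hcard
  by_contra hcon
  push Not at hcon
  set N : ℕ := Fintype.card α + Fintype.card β + Fintype.card γ with hN
  have hNn : (N : ℝ) ≤ n := by exact_mod_cast hcard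
  have hfar : (graph t).FarFromTriangleFree ε := by
    refine farFromTriangleFree t ?_
    have h1 : ε * (N : ℝ) ^ 2 ≤ ε * (n : ℝ) ^ 2 := by
      refine mul_le_mul_of_nonneg_left ?_ hε.le
      exact pow_le_pow_left₀ (Nat.cast_nonneg _) hNn 2
    have h2 : ε * (((Fintype.card α + Fintype.card β + Fintype.card γ) ^ 2 : ℕ) : ℝ) =
        ε * (N : ℝ) ^ 2 := by
      rw [hN]
      push_cast
      ring
    rw [h2]
    exact (h1.trans_lt hcon).le
  have h1 := hfar.le_card_cliqueFinset
  rw [card_triangles, ← hb] at h1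
  have h2 : (Fintype.card (α ⊕ β ⊕ γ) : ℝ) = N := by
    rw [Fintype.card_sum, Fintype.card_sum, hN, add_assoc]
  rw [h2] at h1
  have h3 : #t ≤ Fintype.card α * Fintype.card β := by
    rw [← Fintype.card_prod, ← card_univ]
    refine card_le_card_of_injOn (fun x => (x.1, x.2.1)) (fun _ _ => mem_coe.2 (mem_univ _)) ?_
    rintro ⟨a, b, c⟩ hx ⟨a', b', c'⟩ hy hxy
    rw [Prod.mk.injEq] at hxy
    obtain ⟨e1, e2⟩ := hxy
    simp only at e1 e2
    subst e1
    subst e2
    rw [ExplicitDisjoint.inj₂ (mem_coe.1 hx) (mem_coe.1 hy)]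
  have h4 : #t ≤ N ^ 2 := by
    refine h3.trans ?_
    rw [sq]
    exact Nat.mul_le_mul (by omega) (by omega)
  have h5 : (#t : ℝ) ≤ (N : ℝ) ^ 2 := by exact_mod_cast h4
  have hpos : (0 : ℝ) < #t := lt_of_le_of_lt (by positivity) hcon
  have hN0 : (0 : ℝ) < N := by
    by_contra h
    have : (N : ℝ) = 0 := le_antisymm (not_lt.1 h) (Nat.cast_nonneg _)
    rw [this] at h5
    norm_num at h5
    rw [h5] at hpos
    norm_num at hpos
  have h6 : b * (N : ℝ) ≤ 1 := by
    have h7 : b * (N : ℝ) * (N : ℝ) ^ 2 ≤ 1 * (N : ℝ) ^ 2 := by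
      calc b * (N : ℝ) * (N : ℝ) ^ 2 = b * (N : ℝ) ^ 3 := by ring
        _ ≤ (#t : ℝ) := h1
        _ ≤ 1 * (N : ℝ) ^ 2 := by rw [one_mul]; exact h5
    exact le_of_mul_le_mul_right h7 (by positivity)
  have h8 : (#t : ℝ) ≤ 1 / b ^ 2 := by
    rw [le_div_iff₀ (by positivity)]
    calc (#t : ℝ) * b ^ 2 ≤ (N : ℝ) ^ 2 * b ^ 2 := mul_le_mul_of_nonneg_right h5 (by positivity)
      _ = (b * N) ^ 2 := by ring
      _ ≤ 1 ^ 2 := pow_le_pow_left₀ (by positivity) h6 2
      _ = 1 := one_pow 2
  have h9 : (1 : ℝ) / (b ^ 2 * ε) < n := by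
    have : (n₀ : ℝ) ≤ n := by exact_mod_cast hn
    linarith
  have h10 : (1 : ℝ) ≤ n := by
    have h11 : (n₀ : ℝ) ≤ n := by exact_mod_cast hn
    have h12 : (0 : ℝ) < 1 / (b ^ 2 * ε) := by positivity
    linarith
  have h13 : 1 / b ^ 2 ≤ ε * (n : ℝ) ^ 2 := by
    have h14 : 1 / b ^ 2 = ε * (1 / (b ^ 2 * ε)) := by
      field_simp
    rw [h14]
    refine mul_le_mul_of_nonneg_left ?_ hε.le
    nlinarith
  linarith

section Relation

variable {X : Fin 3 → Type}

/-- two coordinates agree -/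
def Tight (a b : ∀ i, X i) : Prop := ∃ i j, i ≠ j ∧ a i = b i ∧ a j = b j

theorem fibre_le [∀ i, DecidableEq (X i)] {E : Finset (∀ i, X i)} (hsp : Sp4 (E : Set (∀ i, X i)))
    (i j : Fin 3) (hij : i ≠ j) (a : ∀ i, X i) :
    #(E.filter fun x => x i = a i ∧ x j = a j) ≤ 3 := by
  classical
  by_contra hcon
  push Not at hcon
  obtain ⟨T, hT, hT4⟩ := exists_subset_card_eq hcon
  have h1 := hsp T (fun x hx => (mem_filter.1 (hT (mem_coe.1 hx))).1) hT4
  obtain ⟨l, hli, hlj⟩ := third i j hij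
  have hi : #(T.image fun x => x i) ≤ 1 := by
    refine (card_le_card (t := {a i}) ?_).trans (card_singleton _).le
    intro y hy
    obtain ⟨x, hx, rfl⟩ := mem_image.1 hy
    exact mem_singleton.2 (mem_filter.1 (hT hx)).2.1
  have hj : #(T.image fun x => x j) ≤ 1 := by
    refine (card_le_card (t := {a j}) ?_).trans (card_singleton _).le
    intro y hy
    obtain ⟨x, hx, rfl⟩ := mem_image.1 hy
    exact mem_singleton.2 (mem_filter.1 (hT hx)).2.2
  have hl : #(T.image fun x => x l) ≤ 4 := card_image_le.trans hT4.le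
  have h2 : ∑ m, #(T.image fun x => x m) ≤ 6 := by
    rw [Fin.sum_univ_three]
    have h0 : ∀ m, m = i ∨ m = j ∨ m = l := fun m => cases_third i j l m hij hli hlj
    fin_cases i <;> fin_cases j <;> fin_cases l <;> simp at hij hli hlj hi hj hl <;> omega
  omega

/-- A sparse relation without triangles has few elements. -/
theorem relation_bound (ε : ℝ) (hε : 0 < ε) : ∃ n₀ : ℕ, ∀ (X : Fin 3 → Type)
    [∀ i, Fintype (X i)] [∀ i, DecidableEq (X i)] (E : Finset (∀ i, X i)),
    Sp4 (E : Set (∀ i, X i)) →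
    (∀ u u' : ∀ i, X i, (∀ i, u i ≠ u' i) → (∀ i, tri u u' i ∈ E) → False) →
    ∀ n : ℕ, n₀ ≤ n → ∑ i, Fintype.card (X i) ≤ n → (#E : ℝ) ≤ ε * (n : ℝ) ^ 2 := by
  classical
  obtain ⟨n₀, hn₀⟩ := rs (ε / 9) (by positivity)
  refine ⟨n₀, ?_⟩
  intro X _ _ E hsp htri n hn hcard
  -- a maximal linear subset
  let P : Finset (∀ i, X i) → Prop := fun D => ∀ a ∈ D, ∀ b ∈ D, Tight a b → a = b
  obtain ⟨D, hD, hmax⟩ := exists_max_image (E.powerset.filter P) card
    ⟨∅, mem_filter.2 ⟨empty_mem_powerset _, by intro a ha; exact absurd ha (notMem_empty a)⟩⟩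
  obtain ⟨hDE', hDP⟩ := mem_filter.1 hD
  have hDE := mem_powerset.1 hDE'
  have htsymm : ∀ a b : ∀ i, X i, Tight a b → Tight b a := by
    rintro a b ⟨i, j, hij, h1, h2⟩
    exact ⟨i, j, hij, h1.symm, h2.symm⟩
  have hcover : ∀ e ∈ E, ∃ d ∈ D, Tight e d := by
    intro e he
    by_contra hcon
    push Not at hcon
    have heD : e ∉ D := fun h => hcon e h ⟨0, 1, by decide, rfl, rfl⟩
    have h1 : P (insert e D) := by
      intro a ha b hb hab
      rw [mem_insert] at ha hb
      rcases ha with rfl | ha <;> rcases hb with rfl | hb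
      · rfl
      · exact absurd hab (hcon b hb)
      · exact absurd (htsymm _ _ hab) (hcon a ha)
      · exact hDP a ha b hb hab
    have h2 := hmax (insert e D) (mem_filter.2 ⟨mem_powerset.2 (insert_subset_iff.2 ⟨he, hDE⟩), h1⟩)
    rw [card_insert_of_notMem heD] at h2
    omega
  have hcardE : #E ≤ 9 * #D := by
    have h1 : E ⊆ D.biUnion fun d => (E.filter fun x => x 0 = d 0 ∧ x 1 = d 1) ∪
        ((E.filter fun x => x 0 = d 0 ∧ x 2 = d 2) ∪ (E.filter fun x => x 1 = d 1 ∧ x 2 = d 2)) := by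
      intro e he
      obtain ⟨d, hd, i, j, hij, h1, h2⟩ := hcover e he
      refine mem_biUnion.2 ⟨d, hd, ?_⟩
      simp only [mem_union, mem_filter]
      fin_cases i <;> fin_cases j
      · exact absurd rfl hij
      · exact Or.inl ⟨he, h1, h2⟩
      · exact Or.inr (Or.inl ⟨he, h1, h2⟩)
      · exact Or.inl ⟨he, h2, h1⟩
      · exact absurd rfl hij
      · exact Or.inr (Or.inr ⟨he, h1, h2⟩)
      · exact Or.inr (Or.inl ⟨he, h2, h1⟩)
      · exact Or.inr (Or.inr ⟨he, h2, h1⟩)
      · exact absurd rfl hij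
    refine (card_le_card h1).trans (card_biUnion_le.trans ?_)
    rw [mul_comm, ← smul_eq_mul]
    refine sum_le_card_nsmul _ _ _ fun d _ => ?_
    have b1 := fibre_le hsp 0 1 (by decide) d
    have b2 := fibre_le hsp 0 2 (by decide) d
    have b3 := fibre_le hsp 1 2 (by decide) d
    have b4 := card_union_le (E.filter fun x => x 0 = d 0 ∧ x 1 = d 1)
      ((E.filter fun x => x 0 = d 0 ∧ x 2 = d 2) ∪ (E.filter fun x => x 1 = d 1 ∧ x 2 = d 2))
    have b5 := card_union_le (E.filter fun x => x 0 = d 0 ∧ x 2 = d 2)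
      (E.filter fun x => x 1 = d 1 ∧ x 2 = d 2)
    omega
  let τ : (∀ i, X i) → X 0 × X 1 × X 2 := fun x => (x 0, x 1, x 2)
  have hτ : Function.Injective τ := by
    intro x y hxy
    simp only [τ, Prod.mk.injEq] at hxy
    funext i
    fin_cases i
    · exact hxy.1
    · exact hxy.2.1
    · exact hxy.2.2
  set t := D.image τ with ht
  have hmem : ∀ a b c, (a, b, c) ∈ t → ∃ d ∈ D, d 0 = a ∧ d 1 = b ∧ d 2 = c := by
    intro a b c h
    obtain ⟨d, hd, hdd⟩ := mem_image.1 h
    simp only [τ, Prod.mk.injEq] at hdd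
    exact ⟨d, hd, hdd⟩
  have i1 : SimpleGraph.TripartiteFromTriangles.ExplicitDisjoint t := by
    constructor
    · intro a b c a' h h'
      obtain ⟨d, hd, h0, h1, h2⟩ := hmem _ _ _ h
      obtain ⟨d', hd', h0', h1', h2'⟩ := hmem _ _ _ h'
      have := hDP d hd d' hd' ⟨1, 2, by decide, h1.trans h1'.symm, h2.trans h2'.symm⟩
      rw [← h0, ← h0', this]
    · intro a b c b' h h'
      obtain ⟨d, hd, h0, h1, h2⟩ := hmem _ _ _ h
      obtain ⟨d', hd', h0', h1', h2'⟩ := hmem _ _ _ h'
      have := hDP d hd d' hd' ⟨0, 2, by decide, h0.trans h0'.symm, h2.trans h2'.symm⟩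
      rw [← h1, ← h1', this]
    · intro a b c c' h h'
      obtain ⟨d, hd, h0, h1, h2⟩ := hmem _ _ _ h
      obtain ⟨d', hd', h0', h1', h2'⟩ := hmem _ _ _ h'
      have := hDP d hd d' hd' ⟨0, 1, by decide, h0.trans h0'.symm, h1.trans h1'.symm⟩
      rw [← h2, ← h2', this]
  have i2 : SimpleGraph.TripartiteFromTriangles.NoAccidental t := by
    constructor
    intro a a' b b' c c' h h' h''
    by_contra hcon
    push Not at hcon
    obtain ⟨hna, hnb, hnc⟩ := hcon
    obtain ⟨e, he, e0, e1, e2⟩ := hmem _ _ _ h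
    obtain ⟨f, hf, f0, f1, f2⟩ := hmem _ _ _ h'
    obtain ⟨g, hg, g0, g1, g2⟩ := hmem _ _ _ h''
    subst e0 e1 e2 f0 f1 g2
    refine htri (Function.update e 0 (f 0)) (Function.update (Function.update e 1 (f 1)) 2 (g 2))
      ?_ ?_
    · intro i
      fin_cases i
      · simpa using hna
      · simpa using hnb
      · simpa using hnc
    · intro i
      fin_cases i
      · have : tri (Function.update e 0 (f 0))
            (Function.update (Function.update e 1 (f 1)) 2 (g 2)) 0 = e := by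
          funext m
          unfold tri
          fin_cases m <;> simp
        show tri _ _ 0 ∈ E
        rw [this]
        exact hDE he
      · have : tri (Function.update e 0 (f 0))
            (Function.update (Function.update e 1 (f 1)) 2 (g 2)) 1 = f := by
          funext m
          unfold tri
          fin_cases m
          · simp
          · simp
          · simp [f2]
        show tri _ _ 1 ∈ E
        rw [this]
        exact hDE hf
      · have : tri (Function.update e 0 (f 0))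
            (Function.update (Function.update e 1 (f 1)) 2 (g 2)) 2 = g := by
          funext m
          unfold tri
          fin_cases m
          · simp [g0]
          · simp [g1]
          · simp
        show tri _ _ 2 ∈ E
        rw [this]
        exact hDE hg
  have h1 := hn₀ (X 0) (X 1) (X 2) t n hn (by
    rw [Fin.sum_univ_three] at hcard
    exact hcard)
  rw [ht, card_image_of_injective _ hτ] at h1
  have h2 : (#E : ℝ) ≤ 9 * #D := by exact_mod_cast hcardE
  linarith

end Relation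

end Pool.Agent.U422.Taylor
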